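import Pool.Agent.Helper64.C3.KChain

set_option autoImplicit false

open Metric Set Filter Topology Asymptotics

namespace Pool.Agent.Helper64.C3

/-! U-D: growth and the three auxiliary univalent functions -/

theorem kst_norm {q : ℝ} (hq0 : 0 < q) (hq1 : q ≤ 1) {χ w : ℂ} (hχ : ‖χ‖ = 1) (hw : ‖w‖ < 1) :
    ‖kst q χ w‖ ≤ ‖w‖ * (q + ‖w‖) / (1 + q * ‖w‖) := by
  set u := χ * w with hu
  have hun : ‖u‖ = ‖w‖ := by rw [hu, norm_mul, hχ, one_mul]
  set x := ‖w‖ with hx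
  have hx0 : 0 ≤ x := norm_nonneg _
  have hden : (1 : ℂ) - q * u ≠ 0 := by
    intro h
    have h1 : (q : ℂ) * u = 1 := (sub_eq_zero.1 h).symm
    have h2 : q * x = 1 := by
      have := congrArg norm h1
      rw [norm_mul, Complex.norm_real, Real.norm_of_nonneg hq0.le, hun, norm_one] at this
      exact this
    nlinarith
  have h1 : kst q χ w = w * ((q - u) / (1 - q * u)) := by
    rw [kst, hu]
    rw [mul_div_assoc]
    congr 2
    ring
  rw [h1, norm_mul, norm_div, mul_div_assoc]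
  apply mul_le_mul_of_nonneg_left _ hx0
  rw [div_le_div_iff₀ (norm_pos_iff.2 hden) (by positivity)]
  apply le_of_sq_le_sq _ (by positivity)
  rw [mul_pow, mul_pow, ← Complex.normSq_eq_norm_sq, ← Complex.normSq_eq_norm_sq]
  have hnu : u.re ^ 2 + u.im ^ 2 = x ^ 2 := by
    rw [← hun, ← Complex.normSq_eq_norm_sq, Complex.normSq_apply]; ring
  have hre : -x ≤ u.re := by
    have := Complex.abs_re_le_norm u
    rw [hun] at this
    exact (abs_le.1 this).1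
  simp only [Complex.normSq_apply, Complex.sub_re, Complex.sub_im, Complex.ofReal_re,
    Complex.ofReal_im, Complex.one_re, Complex.one_im, Complex.re_ofReal_mul,
    Complex.im_ofReal_mul]
  have e1 : ((q - u.re) * (q - u.re) + (0 - u.im) * (0 - u.im)) = q ^ 2 + x ^ 2 - 2 * q * u.re := by
    rw [← hnu]; ring
  have e2 : ((1 - q * u.re) * (1 - q * u.re) + (0 - q * u.im) * (0 - q * u.im))
      = 1 + q ^ 2 * x ^ 2 - 2 * q * u.re := by
    rw [← hnu]; ring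
  rw [e1, e2]
  have key : (q + x) ^ 2 * (1 + q ^ 2 * x ^ 2 - 2 * q * u.re)
      - (q ^ 2 + x ^ 2 - 2 * q * u.re) * (1 + q * x) ^ 2
      = 2 * q * (u.re + x) * ((1 - q ^ 2) * (1 - x ^ 2)) := by ring
  have h3 : 0 ≤ 2 * q * (u.re + x) * ((1 - q ^ 2) * (1 - x ^ 2)) := by
    apply mul_nonneg
    · exact mul_nonneg (by positivity) (by linarith)
    · apply mul_nonneg <;> nlinarith
  linarith

/-- monotonicity of `x / (1 - x)^2` -/
theorem growth_mono {x y : ℝ} (hx : 0 ≤ x) (hxy : x ≤ y) (hy : y < 1) :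
    x / (1 - x) ^ 2 ≤ y / (1 - y) ^ 2 := by
  apply div_le_div₀ (hx.trans hxy) hxy (by nlinarith)
  nlinarith

theorem kst_growth {q : ℝ} (hq0 : 1 / 4 ≤ q) (hq1 : q ≤ 1) {χ w : ℂ} (hχ : ‖χ‖ = 1)
    (hw : ‖w‖ < 1) :
    ‖kst q χ w‖ < 1 ∧ ‖kst q χ w‖ / (1 - ‖kst q χ w‖) ^ 2
      ≤ q * (1 + (1 - q) ^ 2) * (‖w‖ / (1 - ‖w‖) ^ 2) := by
  have hqp : 0 < q := by linarith
  have h1 := kst_norm hqp hq1 hχ hw
  set x := ‖w‖ with hx
  have hx0 : 0 ≤ x := norm_nonneg _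
  set Y := x * (q + x) / (1 + q * x) with hY
  have hd : 0 < 1 + q * x := by positivity
  have hY1 : Y < 1 := by
    rw [hY, div_lt_one hd]; nlinarith
  refine ⟨lt_of_le_of_lt h1 hY1, (growth_mono (norm_nonneg _) h1 hY1).trans ?_⟩
  have e1 : 1 - Y = (1 - x) * (1 + x) / (1 + q * x) := by
    rw [hY]; field_simp; ring
  have hx1 : 0 < 1 - x := by linarith
  have e2 : Y / (1 - Y) ^ 2 = x * (q + x) * (1 + q * x) / ((1 - x) ^ 2 * (1 + x) ^ 2) := by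
    rw [e1, hY]; field_simp
  rw [e2]
  have e3 : q * (1 + (1 - q) ^ 2) * (x / (1 - x) ^ 2)
      = q * (1 + (1 - q) ^ 2) * x * (1 + x) ^ 2 / ((1 - x) ^ 2 * (1 + x) ^ 2) := by
    field_simp
  rw [e3]
  apply div_le_div_of_nonneg_right _ (by positivity)
  have e4 : q * (1 + (1 - q) ^ 2) * x * (1 + x) ^ 2 - x * (q + x) * (1 + q * x)
      = x * (1 - q) ^ 2 * (q * (1 + x) ^ 2 - x) := by ring
  have h5 : 0 ≤ q * (1 + x) ^ 2 - x := by nlinarith [sq_nonneg (1 - x)]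
  have h6 : 0 ≤ x * (1 - q) ^ 2 * (q * (1 + x) ^ 2 - x) := by positivity
  linarith

/-- inner function at level `p` -/
structure Lv (p Cg : ℝ) (h : ℂ → ℂ) : Prop where
  self : SelfMap h
  inj : InjOn h (ball 0 1)
  der : deriv h 0 = (p : ℂ)
  grow : ∀ z ∈ ball (0 : ℂ) 1, ‖h z‖ / (1 - ‖h z‖) ^ 2 ≤ Cg * p * (‖z‖ / (1 - ‖z‖) ^ 2)

theorem schwarz_norm {h : ℂ → ℂ} (hh : SelfMap h) {z : ℂ} (hz : z ∈ ball (0 : ℂ) 1) :
    ‖h z‖ ≤ ‖z‖ :=
  Complex.norm_le_norm_of_mapsTo_ball hh.1 (hh.2.1.mono_right ball_subset_closedBall) hh.2.2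
    (by simpa using hz)

theorem KChain.lv {q p₀ : ℝ} {m : ℕ} {H : ℕ → ℂ → ℂ} {χ : ℕ → ℂ} (hc : KChain q p₀ m H χ)
    (hq0 : 1 / 4 ≤ q) (hq1 : q ≤ 1) (hp0 : 0 < p₀) {Cg : ℝ}
    (hCg : (1 + (1 - q) ^ 2) ^ m ≤ Cg * p₀) :
    ∀ i ≤ m, Lv (q ^ i * p₀) Cg (H i) := by
  have hqp : 0 < q := by linarith
  have h1 : 1 ≤ 1 + (1 - q) ^ 2 := by nlinarith [sq_nonneg (1 - q)]
  have key : ∀ i ≤ m, ∀ z ∈ ball (0 : ℂ) 1, ‖H i z‖ / (1 - ‖H i z‖) ^ 2
      ≤ (q * (1 + (1 - q) ^ 2)) ^ i * (‖z‖ / (1 - ‖z‖) ^ 2) := by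
    intro i
    induction i with
    | zero =>
      intro hi z hz
      rw [pow_zero, one_mul]
      exact growth_mono (norm_nonneg _) (schwarz_norm (hc.self 0 hi) hz) (by simpa using hz)
    | succ i ih =>
      intro hi z hz
      have h2 := ih (by omega) z hz
      have h3 : ‖H i z‖ < 1 := by simpa using (hc.self i (by omega)).2.1 hz
      rw [hc.step i (by omega) z hz]
      refine (kst_growth hq0 hq1 (hc.chi i) h3).2.trans ?_
      rw [pow_succ (q * (1 + (1 - q) ^ 2)) i, mul_comm ((q * (1 + (1 - q) ^ 2)) ^ i),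
        mul_assoc (q * (1 + (1 - q) ^ 2))]
      apply mul_le_mul_of_nonneg_left h2
      positivity
  intro i hi
  refine ⟨hc.self i hi, hc.inj i hi, hc.der i hi, fun z hz => (key i hi z hz).trans ?_⟩
  have hz1 : ‖z‖ < 1 := by simpa using hz
  apply mul_le_mul_of_nonneg_right _ (by positivity)
  rw [mul_pow]
  have h4 : (1 + (1 - q) ^ 2) ^ i ≤ (1 + (1 - q) ^ 2) ^ m := pow_le_pow_right₀ h1 hi
  calc q ^ i * (1 + (1 - q) ^ 2) ^ i ≤ q ^ i * (Cg * p₀) := by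
        apply mul_le_mul_of_nonneg_left (h4.trans hCg); positivity
    _ = Cg * (q ^ i * p₀) := by ring

/-- the denominators -/
noncomputable def Nn (t : ℝ) (w : ℂ) : ℂ := (1 - w) ^ 2 + 4 * t * w

theorem Nn_lower {t : ℝ} (ht0 : 0 ≤ t) (ht1 : t ≤ 1) (w : ℂ) : (1 - ‖w‖) ^ 2 ≤ ‖Nn t w‖ := by
  set x := ‖w‖ with hx
  have hx0 : 0 ≤ x := norm_nonneg _
  have h1 : ‖(1 : ℂ) - w‖ ^ 2 + ‖(1 : ℂ) + w‖ ^ 2 = 2 * (1 + x ^ 2) := by
    rw [hx, ← Complex.normSq_eq_norm_sq, ← Complex.normSq_eq_norm_sq, ← Complex.normSq_eq_norm_sq]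
    simp only [Complex.normSq_apply, Complex.sub_re, Complex.sub_im, Complex.add_re,
      Complex.add_im, Complex.one_re, Complex.one_im]
    ring
  have h2 : ‖(1 : ℂ) - w‖ ^ 2 ≤ ‖Nn t w‖ + 4 * t * x := by
    have e : (1 - w) ^ 2 = Nn t w - ((4 * t : ℝ) : ℂ) * w := by rw [Nn]; push_cast; ring
    rw [← norm_pow, e]
    refine (norm_sub_le _ _).trans ?_
    rw [norm_mul, Complex.norm_real, Real.norm_of_nonneg (by positivity)]
  have h3 : ‖(1 : ℂ) + w‖ ^ 2 ≤ ‖Nn t w‖ + 4 * (1 - t) * x := by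
    have e : (1 + w) ^ 2 = Nn t w + ((4 * (1 - t) : ℝ) : ℂ) * w := by rw [Nn]; push_cast; ring
    rw [← norm_pow, e]
    refine (norm_add_le _ _).trans ?_
    rw [norm_mul, Complex.norm_real, Real.norm_of_nonneg (by nlinarith)]
  nlinarith

theorem Nn_ne {t : ℝ} (ht0 : 0 ≤ t) (ht1 : t ≤ 1) {w : ℂ} (hw : ‖w‖ < 1) : Nn t w ≠ 0 := by
  intro h
  have := Nn_lower ht0 ht1 w
  rw [h, norm_zero] at this
  nlinarith

theorem one_add_eq {v p : ℝ} (hp : p ≠ 0) {w : ℂ} (hw : ‖w‖ < 1) :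
    1 + 4 * v * (koebe w / p) = Nn (v / p) w / (1 - w) ^ 2 := by
  have h1 : (1 : ℂ) - w ≠ 0 := M6.one_sub_ne (by simpa using hw)
  have hpC : (p : ℂ) ≠ 0 := by exact_mod_cast hp
  rw [koebe, Nn]
  push_cast
  field_simp

/-- generic auxiliary function `h / (p D(h))` -/
theorem aux_fun {p Cg : ℝ} {h : ℂ → ℂ} (hp : 0 < p) (hL : Lv p Cg h) {D : ℂ → ℂ}
    (hDd : DifferentiableOn ℂ D (ball 0 1)) (hD0 : D 0 = 1)
    (hDl : ∀ w : ℂ, ‖w‖ < 1 → (1 - ‖w‖) ^ 2 ≤ ‖D w‖)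
    (hDi : ∀ w ∈ ball (0 : ℂ) 1, ∀ w' ∈ ball (0 : ℂ) 1, w * D w' = w' * D w → w = w') :
    DifferentiableOn ℂ (fun z => h z / (p * D (h z))) (ball 0 1) ∧
    InjOn (fun z => h z / (p * D (h z))) (ball 0 1) ∧
    (fun z => h z / (p * D (h z))) 0 = 0 ∧ deriv (fun z => h z / (p * D (h z))) 0 = 1 ∧
    ∀ z ∈ ball (0 : ℂ) 1, ‖h z / (p * D (h z))‖ ≤ Cg * ‖z‖ / (1 - ‖z‖) ^ 2 := by
  have hpC : (p : ℂ) ≠ 0 := by exact_mod_cast hp.ne'
  have hhn : ∀ z ∈ ball (0 : ℂ) 1, ‖h z‖ < 1 := fun z hz => by simpa using hL.self.2.1 hz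
  have hDne : ∀ w : ℂ, ‖w‖ < 1 → D w ≠ 0 := by
    intro w hw h0
    have := hDl w hw
    rw [h0, norm_zero] at this
    nlinarith
  have hz0 : (0 : ℂ) ∈ ball (0 : ℂ) 1 := by simp
  refine ⟨?_, ?_, ?_, ?_, ?_⟩
  · apply DifferentiableOn.div hL.self.1
    · exact (hDd.comp hL.self.1 hL.self.2.1).const_mul _
    · intro z hz
      exact mul_ne_zero hpC (hDne _ (hhn z hz))
  · intro z hz w hw hzw
    have h1 := hDne _ (hhn z hz)
    have h2 := hDne _ (hhn w hw)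
    simp only at hzw
    rw [div_eq_div_iff (mul_ne_zero hpC h1) (mul_ne_zero hpC h2)] at hzw
    apply hL.inj hz hw
    apply hDi _ (hL.self.2.1 hz) _ (hL.self.2.1 hw)
    apply mul_left_cancel₀ hpC
    linear_combination hzw
  · simp [hL.self.2.2]
  · have h1 : HasDerivAt h p 0 := by
      rw [← hL.der]
      exact (hL.self.1.differentiableAt (isOpen_ball.mem_nhds hz0)).hasDerivAt
    have h2 : DifferentiableAt ℂ (fun z => p * D (h z)) 0 := by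
      have := (hDd.comp hL.self.1 hL.self.2.1).const_mul (p : ℂ)
      exact this.differentiableAt (isOpen_ball.mem_nhds hz0)
    have h3 := h1.div h2.hasDerivAt (by
      rw [hL.self.2.2, hD0]; simpa using hpC)
    have h4 : deriv (fun z => h z / (p * D (h z))) 0 = _ := h3.deriv
    rw [h4, hL.self.2.2, hD0]
    field_simp
    simp
  · intro z hz
    have hz1 : ‖z‖ < 1 := by simpa using hz
    have h1 := hL.grow z hz
    have h2 := hDl _ (hhn z hz)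
    have h3 : 0 < (1 - ‖h z‖) ^ 2 := by
      have := hhn z hz
      apply pow_pos; linarith
    rw [norm_div, norm_mul, Complex.norm_real, Real.norm_of_nonneg hp.le]
    calc ‖h z‖ / (p * ‖D (h z)‖) ≤ ‖h z‖ / (p * (1 - ‖h z‖) ^ 2) := by
          apply div_le_div_of_nonneg_left (norm_nonneg _) (by positivity)
          exact mul_le_mul_of_nonneg_left h2 hp.le
      _ = (‖h z‖ / (1 - ‖h z‖) ^ 2) / p := by field_simp
      _ ≤ (Cg * p * (‖z‖ / (1 - ‖z‖) ^ 2)) / p := by gcongr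
      _ = Cg * ‖z‖ / (1 - ‖z‖) ^ 2 := by field_simp

theorem aux_E {p Cg : ℝ} {h : ℂ → ℂ} (hp : 0 < p) (hL : Lv p Cg h) {χ : ℂ} (hχ : ‖χ‖ = 1) :
    DifferentiableOn ℂ (fun z => h z / (p * (1 - χ * h z) ^ 2)) (ball 0 1) ∧
    InjOn (fun z => h z / (p * (1 - χ * h z) ^ 2)) (ball 0 1) ∧
    (fun z => h z / (p * (1 - χ * h z) ^ 2)) 0 = 0 ∧
    deriv (fun z => h z / (p * (1 - χ * h z) ^ 2)) 0 = 1 ∧
    ∀ z ∈ ball (0 : ℂ) 1, ‖h z / (p * (1 - χ * h z) ^ 2)‖ ≤ Cg * ‖z‖ / (1 - ‖z‖) ^ 2 := by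
  apply aux_fun (D := fun w => (1 - χ * w) ^ 2) hp hL
  · fun_prop
  · simp
  · intro w hw
    rw [norm_pow]
    apply pow_le_pow_left₀ (by linarith)
    have := norm_sub_norm_le (1 : ℂ) (χ * w)
    rw [norm_mul, hχ, one_mul, norm_one] at this
    exact this
  · intro w hw w' hw' hww
    have h1 : (w - w') * (1 - χ ^ 2 * (w * w')) = 0 := by linear_combination hww
    rcases mul_eq_zero.1 h1 with h2 | h2
    · exact sub_eq_zero.1 h2
    · exfalso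
      have h3 : χ ^ 2 * (w * w') = 1 := (sub_eq_zero.1 h2).symm
      have h4 := congrArg norm h3
      rw [norm_mul, norm_pow, hχ, norm_mul, norm_one] at h4
      rw [mem_ball_zero_iff] at hw hw'
      nlinarith [norm_nonneg w, norm_nonneg w']

theorem aux_B {p Cg : ℝ} {h : ℂ → ℂ} (hp : 0 < p) (hL : Lv p Cg h) {t : ℝ} (ht0 : 0 ≤ t)
    (ht1 : t ≤ 1) :
    DifferentiableOn ℂ (fun z => h z / (p * Nn t (h z))) (ball 0 1) ∧
    InjOn (fun z => h z / (p * Nn t (h z))) (ball 0 1) ∧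
    (fun z => h z / (p * Nn t (h z))) 0 = 0 ∧
    deriv (fun z => h z / (p * Nn t (h z))) 0 = 1 ∧
    ∀ z ∈ ball (0 : ℂ) 1, ‖h z / (p * Nn t (h z))‖ ≤ Cg * ‖z‖ / (1 - ‖z‖) ^ 2 := by
  apply aux_fun (D := Nn t) hp hL
  · unfold Nn
    fun_prop
  · simp [Nn]
  · intro w hw
    exact Nn_lower ht0 ht1 w
  · intro w hw w' hw' hww
    unfold Nn at hww
    have h1 : (w - w') * (1 - w * w') = 0 := by linear_combination hww
    rcases mul_eq_zero.1 h1 with h2 | h2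
    · exact sub_eq_zero.1 h2
    · exfalso
      have h3 : w * w' = 1 := (sub_eq_zero.1 h2).symm
      have h4 := congrArg norm h3
      rw [norm_mul, norm_one] at h4
      rw [mem_ball_zero_iff] at hw hw'
      nlinarith [norm_nonneg w, norm_nonneg w']

end Pool.Agent.Helper64.C3
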