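import Pool.Agent.Helper33.C3M6

set_option autoImplicit false

open Metric Set Filter Topology Asymptotics

namespace Pool.Agent.Helper64.C3

/-- the Koebe step -/
noncomputable def kst (q : ℝ) (χ w : ℂ) : ℂ := w * (q - χ * w) / (1 - q * χ * w)

/-- the square root of `1 + 4 v g` -/
noncomputable def rt (v : ℝ) (g : ℂ) : ℂ := (1 + 4 * v * g) ^ ((2 : ℂ)⁻¹)

/-- the function `2 g^2 / sqrt (1 + 4 v g)` -/
noncomputable def phi (v : ℝ) (g : ℂ) : ℂ := 2 * g ^ 2 / rt v g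

/-- its derivative in `g` -/
noncomputable def dphi (v : ℝ) (g : ℂ) : ℂ := 4 * g * (1 + 3 * v * g) / (rt v g) ^ 3

/-- the first variation kernel at level `p` -/
noncomputable def Phi (p : ℝ) (χ w : ℂ) : ℂ := 2 * w ^ 2 / (p ^ 2 * (1 - w) ^ 3 * (1 - χ * w))

/-- the second order kernel at level `p` -/
noncomputable def Psi (p : ℝ) (χ w : ℂ) : ℂ :=
  2 * w ^ 3 / (p ^ 2 * (1 - w) ^ 3 * (1 + w) * (1 - χ * w))

end Pool.Agent.Helper64.C3
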