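import Pool.Agent.Helper64.C3.Defs

set_option autoImplicit false

open Metric Set Filter Topology Asymptotics

namespace Pool.Agent.Helper64.C3

/-! M4 (the numerical inequality) -/

noncomputable def mu : ℝ := 1 / (Real.exp 1 - 1)

theorem exp_gt : 2 < Real.exp 1 := by
  have := Real.exp_one_gt_d9
  linarith

theorem mu_pos : 0 < mu := by
  have := exp_gt
  rw [mu]
  apply div_pos one_pos
  linarith

theorem mu_lt : mu < 1 := by
  have := exp_gt
  rw [mu, div_lt_one (by linarith)]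
  linarith

theorem lam_eq : lam = 4 + 4 * mu := by
  have h1 := exp_gt
  have h : Real.exp 1 - 1 ≠ 0 := by linarith
  rw [lam, mu]
  field_simp
  ring

theorem log_mu : Real.log ((1 + mu) / mu) = 1 := by
  have h1 := exp_gt
  have h : Real.exp 1 - 1 ≠ 0 := by linarith
  have h2 : (1 + mu) / mu = Real.exp 1 := by
    rw [mu]
    field_simp
    ring
  rw [h2, Real.log_exp]

/-- the invariants -/
structure Inv (ε p : ℝ) (a C : ℂ) (U V T R : ℝ) : Prop where
  p0 : 0 < p
  p1 : p ≤ 1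
  ha : ‖a - 2 * (U + V * Complex.I)‖ ≤ 2 * ε * (1 - p)
  hC : |C.re + (1 - p ^ 2) - 4 * R| ≤ 9 * ε * (1 - p)
  hV : V ^ 2 ≤ (R + mu * T) * Real.log ((1 + mu) / (p + mu))
  hR : 0 ≤ R
  hRT : R ≤ T
  hT : T ≤ 2 * ((1 - p) - U)
  hX : ‖(U + V * Complex.I : ℂ)‖ ≤ 1 - p

/-- facts about the parameters -/
theorem param {x y : ℂ} (hx : ‖x‖ ≤ 1) (hy : ‖y - x ^ 2‖ ≤ 1 - ‖x‖ ^ 2) :
    ‖y‖ ≤ 1 ∧ x.im ^ 2 ≤ (1 - y.re) / 2 ∧ (1 - y.re) / 2 ≤ 2 * (1 - x.re) := by
  have hn : ‖x‖ ^ 2 = x.re ^ 2 + x.im ^ 2 := by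
    rw [← Complex.normSq_eq_norm_sq, Complex.normSq_apply]; ring
  have h1 : |(y - x ^ 2).re| ≤ 1 - ‖x‖ ^ 2 := (Complex.abs_re_le_norm _).trans hy
  have h2 : (x ^ 2).re = x.re ^ 2 - x.im ^ 2 := by
    rw [sq, Complex.mul_re]; ring
  rw [Complex.sub_re, h2, hn, abs_le] at h1
  have h3 : x.re ≤ 1 := (Complex.re_le_norm x).trans hx
  refine ⟨?_, ?_, ?_⟩
  · calc ‖y‖ = ‖(y - x ^ 2) + x ^ 2‖ := by rw [sub_add_cancel]
      _ ≤ ‖y - x ^ 2‖ + ‖x ^ 2‖ := norm_add_le _ _
      _ ≤ (1 - ‖x‖ ^ 2) + ‖x‖ ^ 2 := by rw [norm_pow]; linarith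
      _ = 1 := by ring
  · nlinarith
  · -- `1 - Re y ≤ 2 - 2 (Re x)^2 ≤ 4 (1 - Re x)`
    nlinarith [sq_nonneg (1 - x.re)]

theorem ch_inv {ε : ℝ} (hε : 0 < ε) (hε1 : ε ≤ 1 / 10) {p : ℝ} {a C : ℂ} (h : Ch ε p a C) :
    ∃ U V T R : ℝ, Inv ε p a C U V T R := by
  induction h with
  | nil =>
    refine ⟨0, 0, 0, 0, ?_⟩
    constructor <;> simp
  | cons p a C h q hq hq1 x y hx hy ih =>
    obtain ⟨U, V, T, R, I⟩ := ih
    obtain ⟨hy1, hs1, hs2⟩ := param hx hy
    have hq0 : 0 < q := by linarith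
    have hmu := mu_pos
    have hp0 := I.p0
    have hp1 := I.p1
    set δ : ℝ := (1 - q) * p with hδ
    have hδ0 : 0 ≤ δ := mul_nonneg (by linarith) hp0.le
    have hδp : q * p = p - δ := by rw [hδ]; ring
    have hqp : 0 < q * p := mul_pos hq0 hp0
    have hδε : δ ≤ ε * p := by
      rw [hδ]; exact mul_le_mul_of_nonneg_right (by linarith) hp0.le
    set σ : ℝ := (1 - y.re) / 2 with hσ
    have hσ0 : 0 ≤ σ := (sq_nonneg _).trans hs1
    -- the factor
    have hqC : (q : ℂ) ≠ 0 := by exact_mod_cast hq0.ne'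
    have hfac : (1 - (q : ℂ) ^ 2) / q * p = (((1 + q) / q * δ : ℝ) : ℂ) := by
      push_cast [hδ]
      field_simp
      ring
    have hfe : 0 ≤ (1 + q) / q - 2 := by
      rw [sub_nonneg, le_div_iff₀ hq0]; linarith
    have hfe' : (1 + q) / q - 2 ≤ 2 * ε := by
      rw [sub_le_iff_le_add, div_le_iff₀ hq0]
      nlinarith
    refine ⟨U + δ * x.re, V + δ * x.im, T + δ * σ, R + δ * p * σ, ?_⟩
    constructor
    · exact hqp
    · nlinarith
    · -- first coefficient
      have e1 : a + (1 - (q : ℂ) ^ 2) / q * x * p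
          - 2 * (((U + δ * x.re : ℝ) : ℂ) + ((V + δ * x.im : ℝ) : ℂ) * Complex.I)
          = (a - 2 * (U + V * Complex.I)) + (((1 + q) / q - 2 : ℝ) : ℂ) * (δ : ℂ) * x := by
        have : (1 - (q : ℂ) ^ 2) / q * x * p = (1 - (q : ℂ) ^ 2) / q * p * x := by ring
        rw [this, hfac]
        have hx' : x = x.re + x.im * Complex.I := (Complex.re_add_im x).symm
        push_cast
        linear_combination (-(2 : ℂ) * δ) * (Complex.re_add_im x)
      rw [e1]
      refine (norm_add_le _ _).trans ?_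
      have e2 : ‖(((1 + q) / q - 2 : ℝ) : ℂ) * (δ : ℂ) * x‖ ≤ 2 * ε * δ := by
        rw [norm_mul, norm_mul, Complex.norm_real, Complex.norm_real, Real.norm_of_nonneg hfe,
          Real.norm_of_nonneg hδ0]
        have h3 : ((1 + q) / q - 2) * δ ≤ 2 * ε * δ := mul_le_mul_of_nonneg_right hfe' hδ0
        have h4 : 0 ≤ ((1 + q) / q - 2) * δ := mul_nonneg hfe hδ0
        nlinarith [norm_nonneg x]
      have := I.ha
      rw [hδp]
      linarith
    · -- second coefficient
      set W : ℂ := ((1 - (q : ℂ) ^ 2) / q * (-y + (1 - q) * x ^ 2)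
          - ((1 - (q : ℂ) ^ 2) / q * x) ^ 2) * p ^ 2 with hW
      have e1 : W + 2 * δ * p * y = -(((1 + q) / q - 2 : ℝ) : ℂ) * δ * p * y
          + (((1 + q) / q : ℝ) : ℂ) * δ ^ 2 * x ^ 2
          - (((1 + q) / q : ℝ) : ℂ) ^ 2 * δ ^ 2 * x ^ 2 := by
        rw [hW]
        have h1 : ((1 - (q : ℂ) ^ 2) / q * (-y + (1 - q) * x ^ 2)
          - ((1 - (q : ℂ) ^ 2) / q * x) ^ 2) * p ^ 2 =
          ((1 - (q : ℂ) ^ 2) / q * p) * (-y + (1 - q) * x ^ 2) * p
            - ((1 - (q : ℂ) ^ 2) / q * p) ^ 2 * x ^ 2 := by ring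
        rw [h1, hfac]
        push_cast [hδ]
        ring
      have e2 : ‖W + 2 * δ * p * y‖ ≤ 8 * ε * δ := by
        rw [e1]
        have hf2 : (1 + q) / q ≤ 19 / 9 := by
          rw [div_le_iff₀ hq0]; linarith
        have hf0 : 0 ≤ (1 + q) / q := by positivity
        have hfe3 : (1 + q) / q - 2 ≤ 10 / 9 * (1 - q) := by
          rw [sub_le_iff_le_add, div_le_iff₀ hq0]
          nlinarith
        have hx2 : ‖x‖ ^ 2 ≤ 1 := pow_le_one₀ (norm_nonneg _) hx
        have n1 : ‖-(((1 + q) / q - 2 : ℝ) : ℂ) * δ * p * y‖ ≤ 10 / 9 * (1 - q) * δ * p := by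
          rw [norm_mul, norm_mul, norm_mul, norm_neg, Complex.norm_real, Complex.norm_real,
            Complex.norm_real, Real.norm_of_nonneg hfe, Real.norm_of_nonneg hδ0,
            Real.norm_of_nonneg hp0.le]
          have h5 : ((1 + q) / q - 2) * δ * p ≤ 10 / 9 * (1 - q) * δ * p :=
            mul_le_mul_of_nonneg_right (mul_le_mul_of_nonneg_right hfe3 hδ0) hp0.le
          have h6 : 0 ≤ ((1 + q) / q - 2) * δ * p := mul_nonneg (mul_nonneg hfe hδ0) hp0.le
          nlinarith [norm_nonneg y]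
        have n2 : ‖(((1 + q) / q : ℝ) : ℂ) * δ ^ 2 * x ^ 2‖ ≤ 19 / 9 * δ ^ 2 := by
          rw [norm_mul, norm_mul, norm_pow, norm_pow, Complex.norm_real, Complex.norm_real,
            Real.norm_of_nonneg hf0, Real.norm_of_nonneg hδ0]
          have h5 : (1 + q) / q * δ ^ 2 ≤ 19 / 9 * δ ^ 2 :=
            mul_le_mul_of_nonneg_right hf2 (sq_nonneg _)
          have h6 : 0 ≤ (1 + q) / q * δ ^ 2 := mul_nonneg hf0 (sq_nonneg _)
          nlinarith [norm_nonneg x]
        have n3 : ‖(((1 + q) / q : ℝ) : ℂ) ^ 2 * δ ^ 2 * x ^ 2‖ ≤ (19 / 9) ^ 2 * δ ^ 2 := by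
          rw [norm_mul, norm_mul, norm_pow, norm_pow, norm_pow, Complex.norm_real,
            Complex.norm_real, Real.norm_of_nonneg hf0, Real.norm_of_nonneg hδ0]
          have h4 : ((1 + q) / q) ^ 2 ≤ (19 / 9) ^ 2 := pow_le_pow_left₀ hf0 hf2 2
          have h5 : ((1 + q) / q) ^ 2 * δ ^ 2 ≤ (19 / 9) ^ 2 * δ ^ 2 :=
            mul_le_mul_of_nonneg_right h4 (sq_nonneg _)
          have h6 : 0 ≤ ((1 + q) / q) ^ 2 * δ ^ 2 := by positivity
          nlinarith [norm_nonneg x]
        have t1 := norm_sub_le (-(((1 + q) / q - 2 : ℝ) : ℂ) * δ * p * y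
          + (((1 + q) / q : ℝ) : ℂ) * δ ^ 2 * x ^ 2)
          ((((1 + q) / q : ℝ) : ℂ) ^ 2 * δ ^ 2 * x ^ 2)
        have t2 := norm_add_le (-(((1 + q) / q - 2 : ℝ) : ℂ) * δ * p * y)
          ((((1 + q) / q : ℝ) : ℂ) * δ ^ 2 * x ^ 2)
        have h7 : (1 - q) * δ * p = δ ^ 2 := by rw [hδ]; ring
        have h8 : δ ^ 2 ≤ ε * δ := by
          rw [sq]; apply mul_le_mul_of_nonneg_right _ hδ0
          calc δ ≤ ε * p := hδε
            _ ≤ ε * 1 := by gcongr
            _ = ε := mul_one _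
        nlinarith
      have e3 : |W.re + 2 * δ * p * y.re| ≤ 8 * ε * δ := by
        have h9 : (W + 2 * δ * p * y).re = W.re + 2 * δ * p * y.re := by
          have : (2 * (δ : ℂ) * p * y) = ((2 * δ * p : ℝ) : ℂ) * y := by push_cast; ring
          rw [this, Complex.add_re, Complex.re_ofReal_mul]
        rw [← h9]
        exact (Complex.abs_re_le_norm _).trans e2
      have e4 := I.hC
      have h8 : δ ^ 2 ≤ ε * δ := by
        rw [sq]; apply mul_le_mul_of_nonneg_right _ hδ0
        calc δ ≤ ε * p := hδε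
          _ ≤ ε * 1 := by gcongr
          _ = ε := mul_one _
      rw [Complex.add_re, hδp]
      rw [abs_le] at e3 e4 ⊢
      have h10 : W.re + (p ^ 2 - (p - δ) ^ 2) - 4 * (δ * p * σ)
          = (W.re + 2 * δ * p * y.re) - δ ^ 2 := by
        rw [hσ]; ring
      constructor
      · nlinarith [sq_nonneg δ]
      · nlinarith [sq_nonneg δ]
    · -- Cauchy-Schwarz
      rw [hδp]
      set G := R + mu * T with hG
      have hG0 : 0 ≤ G := by
        have := I.hR
        have := I.hRT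
        have : 0 ≤ mu * T := mul_nonneg hmu.le (by linarith)
        linarith
      set L := Real.log ((1 + mu) / (p + mu)) with hL
      have hL0 : 0 ≤ L := by
        apply Real.log_nonneg
        rw [le_div_iff₀ (by linarith)]
        linarith
      have hpd : 0 < p - δ := by rw [← hδp]; exact hqp
      have hlog : L + δ / (p + mu) ≤ Real.log ((1 + mu) / (p - δ + mu)) := by
        have h1 : (1 + mu) / (p - δ + mu) = (1 + mu) / (p + mu) * ((p + mu) / (p - δ + mu)) := by
          have : p + mu ≠ 0 := by linarith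
          have : p - δ + mu ≠ 0 := by linarith
          field_simp
        have h2 : 0 < p - δ + mu := by linarith
        have h3 : 0 < p + mu := by linarith
        rw [h1, Real.log_mul (by positivity) (by positivity)]
        have h4 : δ / (p + mu) ≤ Real.log ((p + mu) / (p - δ + mu)) := by
          have h5 := Real.one_sub_inv_le_log_of_pos (x := (p + mu) / (p - δ + mu)) (by positivity)
          have h6 : 1 - ((p + mu) / (p - δ + mu))⁻¹ = δ / (p + mu) := by
            rw [inv_div]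
            field_simp
            ring
          linarith
        linarith
      have hVI := I.hV
      have hs : (V + δ * x.im) ^ 2 ≤ (G + δ * (p + mu) * σ) * (L + δ / (p + mu)) := by
        -- (V + δ s)^2 ≤ (G + δ v σ) (L + δ / v), v = p + mu
        set v := p + mu with hv
        have hv0 : 0 < v := by linarith
        have hVs : V ^ 2 ≤ G * L := hVI
        -- cross term
        have hcross : (V * x.im) ^ 2 ≤ (G * L) * σ := by
          rw [mul_pow]
          exact mul_le_mul hVs hs1 (sq_nonneg _) (mul_nonneg hG0 hL0)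
        have ham : 2 * (V * x.im) ≤ G / v + v * σ * L := by
          have h1 : 0 ≤ G / v + v * σ * L := by positivity
          have h2 : (2 * (V * x.im)) ^ 2 ≤ (G / v + v * σ * L) ^ 2 := by
            have h3 : (G / v + v * σ * L) ^ 2 = (G / v - v * σ * L) ^ 2 + 4 * (G * L * σ) := by
              field_simp
              ring
            nlinarith [sq_nonneg (G / v - v * σ * L)]
          exact (le_abs_self _).trans (abs_le_of_sq_le_sq h2 h1)
        have hexp : (G + δ * v * σ) * (L + δ / v) =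
            G * L + δ * (G / v + v * σ * L) + δ ^ 2 * σ := by
          field_simp
          ring
        rw [hexp]
        nlinarith [mul_le_mul_of_nonneg_left ham hδ0, mul_le_mul_of_nonneg_left hs1 (sq_nonneg δ)]
      have hG2 : G + δ * (p + mu) * σ = R + δ * p * σ + mu * (T + δ * σ) := by
        rw [hG]; ring
      rw [hG2] at hs
      have hpos : 0 ≤ R + δ * p * σ + mu * (T + δ * σ) := by
        rw [← hG2]; positivity
      exact hs.trans (mul_le_mul_of_nonneg_left hlog hpos)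
    · have := I.hR
      positivity
    · have := I.hRT
      have h1 : δ * p * σ ≤ δ * σ := by
        have : δ * p * σ = (δ * σ) * p := by ring
        rw [this]
        exact mul_le_of_le_one_right (by positivity) hp1
      linarith
    · have := I.hT
      rw [hδp]
      nlinarith
    · have h1 := I.hX
      rw [hδp]
      have h2 : (((U + δ * x.re : ℝ) : ℂ) + ((V + δ * x.im : ℝ) : ℂ) * Complex.I)
          = (U + V * Complex.I) + δ * x := by
        push_cast
        linear_combination (δ : ℂ) * (Complex.re_add_im x)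
      rw [h2]
      refine (norm_add_le _ _).trans ?_
      rw [norm_mul, Complex.norm_real, Real.norm_of_nonneg hδ0]
      nlinarith [norm_nonneg x]

theorem ch_bound {ε : ℝ} (hε : 0 < ε) (hε1 : ε ≤ 1 / 10) {p : ℝ} {a C : ℂ} (h : Ch ε p a C) :
    |(3 - (C + a ^ 2)).re| ≤ lam * (2 - a).re + 60 * ε := by
  obtain ⟨U, V, T, R, I⟩ := ch_inv hε hε1 h
  obtain ⟨p0, p1, ha, hC, hV, hR, hRT, hT, hX⟩ := I
  have hmu := mu_pos
  have hmu1 := mu_lt
  set X : ℂ := U + V * Complex.I with hXdef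
  have hXre : X.re = U := by simp [hXdef]
  have hXim : X.im = V := by simp [hXdef]
  have h1p : ‖a - 2 * X‖ ≤ 2 * ε := by
    refine ha.trans ?_
    nlinarith
  have hX1 : ‖X‖ ≤ 1 := by linarith
  -- a^2
  have ha2 : ‖a ^ 2 - 4 * X ^ 2‖ ≤ 9 * ε := by
    have e1 : a ^ 2 - 4 * X ^ 2 = (a - 2 * X) * ((a - 2 * X) + 4 * X) := by ring
    rw [e1, norm_mul]
    have e2 : ‖(a - 2 * X) + 4 * X‖ ≤ 2 * ε + 4 := by
      refine (norm_add_le _ _).trans ?_
      rw [norm_mul]
      simp only [Complex.norm_ofNat]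
      linarith
    calc ‖a - 2 * X‖ * ‖(a - 2 * X) + 4 * X‖ ≤ (2 * ε) * (2 * ε + 4) := by gcongr
      _ ≤ 9 * ε := by nlinarith
  have ha2' : |(a ^ 2).re - 4 * (U ^ 2 - V ^ 2)| ≤ 9 * ε := by
    have e1 : (a ^ 2 - 4 * X ^ 2).re = (a ^ 2).re - 4 * (U ^ 2 - V ^ 2) := by
      have : (4 * X ^ 2).re = 4 * (X ^ 2).re := by
        have h4 : (4 * X ^ 2) = ((4 : ℝ) : ℂ) * X ^ 2 := by push_cast; ring
        rw [h4, Complex.re_ofReal_mul]
      rw [Complex.sub_re, this, sq X, Complex.mul_re, hXre, hXim]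
      ring
    rw [← e1]
    exact (Complex.abs_re_le_norm _).trans ha2
  have haD : |a.re - 2 * U| ≤ 2 * ε := by
    have e1 : (a - 2 * X).re = a.re - 2 * U := by
      have : (2 * X).re = 2 * X.re := by
        have h4 : (2 * X) = ((2 : ℝ) : ℂ) * X := by push_cast; ring
        rw [h4, Complex.re_ofReal_mul]
      rw [Complex.sub_re, this, hXre]
    rw [← e1]
    exact (Complex.abs_re_le_norm _).trans h1p
  have hC' : |C.re + (1 - p ^ 2) - 4 * R| ≤ 9 * ε := by
    refine hC.trans ?_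
    nlinarith
  have hUabs : |U| ≤ 1 - p := by
    rw [← hXre]; exact (Complex.abs_re_le_norm _).trans hX
  have hlog : Real.log ((1 + mu) / (p + mu)) ≤ 1 := by
    refine le_trans ?_ log_mu.le
    have h1 : 0 < p + mu := by linarith
    have h2 : 0 < 1 + mu := by linarith
    apply Real.log_le_log (div_pos h2 h1)
    apply div_le_div_of_nonneg_left h2.le hmu
    linarith
  have hlog0 : 0 ≤ Real.log ((1 + mu) / (p + mu)) := by
    apply Real.log_nonneg
    rw [le_div_iff₀ (by linarith)]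
    linarith
  have hG0 : 0 ≤ R + mu * T := by
    have : 0 ≤ mu * T := mul_nonneg hmu.le (by linarith)
    linarith
  have hV' : V ^ 2 ≤ R + mu * T := hV.trans (mul_le_of_le_one_right hG0 hlog)
  have hN : (3 - (C + a ^ 2)).re = 3 - C.re - (a ^ 2).re := by
    simp only [Complex.sub_re, Complex.add_re, Complex.re_ofNat]; ring
  have hD : (2 - a).re = 2 - a.re := by simp
  rw [hN, hD, lam_eq]
  rw [abs_le] at ha2' haD hC' hUabs
  have hU1 : 0 ≤ 1 - p - U := by linarith [hUabs.2]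
  have h4U : 4 - 4 * U ^ 2 ≤ 8 * (1 - U) := by nlinarith [sq_nonneg (1 - U)]
  rw [abs_le]
  constructor
  · -- lower
    have h5 : -4 + p ^ 2 + 4 * U ^ 2 ≤ 0 := by
      have h6 : U ^ 2 ≤ (1 - p) ^ 2 := by
        exact sq_le_sq' (by linarith [hUabs.1]) (by linarith [hUabs.2])
      nlinarith
    nlinarith
  · nlinarith

end Pool.Agent.Helper64.C3
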