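import Pool.Agent.Helper64.C3.Schur
import Pool.Agent.Helper64.C3.Chain

set_option autoImplicit false

open Metric Set Filter Topology Asymptotics

namespace Pool.Agent.Helper64.C3

/-! M5 (upper bound) -/

theorem kappa_bounds {r : ℝ} (hr0 : 0 < r) (hr1 : r < 1) :
    r ≤ 2 * Real.sqrt r / (1 + r) ∧ 2 * Real.sqrt r / (1 + r) < 1 := by
  have hs : Real.sqrt r ^ 2 = r := Real.sq_sqrt hr0.le
  have hs0 : 0 < Real.sqrt r := Real.sqrt_pos.2 hr0
  have hs1 : Real.sqrt r < 1 := by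
    rw [Real.sqrt_lt' one_pos]; simpa using hr1
  set s := Real.sqrt r
  constructor
  · rw [le_div_iff₀ (by linarith), ← hs]
    nlinarith [mul_pos hs0 hs0, mul_pos (mul_pos hs0 hs0) hs0]
  · rw [div_lt_one (by linarith), ← hs]
    nlinarith [sq_nonneg (1 - s), mul_pos (sub_pos.2 hs1) (sub_pos.2 hs1)]

theorem ch_single {ε : ℝ} {k : ℂ → ℂ} (hk : SelfMap k) {q : ℝ} (hq0 : 0 < q) (hq : 1 - ε ≤ q)
    (hq1 : q ≤ 1) {α β : ℂ} (hj : Jet k q (q * α) (q * β)) {p : ℝ} {a C : ℂ} (h : Ch ε p a C) :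
    Ch ε (q * p) (a + α * p) (C + (β - α ^ 2) * p ^ 2) := by
  obtain ⟨x, y, hx, hy, hα, hβ⟩ := schur hk hq0 hq1 hj
  have := Ch.cons p a C h q hq hq1 x y hx hy
  rw [← hα, ← hβ] at this
  exact this

theorem ch_of_univalent {ε : ℝ} (hε : 0 < ε) (hε1 : ε < 1) (n : ℕ) :
    ∀ (h : ℂ → ℂ) (p : ℝ) (a b : ℂ), SelfMap h → InjOn h (ball 0 1) → 0 < p →
      Jet h p (p * a) (p * b) →
      (2 * Real.sqrt (1 - ε) / (1 + (1 - ε))) ^ n ≤ p → Ch ε p a (b - a ^ 2) := by
  have hr0 : 0 < 1 - ε := by linarith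
  have hr1 : 1 - ε < 1 := by linarith
  obtain ⟨hκ1, hκ2⟩ := kappa_bounds hr0 hr1
  set κ := 2 * Real.sqrt (1 - ε) / (1 + (1 - ε)) with hκ
  have hκ0 : 0 < κ := by linarith
  induction n with
  | zero =>
    intro h p a b hh hi hp hj hn
    have hder : deriv h 0 = p := (jet_unique (jet_of_diff hh.1 hh.2.2) hj).1
    have hp1 : p ≤ 1 := by
      have h1 := Complex.norm_deriv_le_one_of_mapsTo_ball hh.1
        (by rw [hh.2.2]; exact hh.2.1.mono_right ball_subset_closedBall) one_pos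
      rw [hder, Complex.norm_real, Real.norm_of_nonneg hp.le] at h1
      exact h1
    rw [pow_zero] at hn
    have := ch_single hh hp (by linarith) hp1 hj (Ch.nil (ε := ε))
    convert this using 1
    · simp
    · simp
    · simp
  | succ n ih =>
    intro h p a b hh hi hp hj hn
    have hder : deriv h 0 = p := (jet_unique (jet_of_diff hh.1 hh.2.2) hj).1
    have hp1 : p ≤ 1 := by
      have h1 := Complex.norm_deriv_le_one_of_mapsTo_ball hh.1
        (by rw [hh.2.2]; exact hh.2.1.mono_right ball_subset_closedBall) one_pos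
      rw [hder, Complex.norm_real, Real.norm_of_nonneg hp.le] at h1
      exact h1
    rcases le_or_gt (1 - ε) p with hpr | hpr
    · have := ch_single hh hp hpr hp1 hj (Ch.nil (ε := ε))
      convert this using 1
      · simp
      · simp
      · simp
    · have hne : deriv h 0 ≠ 0 := by
        rw [hder]; exact_mod_cast hp.ne'
      have hlt : ‖deriv h 0‖ < 1 - ε := by
        rw [hder, Complex.norm_real, Real.norm_of_nonneg hp.le]; exact hpr
      obtain ⟨k, h₁, hk, hk1, hh₁, hi₁, heq⟩ := koebe_step hh hi hr0 hr1 hne hlt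
      rw [← hκ] at hk1
      have jk := jet_of_diff hk.1 hk.2.2
      have j₁ := jet_of_diff hh₁.1 hh₁.2.2
      rw [hk1] at jk
      have jc := jet_comp jk j₁
      have jc' : Jet h (κ * deriv h₁ 0) (κ * coeff 2 h₁ + coeff 2 k * deriv h₁ 0 ^ 2)
          (κ * coeff 3 h₁ + 2 * coeff 2 k * deriv h₁ 0 * coeff 2 h₁
            + coeff 3 k * deriv h₁ 0 ^ 3) := by
        refine IsLittleO.congr' jc ?_ EventuallyEq.rfl
        filter_upwards [ball_mem_nhds (0 : ℂ) one_pos] with z hz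
        rw [heq hz]
      obtain ⟨u1, u2, u3⟩ := jet_unique hj jc'
      have hκC : (κ : ℂ) ≠ 0 := by exact_mod_cast hκ0.ne'
      have hd1 : deriv h₁ 0 = ((p / κ : ℝ) : ℂ) := by
        push_cast
        rw [eq_div_iff hκC, mul_comm, ← u1]
      set p₁ : ℝ := p / κ with hp₁
      have hp₁0 : 0 < p₁ := by positivity
      have hp₁C : (p₁ : ℂ) ≠ 0 := by exact_mod_cast hp₁0.ne'
      have hpp : p = κ * p₁ := by rw [hp₁]; field_simp
      rw [hd1] at u2 u3 j₁
      have hIH := ih h₁ p₁ (coeff 2 h₁ / p₁) (coeff 3 h₁ / p₁) hh₁ hi₁ hp₁0 (by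
        rw [mul_div_cancel₀ _ hp₁C, mul_div_cancel₀ _ hp₁C]
        exact j₁) (by
        rw [hp₁, le_div_iff₀ hκ0]
        rw [pow_succ] at hn
        exact hn)
      have hfin := ch_single (α := coeff 2 k / κ) (β := coeff 3 k / κ) hk hκ0 hκ1 hκ2.le (by
        rw [mul_div_cancel₀ _ hκC, mul_div_cancel₀ _ hκC]
        exact jk) hIH
      rw [hpp] at u2 u3
      push_cast at u2 u3
      have ea : a = coeff 2 h₁ / p₁ + coeff 2 k / κ * p₁ := by
        field_simp
        have h5 : (κ : ℂ) * p₁ * (a * (p₁ * κ)) = κ * p₁ * (κ * coeff 2 h₁ + p₁ ^ 2 * coeff 2 k) := by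
          linear_combination (κ * p₁ : ℂ) * u2
        have h6 := mul_left_cancel₀ (mul_ne_zero hκC hp₁C) h5
        linear_combination h6
      have eb : b = coeff 3 h₁ / p₁ + 2 * (coeff 2 k / κ) * coeff 2 h₁ + coeff 3 k / κ * p₁ ^ 2 := by
        field_simp
        linear_combination u3
      convert hfin using 1
      rw [eb, ea]
      field_simp
      ring

theorem bounded_case {f : ℂ → ℂ} (hd : DifferentiableOn ℂ f (ball 0 1)) (hi : InjOn f (ball 0 1))
    {a b : ℂ} (hj : Jet f 1 a b) {M : ℝ} (hM : 0 < M) (hb : ∀ z ∈ ball (0 : ℂ) 1, ‖f z‖ < M) :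
    |(3 - b).re| ≤ lam * (2 - a).re := by
  have hMC : (M : ℂ) ≠ 0 := by exact_mod_cast hM.ne'
  set h : ℂ → ℂ := fun z => f z / M with hh
  have hS : SelfMap h := by
    refine ⟨hd.div_const _, ?_, ?_⟩
    · intro z hz
      rw [mem_ball_zero_iff]
      show ‖f z / M‖ < 1
      rw [norm_div, Complex.norm_real, Real.norm_of_nonneg hM.le, div_lt_one hM]
      exact hb z hz
    · show f 0 / M = 0
      rw [hj.zero, zero_div]
  have hinj : InjOn h (ball 0 1) := by
    intro z hz w hw hzw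
    apply hi hz hw
    exact (div_left_inj' hMC).1 hzw
  have hjh : Jet h ((1 / M : ℝ) : ℂ) (((1 / M : ℝ) : ℂ) * a) (((1 / M : ℝ) : ℂ) * b) := by
    unfold Jet
    have h1 := IsLittleO.const_mul_left (show (fun z : ℂ => f z - (1 * z + a * z ^ 2 + b * z ^ 3)) =o[𝓝 0] (fun z : ℂ => z ^ 3) from hj) (1 / (M : ℂ))
    refine h1.congr_left fun z => ?_
    simp only [hh]
    push_cast
    field_simp
  have hp0 : 0 < 1 / M := by positivity
  have key : ∀ ε : ℝ, 0 < ε → ε ≤ 1 / 10 → |(3 - b).re| ≤ lam * (2 - a).re + 60 * ε := by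
    intro ε hε hε1
    obtain ⟨hκ1, hκ2⟩ := kappa_bounds (r := 1 - ε) (by linarith) (by linarith)
    obtain ⟨n, hn⟩ := exists_pow_lt_of_lt_one hp0 hκ2
    have h1 := ch_of_univalent hε (by linarith) n h (1 / M) a b hS hinj hp0 hjh hn.le
    have h2 := ch_bound hε hε1 h1
    have h3 : b - a ^ 2 + a ^ 2 = b := by ring
    rw [h3] at h2
    exact h2
  by_contra hcon
  push Not at hcon
  set g := |(3 - b).re| - lam * (2 - a).re with hg
  have hg0 : 0 < g := by linarith
  have h1 := key (min (1 / 10) (g / 120)) (by positivity) (min_le_left _ _)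
  have h2 : min (1 / 10) (g / 120) ≤ g / 120 := min_le_right _ _
  linarith

theorem upper_bound {f : ℂ → ℂ} (hf : ClassS f) :
    |((3 : ℂ) - coeff 3 f).re| ≤ lam * (2 - coeff 2 f).re := by
  obtain ⟨hd, hi, h0, h1⟩ := hf
  have hj := jet_of_diff hd h0
  rw [h1] at hj
  have key : ∀ ρ : ℝ, 0 < ρ → ρ < 1 →
      |((3 : ℂ) - (ρ : ℂ) ^ 2 * coeff 3 f).re| ≤ lam * (2 - ρ * coeff 2 f).re := by
    intro ρ hρ0 hρ1
    have hρC : (ρ : ℂ) ≠ 0 := by exact_mod_cast hρ0.ne'
    have hmem : ∀ z ∈ ball (0 : ℂ) 1, (ρ : ℂ) * z ∈ ball (0 : ℂ) ρ := by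
      intro z hz
      rw [mem_ball_zero_iff] at hz ⊢
      rw [norm_mul, Complex.norm_real, Real.norm_of_nonneg hρ0.le]
      nlinarith
    have hsub : closedBall (0 : ℂ) ρ ⊆ ball 0 1 := closedBall_subset_ball hρ1
    obtain ⟨C, hC⟩ := (isCompact_closedBall (0 : ℂ) ρ).exists_bound_of_continuousOn
      (hd.continuousOn.mono hsub)
    have hC0 : 0 ≤ C := (norm_nonneg _).trans (hC 0 (by simp [hρ0.le]))
    have hlin : Jet (fun z : ℂ => (ρ : ℂ) * z) ρ 0 0 := by
      unfold Jet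
      simpa using (isLittleO_zero (fun z : ℂ => z ^ 3) (𝓝 (0 : ℂ)))
    have hjc := jet_comp hj hlin
    have hjr : Jet (fun z => f (ρ * z) / ρ) 1 (ρ * coeff 2 f) (ρ ^ 2 * coeff 3 f) := by
      unfold Jet
      have h1 := IsLittleO.const_mul_left hjc (1 / (ρ : ℂ))
      refine h1.congr_left fun z => ?_
      simp only [Function.comp_apply]
      field_simp
      ring
    refine bounded_case (M := (C + 1) / ρ) ?_ ?_ hjr (by positivity) ?_
    · apply DifferentiableOn.div_const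
      refine hd.comp (by fun_prop) ?_
      intro z hz
      exact hsub (ball_subset_closedBall (hmem z hz))
    · intro z hz w hw hzw
      have h2 : f (ρ * z) = f (ρ * w) := (div_left_inj' hρC).1 hzw
      have h3 := hi (hsub (ball_subset_closedBall (hmem z hz)))
        (hsub (ball_subset_closedBall (hmem w hw))) h2
      exact mul_left_cancel₀ hρC h3
    · intro z hz
      rw [norm_div, Complex.norm_real, Real.norm_of_nonneg hρ0.le]
      apply div_lt_div_of_pos_right _ hρ0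
      have := hC _ (ball_subset_closedBall (hmem z hz))
      linarith
  have hc1 : Continuous fun ρ : ℝ => |((3 : ℂ) - (ρ : ℂ) ^ 2 * coeff 3 f).re| := by fun_prop
  have hc2 : Continuous fun ρ : ℝ => lam * (2 - ρ * coeff 2 f).re := by fun_prop
  have t1 : Tendsto (fun ρ : ℝ => |((3 : ℂ) - (ρ : ℂ) ^ 2 * coeff 3 f).re|) (𝓝[<] 1)
      (𝓝 |((3 : ℂ) - ((1 : ℝ) : ℂ) ^ 2 * coeff 3 f).re|) := (hc1.tendsto 1).mono_left nhdsWithin_le_nhds
  have t2 : Tendsto (fun ρ : ℝ => lam * (2 - ρ * coeff 2 f).re) (𝓝[<] 1)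
      (𝓝 (lam * (2 - ((1 : ℝ) : ℂ) * coeff 2 f).re)) := (hc2.tendsto 1).mono_left nhdsWithin_le_nhds
  have := le_of_tendsto_of_tendsto t1 t2 (by
    filter_upwards [Ioo_mem_nhdsLT (show (0 : ℝ) < 1 by norm_num)] with ρ hρ
    exact key ρ hρ.1 hρ.2)
  simpa using this

end Pool.Agent.Helper64.C3
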