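import Pool.Agent.Helper64.C3.Koebe
import Pool.Agent.Helper64.C3.Upper
import Pool.Agent.Helper64.C3.Defs2

set_option autoImplicit false

open Metric Set Filter Topology Asymptotics

namespace Pool.Agent.Helper64.C3

open ComplexConjugate

/-- algebraic form of the Koebe step -/
theorem koebe_step_alg {a b u : ℂ} {r : ℝ} (hr0 : 0 < r) (hr1 : r < 1) (hb : b ^ 2 = a)
    (hbb : b * conj b = r) (hu : ‖u‖ < 1) :
    B a (B b u ^ 2) = u * (2 * b - (1 + r) * u) / ((1 + r) - 2 * conj b * u) := by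
  have hbn : ‖b‖ ^ 2 = r := by
    have h := congrArg norm hbb
    rw [norm_mul, RCLike.norm_conj, Complex.norm_real, Real.norm_of_nonneg hr0.le] at h
    rw [sq]; exact h
  have hb1 : ‖b‖ < 1 := by
    apply lt_of_pow_lt_pow_left₀ 2 zero_le_one
    rw [hbn]; simpa using hr1
  have ha1 : ‖a‖ < 1 := by rw [← hb, norm_pow, hbn]; exact hr1
  have hd1 : 1 - conj b * u ≠ 0 := B_den hb1 hu
  have hBn : ‖B b u ^ 2‖ < 1 := by
    rw [norm_pow]
    exact pow_lt_one₀ (norm_nonneg _) (B_maps hb1 hu) two_ne_zero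
  have hd2 : 1 - conj a * (B b u ^ 2) ≠ 0 := B_den ha1 hBn
  have hr1C : (1 : ℂ) - r ≠ 0 := by
    have : (1 : ℝ) - r ≠ 0 := by linarith
    exact_mod_cast this
  have hB : B b u * (1 - conj b * u) = b - u := by rw [B, div_mul_cancel₀ _ hd1]
  have hca : conj a = conj b ^ 2 := by rw [← hb, map_pow]
  -- denominator identity
  have e1 : (1 - conj a * (B b u ^ 2)) * (1 - conj b * u) ^ 2
      = (1 - r) * ((1 + r) - 2 * conj b * u) := by
    have h1 : (1 - conj a * (B b u ^ 2)) * (1 - conj b * u) ^ 2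
        = (1 - conj b * u) ^ 2 - conj a * (B b u * (1 - conj b * u)) ^ 2 := by ring
    rw [h1, hB, hca]
    linear_combination (-(b * conj b) - r + 2 * conj b * u) * hbb
  have e2 : (a - B b u ^ 2) * (1 - conj b * u) ^ 2
      = (1 - r) * (u * (2 * b - (1 + r) * u)) := by
    have h1 : (a - B b u ^ 2) * (1 - conj b * u) ^ 2
        = a * (1 - conj b * u) ^ 2 - (B b u * (1 - conj b * u)) ^ 2 := by ring
    rw [h1, hB, ← hb]
    linear_combination (-2 * b * u + u ^ 2 * (b * conj b + r)) * hbb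
  have hd3 : (1 + r : ℂ) - 2 * conj b * u ≠ 0 := by
    intro h
    rw [h, mul_zero] at e1
    exact mul_ne_zero hd2 (pow_ne_zero 2 hd1) e1
  have e3 : B a (B b u ^ 2) = (a - B b u ^ 2) / (1 - conj a * (B b u ^ 2)) := rfl
  rw [e3, div_eq_div_iff hd2 hd3]
  have hne : (1 - r : ℂ) * (1 - conj b * u) ^ 2 ≠ 0 := mul_ne_zero hr1C (pow_ne_zero 2 hd1)
  apply mul_right_cancel₀ hne
  linear_combination ((1 - r) * ((1 + r) - 2 * conj b * u)) * e2
    - ((1 - r) * (u * (2 * b - (1 + r) * u))) * e1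

/-- Koebe step in explicit form -/
theorem koebe_step' {h : ℂ → ℂ} (hh : SelfMap h) (hi : InjOn h (ball 0 1)) {r : ℝ} (hr0 : 0 < r)
    (hr1 : r < 1) (hp : deriv h 0 ≠ 0) (hpr : ‖deriv h 0‖ < r) :
    ∃ (χ : ℂ) (h₁ : ℂ → ℂ), ‖χ‖ = 1 ∧ SelfMap h₁ ∧ InjOn h₁ (ball 0 1) ∧
      ∀ z ∈ ball (0 : ℂ) 1, h z = kst (2 * Real.sqrt r / (1 + r)) χ (h₁ z) := by
  obtain ⟨hd, hm, h0⟩ := hh
  -- an omitted value of modulus `r`
  obtain ⟨a, ha1, ha2⟩ : ∃ a : ℂ, ‖a‖ = r ∧ a ∉ h '' ball 0 1 := by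
    by_contra hcon
    push Not at hcon
    have : sphere (0 : ℂ) r ⊆ h '' ball 0 1 := fun a ha => hcon a (by simpa using ha)
    exact absurd (radius_le hd hi h0 hp hr0 this) (not_le.2 hpr)
  have ha : ‖a‖ < 1 := by rw [ha1]; exact hr1
  have hmz : ∀ z ∈ ball (0 : ℂ) 1, ‖h z‖ < 1 := fun z hz => by simpa using hm hz
  have hGd : DifferentiableOn ℂ (fun z => B a (h z)) (ball 0 1) := by
    intro z hz
    have h1 := (B_hasDeriv ha (hmz z hz)).differentiableAt
    exact (h1.comp z (hd.differentiableAt (isOpen_ball.mem_nhds hz))).differentiableWithinAt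
  have hGnz : ∀ z ∈ ball (0 : ℂ) 1, B a (h z) ≠ 0 := by
    intro z hz h1
    have h2 := B_invol ha (hmz z hz)
    rw [h1, B_zero] at h2
    exact ha2 ⟨z, hz, h2.symm⟩
  obtain ⟨b, hb⟩ : ∃ b : ℂ, b ^ 2 = a := by
    obtain ⟨b, hb⟩ := IsAlgClosed.exists_pow_nat_eq a (n := 2) (by norm_num)
    exact ⟨b, hb⟩
  have hbn : ‖b‖ ^ 2 = r := by rw [← norm_pow, hb, ha1]
  have hb1 : ‖b‖ < 1 := by
    apply lt_of_pow_lt_pow_left₀ 2 zero_le_one
    rw [hbn]; simpa using hr1
  have hb0 : 0 < ‖b‖ := by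
    rcases (norm_nonneg b).eq_or_lt with h1 | h1
    · rw [← h1] at hbn
      norm_num at hbn
      linarith
    · exact h1
  have hbr : ‖b‖ = Real.sqrt r := by
    rw [← hbn, Real.sqrt_sq hb0.le]
  obtain ⟨s, hsd, hs0, hs⟩ := exists_sqrt hGd hGnz (b := b) (by
    show b ^ 2 = B a (h 0)
    rw [h0, B_zero, hb])
  have hsn : ∀ z ∈ ball (0 : ℂ) 1, ‖s z‖ < 1 := by
    intro z hz
    apply lt_of_pow_lt_pow_left₀ 2 zero_le_one
    rw [← norm_pow, hs z hz]
    simpa using B_maps ha (hmz z hz)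
  set ω : ℂ := conj b / ‖b‖ with hω
  have hbne : (‖b‖ : ℂ) ≠ 0 := by exact_mod_cast hb0.ne'
  have hωn : ‖ω‖ = 1 := by
    rw [hω, norm_div, RCLike.norm_conj, Complex.norm_real, norm_norm, div_self hb0.ne']
  have hωω : ω * conj ω = 1 := by
    rw [Complex.mul_conj, Complex.normSq_eq_norm_sq, hωn]; norm_num
  have hbω : b * ω = ‖b‖ := by
    rw [hω, mul_div_assoc', Complex.mul_conj, Complex.normSq_eq_norm_sq, div_eq_iff hbne]
    push_cast; ring
  have hcb : conj b = ω * ‖b‖ := by rw [hω, div_mul_cancel₀ _ hbne]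
  refine ⟨ω ^ 2, fun z => conj ω * B b (s z), by rw [norm_pow, hωn, one_pow],
    ⟨?_, ?_, ?_⟩, ?_, ?_⟩
  · intro z hz
    have h1 := (B_hasDeriv hb1 (hsn z hz)).differentiableAt
    exact ((h1.comp z (hsd.differentiableAt (isOpen_ball.mem_nhds hz))).const_mul
      (conj ω)).differentiableWithinAt
  · intro z hz
    rw [mem_ball_zero_iff, norm_mul, RCLike.norm_conj, hωn, one_mul]
    exact B_maps hb1 (hsn z hz)
  · show conj ω * B b (s 0) = 0
    rw [hs0, B_self, mul_zero]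
  · intro z hz w hw hzw
    have hω0 : conj ω ≠ 0 := by
      intro h1
      rw [h1, mul_zero] at hωω
      exact zero_ne_one hωω
    have h1 : B b (s z) = B b (s w) := mul_left_cancel₀ hω0 hzw
    have h2 : s z = s w := by
      rw [← B_invol hb1 (hsn z hz), h1, B_invol hb1 (hsn w hw)]
    have h3 : B a (h z) = B a (h w) := by
      rw [← hs z hz, h2, hs w hw]
    apply hi hz hw
    rw [← B_invol ha (hmz z hz), h3, B_invol ha (hmz w hw)]
  · intro z hz
    show h z = kst _ (ω ^ 2) (conj ω * B b (s z))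
    set v := B b (s z) with hv
    have hvn : ‖v‖ < 1 := B_maps hb1 (hsn z hz)
    have e1 : h z = B a (B b v ^ 2) := by
      rw [hv, B_invol hb1 (hsn z hz), hs z hz, B_invol ha (hmz z hz)]
    have hbb : b * conj b = r := by
      rw [Complex.mul_conj, Complex.normSq_eq_norm_sq, hbn]
    rw [e1, koebe_step_alg hr0 hr1 hb hbb hvn, kst, ← hbr]
    have hr2 : (1 : ℂ) + r ≠ 0 := by
      have : (1 : ℝ) + r ≠ 0 := by linarith
      exact_mod_cast this
    have e2 : ω ^ 2 * (conj ω * v) = ω * v := by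
      linear_combination (ω * v) * hωω
    have hω0 : ω ≠ 0 := by
      intro h1
      rw [h1, zero_mul] at hωω
      exact zero_ne_one hωω
    have e3 : b = ‖b‖ * conj ω := by
      have : b * (ω * conj ω) = ‖b‖ * conj ω := by rw [← mul_assoc, hbω]
      rwa [hωω, mul_one] at this
    have e4 : ((2 * ‖b‖ / (1 + r) : ℝ) : ℂ) * ω ^ 2 * (conj ω * v)
        = ((2 * ‖b‖ / (1 + r) : ℝ) : ℂ) * (ω * v) := by
      rw [mul_assoc, e2]
    rw [e4]
    have e5 : conj ω * v * (((2 * ‖b‖ / (1 + r) : ℝ) : ℂ) - ω ^ 2 * (conj ω * v))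
        = v * (2 * b - (1 + r) * v) / (1 + r) := by
      rw [e2]
      push_cast
      rw [eq_div_iff hr2]
      have h5 : conj ω * v * (2 * (‖b‖ : ℂ) / (1 + r) - ω * v) * (1 + r)
          = conj ω * v * (2 * ‖b‖ - (1 + r) * (ω * v)) := by
        field_simp
      rw [h5]
      linear_combination (2 * v) * (-e3) - (1 + r) * v ^ 2 * hωω
    have e6 : 1 - ((2 * ‖b‖ / (1 + r) : ℝ) : ℂ) * (ω * v)
        = ((1 + r) - 2 * conj b * v) / (1 + r) := by
      rw [hcb]
      push_cast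
      field_simp
    rw [e5, e6]
    rw [div_div_div_cancel_right₀ hr2]

/-- derivative of a Koebe step at the origin -/
theorem deriv_kst {q : ℝ} {χ : ℂ} {h h₁ : ℂ → ℂ} (hh₁ : SelfMap h₁)
    (hk : ∀ z ∈ ball (0 : ℂ) 1, h z = kst q χ (h₁ z)) : deriv h 0 = q * deriv h₁ 0 := by
  have h0 : (0 : ℂ) ∈ ball (0 : ℂ) 1 := by simp
  have h1 : HasDerivAt h₁ (deriv h₁ 0) 0 :=
    (hh₁.1.differentiableAt (isOpen_ball.mem_nhds h0)).hasDerivAt
  have h2 : HasDerivAt (fun z => kst q χ (h₁ z)) (q * deriv h₁ 0) 0 := by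
    have a1 : HasDerivAt (fun z => h₁ z * (q - χ * h₁ z))
        (deriv h₁ 0 * (q - χ * h₁ 0) + h₁ 0 * (-(χ * deriv h₁ 0))) 0 := by
      exact h1.mul ((h1.const_mul χ).const_sub (q : ℂ))
    have a2 : HasDerivAt (fun z => 1 - q * χ * h₁ z) (-(q * χ * deriv h₁ 0)) 0 :=
      (h1.const_mul (q * χ)).const_sub 1
    have a3 := a1.div a2 (by rw [hh₁.2.2]; simp)
    refine HasDerivAt.congr_deriv a3 ?_
    rw [hh₁.2.2]
    simp
    ring
  have h3 : h =ᶠ[𝓝 0] fun z => kst q χ (h₁ z) := by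
    filter_upwards [isOpen_ball.mem_nhds h0] with z hz
    exact hk z hz
  rw [h3.deriv_eq, h2.deriv]

/-- discrete chains -/
structure KChain (q p₀ : ℝ) (m : ℕ) (H : ℕ → ℂ → ℂ) (χ : ℕ → ℂ) : Prop where
  chi : ∀ i, ‖χ i‖ = 1
  self : ∀ i ≤ m, SelfMap (H i)
  inj : ∀ i ≤ m, InjOn (H i) (ball 0 1)
  der : ∀ i ≤ m, deriv (H i) 0 = ((q ^ i * p₀ : ℝ) : ℂ)
  step : ∀ i < m, ∀ z ∈ ball (0 : ℂ) 1, H (i + 1) z = kst q (χ i) (H i z)

theorem deriv_le_one {h : ℂ → ℂ} (hh : SelfMap h) {p : ℝ} (hp : 0 < p)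
    (hder : deriv h 0 = (p : ℂ)) : p ≤ 1 := by
  have h1 := Complex.norm_deriv_le_one_of_mapsTo_ball hh.1
    (by rw [hh.2.2]; exact hh.2.1.mono_right ball_subset_closedBall) one_pos
  rw [hder, Complex.norm_real, Real.norm_of_nonneg hp.le] at h1
  exact h1

theorem exists_chain_aux {r : ℝ} (hr0 : 0 < r) (hr1 : r < 1) (n : ℕ) :
    ∀ (h : ℂ → ℂ) (p : ℝ), SelfMap h → InjOn h (ball 0 1) → 0 < p → deriv h 0 = (p : ℂ) →
      (2 * Real.sqrt r / (1 + r)) ^ n ≤ p →
      ∃ (m : ℕ) (p₀ : ℝ) (H : ℕ → ℂ → ℂ) (χ : ℕ → ℂ),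
        KChain (2 * Real.sqrt r / (1 + r)) p₀ m H χ ∧ r ≤ p₀ ∧ p₀ ≤ 1 ∧
        (2 * Real.sqrt r / (1 + r)) ^ m * p₀ = p ∧ ∀ z ∈ ball (0 : ℂ) 1, H m z = h z := by
  obtain ⟨hκ1, hκ2⟩ := kappa_bounds hr0 hr1
  set q := 2 * Real.sqrt r / (1 + r) with hq
  have hq0 : 0 < q := by linarith
  have base : ∀ (h : ℂ → ℂ) (p : ℝ), SelfMap h → InjOn h (ball 0 1) → 0 < p →
      deriv h 0 = (p : ℂ) → r ≤ p →
      ∃ (m : ℕ) (p₀ : ℝ) (H : ℕ → ℂ → ℂ) (χ : ℕ → ℂ),
        KChain q p₀ m H χ ∧ r ≤ p₀ ∧ p₀ ≤ 1 ∧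
        q ^ m * p₀ = p ∧ ∀ z ∈ ball (0 : ℂ) 1, H m z = h z := by
    intro h p hh hi hp hder hrp
    refine ⟨0, p, fun _ => h, fun _ => 1, ⟨by simp, fun _ _ => hh, fun _ _ => hi, ?_, ?_⟩, hrp,
      deriv_le_one hh hp hder, by simp, fun z _ => rfl⟩
    · intro i hi'
      have : i = 0 := by omega
      subst this
      simpa using hder
    · intro i hi'
      omega
  induction n with
  | zero =>
    intro h p hh hi hp hder hn
    rw [pow_zero] at hn
    exact base h p hh hi hp hder (by linarith)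
  | succ n ih =>
    intro h p hh hi hp hder hn
    rcases le_or_gt r p with hpr | hpr
    · exact base h p hh hi hp hder hpr
    · have hne : deriv h 0 ≠ 0 := by rw [hder]; exact_mod_cast hp.ne'
      have hlt : ‖deriv h 0‖ < r := by
        rw [hder, Complex.norm_real, Real.norm_of_nonneg hp.le]; exact hpr
      obtain ⟨χ₀, h₁, hχ, hh₁, hi₁, heq⟩ := koebe_step' hh hi hr0 hr1 hne hlt
      rw [← hq] at heq
      have hdk := deriv_kst hh₁ heq
      have hqC : (q : ℂ) ≠ 0 := by exact_mod_cast hq0.ne'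
      have hd1 : deriv h₁ 0 = ((p / q : ℝ) : ℂ) := by
        push_cast
        rw [eq_div_iff hqC, mul_comm, ← hdk, hder]
      have hp1 : 0 < p / q := by positivity
      obtain ⟨m, p₀, H, χ, hc, hr, hp01, hpm, hH⟩ := ih h₁ (p / q) hh₁ hi₁ hp1 hd1 (by
        rw [le_div_iff₀ hq0]
        rw [pow_succ] at hn
        exact hn)
      refine ⟨m + 1, p₀, Function.update H (m + 1) h, Function.update χ m χ₀,
        ⟨?_, ?_, ?_, ?_, ?_⟩, hr, hp01, ?_, ?_⟩
      · intro i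
        rcases eq_or_ne i m with rfl | him
        · rw [Function.update_self]; exact hχ
        · rw [Function.update_of_ne him]; exact hc.chi i
      · intro i hi'
        rcases eq_or_ne i (m + 1) with rfl | him
        · rw [Function.update_self]; exact hh
        · rw [Function.update_of_ne him]; exact hc.self i (by omega)
      · intro i hi'
        rcases eq_or_ne i (m + 1) with rfl | him
        · rw [Function.update_self]; exact hi
        · rw [Function.update_of_ne him]; exact hc.inj i (by omega)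
      · intro i hi'
        rcases eq_or_ne i (m + 1) with rfl | him
        · rw [Function.update_self, hder]
          congr 1
          rw [pow_succ, mul_comm (q ^ m) q, mul_assoc, hpm]
          field_simp
        · rw [Function.update_of_ne him]; exact hc.der i (by omega)
      · intro i hi' z hz
        rcases eq_or_ne i m with rfl | him
        · rw [Function.update_self, Function.update_self, Function.update_of_ne (by omega),
            hH z hz, heq z hz]
        · rw [Function.update_of_ne (show i + 1 ≠ m + 1 by omega), Function.update_of_ne him,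
            Function.update_of_ne (show i ≠ m + 1 by omega)]
          exact hc.step i (by omega) z hz
      · rw [pow_succ, mul_comm (q ^ m) q, mul_assoc, hpm]
        field_simp
      · intro z hz
        rw [Function.update_self]

theorem exists_chain {r : ℝ} (hr0 : 0 < r) (hr1 : r < 1) {h : ℂ → ℂ} {p : ℝ} (hh : SelfMap h)
    (hi : InjOn h (ball 0 1)) (hp : 0 < p) (hder : deriv h 0 = (p : ℂ)) :
    ∃ (m : ℕ) (p₀ : ℝ) (H : ℕ → ℂ → ℂ) (χ : ℕ → ℂ),
        KChain (2 * Real.sqrt r / (1 + r)) p₀ m H χ ∧ r ≤ p₀ ∧ p₀ ≤ 1 ∧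
        (2 * Real.sqrt r / (1 + r)) ^ m * p₀ = p ∧ ∀ z ∈ ball (0 : ℂ) 1, H m z = h z := by
  obtain ⟨hκ1, hκ2⟩ := kappa_bounds hr0 hr1
  obtain ⟨n, hn⟩ := exists_pow_lt_of_lt_one hp hκ2
  exact exists_chain_aux hr0 hr1 n h p hh hi hp hder hn.le

end Pool.Agent.Helper64.C3
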