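import Pool.Agent.Helper64.C3.Limit

set_option autoImplicit false

open Metric Set Filter Topology Asymptotics

namespace Pool.Agent.Helper64.C3

/-! Theorem U: the upper bound for all coefficients -/

theorem bound_ball {f : ℂ → ℂ} (hd : DifferentiableOn ℂ f (ball 0 1)) {ρ : ℝ} (hρ0 : 0 < ρ)
    (hρ : ρ < 1) : ∃ C : ℝ, 0 < C ∧ ∀ w : ℂ, ‖w‖ ≤ ρ → ‖f w‖ ≤ C := by
  have hsub : closedBall (0 : ℂ) ρ ⊆ ball 0 1 := closedBall_subset_ball hρ
  obtain ⟨C, hC⟩ := (isCompact_closedBall (0 : ℂ) ρ).exists_bound_of_continuousOn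
    (hd.continuousOn.mono hsub)
  have hC0 : 0 ≤ C := (norm_nonneg _).trans (hC 0 (by simp [hρ0.le]))
  exact ⟨C + 1, by linarith, fun w hw => by
    have := hC w (by simpa using hw)
    linarith⟩

/-- a first approximation: dilation -/
theorem dil_close {f : ℂ → ℂ} (hd : DifferentiableOn ℂ f (ball 0 1)) {r : ℝ} (hr0 : 0 < r)
    (hr1 : r < 1) {ε : ℝ} (hε : 0 < ε) :
    ∃ ρ : ℝ, 0 < ρ ∧ ρ < 1 ∧ ∀ z ∈ sphere (0 : ℂ) r, ‖f (ρ * z) / ρ - f z‖ ≤ ε := by
  have h1 : r < (1 + r) / 2 := by linarith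
  have h2 : (1 + r) / 2 < 1 := by linarith
  obtain ⟨C, hC0, hC⟩ := bound_ball hd (by linarith : 0 < (1 + r) / 2) h2
  have h3 : 0 < (1 + r) / 2 - r := by linarith
  set L := C / ((1 + r) / 2 - r) with hL
  have hL0 : 0 < L := by positivity
  have hA : 0 < L + 2 * C := by positivity
  set τ := min (1 / 2) (ε / (L + 2 * C)) with hτ
  have hτ0 : 0 < τ := by positivity
  have hτ1 : τ ≤ 1 / 2 := min_le_left _ _
  have hτ2 : τ * (L + 2 * C) ≤ ε := by
    rw [← le_div_iff₀ hA]; exact min_le_right _ _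
  refine ⟨1 - τ, by linarith, by linarith, ?_⟩
  intro z hz
  have hzr := mem_sphere_zero_iff_norm.1 hz
  set ρ := 1 - τ with hρ
  have hρ0 : 0 < ρ := by linarith
  have hρC : (ρ : ℂ) ≠ 0 := by exact_mod_cast hρ0.ne'
  have hn : ‖(ρ : ℂ) * z‖ ≤ r := by
    rw [norm_mul, Complex.norm_real, Real.norm_of_nonneg hρ0.le, hzr]
    nlinarith
  have e1 : f (ρ * z) / ρ - f z = (f (ρ * z) - f z) + f (ρ * z) * ((τ / ρ : ℝ) : ℂ) := by
    have : (τ : ℂ) = 1 - ρ := by rw [hρ]; push_cast; ring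
    push_cast
    rw [this]
    field_simp
    ring
  rw [e1]
  refine (norm_add_le _ _).trans ?_
  have b1 : ‖f (ρ * z) - f z‖ ≤ L * τ := by
    refine (lip_of_bound hd h1 h2 hC hn hzr.le).trans ?_
    apply mul_le_mul_of_nonneg_left _ hL0.le
    have e2 : (ρ : ℂ) * z - z = -((τ : ℂ) * z) := by rw [hρ]; push_cast; ring
    rw [e2, norm_neg, norm_mul, Complex.norm_real, Real.norm_of_nonneg hτ0.le, hzr]
    nlinarith
  have b2 : ‖f (ρ * z) * ((τ / ρ : ℝ) : ℂ)‖ ≤ C * (2 * τ) := by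
    rw [norm_mul, Complex.norm_real, Real.norm_of_nonneg (by positivity)]
    apply mul_le_mul (hC _ (hn.trans h1.le)) _ (by positivity) hC0.le
    rw [div_le_iff₀ hρ0]
    nlinarith
  nlinarith

/-- approximation of a function of class `S` by `koebe ∘ h / α` -/
theorem approx {f : ℂ → ℂ} (hf : ClassS f) {r : ℝ} (hr0 : 0 < r) (hr1 : r < 1) {ε : ℝ}
    (hε : 0 < ε) :
    ∃ (α : ℝ) (h : ℂ → ℂ), 0 < α ∧ SelfMap h ∧ InjOn h (ball 0 1) ∧ deriv h 0 = (α : ℂ) ∧
      ∀ z ∈ sphere (0 : ℂ) r, ‖koebe (h z) / α - f z‖ ≤ ε := by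
  obtain ⟨hd, hi, h0, h1⟩ := hf
  obtain ⟨ρ, hρ0, hρ1, hclose⟩ := dil_close hd hr0 hr1 (half_pos hε)
  obtain ⟨C, hC0, hC⟩ := bound_ball hd hρ0 hρ1
  have hρC : (ρ : ℂ) ≠ 0 := by exact_mod_cast hρ0.ne'
  set F : ℂ → ℂ := fun z => f (ρ * z) / ρ with hF
  have hmem : ∀ z ∈ ball (0 : ℂ) 1, ‖(ρ : ℂ) * z‖ ≤ ρ ∧ (ρ : ℂ) * z ∈ ball (0 : ℂ) 1 := by
    intro z hz
    rw [mem_ball_zero_iff] at hz ⊢
    rw [norm_mul, Complex.norm_real, Real.norm_of_nonneg hρ0.le]
    constructor <;> nlinarith [norm_nonneg z]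
  set Bρ := C / ρ with hBρ
  have hBρ0 : 0 < Bρ := by positivity
  have hFb : ∀ z ∈ ball (0 : ℂ) 1, ‖F z‖ ≤ Bρ := by
    intro z hz
    rw [hF]
    simp only
    rw [norm_div, Complex.norm_real, Real.norm_of_nonneg hρ0.le]
    exact div_le_div_of_nonneg_right (hC _ (hmem z hz).1) hρ0.le
  have hFd : DifferentiableOn ℂ F (ball 0 1) := by
    apply DifferentiableOn.div_const
    exact hd.comp (by fun_prop) (fun z hz => (hmem z hz).2)
  have hF1 : HasDerivAt F 1 0 := by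
    have h0b : (0 : ℂ) ∈ ball (0 : ℂ) 1 := by simp
    have a1 : HasDerivAt f 1 ((ρ : ℂ) * 0) := by
      rw [mul_zero, ← h1]
      exact (hd.differentiableAt (isOpen_ball.mem_nhds h0b)).hasDerivAt
    have a2 : HasDerivAt (fun z : ℂ => (ρ : ℂ) * z) ρ 0 := by
      simpa using (hasDerivAt_id (0 : ℂ)).const_mul (ρ : ℂ)
    have a3 := (a1.comp 0 a2).div_const (ρ : ℂ)
    refine HasDerivAt.congr_deriv a3 ?_
    field_simp
  -- the bound
  set N := max (2 * Bρ) (24 * Bρ ^ 2 / ε) with hN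
  have hN0 : 0 < N := lt_max_of_lt_left (by positivity)
  have hN1 : 2 * Bρ ≤ N := le_max_left _ _
  have hN2 : 24 * Bρ ^ 2 / ε ≤ N := le_max_right _ _
  have hNC : (N : ℂ) ≠ 0 := by exact_mod_cast hN0.ne'
  refine ⟨1 / N, fun z => F z / N, by positivity, ⟨hFd.div_const _, ?_, ?_⟩, ?_, ?_, ?_⟩
  · intro z hz
    rw [mem_ball_zero_iff, norm_div, Complex.norm_real, Real.norm_of_nonneg hN0.le,
      div_lt_one hN0]
    have := hFb z hz
    linarith
  · simp [hF, h0]
  · intro z hz w hw hzw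
    have h2 : F z = F w := (div_left_inj' hNC).1 hzw
    have h3 : f (ρ * z) = f (ρ * w) := (div_left_inj' hρC).1 h2
    exact mul_left_cancel₀ hρC (hi (hmem z hz).2 (hmem w hw).2 h3)
  · have := (hF1.div_const (N : ℂ)).deriv
    rw [this]; push_cast; ring
  · intro z hz
    have hzb := sphere_mem hr1 hz
    have hFz := hFb z hzb
    set x := F z / N with hx
    have hxn : ‖x‖ ≤ 1 / 2 := by
      rw [hx, norm_div, Complex.norm_real, Real.norm_of_nonneg hN0.le, div_le_iff₀ hN0]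
      linarith
    have hx1 : (1 : ℂ) - x ≠ 0 := M6.one_sub_ne (by
      rw [mem_ball_zero_iff]; linarith)
    have hx2 : 1 / 2 ≤ ‖1 - x‖ := by
      have := norm_sub_norm_le (1 : ℂ) x
      rw [norm_one] at this
      linarith
    have e1 : koebe x / ((1 / N : ℝ) : ℂ) - f z = F z * (x * (2 - x) / (1 - x) ^ 2) + (F z - f z) := by
      have hFx : F z = N * x := by rw [hx]; field_simp
      rw [koebe, hFx]
      push_cast
      field_simp
      ring
    show ‖koebe x / ((1 / N : ℝ) : ℂ) - f z‖ ≤ ε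
    rw [e1]
    refine (norm_add_le _ _).trans ?_
    have b1 : ‖F z - f z‖ ≤ ε / 2 := hclose z hz
    have b2 : ‖F z * (x * (2 - x) / (1 - x) ^ 2)‖ ≤ ε / 2 := by
      rw [norm_mul (F z), norm_div (x * (2 - x)), norm_mul x, norm_pow]
      have c1 : ‖2 - x‖ ≤ 3 := by
        refine (norm_sub_le _ _).trans ?_
        rw [Complex.norm_ofNat]; linarith
      have c2 : 1 / 4 ≤ ‖1 - x‖ ^ 2 := by nlinarith
      have c3 : ‖x‖ * ‖2 - x‖ / ‖1 - x‖ ^ 2 ≤ 12 * ‖x‖ := by
        rw [div_le_iff₀ (by positivity)]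
        have := mul_le_mul_of_nonneg_left c1 (norm_nonneg x)
        have := mul_le_mul_of_nonneg_left c2 (norm_nonneg x)
        nlinarith
      have c4 : ‖x‖ * N ≤ Bρ := by
        rw [hx, norm_div, Complex.norm_real, Real.norm_of_nonneg hN0.le, div_mul_cancel₀ _ hN0.ne']
        exact hFz
      have c5 : 24 * Bρ ^ 2 ≤ N * ε := by rwa [div_le_iff₀ hε] at hN2
      calc ‖F z‖ * (‖x‖ * ‖2 - x‖ / ‖1 - x‖ ^ 2) ≤ Bρ * (12 * ‖x‖) :=
            mul_le_mul hFz c3 (by positivity) hBρ0.le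
        _ ≤ ε / 2 := by
            have h4 : Bρ * (12 * ‖x‖) * N ≤ ε / 2 * N := by
              have := mul_le_mul_of_nonneg_left c4 hBρ0.le
              nlinarith
            exact le_of_mul_le_mul_right h4 hN0
    linarith

/-- the general inequality for the class `S` -/
theorem class_form (n : ℕ) {r : ℝ} (hr0 : 0 < r) (hr1 : r < 1) {f : ℂ → ℂ} (hf : ClassS f) :
    0 ≤ 2 - (coeff 2 f).re ∧
      |((n : ℂ) - coeff n f).re| ≤ Bd n r 0 (2 - (coeff 2 f).re) ∧
      ‖coeff n f‖ ≤ (r ^ n)⁻¹ * (2 * r / (1 - r)) ∧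
      ‖(n : ℂ) - coeff n f‖ ≤ Bn n r (2 - (coeff 2 f).re) := by
  set D := 2 - (coeff 2 f).re with hD
  set K₁ := (r ^ 2)⁻¹ with hK₁
  set K₂ := (r ^ n)⁻¹ with hK₂
  have hK₁0 : 0 < K₁ := by positivity
  have hK₂0 : 0 < K₂ := by positivity
  have hfd := hf.1
  have cf : ContinuousOn f (sphere 0 r) := hfd.continuousOn.mono (fun _ hz => sphere_mem hr1 hz)
  have hev : ∀ ε : ℝ, 0 < ε → 0 ≤ D + K₁ * ε ∧
      |((n : ℂ) - coeff n f).re| ≤ Bd n r 0 (D + K₁ * ε) + K₂ * ε ∧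
      ‖coeff n f‖ ≤ K₂ * (2 * r / (1 - r)) + K₂ * ε ∧
      ‖(n : ℂ) - coeff n f‖ ≤ Bn n r (D + K₁ * ε) + K₂ * ε := by
    intro ε hε
    obtain ⟨α, h, hα, hh, hi, hder, hcl⟩ := approx hf hr0 hr1 hε
    obtain ⟨l1, l2, l4⟩ := limit_form n hr0 hr1 hα hh hi hder
    have l3 := coeff_growth n hr0 hr1 hα hh hi hder
    have hgd : DifferentiableOn ℂ (fun z => koebe (h z) / (α : ℂ)) (ball 0 1) :=
      (M6.koebe_diff.comp hh.1 hh.2.1).div_const _
    have cg : ContinuousOn (fun z => koebe (h z) / (α : ℂ)) (sphere 0 r) :=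
      hgd.continuousOn.mono (fun _ hz => sphere_mem hr1 hz)
    have hdiff : ∀ k : ℕ, ‖ell k r (fun z => koebe (h z) / (α : ℂ)) - coeff k f‖ ≤ (r ^ k)⁻¹ * ε := by
      intro k
      rw [← ell_eq_coeff hr0 hr1 hfd, ← ell_sub hr0 cg cf]
      exact norm_ell_le_const hr0 (cg.sub cf) hcl
    have hD2 : 2 - (coeff 2 (fun z => koebe (h z) / (α : ℂ))).re ≤ D + K₁ * ε := by
      have h1 := hdiff 2
      rw [ell_eq_coeff hr0 hr1 hgd] at h1
      have h2 := (Complex.abs_re_le_norm _).trans h1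
      rw [Complex.sub_re] at h2
      have h3 := (abs_le.1 h2).1
      linarith
    refine ⟨l1.trans hD2, ?_, ?_, ?_⟩
    · have h1 := (Complex.abs_re_le_norm _).trans (hdiff n)
      have e1 : ((n : ℂ) - coeff n f).re
          = ((n : ℂ) - ell n r (fun z => koebe (h z) / (α : ℂ))).re
            + (ell n r (fun z => koebe (h z) / (α : ℂ)) - coeff n f).re := by
        simp only [Complex.sub_re]; ring
      rw [e1]
      refine (abs_add_le _ _).trans ?_
      exact add_le_add (l2.trans (Bd_mono n hr0 hr1 le_rfl l1 hD2)) h1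
    · have e1 : coeff n f = ell n r (fun z => koebe (h z) / (α : ℂ))
          - (ell n r (fun z => koebe (h z) / (α : ℂ)) - coeff n f) := by ring
      rw [e1]
      refine (norm_sub_le _ _).trans ?_
      exact add_le_add l3 (hdiff n)
    · have e1 : (n : ℂ) - coeff n f
          = ((n : ℂ) - ell n r (fun z => koebe (h z) / (α : ℂ)))
            + (ell n r (fun z => koebe (h z) / (α : ℂ)) - coeff n f) := by ring
      rw [e1]
      refine (norm_add_le _ _).trans ?_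
      exact add_le_add (l4.trans (Bn_mono n hr0 hr1 l1 hD2)) (hdiff n)
  have lim : ∀ {G : ℝ → ℝ} {x y : ℝ}, Continuous G → G 0 = y → (∀ ε : ℝ, 0 < ε → x ≤ G ε) →
      x ≤ y := by
    intro G x y hG hG0 hx
    have ht : Tendsto G (𝓝[>] 0) (𝓝 (G 0)) := (hG.tendsto 0).mono_left nhdsWithin_le_nhds
    rw [hG0] at ht
    apply ge_of_tendsto ht
    filter_upwards [self_mem_nhdsWithin] with ε hε
    exact hx ε hε
  refine ⟨?_, ?_, ?_, ?_⟩
  · exact lim (G := fun ε => D + K₁ * ε) (by fun_prop) (by simp) (fun ε hε => (hev ε hε).1)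
  · apply lim (G := fun ε => Bd n r 0 (D + K₁ * ε) + K₂ * ε) _ (by simp)
      (fun ε hε => (hev ε hε).2.1)
    have h1 : Continuous (fun ε : ℝ => ((0 : ℝ), D + K₁ * ε)) := by fun_prop
    exact ((Bd_cont n r).comp h1).add (by fun_prop)
  · exact lim (G := fun ε => K₂ * (2 * r / (1 - r)) + K₂ * ε) (by fun_prop) (by simp)
      (fun ε hε => (hev ε hε).2.2.1)
  · apply lim (G := fun ε => Bn n r (D + K₁ * ε) + K₂ * ε) _ (by simp)
      (fun ε hε => (hev ε hε).2.2.2)
    have h1 : Continuous (fun ε : ℝ => D + K₁ * ε) := by fun_prop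
    exact ((Bn_cont n r).comp h1).add (by fun_prop)

/-- `(1 - 1/n)^{-n} ≤ 6` -/
theorem inv_pow_le {n : ℕ} (hn : 2 ≤ n) : ((1 - 1 / (n : ℝ)) ^ n)⁻¹ ≤ 6 := by
  obtain ⟨k, rfl⟩ : ∃ k, n = k + 1 := ⟨n - 1, by omega⟩
  have hk : 1 ≤ k := by omega
  have hk0 : (0 : ℝ) < k := by exact_mod_cast hk
  have e1 : 1 - 1 / ((k + 1 : ℕ) : ℝ) = (1 + 1 / (k : ℝ))⁻¹ := by
    push_cast
    field_simp
    ring
  rw [e1, inv_pow, inv_inv, pow_succ]
  have h1 : (1 + 1 / (k : ℝ)) ^ k ≤ Real.exp 1 := by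
    have h2 := Real.add_one_le_exp (1 / (k : ℝ))
    have h3 : (1 + 1 / (k : ℝ)) ^ k ≤ (Real.exp (1 / (k : ℝ))) ^ k := by
      apply pow_le_pow_left₀ (by positivity)
      linarith
    rw [← Real.exp_nat_mul] at h3
    have h4 : (k : ℝ) * (1 / k) = 1 := by field_simp
    rwa [h4] at h3
  have h2 : Real.exp 1 ≤ 3 := by
    have := Real.exp_one_lt_d9
    linarith
  have h3 : 1 + 1 / (k : ℝ) ≤ 2 := by
    have : 1 / (k : ℝ) ≤ 1 := by
      rw [div_le_one hk0]; exact_mod_cast hk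
    linarith
  calc (1 + 1 / (k : ℝ)) ^ k * (1 + 1 / (k : ℝ)) ≤ 3 * 2 :=
        mul_le_mul (h1.trans h2) h3 (by positivity) (by norm_num)
    _ = 6 := by norm_num

theorem theorem_U {n : ℕ} (hn : 2 ≤ n) {f : ℂ → ℂ} (hf : ClassS f) :
    |((n : ℂ) - coeff n f).re| ≤ 20000 * (n : ℝ) ^ 3 * Real.log n * (2 - coeff 2 f).re := by
  have hn0 : (0 : ℝ) < n := by exact_mod_cast (by omega : 0 < n)
  have hn2 : (2 : ℝ) ≤ n := by exact_mod_cast hn
  have hr0 : 0 < 1 - 1 / (n : ℝ) := by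
    have : 1 / (n : ℝ) ≤ 1 / 2 := one_div_le_one_div_of_le (by norm_num) hn2
    linarith
  have hr1 : 1 - 1 / (n : ℝ) < 1 := by
    have : 0 < 1 / (n : ℝ) := by positivity
    linarith
  obtain ⟨h1, h2, h3, _⟩ := class_form n hr0 hr1 hf
  have hR := inv_pow_le hn
  set R := ((1 - 1 / (n : ℝ)) ^ n)⁻¹ with hRdef
  have hR0 : 0 < R := by positivity
  have e0 : (2 - coeff 2 f).re = 2 - (coeff 2 f).re := by simp
  rw [e0]
  set D := 2 - (coeff 2 f).re with hD
  set x : ℝ := (n : ℝ) with hx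
  set lg := Real.log x with hlg
  have hlg0 : 1 / 2 ≤ lg := by
    have a1 : Real.log 2 ≤ lg := Real.log_le_log (by norm_num) hn2
    have a2 := Real.log_two_gt_d9
    linarith
  have e1 : (1 - 1 / x) / (1 - (1 - 1 / x)) ^ 2 = x * (x - 1) := by
    field_simp
    ring
  have e2 : ∀ c : ℝ, c * (1 - 1 / x) / (1 - (1 - 1 / x)) = c * (x - 1) := by
    intro c
    field_simp
    ring
  have hlog : Real.log (1 + 2 * (x * (x - 1))) ≤ 4 * lg := by
    have a1 : 1 + 2 * (x * (x - 1)) ≤ x ^ 4 := by nlinarith [mul_pos hn0 hn0, sq_nonneg (x - 2)]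
    have a2 : 0 < 1 + 2 * (x * (x - 1)) := by nlinarith
    refine (Real.log_le_log a2 a1).trans (le_of_eq ?_)
    rw [Real.log_pow, ← hlg]
    norm_num
  rw [e2] at h3
  rcases le_or_gt (x ^ 2 * D) lg with hc | hc
  · -- small defect
    refine h2.trans ?_
    unfold Bd
    rw [e1, e2, e2]
    set ℓ := Real.log (1 + 2 * (x * (x - 1))) with hℓ
    have hℓ0 : 0 ≤ ℓ := by
      apply Real.log_nonneg
      nlinarith
    have s1 : Real.sqrt (D * (2 * ℓ)) ≤ Real.sqrt (D * lg) * 3 := by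
      have : Real.sqrt (D * lg) * 3 = Real.sqrt (D * lg * 9) := by
        rw [show (9 : ℝ) = 3 ^ 2 by norm_num, Real.sqrt_mul' (D * lg) (sq_nonneg 3),
          Real.sqrt_sq (by norm_num)]
      rw [this]
      apply Real.sqrt_le_sqrt
      nlinarith
    have s2 : Real.sqrt (D * (4 * ℓ)) ≤ Real.sqrt (D * lg) * 4 := by
      have : Real.sqrt (D * lg) * 4 = Real.sqrt (D * lg * 16) := by
        rw [show (16 : ℝ) = 4 ^ 2 by norm_num, Real.sqrt_mul' (D * lg) (sq_nonneg 4),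
          Real.sqrt_sq (by norm_num)]
      rw [this]
      apply Real.sqrt_le_sqrt
      nlinarith
    have s3 : Real.sqrt (2 * (x * (x - 1))) ≤ 2 * x := by
      rw [Real.sqrt_le_left (by positivity)]
      nlinarith
    set s := Real.sqrt (D * lg) with hs
    have hs0 : 0 ≤ s := Real.sqrt_nonneg _
    have hs2 : s ^ 2 = D * lg := Real.sq_sqrt (by positivity)
    have hxs : x * s ≤ lg := by
      have : (x * s) ^ 2 ≤ lg ^ 2 := by
        rw [mul_pow, hs2]
        nlinarith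
      exact (pow_le_pow_iff_left₀ (by positivity) (by positivity) two_ne_zero).1 this
    have hRx : R * (2 * (x * (x - 1))) * (x - 1) ≤ 12 * x ^ 3 := by
      have a1 : R * (2 * (x * (x - 1))) * (x - 1) ≤ 6 * (2 * (x * (x - 1))) * (x - 1) := by
        apply mul_le_mul_of_nonneg_right _ (by linarith)
        apply mul_le_mul_of_nonneg_right hR
        nlinarith
      have a2 : (x * (x - 1)) * (x - 1) ≤ x ^ 3 := by nlinarith [mul_pos hn0 hn0]
      nlinarith
    have hRx0 : 0 ≤ R * (2 * (x * (x - 1))) * (x - 1) := by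
      have : 0 ≤ x - 1 := by linarith
      positivity
    set W := R * (2 * (x * (x - 1))) * (x - 1) with hW
    have t1 : D * ((4 * (R * (2 * (x * (x - 1)) * (3 * (1 * (x - 1))))) + R * 0) / 2
          + R * (2 * (x * (x - 1)) * (3 * (2 * (x - 1))))) = 12 * (D * W) := by
      rw [hW]; ring
    have t2 : R * (8 * (2 * (x * (x - 1)) * (3 * (2 * (x - 1))))) = 48 * W := by
      rw [hW]; ring
    rw [t1, t2]
    have t3 : 48 * W * Real.sqrt (D * (2 * ℓ)) * (Real.sqrt (D * (4 * ℓ))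
          + Real.sqrt (2 * (x * (x - 1))) * D)
        ≤ 48 * W * (s * 3) * (s * 4 + 2 * x * D) := by
      apply mul_le_mul
      · exact mul_le_mul_of_nonneg_left s1 (by positivity)
      · exact add_le_add s2 (mul_le_mul_of_nonneg_right s3 h1)
      · positivity
      · positivity
    have t4 : (s * 3) * (s * 4 + 2 * x * D) ≤ 18 * (D * lg) := by
      have : (s * 3) * (s * 4 + 2 * x * D) = 12 * s ^ 2 + 6 * (x * s) * D := by ring
      rw [this, hs2]
      have := mul_le_mul_of_nonneg_right hxs h1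
      nlinarith
    have t5 : 48 * W * (s * 3) * (s * 4 + 2 * x * D) ≤ 48 * W * (18 * (D * lg)) := by
      rw [mul_assoc (48 * W)]
      exact mul_le_mul_of_nonneg_left t4 (by positivity)
    have t6 : D * W ≤ 2 * (D * lg) * W := by
      have : D ≤ 2 * (D * lg) := by nlinarith
      exact mul_le_mul_of_nonneg_right this hRx0
    have t7 : W * (D * lg) ≤ 12 * x ^ 3 * (D * lg) := mul_le_mul_of_nonneg_right hRx (by positivity)
    have hpos : 0 ≤ x ^ 3 * (D * lg) := by positivity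
    have fin : 12 * (D * W) + 48 * W * Real.sqrt (D * (2 * ℓ)) * (Real.sqrt (D * (4 * ℓ))
          + Real.sqrt (2 * (x * (x - 1))) * D) ≤ 10664 * (x ^ 3 * (D * lg)) := by
      nlinarith
    nlinarith
  · -- large defect
    have a1 : |((n : ℂ) - coeff n f).re| ≤ x + 12 * x := by
      refine (Complex.abs_re_le_norm _).trans ((norm_sub_le _ _).trans ?_)
      have a2 : ‖(n : ℂ)‖ = x := by simp [hx]
      rw [a2]
      have a3 : R * (2 * (x - 1)) ≤ 12 * x := by
        have : R * (2 * (x - 1)) ≤ 6 * (2 * (x - 1)) :=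
          mul_le_mul_of_nonneg_right hR (by linarith)
        linarith
      linarith [h3.trans a3]
    have a4 : 13 * x ≤ 13 * x * (4 * lg * (x ^ 2 * D)) := by
      have : 1 ≤ 4 * lg * (x ^ 2 * D) := by nlinarith
      nlinarith
    have hpos : 0 ≤ x ^ 3 * (D * lg) := by positivity
    nlinarith

end Pool.Agent.Helper64.C3
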