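import Pool.Agent.Helper64.C3.UpperN

set_option autoImplicit false

open Metric Set Filter Topology Asymptotics

namespace Pool.Agent.Helper64.C3

/-! the inequality for the moduli of the coefficients -/

theorem circleAverage_rot {F : ℂ → ℂ} {r : ℝ} {u : ℂ} (hu : ‖u‖ = 1) :
    Real.circleAverage (fun z => F (u * z)) 0 r = Real.circleAverage F 0 r := by
  rw [Real.circleAverage_eq_integral_add (f := F) (Complex.arg u), Real.circleAverage_def]
  congr 2
  ext θ
  congr 1
  have h1 := Complex.norm_mul_exp_arg_mul_I u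
  rw [hu, Complex.ofReal_one, one_mul] at h1
  nth_rewrite 1 [← h1]
  unfold circleMap
  push_cast
  rw [zero_add, zero_add, add_mul, Complex.exp_add]
  ring

theorem ell_rot {n : ℕ} {r : ℝ} (hr : 0 < r) {u : ℂ} (hu : ‖u‖ = 1) (f : ℂ → ℂ) :
    ell n r (M6.rotf u f) = u⁻¹ * u ^ n * ell n r f := by
  have hu0 : u ≠ 0 := by
    intro h; rw [h, norm_zero] at hu; exact zero_ne_one hu
  unfold ell
  have h1 := Real.circleAverage_fun_smul (c := (0 : ℂ)) (R := r) (a := u⁻¹ * u ^ n)
    (f := fun z => f z * (z ^ n)⁻¹)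
  simp only [smul_eq_mul] at h1
  rw [← h1, ← circleAverage_rot (F := fun z => u⁻¹ * u ^ n * (f z * (z ^ n)⁻¹)) hu]
  apply Real.circleAverage_congr_sphere
  intro z hz
  rw [abs_of_pos hr] at hz
  have hz0 : z ≠ 0 := by
    intro h
    rw [h] at hz
    simp at hz
    exact hr.ne hz
  simp only [M6.rotf]
  rw [mul_pow]
  field_simp

theorem classS_rot {f : ℂ → ℂ} (hf : ClassS f) {u : ℂ} (hu : ‖u‖ = 1) : ClassS (M6.rotf u f) := by
  obtain ⟨hd, hi, h0, h1⟩ := hf
  have hu0 : u ≠ 0 := by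
    intro h; rw [h, norm_zero] at hu; exact zero_ne_one hu
  refine ⟨M6.rotf_diff hu hd, M6.rotf_inj hu hi, M6.rotf_zero u h0, ?_⟩
  have h0b : (0 : ℂ) ∈ ball (0 : ℂ) 1 := by simp
  have a1 : HasDerivAt f 1 (u * 0) := by
    rw [mul_zero, ← h1]
    exact (hd.differentiableAt (isOpen_ball.mem_nhds h0b)).hasDerivAt
  have a2 : HasDerivAt (fun z : ℂ => u * z) u 0 := by
    simpa using (hasDerivAt_id (0 : ℂ)).const_mul u
  have a3 := (a1.comp 0 a2).const_mul u⁻¹
  have a4 : HasDerivAt (M6.rotf u f) (u⁻¹ * (1 * u)) 0 := a3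
  rw [a4.deriv]
  field_simp

theorem coeff_rot {f : ℂ → ℂ} (hf : ClassS f) {u : ℂ} (hu : ‖u‖ = 1) (n : ℕ) :
    coeff n (M6.rotf u f) = u⁻¹ * u ^ n * coeff n f := by
  have hr0 : (0 : ℝ) < 1 / 2 := by norm_num
  have hr1 : (1 / 2 : ℝ) < 1 := by norm_num
  rw [← ell_eq_coeff hr0 hr1 (classS_rot hf hu).1, ← ell_eq_coeff hr0 hr1 hf.1]
  exact ell_rot hr0 hu f

theorem rotate {f : ℂ → ℂ} (hf : ClassS f) :
    ∃ g : ℂ → ℂ, ClassS g ∧ coeff 2 g = (‖coeff 2 f‖ : ℂ) ∧ ∀ n, ‖coeff n g‖ = ‖coeff n f‖ := by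
  obtain ⟨u, hu, hu2⟩ : ∃ u : ℂ, ‖u‖ = 1 ∧ u * coeff 2 f = (‖coeff 2 f‖ : ℂ) := by
    by_cases h : coeff 2 f = 0
    · exact ⟨1, by simp, by rw [h]; simp⟩
    · refine ⟨(starRingEnd ℂ) (coeff 2 f) / ‖coeff 2 f‖, ?_, ?_⟩
      · rw [norm_div, RCLike.norm_conj, Complex.norm_real, norm_norm, div_self]
        exact norm_ne_zero_iff.2 h
      · have h1 : (‖coeff 2 f‖ : ℂ) ≠ 0 := by
          exact_mod_cast norm_ne_zero_iff.2 h
        rw [div_mul_eq_mul_div, div_eq_iff h1, mul_comm, Complex.mul_conj,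
          Complex.normSq_eq_norm_sq]
        push_cast; ring
  have hu0 : u ≠ 0 := by
    intro h; rw [h, norm_zero] at hu; exact zero_ne_one hu
  refine ⟨M6.rotf u f, classS_rot hf hu, ?_, ?_⟩
  · rw [coeff_rot hf hu, ← hu2]
    field_simp
  · intro n
    rw [coeff_rot hf hu, norm_mul, norm_mul, norm_inv, norm_pow, hu]
    simp

theorem theorem_Q2 {n : ℕ} (hn : 2 ≤ n) {f : ℂ → ℂ} (hf : ClassS f) :
    |(n : ℝ) - ‖coeff n f‖| ≤ 200000000 * (n : ℝ) ^ 3 * Real.log n * (2 - ‖coeff 2 f‖) := by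
  obtain ⟨g, hg, hg2, hgn⟩ := rotate hf
  rw [← hgn n]
  have hre2 : (coeff 2 g).re = ‖coeff 2 f‖ := by rw [hg2, Complex.ofReal_re]
  have hU := theorem_U hn hg
  have hn0 : (0 : ℝ) < n := by exact_mod_cast (by omega : 0 < n)
  have hn2 : (2 : ℝ) ≤ n := by exact_mod_cast hn
  have hr0 : 0 < 1 - 1 / (n : ℝ) := by
    have : 1 / (n : ℝ) ≤ 1 / 2 := one_div_le_one_div_of_le (by norm_num) hn2
    linarith
  have hr1 : 1 - 1 / (n : ℝ) < 1 := by
    have : 0 < 1 / (n : ℝ) := by positivity
    linarith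
  obtain ⟨h1, _, h3, h2⟩ := class_form n hr0 hr1 hg
  have hR := inv_pow_le hn
  set R := ((1 - 1 / (n : ℝ)) ^ n)⁻¹ with hRdef
  have hR0 : 0 < R := by positivity
  have e0 : (2 - coeff 2 g).re = 2 - (coeff 2 g).re := by simp
  rw [e0] at hU
  rw [hre2] at h1 h2 hU
  set D := 2 - ‖coeff 2 f‖ with hD
  set x : ℝ := (n : ℝ) with hx
  set lg := Real.log x with hlg
  have hlg0 : 1 / 2 ≤ lg := by
    have a1 : Real.log 2 ≤ lg := Real.log_le_log (by norm_num) hn2
    have a2 := Real.log_two_gt_d9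
    linarith
  have e1 : (1 - 1 / x) / (1 - (1 - 1 / x)) ^ 2 = x * (x - 1) := by
    field_simp
    ring
  have e2 : ∀ c : ℝ, c * (1 - 1 / x) / (1 - (1 - 1 / x)) = c * (x - 1) := by
    intro c
    field_simp
    ring
  have hlog : Real.log (1 + 2 * (x * (x - 1))) ≤ 4 * lg := by
    have a1 : 1 + 2 * (x * (x - 1)) ≤ x ^ 4 := by nlinarith [mul_pos hn0 hn0, sq_nonneg (x - 2)]
    have a2 : 0 < 1 + 2 * (x * (x - 1)) := by nlinarith
    refine (Real.log_le_log a2 a1).trans (le_of_eq ?_)
    rw [Real.log_pow, ← hlg]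
    norm_num
  rw [e2] at h3
  have hpos : 0 ≤ x ^ 3 * (D * lg) := by positivity
  rcases le_or_gt (x ^ 2 * (D * lg)) 1 with hc | hc
  · -- small defect
    have hN : ‖(n : ℂ) - coeff n g‖ ≤ 15000 * (x ^ 2 * Real.sqrt (D * lg)) := by
      refine h2.trans ?_
      unfold Bn
      rw [e1, e2, e2]
      set ℓ := Real.log (1 + 2 * (x * (x - 1))) with hℓ
      have hℓ0 : 0 ≤ ℓ := by
        apply Real.log_nonneg
        nlinarith
      have s1 : Real.sqrt (D * (2 * ℓ)) ≤ Real.sqrt (D * lg) * 3 := by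
        have : Real.sqrt (D * lg) * 3 = Real.sqrt (D * lg * 9) := by
          rw [show (9 : ℝ) = 3 ^ 2 by norm_num, Real.sqrt_mul' (D * lg) (sq_nonneg 3),
            Real.sqrt_sq (by norm_num)]
        rw [this]
        apply Real.sqrt_le_sqrt
        nlinarith
      have s2 : Real.sqrt (D * (4 * ℓ)) ≤ Real.sqrt (D * lg) * 4 := by
        have : Real.sqrt (D * lg) * 4 = Real.sqrt (D * lg * 16) := by
          rw [show (16 : ℝ) = 4 ^ 2 by norm_num, Real.sqrt_mul' (D * lg) (sq_nonneg 4),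
            Real.sqrt_sq (by norm_num)]
        rw [this]
        apply Real.sqrt_le_sqrt
        nlinarith
      have s3 : Real.sqrt (2 * (x * (x - 1))) ≤ 2 * x := by
        rw [Real.sqrt_le_left (by positivity)]
        nlinarith
      set s := Real.sqrt (D * lg) with hs
      have hs0 : 0 ≤ s := Real.sqrt_nonneg _
      have hs2 : s ^ 2 = D * lg := Real.sq_sqrt (by positivity)
      have hxs : x * s ≤ 1 := by
        have : (x * s) ^ 2 ≤ 1 ^ 2 := by
          rw [mul_pow, hs2]
          linarith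
        exact (pow_le_pow_iff_left₀ (by positivity) (by positivity) two_ne_zero).1 this
      have hx1 : 0 ≤ x - 1 := by linarith
      have hRx : R * (2 * (x * (x - 1))) * (x - 1) ≤ 12 * x ^ 3 := by
        have a1 : R * (2 * (x * (x - 1))) * (x - 1) ≤ 6 * (2 * (x * (x - 1))) * (x - 1) := by
          apply mul_le_mul_of_nonneg_right _ (by linarith)
          apply mul_le_mul_of_nonneg_right hR
          nlinarith
        have a2 : (x * (x - 1)) * (x - 1) ≤ x ^ 3 := by nlinarith [mul_pos hn0 hn0]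
        nlinarith
      have hRx0 : 0 ≤ R * (2 * (x * (x - 1))) * (x - 1) := by positivity
      set W := R * (2 * (x * (x - 1))) * (x - 1) with hW
      have b1 : R * (8 * (Real.sqrt (2 * (x * (x - 1))) * (3 * (1 * (x - 1)))))
          * Real.sqrt (D * (2 * ℓ)) ≤ 864 * (x ^ 2 * s) := by
        have c1 : R * (8 * (Real.sqrt (2 * (x * (x - 1))) * (3 * (1 * (x - 1)))))
            ≤ 6 * (8 * ((2 * x) * (3 * (1 * x)))) := by
          apply mul_le_mul hR _ (by positivity) (by norm_num)
          apply mul_le_mul_of_nonneg_left _ (by norm_num)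
          apply mul_le_mul s3 (by linarith) (by positivity) (by positivity)
        calc R * (8 * (Real.sqrt (2 * (x * (x - 1))) * (3 * (1 * (x - 1)))))
              * Real.sqrt (D * (2 * ℓ)) ≤ 6 * (8 * ((2 * x) * (3 * (1 * x)))) * (s * 3) :=
              mul_le_mul c1 s1 (Real.sqrt_nonneg _) (by positivity)
          _ = 864 * (x ^ 2 * s) := by ring
      have hxss : x ^ 3 * s ^ 2 ≤ x ^ 2 * s := by
        have : x ^ 3 * s ^ 2 = (x ^ 2 * s) * (x * s) := by ring
        rw [this]
        have := mul_le_mul_of_nonneg_left hxs (by positivity : 0 ≤ x ^ 2 * s)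
        linarith
      have hDs : D ≤ 2 * s ^ 2 := by rw [hs2]; nlinarith
      have b2 : D * (R * (2 * (x * (x - 1)) * (3 * (2 * (x - 1))))) ≤ 144 * (x ^ 2 * s) := by
        have c1 : D * (R * (2 * (x * (x - 1)) * (3 * (2 * (x - 1))))) = 6 * (D * W) := by
          rw [hW]; ring
        rw [c1]
        have c2 : D * W ≤ (2 * s ^ 2) * (12 * x ^ 3) := mul_le_mul hDs hRx hRx0 (by positivity)
        nlinarith
      have b3 : R * (8 * (2 * (x * (x - 1)) * (3 * (2 * (x - 1))))) * Real.sqrt (D * (2 * ℓ))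
            * (Real.sqrt (D * (4 * ℓ)) + Real.sqrt (2 * (x * (x - 1))) * D)
          ≤ 13824 * (x ^ 2 * s) := by
        have t2 : R * (8 * (2 * (x * (x - 1)) * (3 * (2 * (x - 1))))) = 48 * W := by
          rw [hW]; ring
        rw [t2]
        have t3 : 48 * W * Real.sqrt (D * (2 * ℓ)) * (Real.sqrt (D * (4 * ℓ))
              + Real.sqrt (2 * (x * (x - 1))) * D)
            ≤ 48 * W * (s * 3) * (s * 4 + 2 * x * D) := by
          apply mul_le_mul
          · exact mul_le_mul_of_nonneg_left s1 (by positivity)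
          · exact add_le_add s2 (mul_le_mul_of_nonneg_right s3 h1)
          · positivity
          · positivity
        have t4 : (s * 3) * (s * 4 + 2 * x * D) ≤ 24 * s ^ 2 := by
          have : (s * 3) * (s * 4 + 2 * x * D) = 12 * s ^ 2 + 6 * (x * s) * D := by ring
          rw [this]
          have := mul_le_mul_of_nonneg_right hxs h1
          nlinarith
        have t5 : 48 * W * (s * 3) * (s * 4 + 2 * x * D) ≤ 48 * W * (24 * s ^ 2) := by
          rw [mul_assoc (48 * W)]
          exact mul_le_mul_of_nonneg_left t4 (by positivity)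
        have t6 : W * s ^ 2 ≤ 12 * x ^ 3 * s ^ 2 := mul_le_mul_of_nonneg_right hRx (by positivity)
        nlinarith
      have hpp : 0 ≤ x ^ 2 * s := by positivity
      linarith
    set b := coeff n g with hb
    have hs2 : Real.sqrt (D * lg) ^ 2 = D * lg := Real.sq_sqrt (by positivity)
    set s := Real.sqrt (D * lg) with hs
    have hs0 : 0 ≤ s := Real.sqrt_nonneg _
    have hre : |x - b.re| ≤ 20000 * (x ^ 3 * (D * lg)) := by
      have : ((n : ℂ) - b).re = x - b.re := by simp [hx]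
      rw [this] at hU
      refine hU.trans (le_of_eq ?_)
      ring
    have him : |b.im| ≤ 15000 * (x ^ 2 * s) := by
      have h4 : ((n : ℂ) - b).im = -b.im := by simp
      have h5 := (Complex.abs_im_le_norm _).trans hN
      rwa [h4, abs_neg] at h5
    set E := x ^ 3 * (D * lg) with hE
    have hup : ‖b‖ ≤ x + 200000000 * E := by
      apply le_of_sq_le_sq _ (by positivity)
      rw [← Complex.normSq_eq_norm_sq, Complex.normSq_apply]
      have r1 : b.re ≤ x + 20000 * E := by
        have := (abs_le.1 hre).1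
        linarith
      have r2 : -(x + 20000 * E) ≤ b.re := by
        have := (abs_le.1 hre).2
        linarith
      have r3 : b.re * b.re ≤ (x + 20000 * E) ^ 2 := by nlinarith
      have r4 : b.im * b.im ≤ 225000000 * (x * E) := by
        have h5 : b.im * b.im = |b.im| ^ 2 := by rw [sq_abs]; ring
        rw [h5]
        have h6 : |b.im| ^ 2 ≤ (15000 * (x ^ 2 * s)) ^ 2 :=
          pow_le_pow_left₀ (abs_nonneg _) him 2
        have h7 : (15000 * (x ^ 2 * s)) ^ 2 = 225000000 * (x * E) := by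
          rw [hE, ← hs2]; ring
        linarith
      have r5 : (x + 20000 * E) ^ 2 + 225000000 * (x * E) ≤ (x + 200000000 * E) ^ 2 := by
        have : 0 ≤ x * E := by positivity
        nlinarith [sq_nonneg E]
      linarith
    have hlow : x - ‖b‖ ≤ 20000 * E := by
      have := Complex.re_le_norm b
      have := (abs_le.1 hre).2
      linarith
    rw [abs_le]
    constructor
    · have : 200000000 * x ^ 3 * lg * D = 200000000 * E := by rw [hE]; ring
      linarith
    · have : 200000000 * x ^ 3 * lg * D = 200000000 * E := by rw [hE]; ring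
      linarith
  · -- large defect
    have a1 : |x - ‖coeff n g‖| ≤ x + 12 * x := by
      refine (abs_sub _ _).trans ?_
      rw [abs_of_pos hn0, abs_norm]
      have a3 : R * (2 * (x - 1)) ≤ 12 * x := by
        have : R * (2 * (x - 1)) ≤ 6 * (2 * (x - 1)) :=
          mul_le_mul_of_nonneg_right hR (by linarith)
        linarith
      linarith [h3.trans a3]
    have a4 : 13 * x ≤ 13 * x * (x ^ 2 * (D * lg)) := by nlinarith
    nlinarith

end Pool.Agent.Helper64.C3
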