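import Pool.Agent.Helper64.C3.Defs2

set_option autoImplicit false

open Metric Set Filter Topology Asymptotics Real

namespace Pool.Agent.Helper64.C3

/-! U-A: the coefficient functional as a circle average -/

/-- `(1/2π) ∫ g(z) z^{-n} dθ` over `|z| = r` -/
noncomputable def ell (n : ℕ) (r : ℝ) (g : ℂ → ℂ) : ℂ :=
  Real.circleAverage (fun z => g z * (z ^ n)⁻¹) 0 r

theorem ell_integrable {n : ℕ} {r : ℝ} (hr : 0 < r) {g : ℂ → ℂ} (hg : ContinuousOn g (sphere 0 r)) :
    CircleIntegrable (fun z => g z * (z ^ n)⁻¹) 0 r := by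
  apply ContinuousOn.circleIntegrable hr.le
  apply hg.mul
  apply ContinuousOn.inv₀ (by fun_prop)
  intro z hz
  apply pow_ne_zero
  intro h
  rw [h] at hz
  simp at hz
  exact hr.ne hz

theorem ell_sub {n : ℕ} {r : ℝ} (hr : 0 < r) {g h : ℂ → ℂ} (hg : ContinuousOn g (sphere 0 r))
    (hh : ContinuousOn h (sphere 0 r)) : ell n r (fun z => g z - h z) = ell n r g - ell n r h := by
  unfold ell
  rw [← Real.circleAverage_fun_sub (ell_integrable hr hg) (ell_integrable hr hh)]
  congr 1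
  ext z
  ring

theorem ell_add {n : ℕ} {r : ℝ} (hr : 0 < r) {g h : ℂ → ℂ} (hg : ContinuousOn g (sphere 0 r))
    (hh : ContinuousOn h (sphere 0 r)) : ell n r (fun z => g z + h z) = ell n r g + ell n r h := by
  unfold ell
  rw [← Real.circleAverage_fun_add (ell_integrable hr hg) (ell_integrable hr hh)]
  congr 1
  ext z
  ring

theorem ell_const_mul (n : ℕ) (r : ℝ) (c : ℂ) (g : ℂ → ℂ) :
    ell n r (fun z => c * g z) = c * ell n r g := by
  unfold ell
  have := Real.circleAverage_fun_smul (c := (0 : ℂ)) (R := r) (a := c)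
    (f := fun z => g z * (z ^ n)⁻¹)
  simp only [smul_eq_mul] at this
  rw [← this]
  congr 1
  ext z
  ring

theorem ell_congr {n : ℕ} {r : ℝ} (hr : 0 < r) {g h : ℂ → ℂ} (hgh : ∀ z ∈ sphere (0 : ℂ) r, g z = h z) :
    ell n r g = ell n r h := by
  unfold ell
  apply Real.circleAverage_congr_sphere
  rw [abs_of_pos hr]
  intro z hz
  simp only
  rw [hgh z hz]

theorem norm_ell_le {n : ℕ} {r : ℝ} (hr : 0 < r) {g : ℂ → ℂ} (hg : ContinuousOn g (sphere 0 r))
    {G : ℂ → ℝ} (hG : ContinuousOn G (sphere 0 r)) (h : ∀ z ∈ sphere (0 : ℂ) r, ‖g z‖ ≤ G z) :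
    ‖ell n r g‖ ≤ (r ^ n)⁻¹ * Real.circleAverage G 0 r := by
  have h1 : ‖ell n r g‖ ≤ Real.circleAverage (fun z => ‖g z * (z ^ n)⁻¹‖) 0 r := by
    unfold ell Real.circleAverage
    rw [norm_smul, Real.norm_of_nonneg (by positivity), smul_eq_mul]
    apply mul_le_mul_of_nonneg_left _ (by positivity)
    exact intervalIntegral.norm_integral_le_integral_norm (by positivity)
  refine h1.trans ?_
  have h2 : (r ^ n)⁻¹ * Real.circleAverage G 0 r
      = Real.circleAverage (fun z => (r ^ n)⁻¹ • G z) 0 r := by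
    rw [Real.circleAverage_fun_smul, smul_eq_mul]
  rw [h2]
  apply Real.circleAverage_mono
  · exact ((ell_integrable (n := n) hr hg)).norm
  · apply ContinuousOn.circleIntegrable hr.le
    exact continuousOn_const.mul hG
  · intro z hz
    rw [abs_of_pos hr] at hz
    rw [norm_mul, norm_inv, norm_pow, mem_sphere_zero_iff_norm.1 hz, smul_eq_mul, mul_comm]
    exact mul_le_mul_of_nonneg_left (h z hz) (by positivity)

theorem norm_ell_le_const {n : ℕ} {r : ℝ} (hr : 0 < r) {g : ℂ → ℂ}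
    (hg : ContinuousOn g (sphere 0 r)) {B : ℝ} (h : ∀ z ∈ sphere (0 : ℂ) r, ‖g z‖ ≤ B) :
    ‖ell n r g‖ ≤ (r ^ n)⁻¹ * B := by
  have := norm_ell_le (n := n) hr hg (G := fun _ => B) continuousOn_const h
  rwa [Real.circleAverage_const] at this

theorem ell_real {n : ℕ} {r : ℝ} (hr : 0 < r) {g : ℂ → ℂ} (hg : ContinuousOn g (sphere 0 r))
    (h : ∀ z ∈ sphere (0 : ℂ) r, g ((starRingEnd ℂ) z) = (starRingEnd ℂ) (g z)) :
    (ell n r g).im = 0 := by
  have h1 : (starRingEnd ℂ) (ell n r g) = ell n r g := by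
    unfold ell
    have e1 := ContinuousLinearMap.circleAverage_comp_comm
      (Complex.conjCLE : ℂ →L[ℝ] ℂ) (ell_integrable (n := n) hr hg)
    have e2 : (Complex.conjCLE : ℂ →L[ℝ] ℂ) (Real.circleAverage (fun z => g z * (z ^ n)⁻¹) 0 r)
        = (starRingEnd ℂ) (Real.circleAverage (fun z => g z * (z ^ n)⁻¹) 0 r) := rfl
    rw [← e2, ← e1]
    rw [Real.circleAverage_eq_circleAverage_zero_one
        (f := (Complex.conjCLE : ℂ →L[ℝ] ℂ) ∘ fun z => g z * (z ^ n)⁻¹),
      Real.circleAverage_eq_circleAverage_zero_one (f := fun z => g z * (z ^ n)⁻¹)]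
    rw [← Real.circleAverage_zero_one_congr_inv
      (f := fun z => g (r * z + 0) * ((r * z + 0) ^ n)⁻¹)]
    apply Real.circleAverage_congr_sphere
    intro z hz
    rw [abs_one] at hz
    have hz1 : ‖z‖ = 1 := mem_sphere_zero_iff_norm.1 hz
    have hinv : z⁻¹ = (starRingEnd ℂ) z := by
      rw [Complex.inv_def, Complex.normSq_eq_norm_sq, hz1]
      simp
    have hrz : (r : ℂ) * z ∈ sphere (0 : ℂ) r := by
      rw [mem_sphere_zero_iff_norm, norm_mul, Complex.norm_real, Real.norm_of_nonneg hr.le, hz1,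
        mul_one]
    show (starRingEnd ℂ) (g (r * z + 0) * ((r * z + 0) ^ n)⁻¹)
      = g (r * z⁻¹ + 0) * ((r * z⁻¹ + 0) ^ n)⁻¹
    rw [hinv, add_zero, add_zero]
    have h3 : (r : ℂ) * (starRingEnd ℂ) z = (starRingEnd ℂ) (r * z) := by
      rw [map_mul, Complex.conj_ofReal]
    rw [h3, h _ hrz, map_mul, map_inv₀, map_pow]
  exact Complex.conj_eq_iff_im.1 h1

theorem ell_eq_coeff {n : ℕ} {r : ℝ} (hr : 0 < r) (hr1 : r < 1) {g : ℂ → ℂ}
    (hg : DifferentiableOn ℂ g (ball 0 1)) : ell n r g = coeff n g := by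
  have h0 : (0 : ℂ) ∈ ball (0 : ℂ) 1 := by simp
  have h1 : DifferentiableOn ℂ g (closedBall 0 r) := hg.mono (closedBall_subset_ball hr1)
  lift r to NNReal using hr.le
  have h2 := h1.hasFPowerSeriesOnBall (by exact_mod_cast hr)
  have h3 := h2.hasFPowerSeriesAt
  have h4 : AnalyticAt ℂ g 0 := h2.analyticAt
  have h5 := h4.hasFPowerSeriesAt
  have h6 := h3.eq_formalMultilinearSeries h5
  have h7 := congrArg (fun p => p.coeff n) h6
  simp only [FormalMultilinearSeries.coeff_ofScalars] at h7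
  have h8 : (cauchyPowerSeries g 0 (r : ℝ)).coeff n
      = (2 * π * Complex.I : ℂ)⁻¹ • ∮ z in C(0, (r : ℝ)), ((1 : ℂ) / (z - 0)) ^ n • (z - 0)⁻¹ • g z :=
    cauchyPowerSeries_apply g 0 (r : ℝ) n 1
  rw [coeff, ← h7, h8, ell, Real.circleAverage_eq_circleIntegral hr.ne']
  congr 1
  simp only [sub_zero, smul_eq_mul]
  apply circleIntegral.integral_congr (by positivity)
  intro z hz
  have hz0 : z ≠ 0 := by
    intro h
    rw [h] at hz
    simp at hz
    exact hr.ne (by exact_mod_cast hz)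
  simp only
  rw [one_div, inv_pow]
  ring

end Pool.Agent.Helper64.C3
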