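import Pool.Agent.Helper64.C3.Coef

set_option autoImplicit false

open Metric Set Filter Topology Asymptotics

namespace Pool.Agent.Helper64.C3

/-! Theorem L: power series with real coefficients -/

/-- `F` has the power series `a` on the unit disc -/
def PS (F : ℂ → ℂ) (a : ℕ → ℝ) : Prop :=
  ∀ z ∈ ball (0 : ℂ) 1, (Summable fun k : ℕ => ‖(a k : ℂ) * z ^ k‖) ∧
    F z = ∑' k : ℕ, (a k : ℂ) * z ^ k

/-- the Cauchy product -/
noncomputable def conv (a b : ℕ → ℝ) (n : ℕ) : ℝ :=
  ∑ kl ∈ Finset.HasAntidiagonal.antidiagonal n, a kl.1 * b kl.2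

theorem PS.mul {F G : ℂ → ℂ} {a b : ℕ → ℝ} (hF : PS F a) (hG : PS G b) :
    PS (fun z => F z * G z) (conv a b) := by
  intro z hz
  obtain ⟨f1, f2⟩ := hF z hz
  obtain ⟨g1, g2⟩ := hG z hz
  have e : ∀ n : ℕ, ∑ kl ∈ Finset.HasAntidiagonal.antidiagonal n, ((a kl.1 : ℂ) * z ^ kl.1) * ((b kl.2 : ℂ) * z ^ kl.2)
      = (conv a b n : ℂ) * z ^ n := by
    intro n
    unfold conv
    push_cast
    rw [Finset.sum_mul]
    apply Finset.sum_congr rfl
    intro kl hkl
    rw [← Finset.HasAntidiagonal.mem_antidiagonal.1 hkl, pow_add]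
    ring
  constructor
  · have := summable_norm_sum_mul_antidiagonal_of_summable_norm f1 g1
    simp_rw [e] at this
    exact this
  · have := tsum_mul_tsum_eq_tsum_sum_antidiagonal_of_summable_norm f1 g1
    simp_rw [e] at this
    show F z * G z = _
    rw [f2, g2]
    exact this

theorem PS.coeff {F : ℂ → ℂ} {a : ℕ → ℝ} (hF : PS F a) (n : ℕ) : coeff n F = (a n : ℂ) := by
  have h0 : (0 : ℂ) ∈ ball (0 : ℂ) 1 := by simp
  have h1 : HasFPowerSeriesAt F
      (FormalMultilinearSeries.ofScalars ℂ (fun n : ℕ => (a n : ℂ))) 0 := by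
    rw [hasFPowerSeriesAt_iff]
    filter_upwards [isOpen_ball.mem_nhds h0] with z hz
    obtain ⟨f1, f2⟩ := hF z hz
    rw [zero_add, f2]
    have := f1.of_norm.hasSum
    refine this.congr_fun ?_ |> fun h => h
    intro n
    rw [FormalMultilinearSeries.coeff_ofScalars, smul_eq_mul, mul_comm]
  have h4 : AnalyticAt ℂ F 0 := h1.analyticAt
  have h5 := h4.hasFPowerSeriesAt
  have h6 := h1.eq_formalMultilinearSeries h5
  have h7 := congrArg (fun p => p.coeff n) h6
  simp only [FormalMultilinearSeries.coeff_ofScalars] at h7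
  rw [C3.coeff, ← h7]

theorem PS_koebe : PS koebe (fun k => k) := by
  intro z hz
  have hz1 : ‖z‖ < 1 := by simpa using hz
  constructor
  · have := summable_norm_pow_mul_geometric_of_norm_lt_one 1 hz1
    simpa using this
  · have := (hasSum_coe_mul_geometric_of_norm_lt_one hz1).tsum_eq
    rw [koebe, ← this]
    simp

/-- the coefficients of `artanh (√w) / √w` -/
noncomputable def lamc (k : ℕ) : ℝ := 1 / (2 * k + 1)

theorem lamc_pos (k : ℕ) : 0 < lamc k := by unfold lamc; positivity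

theorem lamc_le (k : ℕ) : lamc k ≤ 1 := by
  unfold lamc
  rw [div_le_one (by positivity)]
  have : (0 : ℝ) ≤ k := by positivity
  linarith

/-- the function `artanh (√w) / √w` -/
noncomputable def Lam (w : ℂ) : ℂ := ∑' k : ℕ, (lamc k : ℂ) * w ^ k

theorem lam_summable {w : ℂ} (hw : ‖w‖ < 1) : Summable fun k : ℕ => ‖(lamc k : ℂ) * w ^ k‖ := by
  have h := summable_norm_geometric_of_norm_lt_one hw
  refine Summable.of_nonneg_of_le (fun _ => norm_nonneg _) (fun k => ?_) h
  rw [norm_mul, Complex.norm_real, Real.norm_of_nonneg (lamc_pos k).le]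
  exact mul_le_of_le_one_left (norm_nonneg _) (lamc_le k)

theorem PS_Lam : PS Lam lamc := fun z hz => ⟨lam_summable (by simpa using hz), rfl⟩

theorem norm_Lam_le {w : ℂ} (hw : ‖w‖ < 1) : ‖Lam w‖ ≤ 1 / (1 - ‖w‖) := by
  have h := summable_norm_geometric_of_norm_lt_one hw
  have h1 : ‖Lam w‖ ≤ ∑' k : ℕ, ‖(lamc k : ℂ) * w ^ k‖ := norm_tsum_le_tsum_norm (lam_summable hw)
  refine h1.trans ?_
  have h2 : ∑' k : ℕ, ‖(lamc k : ℂ) * w ^ k‖ ≤ ∑' k : ℕ, ‖w ^ k‖ := by
    apply (lam_summable hw).tsum_le_tsum _ h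
    intro k
    rw [norm_mul, Complex.norm_real, Real.norm_of_nonneg (lamc_pos k).le]
    exact mul_le_of_le_one_left (norm_nonneg _) (lamc_le k)
  refine h2.trans (le_of_eq ?_)
  simp_rw [norm_pow]
  rw [tsum_geometric_of_lt_one (norm_nonneg _) hw, one_div]

/-- differential equation for `Lam` -/
theorem lam_ode {w : ℂ} (hw : ‖w‖ < 1) :
    ∃ L' : ℂ, HasDerivAt Lam L' w ∧ Lam w + 2 * w * L' = 1 / (1 - w) := by
  obtain ⟨ρ, hρ1, hρ2⟩ := exists_between hw
  have hρ0 : 0 ≤ ρ := (norm_nonneg w).trans hρ1.le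
  set g : ℕ → ℂ → ℂ := fun k y => (lamc k : ℂ) * y ^ k with hg
  set g' : ℕ → ℂ → ℂ := fun k y => (lamc k : ℂ) * (k * y ^ (k - 1)) with hg'
  have hder : ∀ k y, y ∈ ball (0 : ℂ) ρ → HasDerivAt (g k) (g' k y) y := by
    intro k y _
    exact (hasDerivAt_pow k y).const_mul _
  have hbd : ∀ k y, y ∈ ball (0 : ℂ) ρ → ‖g' k y‖ ≤ ρ ^ (k - 1) := by
    intro k y hy
    have hy1 : ‖y‖ ≤ ρ := by
      rw [mem_ball_zero_iff] at hy
      exact hy.le
    rw [hg']
    simp only
    rw [norm_mul, norm_mul, norm_pow, Complex.norm_real, Real.norm_of_nonneg (lamc_pos k).le,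
      Complex.norm_natCast, ← mul_assoc]
    have h1 : lamc k * k ≤ 1 := by
      unfold lamc
      rw [div_mul_eq_mul_div, one_mul, div_le_one (by positivity)]
      have : (0 : ℝ) ≤ k := by positivity
      linarith
    calc lamc k * k * ‖y‖ ^ (k - 1) ≤ 1 * ρ ^ (k - 1) :=
          mul_le_mul h1 (pow_le_pow_left₀ (norm_nonneg _) hy1 _) (by positivity) zero_le_one
      _ = ρ ^ (k - 1) := one_mul _
  have hsum : Summable fun k : ℕ => ρ ^ (k - 1) := by
    have h1 : Summable fun k : ℕ => ρ ^ ((k + 1) - 1) := by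
      simp only [Nat.add_sub_cancel]
      exact summable_geometric_of_lt_one hρ0 hρ2
    exact (summable_nat_add_iff 1).1 h1
  have hw' : w ∈ ball (0 : ℂ) ρ := by simpa using hρ1
  have h0 : (0 : ℂ) ∈ ball (0 : ℂ) ρ := by
    simp only [mem_ball_zero_iff, norm_zero]
    exact lt_of_le_of_lt (norm_nonneg _) hρ1
  have hs0 : Summable fun k : ℕ => g k 0 := by
    have := (lam_summable (w := 0) (by simp)).of_norm
    exact this
  have hD := hasDerivAt_tsum_of_isPreconnected hsum isOpen_ball (convex_ball (0 : ℂ) ρ).isPreconnected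
    hder hbd h0 hs0 hw'
  refine ⟨∑' k, g' k w, hD, ?_⟩
  have hs1 : Summable fun k : ℕ => g' k w :=
    Summable.of_norm_bounded hsum (fun k => hbd k w hw')
  have hs2 := (lam_summable hw).of_norm
  have h3 : 2 * w * ∑' k, g' k w = ∑' k, 2 * w * g' k w := by rw [tsum_mul_left]
  rw [h3, Lam, ← hs2.tsum_add (hs1.mul_left (2 * w))]
  have h4 : ∀ k : ℕ, (lamc k : ℂ) * w ^ k + 2 * w * g' k w = w ^ k := by
    intro k
    rw [hg']
    simp only
    have hne : (2 * (k : ℂ) + 1) ≠ 0 := by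
      have : (2 * (k : ℝ) + 1) ≠ 0 := by positivity
      exact_mod_cast this
    have hlam : (lamc k : ℂ) = 1 / (2 * k + 1) := by unfold lamc; push_cast; ring
    rw [hlam]
    rcases k with _ | k
    · simp
    · have : w * w ^ (k + 1 - 1) = w ^ (k + 1) := by
        rw [Nat.add_sub_cancel, pow_succ]; ring
      have e : (1 : ℂ) / (2 * ((k + 1 : ℕ) : ℂ) + 1) * w ^ (k + 1)
          + 2 * w * (1 / (2 * ((k + 1 : ℕ) : ℂ) + 1) * (((k + 1 : ℕ) : ℂ) * w ^ (k + 1 - 1)))
          = 1 / (2 * ((k + 1 : ℕ) : ℂ) + 1) * (w ^ (k + 1) + 2 * ((k + 1 : ℕ) : ℂ) * (w * w ^ (k + 1 - 1))) := by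
        ring
      rw [e, this]
      field_simp
      ring
  simp_rw [h4]
  rw [tsum_geometric_of_norm_lt_one hw, one_div]

/-! lower bound for the coefficients of the main term -/

theorem sum_i (K : ℕ) (m : ℝ) :
    ∑ i ∈ Finset.range K, (i : ℝ) * (m - i)
      = m * (K * (K - 1)) / 2 - (K - 1) * K * (2 * K - 1) / 6 := by
  induction K with
  | zero => simp
  | succ K ih =>
    rw [Finset.sum_range_succ, ih]
    push_cast
    ring

theorem conv_koebe (m : ℕ) : conv (fun k => (k : ℝ)) (fun k => (k : ℝ)) m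
    = ((m : ℝ) - 1) * m * (m + 1) / 6 := by
  unfold conv
  rw [Finset.Nat.sum_antidiagonal_eq_sum_range_succ (fun i j : ℕ => (i : ℝ) * (j : ℝ))]
  have h : ∀ i ∈ Finset.range (m + 1), (i : ℝ) * ((m - i : ℕ) : ℝ) = (i : ℝ) * ((m : ℝ) - i) := by
    intro i hi
    have : i ≤ m := Nat.lt_succ_iff.1 (Finset.mem_range.1 hi)
    rw [Nat.cast_sub this]
  rw [Finset.sum_congr rfl h, sum_i]
  push_cast
  ring

theorem conv_nonneg {a b : ℕ → ℝ} (ha : ∀ k, 0 ≤ a k) (hb : ∀ k, 0 ≤ b k) (n : ℕ) :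
    0 ≤ conv a b n := Finset.sum_nonneg (fun _ _ => mul_nonneg (ha _) (hb _))

theorem conv_lam_sum (J : ℕ) :
    (∑ i ∈ Finset.range J, lamc i) ^ 2 ≤ ∑ s ∈ Finset.range (2 * J), conv lamc lamc s := by
  rw [sq, Finset.sum_mul_sum, ← Finset.sum_product']
  have hmaps : ∀ x ∈ Finset.range J ×ˢ Finset.range J, x.1 + x.2 ∈ Finset.range (2 * J) := by
    intro x hx
    rw [Finset.mem_product, Finset.mem_range, Finset.mem_range] at hx
    rw [Finset.mem_range]
    omega
  rw [← Finset.sum_fiberwise_of_maps_to hmaps]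
  apply Finset.sum_le_sum
  intro s _
  unfold conv
  apply Finset.sum_le_sum_of_subset_of_nonneg
  · intro x hx
    rw [Finset.mem_filter] at hx
    rw [Finset.HasAntidiagonal.mem_antidiagonal]
    exact hx.2
  · intro x _ _
    exact mul_nonneg (lamc_pos _).le (lamc_pos _).le

theorem lam_log (J : ℕ) : Real.log (J + 1) / 2 ≤ ∑ i ∈ Finset.range J, lamc i := by
  induction J with
  | zero => simp
  | succ J ih =>
    rw [Finset.sum_range_succ]
    have h1 : (0 : ℝ) < J + 1 := by positivity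
    have h2 : (0 : ℝ) < J + 2 := by positivity
    have h3 : Real.log (((J + 1 : ℕ) : ℝ) + 1) ≤ Real.log ((J : ℝ) + 1) + 1 / (J + 1) := by
      have e : ((J + 1 : ℕ) : ℝ) + 1 = ((J : ℝ) + 1) * (1 + 1 / (J + 1)) := by
        push_cast; field_simp
        try ring
      rw [e, Real.log_mul h1.ne' (by positivity)]
      have := Real.log_le_sub_one_of_pos (show (0 : ℝ) < 1 + 1 / (J + 1) by positivity)
      linarith
    have h4 : 1 / ((J : ℝ) + 1) / 2 ≤ lamc J := by
      unfold lamc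
      rw [div_div]
      apply one_div_le_one_div_of_le (by positivity)
      linarith
    linarith

/-- coefficients of `z Λ(z)^2` -/
theorem PS_id : PS (fun z => z) (fun k => if k = 1 then 1 else 0) := by
  intro z _
  have h : ∀ k : ℕ, k ≠ 1 → (((if k = 1 then (1 : ℝ) else 0) : ℝ) : ℂ) * z ^ k = 0 := by
    intro k hk
    rw [if_neg hk]; simp
  constructor
  · apply summable_of_ne_finset_zero (s := {1})
    intro k hk
    rw [Finset.mem_singleton] at hk
    rw [h k hk, norm_zero]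
  · rw [tsum_eq_single 1 h]
    simp

theorem conv_id (b : ℕ → ℝ) (n : ℕ) : conv (fun k => if k = 1 then 1 else 0) b (n + 1) = b n := by
  unfold conv
  rw [Finset.sum_eq_single (1, n)]
  · simp
  · intro x hx hne
    rw [Finset.HasAntidiagonal.mem_antidiagonal] at hx
    have : x.1 ≠ 1 := by
      intro h1
      apply hne
      ext
      · exact h1
      · show x.2 = n
        omega
    simp [this]
  · intro h
    exfalso
    apply h
    rw [Finset.HasAntidiagonal.mem_antidiagonal]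
    show 1 + n = n + 1
    omega

/-- coefficients of the main term -/
noncomputable def mainc : ℕ → ℝ :=
  conv (conv (fun k => (k : ℝ)) (fun k => (k : ℝ)))
    (conv (fun k => if k = 1 then 1 else 0) (conv lamc lamc))

theorem PS_main : PS (fun z => (koebe z * koebe z) * (z * (Lam z * Lam z))) mainc :=
  (PS_koebe.mul PS_koebe).mul (PS_id.mul (PS_Lam.mul PS_Lam))

theorem mainc_lower {n : ℕ} (hn : 16 ≤ n) : (n : ℝ) ^ 3 * Real.log n ^ 2 / 1536 ≤ mainc n := by
  set J := n / 4 with hJ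
  have hJ4 : 4 * J ≤ n := by omega
  have hJ5 : n < 4 * (J + 1) := by omega
  have hnR : (16 : ℝ) ≤ n := by exact_mod_cast hn
  have hn0 : (0 : ℝ) < n := by linarith
  set A : ℕ → ℝ := conv (fun k => (k : ℝ)) (fun k => (k : ℝ)) with hA
  set Bc : ℕ → ℝ := conv (fun k => if k = 1 then (1 : ℝ) else 0) (conv lamc lamc) with hBc
  have hlam0 : ∀ k, 0 ≤ conv lamc lamc k :=
    conv_nonneg (fun k => (lamc_pos k).le) (fun k => (lamc_pos k).le)
  have hA0 : ∀ k, 0 ≤ A k := conv_nonneg (fun k => by positivity) (fun k => by positivity)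
  have hB0 : ∀ k, 0 ≤ Bc k :=
    conv_nonneg (fun k => by split_ifs <;> norm_num) hlam0
  -- restrict the sum
  have h1 : ∑ s ∈ Finset.range (2 * J), A (n - (s + 1)) * Bc (s + 1) ≤ mainc n := by
    have e : mainc n = ∑ i ∈ Finset.range (n + 1), A (n - i) * Bc i := by
      show conv A Bc n = _
      unfold conv
      rw [← Finset.Nat.sum_antidiagonal_swap]
      rw [← Finset.Nat.sum_antidiagonal_eq_sum_range_succ (fun i j : ℕ => A j * Bc i)]
      rfl
    rw [e]
    have e2 : ∑ s ∈ Finset.range (2 * J), A (n - (s + 1)) * Bc (s + 1)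
        ≤ ∑ s ∈ Finset.range n, A (n - (s + 1)) * Bc (s + 1) := by
      apply Finset.sum_le_sum_of_subset_of_nonneg
      · apply Finset.range_subset_range.2; omega
      · intro i _ _
        exact mul_nonneg (hA0 _) (hB0 _)
    refine e2.trans ?_
    rw [Finset.sum_range_succ' (fun i => A (n - i) * Bc i) n]
    have : 0 ≤ A (n - 0) * Bc 0 := mul_nonneg (hA0 _) (hB0 _)
    linarith
  refine le_trans ?_ h1
  have h2 : ∀ s ∈ Finset.range (2 * J), (n : ℝ) ^ 3 / 96 * conv lamc lamc s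
      ≤ A (n - (s + 1)) * Bc (s + 1) := by
    intro s hs
    have hs' := Finset.mem_range.1 hs
    have e1 : Bc (s + 1) = conv lamc lamc s := conv_id _ s
    rw [e1]
    apply mul_le_mul_of_nonneg_right _ (hlam0 s)
    rw [hA, conv_koebe]
    have hle : s + 1 ≤ n := by omega
    have hcast : ((n - (s + 1) : ℕ) : ℝ) = (n : ℝ) - (s + 1) := by
      rw [Nat.cast_sub hle]; push_cast; ring
    have h3 : (n : ℝ) / 2 ≤ ((n - (s + 1) : ℕ) : ℝ) := by
      rw [hcast]
      have h4 : 2 * (s + 1) ≤ n := by omega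
      have h5 : (2 : ℝ) * (s + 1) ≤ n := by exact_mod_cast h4
      linarith
    set y : ℝ := ((n - (s + 1) : ℕ) : ℝ) with hy
    have h6 : (n : ℝ) / 4 ≤ y - 1 := by linarith
    have h7 : (n : ℝ) / 2 ≤ y + 1 := by linarith
    have h8 : (n : ℝ) / 4 * ((n : ℝ) / 2) ≤ (y - 1) * y :=
      mul_le_mul h6 h3 (by positivity) (by linarith)
    have h9 : (n : ℝ) / 4 * ((n : ℝ) / 2) * ((n : ℝ) / 2) ≤ (y - 1) * y * (y + 1) :=
      mul_le_mul h8 h7 (by positivity) (mul_nonneg (by linarith) (by linarith))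
    nlinarith
  refine le_trans ?_ (Finset.sum_le_sum h2)
  rw [← Finset.mul_sum]
  have h3 := conv_lam_sum J
  have h4 := lam_log J
  have h5 : Real.log n / 2 ≤ Real.log (J + 1) := by
    have h6 : Real.sqrt n ≤ J + 1 := by
      rw [Real.sqrt_le_left (by positivity)]
      have h7 : (n : ℝ) < 4 * (J + 1) := by exact_mod_cast hJ5
      have h8 : (4 : ℝ) ≤ J + 1 := by linarith
      nlinarith
    have h9 := Real.log_le_log (Real.sqrt_pos.2 hn0) h6
    rwa [Real.log_sqrt hn0.le] at h9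
  have hlog0 : 0 ≤ Real.log n := Real.log_nonneg (by linarith)
  have h6 : Real.log n / 4 ≤ ∑ i ∈ Finset.range J, lamc i := by linarith
  have h7 : (Real.log n / 4) ^ 2 ≤ (∑ i ∈ Finset.range J, lamc i) ^ 2 :=
    pow_le_pow_left₀ (by positivity) h6 2
  calc (n : ℝ) ^ 3 * Real.log n ^ 2 / 1536 = (n : ℝ) ^ 3 / 96 * (Real.log n / 4) ^ 2 := by ring
    _ ≤ (n : ℝ) ^ 3 / 96 * ∑ s ∈ Finset.range (2 * J), conv lamc lamc s :=
        mul_le_mul_of_nonneg_left (h7.trans h3) (by positivity)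

end Pool.Agent.Helper64.C3
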