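import Pool.Agent.Helper64.C3.Koebe

set_option autoImplicit false

open Metric Set Filter Topology Asymptotics

namespace Pool.Agent.Helper64.C3

open ComplexConjugate

/-! M2 (Schur parameters) -/

theorem B_den' {a z : ℂ} (ha : ‖a‖ < 1) (hz : ‖z‖ ≤ 1) : 1 - conj a * z ≠ 0 := by
  intro h
  have h1 : conj a * z = 1 := (sub_eq_zero.1 h).symm
  have h2 : ‖a‖ * ‖z‖ = 1 := by
    rw [← RCLike.norm_conj a, ← norm_mul, h1, norm_one]
  nlinarith [norm_nonneg a, norm_nonneg z]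

theorem B_maps' {a z : ℂ} (ha : ‖a‖ < 1) (hz : ‖z‖ ≤ 1) : ‖B a z‖ ≤ 1 := by
  have hden := B_den' ha hz
  rw [B, norm_div, div_le_one (norm_pos_iff.2 hden)]
  have h1 : ‖1 - conj a * z‖ ^ 2 - ‖a - z‖ ^ 2 = (1 - ‖a‖ ^ 2) * (1 - ‖z‖ ^ 2) := by
    rw [← Complex.normSq_eq_norm_sq, ← Complex.normSq_eq_norm_sq, ← Complex.normSq_eq_norm_sq,
      ← Complex.normSq_eq_norm_sq]
    simp only [Complex.normSq_apply, Complex.sub_re, Complex.sub_im, Complex.mul_re,
      Complex.mul_im, Complex.conj_re, Complex.conj_im, Complex.one_re, Complex.one_im]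
    ring
  have h2 : 0 ≤ (1 - ‖a‖ ^ 2) * (1 - ‖z‖ ^ 2) := by
    apply mul_nonneg
    · nlinarith [norm_nonneg a]
    · nlinarith [norm_nonneg z]
  apply le_of_sq_le_sq _ (norm_nonneg _)
  linarith

theorem B_hasDeriv' {a z : ℂ} (ha : ‖a‖ < 1) (hz : ‖z‖ ≤ 1) :
    HasDerivAt (B a) (-(1 - conj a * a) / (1 - conj a * z) ^ 2) z := by
  have hden := B_den' ha hz
  have h1 : HasDerivAt (fun z : ℂ => a - z) (-1) z := by
    simpa using (hasDerivAt_id z).const_sub a
  have h2 : HasDerivAt (fun z : ℂ => 1 - conj a * z) (-(conj a)) z := by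
    simpa using ((hasDerivAt_id z).const_mul (conj a)).const_sub 1
  have h3 := h1.div h2 hden
  refine HasDerivAt.congr_deriv h3 ?_
  congr 1
  ring

/-- Schwarz-Pick at the origin. -/
theorem schwarz_pick {ψ : ℂ → ℂ} (hd : DifferentiableOn ℂ ψ (ball 0 1))
    (hm : ∀ z ∈ ball (0 : ℂ) 1, ‖ψ z‖ ≤ 1) : ‖deriv ψ 0‖ ≤ 1 - ‖ψ 0‖ ^ 2 := by
  have h0 : (0 : ℂ) ∈ ball (0 : ℂ) 1 := by simp
  have hder : HasDerivAt ψ (deriv ψ 0) 0 :=
    (hd.differentiableAt (isOpen_ball.mem_nhds h0)).hasDerivAt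
  rcases (hm 0 h0).eq_or_lt with h1 | h1
  · -- constant
    have hmax : IsMaxOn (norm ∘ ψ) (ball 0 1) 0 := by
      intro z hz
      show ‖ψ z‖ ≤ ‖ψ 0‖
      rw [h1]; exact hm z hz
    have heq := Complex.eqOn_of_isPreconnected_of_isMaxOn_norm
      (convex_ball (0 : ℂ) 1).isPreconnected isOpen_ball hd h0 hmax
    have h2 : deriv ψ 0 = 0 := by
      have h3 : ψ =ᶠ[𝓝 0] fun _ => ψ 0 := by
        filter_upwards [isOpen_ball.mem_nhds h0] with z hz
        exact heq hz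
      rw [h3.deriv_eq, deriv_const]
    rw [h2, h1]; simp
  · have hc : DifferentiableOn ℂ (fun z => B (ψ 0) (ψ z)) (ball 0 1) := by
      intro z hz
      have h2 := (B_hasDeriv' h1 (hm z hz)).differentiableAt
      exact (h2.comp z (hd.differentiableAt (isOpen_ball.mem_nhds hz))).differentiableWithinAt
    have hcm : MapsTo (fun z => B (ψ 0) (ψ z)) (ball 0 1) (closedBall (B (ψ 0) (ψ 0)) 1) := by
      intro z hz
      rw [B_self, mem_closedBall_zero_iff]
      exact B_maps' h1 (hm z hz)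
    have h3 := Complex.norm_deriv_le_one_of_mapsTo_ball hc hcm one_pos
    have h4 : HasDerivAt (fun z => B (ψ 0) (ψ z))
        ((-(1 - conj (ψ 0) * ψ 0) / (1 - conj (ψ 0) * ψ 0) ^ 2) * deriv ψ 0) 0 :=
      (B_hasDeriv' h1 h1.le).comp 0 hder
    rw [h4.deriv] at h3
    have h5 : conj (ψ 0) * ψ 0 = ((‖ψ 0‖ ^ 2 : ℝ) : ℂ) := by
      rw [mul_comm, Complex.mul_conj, Complex.normSq_eq_norm_sq]
    have h6 : 0 < 1 - ‖ψ 0‖ ^ 2 := by nlinarith [norm_nonneg (ψ 0)]
    rw [h5] at h3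
    have h7 : (1 - ((‖ψ 0‖ ^ 2 : ℝ) : ℂ)) = ((1 - ‖ψ 0‖ ^ 2 : ℝ) : ℂ) := by push_cast; ring
    rw [h7, norm_mul, norm_div, norm_neg, norm_pow, Complex.norm_real,
      Real.norm_of_nonneg h6.le] at h3
    have h8 : (1 - ‖ψ 0‖ ^ 2) / (1 - ‖ψ 0‖ ^ 2) ^ 2 = (1 - ‖ψ 0‖ ^ 2)⁻¹ := by
      field_simp
    rw [h8, inv_mul_le_iff₀ h6, mul_one] at h3
    exact h3

theorem jet_mul_id {g : ℂ → ℂ} {q a b c : ℂ} (hg : Jet g a b c) :
    Jet (fun z => z * (q + g z)) q a b := by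
  unfold Jet
  have h1 : (fun z : ℂ => z) =O[𝓝 0] (fun _ : ℂ => (1 : ℂ)) :=
    Filter.Tendsto.isBigO_one ℂ (c := (0 : ℂ)) tendsto_id
  have h2 := h1.mul_isLittleO hg
  have h3 : (fun z : ℂ => c * z ^ 4) =o[𝓝 0] (fun z : ℂ => z ^ 3) :=
    (isLittleO_pow_pow (by norm_num)).const_mul_left c
  have h4 := h2.add (by simpa using h3)
  simp only [one_mul] at h4
  refine h4.congr_left fun z => ?_
  ring

theorem dslope_eq {f : ℂ → ℂ} (h0 : f 0 = 0) (z : ℂ) : f z = z * dslope f 0 z := by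
  have := sub_smul_dslope f 0 z
  rw [h0, sub_zero, sub_zero, smul_eq_mul] at this
  exact this.symm

theorem jet_M {q : ℝ} (hq0 : 0 ≤ q) (hq1 : q < 1) :
    Jet (fun z => (1 - (q : ℂ) ^ 2) * z / (1 + q * z)) (1 - (q : ℂ) ^ 2)
      (-(q * (1 - (q : ℂ) ^ 2))) (q ^ 2 * (1 - (q : ℂ) ^ 2)) := by
  unfold Jet
  have hden : ∀ᶠ z in 𝓝 (0 : ℂ), 1 + (q : ℂ) * z ≠ 0 := by
    have hc : ContinuousAt (fun z : ℂ => 1 + (q : ℂ) * z) 0 := by fun_prop
    apply hc.eventually_ne
    simp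
  have h1 : (fun z : ℂ => (-(q ^ 3 * (1 - (q : ℂ) ^ 2))) * z / (1 + q * z)) =o[𝓝 0]
      (fun _ : ℂ => (1 : ℂ)) := by
    rw [isLittleO_one_iff]
    have hc : ContinuousAt (fun z : ℂ => (-(q ^ 3 * (1 - (q : ℂ) ^ 2))) * z / (1 + q * z)) 0 := by
      apply ContinuousAt.div
      · fun_prop
      · fun_prop
      · simp
    have := hc.tendsto
    simpa using this
  have h2 := (isBigO_refl (fun z : ℂ => z ^ 3) (𝓝 0)).mul_isLittleO h1
  simp only [mul_one] at h2
  refine h2.congr' ?_ EventuallyEq.rfl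
  filter_upwards [hden] with z hz
  apply mul_right_cancel₀ hz
  rw [sub_mul, div_mul_cancel₀ _ hz, mul_assoc (z ^ 3), div_mul_cancel₀ _ hz]
  ring

theorem schur {k : ℂ → ℂ} (hk : SelfMap k) {q : ℝ} (hq0 : 0 < q) (hq1 : q ≤ 1) {α β : ℂ}
    (hj : Jet k q (q * α) (q * β)) :
    ∃ x y : ℂ, ‖x‖ ≤ 1 ∧ ‖y - x ^ 2‖ ≤ 1 - ‖x‖ ^ 2 ∧
      α = (1 - (q : ℂ) ^ 2) / q * x ∧ β = (1 - (q : ℂ) ^ 2) / q * (-y + (1 - q) * x ^ 2) := by
  obtain ⟨hd, hm, h0⟩ := hk
  have hz0 : (0 : ℂ) ∈ ball (0 : ℂ) 1 := by simp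
  have hqC : (q : ℂ) ≠ 0 := by exact_mod_cast hq0.ne'
  have hderiv : deriv k 0 = q := (jet_unique (jet_of_diff hd h0) hj).1
  have hm' : MapsTo k (ball 0 1) (closedBall (k 0) 1) := by
    rw [h0]
    exact hm.mono_right ball_subset_closedBall
  rcases hq1.eq_or_lt with rfl | hq1
  · -- `k` is the identity
    have h1 := Complex.affine_of_mapsTo_ball_of_norm_dslope_eq_div hd hm' hz0 (by
      rw [dslope_same, hderiv]; simp)
    have h2 : Jet k 1 0 0 := by
      unfold Jet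
      refine (isLittleO_zero (fun z : ℂ => z ^ 3) (𝓝 (0 : ℂ))).congr' ?_ EventuallyEq.rfl
      filter_upwards [isOpen_ball.mem_nhds hz0] with z hz
      have := h1 hz
      rw [dslope_same, hderiv, h0] at this
      rw [this]; simp
    have h3 := jet_unique hj h2
    refine ⟨1, 1, by simp, by simp, ?_, ?_⟩
    · have := h3.2.1
      simpa using this
    · have := h3.2.2
      simpa using this
  · -- the first Schur step
    have hφd : DifferentiableOn ℂ (dslope k 0) (ball 0 1) :=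
      (Complex.differentiableOn_dslope (ball_mem_nhds 0 one_pos)).2 hd
    have hφm : ∀ z ∈ ball (0 : ℂ) 1, ‖dslope k 0 z‖ ≤ 1 := by
      intro z hz
      simpa using Complex.norm_dslope_le_div_of_mapsTo_ball hd hm' hz
    have hφ0 : dslope k 0 0 = q := by rw [dslope_same, hderiv]
    have hqn : ‖(q : ℂ)‖ < 1 := by
      rw [Complex.norm_real, Real.norm_of_nonneg hq0.le]; exact hq1
    set η : ℂ → ℂ := fun z => -B q (dslope k 0 z) with hη
    have hηd : DifferentiableOn ℂ η (ball 0 1) := by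
      intro z hz
      have h2 := (B_hasDeriv' hqn (hφm z hz)).differentiableAt
      exact ((h2.comp z (hφd.differentiableAt (isOpen_ball.mem_nhds hz))).neg).differentiableWithinAt
    have hη0 : η 0 = 0 := by
      show -B q (dslope k 0 0) = 0
      rw [hφ0, B_self, neg_zero]
    have hηm : ∀ z ∈ ball (0 : ℂ) 1, ‖η z‖ ≤ 1 := by
      intro z hz
      show ‖-B q (dslope k 0 z)‖ ≤ 1
      rw [norm_neg]
      exact B_maps' hqn (hφm z hz)
    have hηm' : MapsTo η (ball 0 1) (closedBall (η 0) 1) := by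
      intro z hz
      rw [hη0, mem_closedBall_zero_iff]
      exact hηm z hz
    -- the second Schur step
    set ψ : ℂ → ℂ := dslope η 0 with hψ
    have hψd : DifferentiableOn ℂ ψ (ball 0 1) :=
      (Complex.differentiableOn_dslope (ball_mem_nhds 0 one_pos)).2 hηd
    have hψm : ∀ z ∈ ball (0 : ℂ) 1, ‖ψ z‖ ≤ 1 := by
      intro z hz
      simpa using Complex.norm_dslope_le_div_of_mapsTo_ball hηd hηm' hz
    have hsp := schwarz_pick hψd hψm
    set x := ψ 0 with hx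
    set w := deriv ψ 0 with hw
    -- jets
    have hj1 : Jet (fun z => ψ z - x) w (coeff 2 (fun z => ψ z - x)) (coeff 3 (fun z => ψ z - x)) := by
      have h1 := jet_of_diff (f := fun z => ψ z - x) (hψd.sub_const x) (by simp [hx])
      have h2 : deriv (fun z => ψ z - x) 0 = w := by rw [deriv_sub_const]
      rw [h2] at h1
      exact h1
    have hj2 : Jet η x w (coeff 2 (fun z => ψ z - x)) := by
      have h1 := jet_mul_id (q := x) hj1
      have h2 : (fun z => z * (x + (ψ z - x))) = η := by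
        funext z
        rw [dslope_eq hη0 z]
        ring
      rw [h2] at h1
      exact h1
    have hj3 := jet_comp (jet_M hq0.le hq1) hj2
    have hj4 := jet_mul_id (q := (q : ℂ)) hj3
    have hk4 : ∀ᶠ z in 𝓝 (0 : ℂ), z * ((q : ℂ) +
        ((fun z => (1 - (q : ℂ) ^ 2) * z / (1 + q * z)) ∘ η) z) = k z := by
      filter_upwards [isOpen_ball.mem_nhds hz0] with z hz
      rw [dslope_eq h0 z]
      congr 1
      show (q : ℂ) + (1 - (q : ℂ) ^ 2) * η z / (1 + q * η z) = dslope k 0 z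
      set u := dslope k 0 z with hu
      have hden : 1 - conj (q : ℂ) * u ≠ 0 := B_den' hqn (hφm z hz)
      rw [Complex.conj_ofReal] at hden
      have hηz : η z = (u - q) / (1 - q * u) := by
        show -B q u = _
        rw [B, Complex.conj_ofReal, ← neg_div, neg_sub]
      have h1q : 1 - (q : ℂ) ^ 2 ≠ 0 := by
        have : 1 - q ^ 2 ≠ 0 := by nlinarith
        exact_mod_cast this
      have h2 : 1 + (q : ℂ) * η z = (1 - q ^ 2) / (1 - q * u) := by
        rw [hηz]; field_simp; ring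
      rw [h2, hηz]
      field_simp
      ring
    have hj5 : Jet k q ((1 - (q : ℂ) ^ 2) * x)
        ((1 - (q : ℂ) ^ 2) * w + -(q * (1 - (q : ℂ) ^ 2)) * x ^ 2) := by
      refine IsLittleO.congr' hj4 ?_ EventuallyEq.rfl
      filter_upwards [hk4] with z hz
      rw [hz]
    have h6 := jet_unique hj hj5
    refine ⟨x, x ^ 2 - w, hψm 0 hz0, ?_, ?_, ?_⟩
    · have : x ^ 2 - w - x ^ 2 = -w := by ring
      rw [this, norm_neg]
      exact hsp
    · have := h6.2.1
      field_simp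
      rw [mul_comm, this]
    · have := h6.2.2
      field_simp
      rw [mul_comm, this]
      ring

end Pool.Agent.Helper64.C3
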