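import Pool.Agent.Helper64.C3.Rt
import Pool.Agent.Helper64.C3.Circ
import Pool.Agent.Helper64.C3.Schur

set_option autoImplicit false

open Metric Set Filter Topology Asymptotics

namespace Pool.Agent.Helper64.C3

/-! U-G: the base of the chain, closeness to the identity -/

theorem lip_of_bound {F : ℂ → ℂ} (hF : DifferentiableOn ℂ F (ball 0 1)) {r ρ Bd : ℝ}
    (hrρ : r < ρ) (hρ : ρ < 1) (hb : ∀ w : ℂ, ‖w‖ ≤ ρ → ‖F w‖ ≤ Bd)
    {w w' : ℂ} (hw : ‖w‖ ≤ r) (hw' : ‖w'‖ ≤ r) : ‖F w - F w'‖ ≤ Bd / (ρ - r) * ‖w - w'‖ := by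
  have hR : 0 < ρ - r := by linarith
  have hsub : ∀ x ∈ closedBall (0 : ℂ) r, closedBall x (ρ - r) ⊆ closedBall (0 : ℂ) ρ := by
    intro x hx y hy
    rw [mem_closedBall, dist_eq_norm] at hy
    rw [mem_closedBall_zero_iff] at hx ⊢
    calc ‖y‖ = ‖(y - x) + x‖ := by ring_nf
      _ ≤ ‖y - x‖ + ‖x‖ := norm_add_le _ _
      _ ≤ ρ := by linarith
  have hρ1 : closedBall (0 : ℂ) ρ ⊆ ball (0 : ℂ) 1 := closedBall_subset_ball hρ
  apply Convex.norm_image_sub_le_of_norm_deriv_le (s := closedBall (0 : ℂ) r)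
  · intro x hx
    apply hF.differentiableAt
    apply isOpen_ball.mem_nhds
    rw [mem_closedBall_zero_iff] at hx
    rw [mem_ball_zero_iff]; linarith
  · intro x hx
    apply Complex.norm_deriv_le_of_forall_mem_sphere_norm_le hR
    · apply DifferentiableOn.diffContOnCl
      apply hF.mono
      exact (closure_ball_subset_closedBall.trans (hsub x hx)).trans hρ1
    · intro z hz
      apply hb
      have := hsub x hx (sphere_subset_closedBall hz)
      rwa [mem_closedBall_zero_iff] at this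
  · exact convex_closedBall _ _
  · rwa [mem_closedBall_zero_iff]
  · rwa [mem_closedBall_zero_iff]

theorem koebe_norm_le {w : ℂ} {ρ : ℝ} (hρ : ρ < 1) (hw : ‖w‖ ≤ ρ) : ‖koebe w‖ ≤ 1 / (1 - ρ) ^ 2 := by
  have h1 : 1 - ρ ≤ ‖1 - w‖ := by
    have := norm_sub_norm_le (1 : ℂ) w
    rw [norm_one] at this
    linarith
  have h0 : 0 < 1 - ρ := by linarith
  rw [koebe, norm_div, norm_pow]
  apply div_le_div₀ zero_le_one (by linarith) (by positivity)
  exact pow_le_pow_left₀ h0.le h1 2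

theorem koebe_lip {r : ℝ} (hr1 : r < 1) :
    ∃ L : ℝ, 0 ≤ L ∧ ∀ w w' : ℂ, ‖w‖ ≤ r → ‖w'‖ ≤ r → ‖koebe w - koebe w'‖ ≤ L * ‖w - w'‖ := by
  have h1 : r < (1 + r) / 2 := by linarith
  have h2 : (1 + r) / 2 < 1 := by linarith
  have h3 : 0 < 1 - (1 + r) / 2 := by linarith
  have h4 : 0 < (1 + r) / 2 - r := by linarith
  refine ⟨1 / (1 - (1 + r) / 2) ^ 2 / ((1 + r) / 2 - r), by positivity, ?_⟩
  intro w w' hw hw'
  exact lip_of_bound M6.koebe_diff h1 h2 (fun w hw => koebe_norm_le h2 hw) hw hw'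

theorem phi_lip {r : ℝ} (hr1 : r < 1) :
    ∃ L : ℝ, 0 ≤ L ∧ ∀ p v : ℝ, 1 / 2 ≤ p → 0 < v → v ≤ p → ∀ w w' : ℂ, ‖w‖ ≤ r → ‖w'‖ ≤ r →
      ‖phi v (koebe w / p) - phi v (koebe w' / p)‖ ≤ L * ‖w - w'‖ := by
  have h1 : r < (1 + r) / 2 := by linarith
  have h2 : (1 + r) / 2 < 1 := by linarith
  have h3 : 0 < 1 - (1 + r) / 2 := by linarith
  have h4 : 0 < (1 + r) / 2 - r := by linarith
  set ρ := (1 + r) / 2 with hρ
  set M := 2 / (1 - ρ) ^ 2 with hM
  have hM0 : 0 < M := by positivity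
  refine ⟨2 * M ^ 2 / (ρ - r), by positivity, ?_⟩
  intro p v hp hv hvp w w' hw hw'
  have hp0 : 0 < p := by linarith
  apply lip_of_bound (phi_diff hv hvp) h1 h2 _ hw hw'
  intro x hx
  have hx1 : ‖x‖ < 1 := by linarith
  obtain ⟨a, b, e, h⟩ := exists_Q hp0 hv hvp (χ := 1) (by simp) hx1 (M := M) (by
    rw [hM]
    have e1 : 2 / (1 - ρ) ^ 2 = 1 / (1 / 2 * (1 - ρ) ^ 2) := by field_simp
    rw [e1]
    apply div_le_div₀ zero_le_one hx1.le (by positivity)
    apply mul_le_mul hp _ (by positivity) hp0.le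
    apply pow_le_pow_left₀ h3.le
    linarith)
  refine h.phi_le.trans ?_
  have e1 : 2 * (a ^ 3 * b) ≤ a ^ 2 * (a ^ 2 + b ^ 2) := by
    nlinarith [mul_nonneg (sq_nonneg a) (sq_nonneg (a - b))]
  have e2 : a ^ 2 * (a ^ 2 + b ^ 2) ≤ M * (M + M) := by
    apply mul_le_mul h.aM (add_le_add h.aM h.bM) (by positivity) hM0.le
  linarith

/-- a self-map with derivative near one is near the identity -/
theorem near_id {h : ℂ → ℂ} (hh : SelfMap h) {p : ℝ} (hp0 : 0 < p) (hp1 : p ≤ 1)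
    (hder : deriv h 0 = (p : ℂ)) {z : ℂ} (hz : ‖z‖ < 1) :
    ‖h z - z‖ ≤ 3 * (1 - p) / (1 - ‖z‖) := by
  have h0 : (0 : ℂ) ∈ ball (0 : ℂ) 1 := by simp
  have hzb : z ∈ ball (0 : ℂ) 1 := by simpa using hz
  set u := dslope h 0 with hu
  have hud : DifferentiableOn ℂ u (ball 0 1) :=
    (Complex.differentiableOn_dslope (isOpen_ball.mem_nhds h0)).2 hh.1
  have hub : ∀ z ∈ ball (0 : ℂ) 1, ‖u z‖ ≤ 1 := by
    intro z hz
    have h1 : MapsTo h (ball 0 1) (closedBall (h 0) 1) := by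
      rw [hh.2.2]; exact hh.2.1.mono_right ball_subset_closedBall
    have := Complex.norm_dslope_le_div_of_mapsTo_ball hh.1 h1 hz
    simpa using this
  have hu0 : u 0 = p := by rw [hu, dslope_same, hder]
  have hxz : 0 < 1 - ‖z‖ := by linarith
  -- main estimate
  have key : ‖(p : ℂ) - u z‖ ≤ 2 * (1 - p) / (1 - ‖z‖) := by
    rcases hp1.eq_or_lt with h1 | h1
    · have hmax : IsMaxOn (norm ∘ u) (ball 0 1) 0 := by
        intro z hz
        show ‖u z‖ ≤ ‖u 0‖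
        rw [hu0, h1]
        simpa using hub z hz
      have heq := Complex.eqOn_of_isPreconnected_of_isMaxOn_norm
        (convex_ball (0 : ℂ) 1).isPreconnected isOpen_ball hud h0 hmax
      have h2 : u z = u 0 := heq hzb
      rw [h2, hu0, sub_self, norm_zero, h1]
      simp
    · have hpn : ‖(p : ℂ)‖ < 1 := by
        rw [Complex.norm_real, Real.norm_of_nonneg hp0.le]; exact h1
      have hc : DifferentiableOn ℂ (fun z => B (p : ℂ) (u z)) (ball 0 1) := by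
        intro z hz
        have h2 := (B_hasDeriv' hpn (hub z hz)).differentiableAt
        exact (h2.comp z (hud.differentiableAt (isOpen_ball.mem_nhds hz))).differentiableWithinAt
      have hcm : MapsTo (fun z => B (p : ℂ) (u z)) (ball 0 1) (closedBall 0 1) := by
        intro z hz
        rw [mem_closedBall_zero_iff]
        exact B_maps' hpn (hub z hz)
      have hc0 : B (p : ℂ) (u 0) = 0 := by rw [hu0, B_self]
      have h3 : ‖B (p : ℂ) (u z)‖ ≤ ‖z‖ :=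
        Complex.norm_le_norm_of_mapsTo_ball hc hcm hc0 hz
      have hcp : (starRingEnd ℂ) (p : ℂ) = p := Complex.conj_ofReal p
      have hden : 1 - (p : ℂ) * u z ≠ 0 := by
        have := B_den' hpn (hub z hzb)
        rwa [hcp] at this
      have h4 : ‖(p : ℂ) - u z‖ ≤ ‖z‖ * ‖1 - (p : ℂ) * u z‖ := by
        rw [B, hcp, norm_div, div_le_iff₀ (norm_pos_iff.2 hden)] at h3
        exact h3
      have h5 : ‖1 - (p : ℂ) * u z‖ ≤ (1 - p ^ 2) + ‖(p : ℂ) - u z‖ := by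
        have e : 1 - (p : ℂ) * u z = ((1 - p ^ 2 : ℝ) : ℂ) + p * (p - u z) := by push_cast; ring
        rw [e]
        refine (norm_add_le _ _).trans ?_
        rw [Complex.norm_real, norm_mul, Complex.norm_real, Real.norm_of_nonneg hp0.le,
          Real.norm_of_nonneg (by nlinarith)]
        have : p * ‖(p : ℂ) - u z‖ ≤ 1 * ‖(p : ℂ) - u z‖ :=
          mul_le_mul_of_nonneg_right hp1 (norm_nonneg _)
        linarith
      rw [le_div_iff₀ hxz]
      have h6 : ‖z‖ * ‖1 - (p : ℂ) * u z‖ ≤ ‖z‖ * ((1 - p ^ 2) + ‖(p : ℂ) - u z‖) :=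
        mul_le_mul_of_nonneg_left h5 (norm_nonneg _)
      have h7 : ‖z‖ * (1 - p ^ 2) ≤ 1 * (1 - p ^ 2) :=
        mul_le_mul_of_nonneg_right hz.le (by nlinarith)
      nlinarith
  have e1 : h z - z = z * ((u z - p) + ((p - 1 : ℝ) : ℂ)) := by
    rw [dslope_eq hh.2.2 z]; push_cast; ring
  rw [e1, norm_mul]
  have e2 : ‖(u z - p) + ((p - 1 : ℝ) : ℂ)‖ ≤ 2 * (1 - p) / (1 - ‖z‖) + (1 - p) := by
    refine (norm_add_le _ _).trans ?_
    rw [norm_sub_rev, Complex.norm_real, Real.norm_eq_abs, abs_sub_comm,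
      abs_of_nonneg (by linarith : 0 ≤ 1 - p)]
    linarith
  have e3 : 1 - p ≤ (1 - p) / (1 - ‖z‖) := by
    rw [le_div_iff₀ hxz]
    nlinarith [norm_nonneg z]
  calc ‖z‖ * ‖(u z - p) + ((p - 1 : ℝ) : ℂ)‖ ≤ 1 * ‖(u z - p) + ((p - 1 : ℝ) : ℂ)‖ :=
        mul_le_mul_of_nonneg_right hz.le (norm_nonneg _)
    _ ≤ 2 * (1 - p) / (1 - ‖z‖) + (1 - p) := by rw [one_mul]; exact e2
    _ ≤ 2 * (1 - p) / (1 - ‖z‖) + (1 - p) / (1 - ‖z‖) := by linarith
    _ = 3 * (1 - p) / (1 - ‖z‖) := by ring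

/-- the base of the chain -/
theorem base_close {r : ℝ} (hr0 : 0 < r) (hr1 : r < 1) {ζ : ℝ} (hζ : 0 < ζ) :
    ∃ η₀ : ℝ, 0 < η₀ ∧ η₀ ≤ 1 / 2 ∧ ∀ p : ℝ, 1 - η₀ ≤ p → p ≤ 1 → ∀ h : ℂ → ℂ, SelfMap h →
      deriv h 0 = (p : ℂ) →
      (∀ z ∈ sphere (0 : ℂ) r, ‖koebe (h z) / p - koebe z‖ ≤ ζ) ∧
      (∀ v : ℝ, 0 < v → v ≤ p → ∀ z ∈ sphere (0 : ℂ) r,
        ‖phi v (koebe (h z) / p) - phi v (koebe z / p)‖ ≤ ζ) := by
  obtain ⟨L, hL0, hL⟩ := koebe_lip hr1
  obtain ⟨L', hL0', hL'⟩ := phi_lip hr1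
  have h1r : 0 < 1 - r := by linarith
  set K := 1 / (1 - r) ^ 2 with hK
  have hK0 : 0 < K := by positivity
  set A := 6 * L / (1 - r) + 2 * K + 3 * L' / (1 - r) + 2 with hA
  have hA0 : 0 < A := by positivity
  refine ⟨min (1 / 2) (ζ / A), by positivity, min_le_left _ _, ?_⟩
  intro p hp hp1 h hh hder
  have hp2 : 1 - p ≤ 1 / 2 := by have := min_le_left (1 / 2) (ζ / A); linarith
  have hp3 : (1 - p) * A ≤ ζ := by
    have := min_le_right (1 / 2) (ζ / A)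
    rw [← le_div_iff₀ hA0]; linarith
  have hp0 : 0 < p := by linarith
  have hpC : (p : ℂ) ≠ 0 := by exact_mod_cast hp0.ne'
  have h1p : 0 ≤ 1 - p := by linarith
  have hz : ∀ z ∈ sphere (0 : ℂ) r, ‖h z - z‖ ≤ 3 * (1 - p) / (1 - r) ∧ ‖h z‖ ≤ r ∧ ‖z‖ ≤ r := by
    intro z hz
    have hzr := mem_sphere_zero_iff_norm.1 hz
    have hz1 : ‖z‖ < 1 := by rw [hzr]; exact hr1
    have h1 := near_id hh hp0 hp1 hder hz1
    rw [hzr] at h1
    have h2 := schwarz_norm hh (by simpa using hz1 : z ∈ ball (0 : ℂ) 1)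
    rw [hzr] at h2
    exact ⟨h1, h2, hzr.le⟩
  have hexp : (1 - p) * A = (1 - p) * (6 * L / (1 - r)) + (1 - p) * (2 * K)
      + (1 - p) * (3 * L' / (1 - r)) + (1 - p) * 2 := by rw [hA]; ring
  have n1 : 0 ≤ (1 - p) * (6 * L / (1 - r)) := by positivity
  have n2 : 0 ≤ (1 - p) * (2 * K) := by positivity
  have n3 : 0 ≤ (1 - p) * (3 * L' / (1 - r)) := by positivity
  constructor
  · intro z hzs
    obtain ⟨a1, a2, a3⟩ := hz z hzs
    have e1 : koebe (h z) / p - koebe z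
        = (koebe (h z) - koebe z) / p + koebe z * (((1 - p) / p : ℝ) : ℂ) := by
      push_cast; field_simp; ring
    rw [e1]
    refine (norm_add_le _ _).trans ?_
    rw [norm_div, norm_mul, Complex.norm_real, Complex.norm_real, Real.norm_of_nonneg hp0.le,
      Real.norm_of_nonneg (by positivity)]
    have b1 : ‖koebe (h z) - koebe z‖ ≤ L * (3 * (1 - p) / (1 - r)) :=
      (hL _ _ a2 a3).trans (mul_le_mul_of_nonneg_left a1 hL0)
    have b2 : ‖koebe z‖ ≤ K := koebe_norm_le hr1 a3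
    have b3 : ‖koebe (h z) - koebe z‖ / p ≤ (1 - p) * (6 * L / (1 - r)) := by
      rw [div_le_iff₀ hp0]
      have : L * (3 * (1 - p) / (1 - r)) = (1 - p) * (6 * L / (1 - r)) * (1 / 2) := by ring
      rw [this] at b1
      refine b1.trans (mul_le_mul_of_nonneg_left (by linarith) n1)
    have b4 : ‖koebe z‖ * ((1 - p) / p) ≤ (1 - p) * (2 * K) := by
      have : (1 - p) / p ≤ 2 * (1 - p) := by
        rw [div_le_iff₀ hp0]; nlinarith
      calc ‖koebe z‖ * ((1 - p) / p) ≤ K * (2 * (1 - p)) :=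
            mul_le_mul b2 this (by positivity) hK0.le
        _ = (1 - p) * (2 * K) := by ring
    linarith
  · intro v hv hvp z hzs
    obtain ⟨a1, a2, a3⟩ := hz z hzs
    have b1 := (hL' p v (by linarith) hv hvp _ _ a2 a3).trans (mul_le_mul_of_nonneg_left a1 hL0')
    have : L' * (3 * (1 - p) / (1 - r)) = (1 - p) * (3 * L' / (1 - r)) := by ring
    linarith

end Pool.Agent.Helper64.C3
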