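import Pool.Agent.Helper64.C3.Growth

set_option autoImplicit false

open Metric Set Filter Topology Asymptotics

namespace Pool.Agent.Helper64.C3

/-! coefficients of the Koebe function and the recursion for the second coefficient -/

theorem coeff_koebe (n : ℕ) : coeff n koebe = n := by
  have h0 : (0 : ℂ) ∈ ball (0 : ℂ) 1 := by simp
  have h1 : HasFPowerSeriesAt koebe
      (FormalMultilinearSeries.ofScalars ℂ (fun n : ℕ => (n : ℂ))) 0 := by
    rw [hasFPowerSeriesAt_iff]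
    filter_upwards [isOpen_ball.mem_nhds h0] with z hz
    have hz1 : ‖z‖ < 1 := by simpa using hz
    have h2 := hasSum_coe_mul_geometric_of_norm_lt_one hz1
    rw [zero_add, koebe]
    refine h2.congr_fun ?_ |> fun h => h
    intro n
    rw [FormalMultilinearSeries.coeff_ofScalars, smul_eq_mul, mul_comm]
  have h4 : AnalyticAt ℂ koebe 0 :=
    M6.koebe_diff.analyticAt (isOpen_ball.mem_nhds h0)
  have h5 := h4.hasFPowerSeriesAt
  have h6 := h1.eq_formalMultilinearSeries h5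
  have h7 := congrArg (fun p => p.coeff n) h6
  simp only [FormalMultilinearSeries.coeff_ofScalars] at h7
  rw [coeff, ← h7]

theorem chi_den_ne {q : ℝ} (hq0 : 0 < q) (hq1 : q ≤ 1) {χ w : ℂ} (hχ : ‖χ‖ = 1) (hw : ‖w‖ < 1) :
    1 - q * χ * w ≠ 0 := by
  apply M6.one_sub_ne
  rw [mem_ball_zero_iff, norm_mul, norm_mul, hχ, mul_one, Complex.norm_real,
    Real.norm_of_nonneg hq0.le]
  nlinarith [norm_nonneg w]

theorem jet_kst {q : ℝ} (hq0 : 0 < q) (hq1 : q ≤ 1) {χ : ℂ} (hχ : ‖χ‖ = 1) :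
    Jet (kst q χ) q (-(χ * (1 - q ^ 2))) (q * χ ^ 2 * (q ^ 2 - 1)) := by
  unfold Jet
  have h1 : (fun z : ℂ => z * (q ^ 2 * χ ^ 3 * (q ^ 2 - 1) / (1 - q * χ * z))) =o[𝓝 0]
      (fun _ : ℂ => (1 : ℂ)) := by
    rw [isLittleO_one_iff]
    have hc : ContinuousAt (fun z : ℂ => z * (q ^ 2 * χ ^ 3 * (q ^ 2 - 1) / (1 - q * χ * z))) 0 := by
      have : (1 - q * χ * (0 : ℂ)) ≠ 0 := by simp
      fun_prop (disch := exact this)
    have := hc.tendsto
    simpa using this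
  have h2 := (isBigO_refl (fun z : ℂ => z ^ 3) (𝓝 0)).mul_isLittleO h1
  simp only [mul_one] at h2
  refine h2.congr' ?_ (EventuallyEq.refl _ _)
  have h0 : (0 : ℂ) ∈ ball (0 : ℂ) 1 := by simp
  filter_upwards [isOpen_ball.mem_nhds h0] with z hz
  have hz1 : ‖z‖ < 1 := by simpa using hz
  have hd := chi_den_ne hq0 hq1 hχ hz1
  have e := div_mul_cancel₀ ((q : ℂ) ^ 2 * χ ^ 3 * (q ^ 2 - 1)) hd
  unfold kst
  rw [eq_sub_iff_add_eq, eq_div_iff hd]
  linear_combination z ^ 4 * e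

theorem jet_level {h : ℂ → ℂ} (hh : SelfMap h) {p : ℝ} (hp : 0 < p) (hder : deriv h 0 = (p : ℂ)) :
    coeff 2 (fun z => koebe (h z) / p) = coeff 2 h / p + 2 * p := by
  have hpC : (p : ℂ) ≠ 0 := by exact_mod_cast hp.ne'
  have h1 := jet_of_diff hh.1 hh.2.2
  have h2 := jet_comp M6.jet_koebe h1
  have h3 := jet_comp (M6.jet_smul ((p : ℂ)⁻¹)) h2
  have h4 : DifferentiableOn ℂ (fun z => koebe (h z) / p) (ball 0 1) :=
    (M6.koebe_diff.comp hh.1 hh.2.1).div_const _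
  have h5 := jet_of_diff h4 (by simp [hh.2.2, koebe])
  have h6 : (fun z => koebe (h z) / (p : ℂ)) = (fun z : ℂ => (p : ℂ)⁻¹ * z) ∘ (koebe ∘ h) := by
    ext z
    simp only [Function.comp_apply]
    rw [div_eq_mul_inv, mul_comm]
  rw [← h6] at h3
  obtain ⟨_, e2, _⟩ := jet_unique h5 h3
  rw [e2, hder]
  field_simp
  ring

theorem coeff2_step {q : ℝ} (hq0 : 0 < q) (hq1 : q ≤ 1) {χ : ℂ} (hχ : ‖χ‖ = 1) {h h' : ℂ → ℂ}
    (hh : SelfMap h) (hh' : SelfMap h') {p : ℝ} (hp : 0 < p) (hder : deriv h 0 = (p : ℂ))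
    (hder' : deriv h' 0 = ((q * p : ℝ) : ℂ))
    (hk : ∀ z ∈ ball (0 : ℂ) 1, h' z = kst q χ (h z)) :
    coeff 2 (fun z => koebe (h z) / p) - coeff 2 (fun z => koebe (h' z) / ((q * p : ℝ) : ℂ))
      = 2 * (1 + χ) * ((1 - q) * p) + χ * ((1 - q) * p) * ((1 - q) / q) := by
  have hpC : (p : ℂ) ≠ 0 := by exact_mod_cast hp.ne'
  have hqC : (q : ℂ) ≠ 0 := by exact_mod_cast hq0.ne'
  rw [jet_level hh hp hder, jet_level hh' (by positivity) hder']
  have h1 := jet_of_diff hh.1 hh.2.2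
  have h2 := jet_comp (jet_kst hq0 hq1 hχ) h1
  have h3 := M6.jet_congr h2 (G := h') (fun z hz => (hk z hz).symm)
  have h4 := jet_of_diff hh'.1 hh'.2.2
  obtain ⟨_, e2, _⟩ := jet_unique h4 h3
  rw [e2, hder]
  push_cast
  field_simp
  ring

end Pool.Agent.Helper64.C3
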