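import Pool.Agent.Helper64.C3.Jet

set_option autoImplicit false

open Metric Set Filter Topology Asymptotics

namespace Pool.Agent.Helper64.C3

open ComplexConjugate

/-! M3 (Koebe step) -/

theorem compact_preimage {h : ℂ → ℂ} (hd : DifferentiableOn ℂ h (ball 0 1))
    (hi : InjOn h (ball 0 1)) {K : Set ℂ} (hK : IsCompact K) (hKi : K ⊆ h '' ball 0 1) :
    IsCompact {z | z ∈ ball (0 : ℂ) 1 ∧ h z ∈ K} := by
  have hA : AnalyticOnNhd ℂ h (ball 0 1) := hd.analyticOnNhd isOpen_ball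
  have hopen : ∀ s ⊆ ball (0 : ℂ) 1, IsOpen s → IsOpen (h '' s) := by
    rcases hA.is_constant_or_isOpen (convex_ball (0 : ℂ) 1).isPreconnected with ⟨w, hw⟩ | h1
    · exfalso
      have h0 : (0 : ℂ) ∈ ball (0 : ℂ) 1 := by simp
      have h1 : (1 / 2 : ℂ) ∈ ball (0 : ℂ) 1 := by
        rw [mem_ball_zero_iff]; norm_num
      have := hi h0 h1 (by rw [hw _ h0, hw _ h1])
      norm_num at this
    · exact h1
  set φ : ball (0 : ℂ) 1 → ℂ := fun z => h z.1 with hφ
  have hcont : Continuous φ := by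
    have := hd.continuousOn
    exact continuousOn_iff_continuous_domRestrict.1 this
  have hinj : Function.Injective φ := fun x y hxy => Subtype.ext (hi x.2 y.2 hxy)
  have hop : IsOpenMap φ := by
    intro s hs
    obtain ⟨V, hV, rfl⟩ := isOpen_induced_iff.1 hs
    have : φ '' (Subtype.val ⁻¹' V) = h '' (V ∩ ball 0 1) := by
      ext w
      constructor
      · rintro ⟨z, hz, rfl⟩
        exact ⟨z.1, ⟨hz, z.2⟩, rfl⟩
      · rintro ⟨z, ⟨hz1, hz2⟩, rfl⟩
        exact ⟨⟨z, hz2⟩, hz1, rfl⟩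
    rw [this]
    exact hopen _ inter_subset_right (hV.inter isOpen_ball)
  have hemb := Topology.IsOpenEmbedding.of_continuous_injective_isOpenMap hcont hinj hop
  have hrange : K ⊆ range φ := by
    intro w hw
    obtain ⟨z, hz, rfl⟩ := hKi hw
    exact ⟨⟨z, hz⟩, rfl⟩
  have hc : IsCompact (φ ⁻¹' K) := hemb.isInducing.isCompact_preimage' hK hrange
  have : {z | z ∈ ball (0 : ℂ) 1 ∧ h z ∈ K} = Subtype.val '' (φ ⁻¹' K) := by
    ext z
    constructor
    · rintro ⟨hz1, hz2⟩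
      exact ⟨⟨z, hz1⟩, hz2, rfl⟩
    · rintro ⟨z', hz', rfl⟩
      exact ⟨z'.2, hz'⟩
  rw [this]
  exact hc.image continuous_subtype_val

theorem radius_le {h : ℂ → ℂ} (hd : DifferentiableOn ℂ h (ball 0 1))
    (hi : InjOn h (ball 0 1)) (h0 : h 0 = 0) (hp : deriv h 0 ≠ 0) {r : ℝ} (hr : 0 < r)
    (hs : sphere (0 : ℂ) r ⊆ h '' ball 0 1) : r ≤ ‖deriv h 0‖ := by
  have hK := compact_preimage hd hi (isCompact_sphere (0 : ℂ) r) hs
  set K := {z | z ∈ ball (0 : ℂ) 1 ∧ h z ∈ sphere (0 : ℂ) r} with hKdef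
  have hne : K.Nonempty := by
    have : (r : ℂ) ∈ sphere (0 : ℂ) r := by simp [abs_of_pos hr]
    obtain ⟨z, hz, hz2⟩ := hs this
    exact ⟨z, hz, by rw [hz2]; exact this⟩
  obtain ⟨zm, hzm, hmax⟩ := hK.exists_isMaxOn hne continuous_norm.continuousOn
  have hρ : ‖zm‖ < 1 := by simpa using hzm.1
  obtain ⟨t, ht1, ht2⟩ := exists_between hρ
  have ht0 : 0 < t := lt_of_le_of_lt (norm_nonneg _) ht1
  have hsub : closedBall (0 : ℂ) t ⊆ ball 0 1 := closedBall_subset_ball ht2
  have hcb : DifferentiableOn ℂ h (closedBall 0 t) := hd.mono hsub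
  -- on the circle of radius t
  have hnot : ∀ z ∈ sphere (0 : ℂ) t, ‖h z‖ ≠ r := by
    intro z hz heq
    have hz1 : z ∈ ball (0 : ℂ) 1 := hsub (sphere_subset_closedBall hz)
    have hzK : z ∈ K := ⟨hz1, by simpa using heq⟩
    have := hmax hzK
    simp only [mem_ofPred_eq] at this
    rw [mem_sphere_zero_iff_norm] at hz
    linarith
  have hconn : IsPreconnected (sphere (0 : ℂ) t) :=
    isPreconnected_sphere (by rw [Complex.rank_real_complex]; norm_num) 0 t
  have hcs : ContinuousOn (fun z => ‖h z‖) (sphere (0 : ℂ) t) :=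
    (hcb.continuousOn.mono sphere_subset_closedBall).norm
  have hgt : ∀ z ∈ sphere (0 : ℂ) t, r < ‖h z‖ := by
    by_contra hcon
    push Not at hcon
    obtain ⟨z1, hz1, hz1r⟩ := hcon
    have hlt : ∀ z ∈ sphere (0 : ℂ) t, ‖h z‖ < r := by
      intro z hz
      by_contra hge
      push Not at hge
      have := hconn.intermediate_value hz1 hz hcs
      obtain ⟨w, hw, hw2⟩ := this ⟨hz1r, hge⟩
      exact hnot w hw hw2
    -- maximum principle
    obtain ⟨c, hc, hcmax⟩ := (isCompact_sphere (0 : ℂ) t).exists_isMaxOn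
      ⟨z1, hz1⟩ hcs
    have hM := hlt c hc
    have hle : ∀ z ∈ closedBall (0 : ℂ) t, ‖h z‖ ≤ ‖h c‖ := by
      intro z hz
      have hdc : DiffContOnCl ℂ h (ball 0 t) := by
        apply DifferentiableOn.diffContOnCl
        rw [closure_ball _ ht0.ne']
        exact hcb
      apply Complex.norm_le_of_forall_mem_frontier_norm_le isBounded_ball hdc
      · intro w hw
        rw [frontier_ball _ ht0.ne'] at hw
        exact hcmax hw
      · rw [closure_ball _ ht0.ne']
        exact hz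
    have h1 := hle zm (by rw [mem_closedBall_zero_iff]; exact ht1.le)
    have h2 : ‖h zm‖ = r := by simpa using hzm.2
    linarith
  -- the function z / h z
  have hds : DifferentiableOn ℂ (dslope h 0) (ball 0 1) :=
    (Complex.differentiableOn_dslope (ball_mem_nhds 0 one_pos)).2 hd
  have hnz : ∀ z ∈ ball (0 : ℂ) 1, dslope h 0 z ≠ 0 := by
    intro z hz
    rcases eq_or_ne z 0 with rfl | hz0
    · rw [dslope_same]; exact hp
    · rw [dslope_of_ne _ hz0, slope_def_field, h0]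
      have h1 : h z ≠ 0 := by
        intro h2
        exact hz0 (hi hz (by simp) (by rw [h2, h0]))
      simp [h1, hz0]
  have hφ : DifferentiableOn ℂ (fun z => (dslope h 0 z)⁻¹) (closedBall 0 t) :=
    (hds.inv hnz).mono hsub
  have hbound : ‖(dslope h 0 0)⁻¹‖ ≤ 1 / r := by
    have hdc : DiffContOnCl ℂ (fun z => (dslope h 0 z)⁻¹) (ball 0 t) := by
      apply DifferentiableOn.diffContOnCl
      rw [closure_ball _ ht0.ne']
      exact hφ
    refine Complex.norm_le_of_forall_mem_frontier_norm_le (U := ball (0 : ℂ) t) (z := 0)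
      isBounded_ball hdc ?_ ?_
    · intro w hw
      rw [frontier_ball _ ht0.ne'] at hw
      have hw1 : ‖w‖ = t := by simpa using hw
      have hw0 : w ≠ 0 := by
        rintro rfl
        simp at hw1
        linarith
      have hg := hgt w hw
      rw [dslope_of_ne _ hw0, slope_def_field, h0, sub_zero, sub_zero, norm_inv, norm_div, hw1,
        inv_div]
      rw [div_le_div_iff₀ (by linarith) hr]
      nlinarith
    · rw [closure_ball _ ht0.ne']
      simp [ht0.le]
  rw [dslope_same, norm_inv] at hbound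
  have hpos : 0 < ‖deriv h 0‖ := norm_pos_iff.2 hp
  rw [inv_eq_one_div, div_le_div_iff₀ hpos hr] at hbound
  linarith

theorem exists_sqrt {G : ℂ → ℂ} (hG : DifferentiableOn ℂ G (ball 0 1))
    (hnz : ∀ z ∈ ball (0 : ℂ) 1, G z ≠ 0) {b : ℂ} (hb : b ^ 2 = G 0) :
    ∃ s : ℂ → ℂ, DifferentiableOn ℂ s (ball 0 1) ∧ s 0 = b ∧ ∀ z ∈ ball (0 : ℂ) 1, s z ^ 2 = G z := by
  have hG' : DifferentiableOn ℂ (fun z => deriv G z / G z) (ball 0 1) :=
    (hG.deriv isOpen_ball).div hG hnz
  obtain ⟨F, hF⟩ := hG'.isExactOn_ball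
  have h0 : (0 : ℂ) ∈ ball (0 : ℂ) 1 := by simp
  have hE : ∀ z ∈ ball (0 : ℂ) 1, HasDerivAt (fun z => Complex.exp (F z - F 0) / G z) 0 z := by
    intro z hz
    have h1 := ((hF z hz).sub_const (F 0)).cexp
    have h2 : HasDerivAt G (deriv G z) z :=
      (hG.differentiableAt (isOpen_ball.mem_nhds hz)).hasDerivAt
    have h3 := h1.div h2 (hnz z hz)
    refine HasDerivAt.congr_deriv h3 ?_
    have := hnz z hz
    have h4 : Complex.exp (F z - F 0) * (deriv G z / G z) * G z
        = Complex.exp (F z - F 0) * deriv G z := by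
      rw [mul_assoc, div_mul_cancel₀ _ this]
    show (Complex.exp (F z - F 0) * (deriv G z / G z) * G z
      - Complex.exp (F z - F 0) * deriv G z) / G z ^ 2 = 0
    rw [h4, sub_self, zero_div]
  have hconst : ∀ z ∈ ball (0 : ℂ) 1, Complex.exp (F z - F 0) / G z = 1 / G 0 := by
    intro z hz
    have hdo : DifferentiableOn ℂ (fun z => Complex.exp (F z - F 0) / G z) (ball 0 1) :=
      fun w hw => (hE w hw).differentiableAt.differentiableWithinAt
    have := isOpen_ball.is_const_of_deriv_eq_zero (convex_ball (0 : ℂ) 1).isPreconnected hdo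
      (fun w hw => (hE w hw).deriv) hz h0
    simpa using this
  refine ⟨fun z => b * Complex.exp ((F z - F 0) / 2), ?_, ?_, ?_⟩
  · intro z hz
    have h1 := (((hF z hz).sub_const (F 0)).div_const 2).cexp.const_mul b
    exact h1.differentiableAt.differentiableWithinAt
  · simp
  · intro z hz
    have h1 := hconst z hz
    have h2 := hnz z hz
    have h3 := hnz 0 h0
    rw [mul_pow, hb, ← Complex.exp_nat_mul]
    have h4 : ((2 : ℕ) : ℂ) * ((F z - F 0) / 2) = F z - F 0 := by push_cast; ring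
    rw [h4]
    rw [div_eq_div_iff h2 h3] at h1
    rw [mul_comm, h1, one_mul]

/-- disc automorphism exchanging `0` and `a` -/
noncomputable def B (a z : ℂ) : ℂ := (a - z) / (1 - conj a * z)

theorem B_den {a z : ℂ} (ha : ‖a‖ < 1) (hz : ‖z‖ < 1) : 1 - conj a * z ≠ 0 := by
  intro h
  have h1 : conj a * z = 1 := (sub_eq_zero.1 h).symm
  have h2 : ‖a‖ * ‖z‖ = 1 := by
    rw [← RCLike.norm_conj a, ← norm_mul, h1, norm_one]
  nlinarith [norm_nonneg a, norm_nonneg z]

theorem B_maps {a z : ℂ} (ha : ‖a‖ < 1) (hz : ‖z‖ < 1) : ‖B a z‖ < 1 := by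
  have hden := B_den ha hz
  rw [B, norm_div, div_lt_one (norm_pos_iff.2 hden)]
  have h1 : ‖1 - conj a * z‖ ^ 2 - ‖a - z‖ ^ 2 = (1 - ‖a‖ ^ 2) * (1 - ‖z‖ ^ 2) := by
    rw [← Complex.normSq_eq_norm_sq, ← Complex.normSq_eq_norm_sq, ← Complex.normSq_eq_norm_sq,
      ← Complex.normSq_eq_norm_sq]
    simp only [Complex.normSq_apply, Complex.sub_re, Complex.sub_im, Complex.mul_re,
      Complex.mul_im, Complex.conj_re, Complex.conj_im, Complex.one_re, Complex.one_im]
    ring
  have h2 : 0 < (1 - ‖a‖ ^ 2) * (1 - ‖z‖ ^ 2) := by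
    apply mul_pos
    · nlinarith [norm_nonneg a]
    · nlinarith [norm_nonneg z]
  apply lt_of_pow_lt_pow_left₀ 2 (norm_nonneg _)
  linarith

theorem B_invol {a z : ℂ} (ha : ‖a‖ < 1) (hz : ‖z‖ < 1) : B a (B a z) = z := by
  have hden := B_den ha hz
  have hden2 := B_den ha (B_maps ha hz)
  have hB : B a z * (1 - conj a * z) = a - z := by
    rw [B, div_mul_cancel₀ _ hden]
  have h1 : B a (B a z) = (a - B a z) / (1 - conj a * B a z) := rfl
  rw [h1, div_eq_iff hden2]
  apply mul_right_cancel₀ hden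
  linear_combination (-1 + z * conj a) * hB

theorem B_hasDeriv {a z : ℂ} (ha : ‖a‖ < 1) (hz : ‖z‖ < 1) :
    HasDerivAt (B a) (-(1 - conj a * a) / (1 - conj a * z) ^ 2) z := by
  have hden := B_den ha hz
  have h1 : HasDerivAt (fun z : ℂ => a - z) (-1) z := by
    simpa using (hasDerivAt_id z).const_sub a
  have h2 : HasDerivAt (fun z : ℂ => 1 - conj a * z) (-(conj a)) z := by
    simpa using ((hasDerivAt_id z).const_mul (conj a)).const_sub 1
  have h3 := h1.div h2 hden
  refine HasDerivAt.congr_deriv h3 ?_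
  congr 1
  ring

theorem B_zero (a : ℂ) : B a 0 = a := by simp [B]

theorem B_self (a : ℂ) : B a a = 0 := by simp [B]

theorem koebe_step {h : ℂ → ℂ} (hh : SelfMap h) (hi : InjOn h (ball 0 1)) {r : ℝ} (hr0 : 0 < r)
    (hr1 : r < 1) (hp : deriv h 0 ≠ 0) (hpr : ‖deriv h 0‖ < r) :
    ∃ k h₁ : ℂ → ℂ, SelfMap k ∧ deriv k 0 = ((2 * Real.sqrt r / (1 + r) : ℝ) : ℂ) ∧
      SelfMap h₁ ∧ InjOn h₁ (ball 0 1) ∧ EqOn h (k ∘ h₁) (ball 0 1) := by
  obtain ⟨hd, hm, h0⟩ := hh
  -- an omitted value of modulus `r`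
  obtain ⟨a, ha1, ha2⟩ : ∃ a : ℂ, ‖a‖ = r ∧ a ∉ h '' ball 0 1 := by
    by_contra hcon
    push Not at hcon
    have : sphere (0 : ℂ) r ⊆ h '' ball 0 1 := fun a ha => hcon a (by simpa using ha)
    exact absurd (radius_le hd hi h0 hp hr0 this) (not_le.2 hpr)
  have ha : ‖a‖ < 1 := by rw [ha1]; exact hr1
  have hmz : ∀ z ∈ ball (0 : ℂ) 1, ‖h z‖ < 1 := fun z hz => by simpa using hm hz
  -- the nonvanishing function
  have hGd : DifferentiableOn ℂ (fun z => B a (h z)) (ball 0 1) := by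
    intro z hz
    have h1 := (B_hasDeriv ha (hmz z hz)).differentiableAt
    exact (h1.comp z (hd.differentiableAt (isOpen_ball.mem_nhds hz))).differentiableWithinAt
  have hGnz : ∀ z ∈ ball (0 : ℂ) 1, B a (h z) ≠ 0 := by
    intro z hz h1
    have h2 := B_invol ha (hmz z hz)
    rw [h1, B_zero] at h2
    exact ha2 ⟨z, hz, h2.symm⟩
  obtain ⟨b, hb⟩ : ∃ b : ℂ, b ^ 2 = a := by
    obtain ⟨b, hb⟩ := IsAlgClosed.exists_pow_nat_eq a (n := 2) (by norm_num)
    exact ⟨b, hb⟩
  have hbn : ‖b‖ ^ 2 = r := by rw [← norm_pow, hb, ha1]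
  have hb1 : ‖b‖ < 1 := by
    apply lt_of_pow_lt_pow_left₀ 2 zero_le_one
    rw [hbn]; simpa using hr1
  have hb0 : 0 < ‖b‖ := by
    rcases (norm_nonneg b).eq_or_lt with h1 | h1
    · rw [← h1] at hbn
      norm_num at hbn
      linarith
    · exact h1
  have hbr : ‖b‖ = Real.sqrt r := by
    rw [← hbn, Real.sqrt_sq hb0.le]
  obtain ⟨s, hsd, hs0, hs⟩ := exists_sqrt hGd hGnz (b := b) (by
    show b ^ 2 = B a (h 0)
    rw [h0, B_zero, hb])
  have hsn : ∀ z ∈ ball (0 : ℂ) 1, ‖s z‖ < 1 := by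
    intro z hz
    apply lt_of_pow_lt_pow_left₀ 2 zero_le_one
    rw [← norm_pow, hs z hz]
    simpa using B_maps ha (hmz z hz)
  -- the rotation
  set ω : ℂ := conj b / ‖b‖ with hω
  have hbne : (‖b‖ : ℂ) ≠ 0 := by exact_mod_cast hb0.ne'
  have hωn : ‖ω‖ = 1 := by
    rw [hω, norm_div, RCLike.norm_conj, Complex.norm_real, norm_norm, div_self hb0.ne']
  have hωω : ω * conj ω = 1 := by
    rw [Complex.mul_conj, Complex.normSq_eq_norm_sq, hωn]; norm_num
  have hbω : b * ω = ‖b‖ := by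
    rw [hω, mul_div_assoc', Complex.mul_conj, Complex.normSq_eq_norm_sq, div_eq_iff hbne]
    push_cast; ring
  have hωz : ∀ z : ℂ, ‖z‖ < 1 → ‖ω * z‖ < 1 := fun z hz => by rw [norm_mul, hωn, one_mul]; exact hz
  have hBz : ∀ z : ℂ, ‖z‖ < 1 → ‖B b (ω * z) ^ 2‖ < 1 := by
    intro z hz
    rw [norm_pow]
    have := B_maps hb1 (hωz z hz)
    exact pow_lt_one₀ (norm_nonneg _) this two_ne_zero
  have hkd : ∀ z : ℂ, ‖z‖ < 1 → HasDerivAt (fun z => B a (B b (ω * z) ^ 2))
      ((-(1 - conj a * a) / (1 - conj a * (B b (ω * z) ^ 2)) ^ 2) *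
        (2 * B b (ω * z) * ((-(1 - conj b * b) / (1 - conj b * (ω * z)) ^ 2) * ω))) z := by
    intro z hz
    have h1 : HasDerivAt (fun z : ℂ => ω * z) ω z := by
      simpa using (hasDerivAt_id z).const_mul ω
    have h2 := (B_hasDeriv hb1 (hωz z hz)).comp z h1
    have h3 := h2.pow 2
    have h4 := (B_hasDeriv ha (hBz z hz)).comp z h3
    refine HasDerivAt.congr_deriv h4 ?_
    simp
  refine ⟨fun z => B a (B b (ω * z) ^ 2), fun z => conj ω * B b (s z), ⟨?_, ?_, ?_⟩, ?_,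
    ⟨?_, ?_, ?_⟩, ?_, ?_⟩
  · intro z hz
    exact (hkd z (by simpa using hz)).differentiableAt.differentiableWithinAt
  · intro z hz
    rw [mem_ball_zero_iff] at hz ⊢
    exact B_maps ha (hBz z hz)
  · simp only [mul_zero, B_zero, hb, B_self]
  · rw [(hkd 0 (by simp)).deriv]
    simp only [mul_zero, B_zero, hb, sub_zero]
    have e1 : conj a * a = (r : ℂ) ^ 2 := by
      rw [mul_comm, Complex.mul_conj, Complex.normSq_eq_norm_sq, ha1]; push_cast; ring
    have e2 : conj b * b = (r : ℂ) := by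
      rw [mul_comm, Complex.mul_conj, Complex.normSq_eq_norm_sq, hbn]
    rw [e1, e2]
    have e3 : (1 : ℂ) - (r : ℂ) ^ 2 ≠ 0 := by
      have : (1 : ℝ) - r ^ 2 ≠ 0 := by nlinarith
      exact_mod_cast this
    have e4 : (1 : ℂ) + (r : ℂ) ≠ 0 := by
      have : (1 : ℝ) + r ≠ 0 := by linarith
      exact_mod_cast this
    have e5 : (1 : ℂ) - (r : ℂ) ≠ 0 := by
      have : (1 : ℝ) - r ≠ 0 := by linarith
      exact_mod_cast this
    rw [← hbr]
    push_cast
    rw [← hbω]
    have e6 : (1 : ℂ) - (r : ℂ) ^ 2 = (1 - r) * (1 + r) := by ring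
    rw [e6]
    field_simp
  · intro z hz
    have h1 := (B_hasDeriv hb1 (hsn z hz)).differentiableAt
    exact ((h1.comp z (hsd.differentiableAt (isOpen_ball.mem_nhds hz))).const_mul
      (conj ω)).differentiableWithinAt
  · intro z hz
    rw [mem_ball_zero_iff, norm_mul, RCLike.norm_conj, hωn, one_mul]
    exact B_maps hb1 (hsn z hz)
  · show conj ω * B b (s 0) = 0
    rw [hs0, B_self, mul_zero]
  · intro z hz w hw hzw
    have hω0 : conj ω ≠ 0 := by
      intro h1
      rw [h1, mul_zero] at hωω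
      exact zero_ne_one hωω
    have h1 : B b (s z) = B b (s w) := mul_left_cancel₀ hω0 hzw
    have h2 : s z = s w := by
      rw [← B_invol hb1 (hsn z hz), h1, B_invol hb1 (hsn w hw)]
    have h3 : B a (h z) = B a (h w) := by
      rw [← hs z hz, h2, hs w hw]
    apply hi hz hw
    rw [← B_invol ha (hmz z hz), h3, B_invol ha (hmz w hw)]
  · intro z hz
    show h z = B a (B b (ω * (conj ω * B b (s z))) ^ 2)
    rw [← mul_assoc, hωω, one_mul, B_invol hb1 (hsn z hz), hs z hz, B_invol ha (hmz z hz)]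

end Pool.Agent.Helper64.C3
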