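import Pool.Agent.Helper64.C3.LowerLimit
import Pool.Agent.Helper64.C3.UpperN

set_option autoImplicit false

open Metric Set Filter Topology Asymptotics

namespace Pool.Agent.Helper64.C3

/-! Theorem L: the lower bound for every `n` -/

/-- the error term -/
noncomputable def Er (α : ℝ) (z : ℂ) : ℂ :=
  3 * koebe z ^ 3 * (Uf z α ^ 2 - 2 * Uf z 1 * Uf z α)
    - 2 * koebe z ^ 3 * Sf z α * (2 * (Real.sqrt α : ℝ) / rt α (koebe z))

theorem Uf_one {z : ℂ} (hz : ‖z‖ < 1) : Uf z 1 = 2 * ((1 - z) * Lam z) := by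
  unfold Uf
  rw [pick_one hz]
  simp

theorem psi2_split {α : ℝ} {z : ℂ} (hz : ‖z‖ < 1) :
    psi2 z α = 12 * ((koebe z * koebe z) * (z * (Lam z * Lam z)))
      + ((-Real.log α : ℝ) : ℂ) * (koebe z * koebe z) + Er α z := by
  have h1 : (1 : ℂ) - z ≠ 0 := M6.one_sub_ne (by simpa using hz)
  have h2 : koebe z * (1 - z) ^ 2 = z := by
    unfold koebe; field_simp
  unfold psi2 Er Sf
  rw [Uf_one hz]
  push_cast
  linear_combination (12 * koebe z ^ 2 * Lam z ^ 2) * h2

theorem Er_bound {α x : ℝ} (hα0 : 0 < α) (hα1 : α ≤ 1) (hx : 1 ≤ x) {z : ℂ} (hz0 : ‖z‖ ≤ 1 - 1 / x) :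
    ‖Er α z‖ ≤ 208 * x ^ 8 * Real.sqrt α := by
  have hx0 : 0 < x := by linarith
  have hxi : 0 < 1 / x := by positivity
  have hz : ‖z‖ < 1 := by linarith
  set s := Real.sqrt α with hs
  have hs0 : 0 < s := Real.sqrt_pos.2 hα0
  have hs1 : s ≤ 1 := by rw [hs, Real.sqrt_le_one]; exact hα1
  obtain ⟨hrel, h1W, h2W, hWn⟩ := pick_rel hα0 hα1 hz
  obtain ⟨_, hWz⟩ := pick_facts hα0 hα1 hz
  have hRne := rt_one_ne hα0 hα1 hz
  -- bounds
  have b1 : ∀ w : ℂ, ‖w‖ ≤ 1 - 1 / x → ‖2 * ((1 - w) * Lam w)‖ ≤ 4 * x := by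
    intro w hw
    have hw1 : ‖w‖ < 1 := by linarith
    rw [norm_mul, norm_mul, Complex.norm_two]
    have e1 : ‖1 - w‖ ≤ 2 := (norm_sub_le _ _).trans (by rw [norm_one]; linarith)
    have e2 : ‖Lam w‖ ≤ x := by
      refine (norm_Lam_le hw1).trans ?_
      rw [div_le_iff₀ (by linarith)]
      have : x * (1 / x) = 1 := by field_simp
      nlinarith
    have := mul_le_mul e1 e2 (norm_nonneg _) (by norm_num)
    linarith
  have bx : ‖koebe z‖ ≤ x ^ 2 := by
    unfold koebe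
    rw [norm_div, norm_pow]
    have e1 : 1 / x ≤ ‖1 - z‖ := by
      have := norm_sub_norm_le (1 : ℂ) z
      rw [norm_one] at this
      linarith
    have e2 : (1 / x) ^ 2 ≤ ‖1 - z‖ ^ 2 := pow_le_pow_left₀ hxi.le e1 2
    rw [div_le_iff₀ (lt_of_lt_of_le (by positivity) e2)]
    have e3 : x ^ 2 * (1 / x) ^ 2 = 1 := by field_simp
    have e4 := mul_le_mul_of_nonneg_left e2 (by positivity : 0 ≤ x ^ 2)
    linarith
  have bU1 : ‖Uf z 1‖ ≤ 4 * x := by rw [Uf_one hz]; exact b1 z hz0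
  have bU : ‖Uf z α‖ ≤ 4 * x * s := by
    have e : Uf z α = (s : ℂ) * (2 * ((1 - M6.pick α z) * Lam (M6.pick α z))) := by
      unfold Uf; ring
    rw [e, norm_mul, Complex.norm_real, Real.norm_of_nonneg hs0.le]
    have := b1 _ (hWz.trans hz0)
    nlinarith
  have bS : ‖Sf z α‖ ≤ 8 * x := by
    unfold Sf
    refine (norm_sub_le _ _).trans ?_
    nlinarith
  have bR : ‖1 / rt α (koebe z)‖ ≤ 2 * x := by
    have e : 1 / rt α (koebe z) = (1 - M6.pick α z) / (1 + M6.pick α z) := by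
      rw [div_eq_div_iff hRne h2W, one_mul, mul_comm, ← hrel]
      try ring
    rw [e, norm_div]
    have e1 : ‖1 - M6.pick α z‖ ≤ 2 := (norm_sub_le _ _).trans (by rw [norm_one]; linarith)
    have e2 : 1 / x ≤ ‖1 + M6.pick α z‖ := by
      have := norm_sub_norm_le (1 : ℂ) (-M6.pick α z)
      rw [norm_one, norm_neg, sub_neg_eq_add] at this
      linarith
    rw [div_le_iff₀ (by linarith)]
    have e3 : x * (1 / x) = 1 := by field_simp
    have e4 := mul_le_mul_of_nonneg_left e2 (by positivity : 0 ≤ 2 * x)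
    nlinarith
  have bτ : ‖2 * (s : ℂ) / rt α (koebe z)‖ ≤ 4 * x * s := by
    have e : 2 * (s : ℂ) / rt α (koebe z) = (2 * s : ℂ) * (1 / rt α (koebe z)) := by ring
    rw [e, norm_mul, norm_mul, Complex.norm_two, Complex.norm_real, Real.norm_of_nonneg hs0.le]
    nlinarith
  have bx3 : ‖koebe z‖ ^ 3 ≤ x ^ 6 := by
    have := pow_le_pow_left₀ (norm_nonneg _) bx 3
    rwa [← pow_mul] at this
  unfold Er
  rw [← hs]
  refine (norm_sub_le _ _).trans ?_
  have c1 : ‖3 * koebe z ^ 3 * (Uf z α ^ 2 - 2 * Uf z 1 * Uf z α)‖ ≤ 144 * x ^ 8 * s := by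
    rw [norm_mul, norm_mul, norm_pow]
    have d1 : ‖Uf z α ^ 2 - 2 * Uf z 1 * Uf z α‖ ≤ 48 * x ^ 2 * s := by
      refine (norm_sub_le _ _).trans ?_
      rw [norm_pow, norm_mul, norm_mul, Complex.norm_two]
      have f1 : ‖Uf z α‖ ^ 2 ≤ (4 * x * s) ^ 2 := pow_le_pow_left₀ (norm_nonneg _) bU 2
      have f2 : ‖Uf z 1‖ * ‖Uf z α‖ ≤ (4 * x) * (4 * x * s) :=
        mul_le_mul bU1 bU (norm_nonneg _) (by positivity)
      have f3 : (4 * x * s) ^ 2 ≤ 16 * x ^ 2 * s := by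
        have : s ^ 2 ≤ s := by nlinarith
        have := mul_le_mul_of_nonneg_left this (by positivity : 0 ≤ 16 * x ^ 2)
        nlinarith
      nlinarith
    have d2 : ‖(3 : ℂ)‖ = 3 := by simp
    rw [d2]
    calc 3 * ‖koebe z‖ ^ 3 * ‖Uf z α ^ 2 - 2 * Uf z 1 * Uf z α‖
        ≤ (3 * x ^ 6) * (48 * x ^ 2 * s) :=
          mul_le_mul (by linarith) d1 (norm_nonneg _) (by positivity)
      _ = 144 * x ^ 8 * s := by ring
  have c2 : ‖2 * koebe z ^ 3 * Sf z α * (2 * (s : ℂ) / rt α (koebe z))‖ ≤ 64 * x ^ 8 * s := by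
    rw [norm_mul, norm_mul, norm_mul, norm_pow, Complex.norm_two]
    calc 2 * ‖koebe z‖ ^ 3 * ‖Sf z α‖ * ‖2 * (s : ℂ) / rt α (koebe z)‖
        ≤ (2 * x ^ 6) * (8 * x) * (4 * x * s) := by
          apply mul_le_mul _ bτ (norm_nonneg _) (by positivity)
          exact mul_le_mul (by linarith) bS (norm_nonneg _) (by positivity)
      _ = 64 * x ^ 8 * s := by ring
  linarith

theorem lower_main {n : ℕ} (hn : 16 ≤ n) :
    (n : ℝ) ^ 3 * Real.log n ^ 2 / 256
      ≤ (ell n (1 - 1 / (n : ℝ)) (fun z => psi2 z (((n : ℝ) ^ 20)⁻¹))).re := by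
  have hn16 : (16 : ℝ) ≤ n := by exact_mod_cast hn
  have hn0 : (0 : ℝ) < n := by linarith
  set x : ℝ := (n : ℝ) with hx
  set α : ℝ := (x ^ 20)⁻¹ with hα
  have hα0 : 0 < α := by positivity
  have hx1 : 1 < x ^ 20 := one_lt_pow₀ (by linarith) (by norm_num)
  have hα1 : α < 1 := inv_lt_one_of_one_lt₀ hx1
  have hr0 : 0 < 1 - 1 / x := by
    have : 1 / x ≤ 1 / 16 := one_div_le_one_div_of_le (by norm_num) hn16
    linarith
  have hr1 : 1 - 1 / x < 1 := by
    have : 0 < 1 / x := by positivity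
    linarith
  set r := 1 - 1 / x with hr
  have hsα : Real.sqrt α = (x ^ 10)⁻¹ := by
    rw [hα, Real.sqrt_inv]
    congr 1
    rw [show x ^ 20 = (x ^ 10) ^ 2 by ring, Real.sqrt_sq (by positivity)]
  have hlogα : -Real.log α = 20 * Real.log x := by
    rw [hα, Real.log_inv, Real.log_pow]; push_cast; ring
  -- the three pieces
  have dM : DifferentiableOn ℂ (fun z => (koebe z * koebe z) * (z * (Lam z * Lam z))) (ball 0 1) :=
    (M6.koebe_diff.mul M6.koebe_diff).mul (differentiableOn_id.mul (Lam_diff.mul Lam_diff))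
  have dQ : DifferentiableOn ℂ (fun z => koebe z * koebe z) (ball 0 1) :=
    M6.koebe_diff.mul M6.koebe_diff
  have cont : ∀ {g : ℂ → ℂ}, DifferentiableOn ℂ g (ball 0 1) → ContinuousOn g (sphere 0 r) :=
    fun hg => hg.continuousOn.mono (fun _ hz => sphere_mem hr1 hz)
  have cM := cont dM
  have cQ := cont dQ
  have cψ := cont (psi2_diff hα0 hα1.le)
  have cM' : ContinuousOn (fun z => (12 : ℂ) * ((koebe z * koebe z) * (z * (Lam z * Lam z))))
    (sphere 0 r) := continuousOn_const.mul cM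
  have cQ' : ContinuousOn (fun z => ((-Real.log α : ℝ) : ℂ) * (koebe z * koebe z)) (sphere 0 r) :=
    continuousOn_const.mul cQ
  have hEb : ‖ell n r (fun z => psi2 z α - 12 * ((koebe z * koebe z) * (z * (Lam z * Lam z)))
      - ((-Real.log α : ℝ) : ℂ) * (koebe z * koebe z))‖ ≤ (r ^ n)⁻¹ * (208 / x ^ 2) := by
    have cE : ContinuousOn (fun z => psi2 z α - 12 * ((koebe z * koebe z) * (z * (Lam z * Lam z)))
      - ((-Real.log α : ℝ) : ℂ) * (koebe z * koebe z)) (sphere 0 r) := (cψ.sub cM').sub cQ'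
    apply norm_ell_le_const hr0 cE
    intro z hz
    have hz1 : ‖z‖ < 1 := by simpa using sphere_mem hr1 hz
    have hzr : ‖z‖ = r := mem_sphere_zero_iff_norm.1 hz
    have e : psi2 z α - 12 * ((koebe z * koebe z) * (z * (Lam z * Lam z)))
      - ((-Real.log α : ℝ) : ℂ) * (koebe z * koebe z) = Er α z := by
      rw [psi2_split hz1]; ring
    rw [e]
    refine (Er_bound hα0 hα1.le (by linarith : 1 ≤ x) hzr.le).trans (le_of_eq ?_)
    rw [hsα]
    field_simp
  have e1 : ell n r (fun z => psi2 z α - 12 * ((koebe z * koebe z) * (z * (Lam z * Lam z)))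
      - ((-Real.log α : ℝ) : ℂ) * (koebe z * koebe z))
      = ell n r (fun z => psi2 z α) - 12 * (mainc n : ℂ)
        - ((-Real.log α : ℝ) : ℂ) * (conv (fun k => (k : ℝ)) (fun k => (k : ℝ)) n : ℂ) := by
    have c1 : ContinuousOn (fun z => psi2 z α - 12 * ((koebe z * koebe z) * (z * (Lam z * Lam z))))
      (sphere 0 r) := cψ.sub cM'
    rw [ell_sub hr0 c1 cQ', ell_sub hr0 cψ cM', ell_const_mul, ell_const_mul,
      ell_eq_coeff hr0 hr1 dM, ell_eq_coeff hr0 hr1 dQ, PS_main.coeff n,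
      (PS_koebe.mul PS_koebe).coeff n]
  have h1 := (abs_le.1 ((Complex.abs_re_le_norm _).trans hEb)).1
  rw [e1, Complex.sub_re, Complex.sub_re] at h1
  have e2 : ((12 : ℂ) * (mainc n : ℂ)).re = 12 * mainc n := by
    have : (12 : ℂ) * (mainc n : ℂ) = ((12 * mainc n : ℝ) : ℂ) := by push_cast; ring
    rw [this, Complex.ofReal_re]
  have e3 : (((-Real.log α : ℝ) : ℂ) * (conv (fun k => (k : ℝ)) (fun k => (k : ℝ)) n : ℂ)).re
      = -Real.log α * conv (fun k => (k : ℝ)) (fun k => (k : ℝ)) n := by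
    rw [← Complex.ofReal_mul, Complex.ofReal_re]
  rw [e2, e3] at h1
  have hc0 : 0 ≤ conv (fun k => (k : ℝ)) (fun k => (k : ℝ)) n :=
    conv_nonneg (fun k => by positivity) (fun k => by positivity) n
  have hlg0 : 0 ≤ Real.log x := Real.log_nonneg (by linarith)
  have h2 : 0 ≤ -Real.log α * conv (fun k => (k : ℝ)) (fun k => (k : ℝ)) n := by
    rw [hlogα]; positivity
  have h3 := mainc_lower hn
  have hR : (r ^ n)⁻¹ ≤ 6 := inv_pow_le (by omega)
  have h4 : (r ^ n)⁻¹ * (208 / x ^ 2) ≤ 6 * (208 / x ^ 2) :=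
    mul_le_mul_of_nonneg_right hR (by positivity)
  have h5 : 208 / x ^ 2 ≤ 1 := by
    rw [div_le_one (by positivity)]
    nlinarith
  have hlg2 : 2 ≤ Real.log x := by
    have a1 : Real.log 16 ≤ Real.log x := Real.log_le_log (by norm_num) hn16
    have a2 : Real.log 16 = 4 * Real.log 2 := by
      rw [show (16 : ℝ) = 2 ^ 4 by norm_num, Real.log_pow]; norm_num
    have a3 := Real.log_two_gt_d9
    linarith
  have h6 : 6 ≤ x ^ 3 * Real.log x ^ 2 / 256 := by
    have a1 : (16 : ℝ) ^ 3 ≤ x ^ 3 := pow_le_pow_left₀ (by norm_num) hn16 3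
    have a2 : (2 : ℝ) ^ 2 ≤ Real.log x ^ 2 := pow_le_pow_left₀ (by norm_num) hlg2 2
    have a3 := mul_le_mul a1 a2 (by norm_num) (by positivity)
    linarith
  have h7 : (ell n r (fun z => psi2 z α)).re ≥ 12 * (x ^ 3 * Real.log x ^ 2 / 1536) - 6 := by
    linarith
  linarith

/-- The function `f z = z` belongs to the class. -/
theorem classS_id : ClassS (fun z => z) := by
  refine ⟨differentiableOn_id, fun a _ b _ h => h, rfl, ?_⟩
  exact deriv_id 0

theorem coeff_id {n : ℕ} (hn : 2 ≤ n) : coeff n (fun z : ℂ => z) = 0 := by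
  rw [PS_id.coeff n, if_neg (by omega)]
  simp

/-- **Theorem L.** -/
theorem theorem_L {n : ℕ} (hn : 2 ≤ n) {K : ℝ}
    (hK : ∀ f : ℂ → ℂ, ClassS f → |((n : ℂ) - coeff n f).re| ≤ K * (2 - coeff 2 f).re) :
    (n : ℝ) ^ 3 * Real.log n / 5120 ≤ K := by
  have hn2 : (2 : ℝ) ≤ n := by exact_mod_cast hn
  have hn0 : (0 : ℝ) < n := by linarith
  -- the identity function
  have h1 : (n : ℝ) ≤ K * 2 := by
    have := hK _ classS_id
    rw [coeff_id hn, coeff_id le_rfl] at this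
    simpa using this
  have hK0 : 0 ≤ K := by linarith
  rcases lt_or_ge n 16 with hn16 | hn16
  · -- small `n`
    have hlt : (n : ℝ) ≤ 16 := by exact_mod_cast hn16.le
    have hlog : Real.log n ≤ 3 := by
      have a1 : Real.log n ≤ Real.log 16 := Real.log_le_log hn0 hlt
      have a2 : Real.log 16 = 4 * Real.log 2 := by
        rw [show (16 : ℝ) = 2 ^ 4 by norm_num, Real.log_pow]; norm_num
      have a3 := Real.log_two_lt_d9
      linarith
    have hlog0 : 0 ≤ Real.log n := Real.log_nonneg (by linarith)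
    have a0 : (n : ℝ) * n ≤ 16 * 16 := mul_le_mul hlt hlt hn0.le (by norm_num)
    have a1 : (n : ℝ) ^ 3 ≤ 256 * n := by nlinarith
    have a2 : (n : ℝ) ^ 3 * Real.log n ≤ (256 * n) * 3 :=
      mul_le_mul a1 hlog hlog0 (by positivity)
    linarith
  · have hx16 : (16 : ℝ) ≤ n := by exact_mod_cast hn16
    have hr0 : 0 < 1 - 1 / (n : ℝ) := by
      have : 1 / (n : ℝ) ≤ 1 / 16 := one_div_le_one_div_of_le (by norm_num) hx16
      linarith
    have hr1 : 1 - 1 / (n : ℝ) < 1 := by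
      have : 0 < 1 / (n : ℝ) := by positivity
      linarith
    have hx1 : 1 < (n : ℝ) ^ 20 := one_lt_pow₀ (by linarith) (by norm_num)
    have hα0 : 0 < ((n : ℝ) ^ 20)⁻¹ := by positivity
    have hα1 : ((n : ℝ) ^ 20)⁻¹ < 1 := inv_lt_one_of_one_lt₀ hx1
    have h2 := limit_ineq' hr0 hr1 hα0 hα1 hK0 hK
    have h3 := lower_main hn16
    have hlogα : -Real.log ((n : ℝ) ^ 20)⁻¹ = 20 * Real.log n := by
      rw [Real.log_inv, Real.log_pow]; push_cast; ring
    rw [hlogα] at h2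
    have h4 := h3.trans h2
    have hlg : 0 < Real.log n := Real.log_pos (by linarith)
    have h5 : (n : ℝ) ^ 3 * Real.log n / 5120 * (20 * Real.log n) ≤ K * (20 * Real.log n) := by
      refine le_trans (le_of_eq ?_) h4
      ring
    exact le_of_mul_le_mul_right h5 (by positivity)

end Pool.Agent.Helper64.C3
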