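import Pool.Agent.Helper64.C3.Sum

set_option autoImplicit false

open Finset

namespace Pool.Agent.Helper64.C3

/-! Theorem L: the abstract second order expansion -/

theorem u_bounds {θ : ℝ} (h0 : 0 ≤ θ) (h1 : θ ≤ 1) :
    ‖1 - Complex.exp (θ * Complex.I)‖ ≤ θ ∧
    ‖1 - Complex.exp (θ * Complex.I) + Complex.I * θ‖ ≤ θ ^ 2 ∧
    |(1 - Real.cos θ) - θ ^ 2 / 2| ≤ θ ^ 3 ∧
    1 - Complex.exp (θ * Complex.I) = ((1 - Real.cos θ : ℝ) : ℂ) - Complex.I * (Real.sin θ : ℝ) := by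
  refine ⟨?_, ?_, ?_, ?_⟩
  · rw [norm_sub_rev, mul_comm]
    have := Real.norm_exp_I_mul_ofReal_sub_one_le (x := θ)
    rwa [Real.norm_of_nonneg h0] at this
  · have hn : ‖(θ : ℂ) * Complex.I‖ = θ := by
      rw [norm_mul, Complex.norm_I, mul_one, Complex.norm_real, Real.norm_of_nonneg h0]
    have h2 := Complex.norm_exp_sub_one_sub_id_le (x := (θ : ℂ) * Complex.I) (by rw [hn]; exact h1)
    rw [hn] at h2
    have e : 1 - Complex.exp (θ * Complex.I) + Complex.I * θ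
        = -(Complex.exp (θ * Complex.I) - 1 - θ * Complex.I) := by ring
    rw [e, norm_neg]
    exact h2
  · have h2 := Real.cos_bound (x := θ) (by rw [abs_of_nonneg h0]; exact h1)
    have e : (1 - Real.cos θ) - θ ^ 2 / 2 = -(Real.cos θ - (1 - θ ^ 2 / 2)) := by ring
    rw [e, abs_neg]
    refine h2.trans ?_
    rw [abs_of_nonneg h0]
    have h3 : θ ^ 4 ≤ θ ^ 3 := by
      have : θ ^ 4 = θ ^ 3 * θ := by ring
      rw [this]
      exact mul_le_of_le_one_right (by positivity) h1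
    have h4 : 0 ≤ θ ^ 4 := by positivity
    linarith
  · rw [Complex.exp_mul_I, ← Complex.ofReal_cos, ← Complex.ofReal_sin]
    push_cast
    ring

theorem abstract_lower {m : ℕ} {δ κ : ℕ → ℝ} {t B κm η ε₁ : ℝ} {G Y d y₀ : ℕ → ℂ}
    {F X : ℕ → ℕ → ℂ} (hδ : ∀ i, 0 ≤ δ i) (hsum : ∑ i ∈ range m, δ i ≤ 1)
    (hκ : ∀ i, 0 ≤ κ i) (hκm : ∀ i < m, κ i ≤ κm) (ht : 0 ≤ t) (hT : t * κm ≤ 1) (hκm0 : 0 ≤ κm)
    (hB : 0 ≤ B) (hη : 0 ≤ η) (hη1 : η ≤ 1) (hε₁ : 0 ≤ ε₁)
    (hF : ∀ i < m, ‖F i 0‖ ≤ B) (hd : ∀ i < m, ‖d i‖ ≤ B) (hy : ∀ i < m, ‖y₀ i‖ ≤ B)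
    (hX : ∀ i < m, ∀ j < i, ‖X i j - d i * F j 0‖ ≤ B * η)
    (hY : ∀ i < m, ‖Y i - y₀ i‖ ≤ B * η)
    (h1 : ∀ i < m, ‖G i - G (i + 1) - (1 - Complex.exp ((t * κ i : ℝ) * Complex.I)) * δ i
      * (F i i + (1 - Complex.exp ((t * κ i : ℝ) * Complex.I)) * Y i)‖ ≤ ε₁)
    (h2 : ∀ i < m, ∀ j < i, ‖F i j - F i (j + 1)
      - (1 - Complex.exp ((t * κ j : ℝ) * Complex.I)) * δ j * X i j‖ ≤ ε₁) :
    ‖G 0 - G m + Complex.I * ∑ i ∈ range m, (Real.sin (t * κ i) * δ i : ℝ) * F i 0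
      - t ^ 2 * ∑ i ∈ range m, (δ i : ℂ) * ((κ i : ℂ) ^ 2 * (F i 0 / 2 - y₀ i)
        + κ i * d i * ∑ j ∈ range i, (κ j : ℂ) * δ j * F j 0)‖
      ≤ ((t * κm) ^ 3 * (B + 2 * (B ^ 2 + B) + 4 * B) + (t * κm) ^ 2 * η * (2 * B))
        + 2 * m * ε₁ := by
  set T := t * κm with hTdef
  have hT0 : 0 ≤ T := mul_nonneg ht hκm0
  set θ : ℕ → ℝ := fun i => t * κ i with hθ
  have hθ0 : ∀ i, 0 ≤ θ i := fun i => mul_nonneg ht (hκ i)
  have hθT : ∀ i < m, θ i ≤ T := fun i hi => mul_le_mul_of_nonneg_left (hκm i hi) ht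
  set u : ℕ → ℂ := fun i => 1 - Complex.exp ((t * κ i : ℝ) * Complex.I) with hu
  have hub : ∀ i < m, ‖u i‖ ≤ θ i ∧ ‖u i + Complex.I * θ i‖ ≤ θ i ^ 2 ∧
      |(1 - Real.cos (θ i)) - θ i ^ 2 / 2| ≤ θ i ^ 3 ∧
      u i = ((1 - Real.cos (θ i) : ℝ) : ℂ) - Complex.I * (Real.sin (θ i) : ℝ) :=
    fun i hi => u_bounds (hθ0 i) ((hθT i hi).trans hT)
  -- products
  have hprod : ∀ i < m, ∀ j < m, ‖u i * u j + θ i * θ j‖ ≤ 2 * T ^ 3 := by
    intro i hi j hj
    obtain ⟨a1, a2, _, _⟩ := hub i hi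
    obtain ⟨b1, b2, _, _⟩ := hub j hj
    have e : u i * u j + θ i * θ j
        = u i * (u j + Complex.I * θ j) - Complex.I * θ j * (u i + Complex.I * θ i) := by
      linear_combination ((θ i : ℂ) * θ j) * Complex.I_mul_I
    rw [e]
    refine (norm_sub_le _ _).trans ?_
    rw [norm_mul, norm_mul, norm_mul, Complex.norm_I, one_mul, Complex.norm_real,
      Real.norm_of_nonneg (hθ0 j)]
    have c1 : ‖u i‖ * ‖u j + Complex.I * θ j‖ ≤ T * T ^ 2 :=
      mul_le_mul (a1.trans (hθT i hi)) (b2.trans (pow_le_pow_left₀ (hθ0 j) (hθT j hj) 2))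
        (norm_nonneg _) hT0
    have c2 : θ j * ‖u i + Complex.I * θ i‖ ≤ T * T ^ 2 :=
      mul_le_mul (hθT j hj) (a2.trans (pow_le_pow_left₀ (hθ0 i) (hθT i hi) 2))
        (norm_nonneg _) hT0
    nlinarith
  -- one step
  set tgt : ℕ → ℂ := fun i => -(Complex.I * ((Real.sin (t * κ i) * δ i : ℝ) * F i 0))
    + t ^ 2 * ((δ i : ℂ) * ((κ i : ℂ) ^ 2 * (F i 0 / 2 - y₀ i)
        + κ i * d i * ∑ j ∈ range i, (κ j : ℂ) * δ j * F j 0)) with htgt
  have step : ∀ i < m, ‖G i - G (i + 1) - tgt i‖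
      ≤ ε₁ + δ i * (T ^ 3 * (B + 2 * (B ^ 2 + B) + 4 * B) + T ^ 2 * η * (2 * B)) + δ i * (m * ε₁) := by
    intro i hi
    obtain ⟨a1, a2, a3, a4⟩ := hub i hi
    have hui1 : ‖u i‖ ≤ 1 := a1.trans ((hθT i hi).trans hT)
    -- the expansion of `F i i`
    set E := (F i 0 - F i i) - ∑ j ∈ range i, u j * δ j * X i j with hE
    have hEb : ‖E‖ ≤ m * ε₁ := by
      have e0 : E = ∑ j ∈ range i, (F i j - F i (j + 1) - u j * δ j * X i j) := by
        rw [Finset.sum_sub_distrib, Finset.sum_range_sub' (F i) i]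
      rw [e0]
      refine (norm_sum_le _ _).trans ?_
      refine (Finset.sum_le_sum (fun j hj => h2 i hi j (mem_range.1 hj))).trans ?_
      rw [Finset.sum_const, card_range, nsmul_eq_mul]
      apply mul_le_mul_of_nonneg_right _ hε₁
      exact_mod_cast hi.le
    -- the decomposition
    have e1 : G i - G (i + 1) - tgt i
        = (G i - G (i + 1) - u i * δ i * (F i i + u i * Y i))
          + (δ i : ℂ) * ((((1 - Real.cos (θ i)) - θ i ^ 2 / 2 : ℝ) : ℂ) * F i 0)
          + (δ i : ℂ) * (-(∑ j ∈ range i, (δ j : ℂ) * ((u i * u j + θ i * θ j) * X i j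
              - θ i * θ j * (X i j - d i * F j 0))))
          + (δ i : ℂ) * ((u i * u i + θ i * θ i) * Y i - θ i * θ i * (Y i - y₀ i))
          + (-(u i * δ i * E)) := by
      have es : ∑ j ∈ range i, (δ j : ℂ) * ((u i * u j + θ i * θ j) * X i j
              - θ i * θ j * (X i j - d i * F j 0))
          = u i * (∑ j ∈ range i, u j * δ j * X i j)
            + θ i * d i * t * ∑ j ∈ range i, (κ j : ℂ) * δ j * F j 0 := by
        rw [Finset.mul_sum, Finset.mul_sum, ← Finset.sum_add_distrib]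
        apply Finset.sum_congr rfl
        intro j _
        have : (θ j : ℂ) = t * κ j := by rw [hθ]; push_cast; ring
        rw [this]
        ring
      have hFii : F i i = F i 0 - (∑ j ∈ range i, u j * δ j * X i j) - E := by rw [hE]; ring
      rw [es, hFii, htgt]
      simp only
      have hθi : (θ i : ℂ) = t * κ i := by rw [hθ]; push_cast; ring
      have hcos : (((1 - Real.cos (θ i)) - θ i ^ 2 / 2 : ℝ) : ℂ)
          = u i + Complex.I * (Real.sin (θ i) : ℝ) - (t * κ i : ℂ) ^ 2 / 2 := by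
        rw [a4, ← hθi]; push_cast; ring
      have hsin : ((Real.sin (t * κ i) * δ i : ℝ) : ℂ) = (Real.sin (θ i) : ℝ) * δ i := by
        push_cast [hθ]; ring
      rw [hcos, hsin, hθi]
      ring
    rw [e1]
    have b1 := h1 i hi
    have b2 : ‖(δ i : ℂ) * ((((1 - Real.cos (θ i)) - θ i ^ 2 / 2 : ℝ) : ℂ) * F i 0)‖
        ≤ δ i * (T ^ 3 * B) := by
      rw [norm_mul, norm_mul, Complex.norm_real, Complex.norm_real, Real.norm_of_nonneg (hδ i),
        Real.norm_eq_abs]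
      apply mul_le_mul_of_nonneg_left _ (hδ i)
      exact mul_le_mul (a3.trans (pow_le_pow_left₀ (hθ0 i) (hθT i hi) 3)) (hF i hi)
        (norm_nonneg _) (by positivity)
    have b3 : ‖(δ i : ℂ) * (-(∑ j ∈ range i, (δ j : ℂ) * ((u i * u j + θ i * θ j) * X i j
              - θ i * θ j * (X i j - d i * F j 0))))‖
        ≤ δ i * (2 * T ^ 3 * (B ^ 2 + B) + T ^ 2 * (B * η)) := by
      rw [norm_mul, norm_neg, Complex.norm_real, Real.norm_of_nonneg (hδ i)]
      apply mul_le_mul_of_nonneg_left _ (hδ i)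
      refine (norm_sum_le _ _).trans ?_
      have c1 : ∀ j ∈ range i, ‖(δ j : ℂ) * ((u i * u j + θ i * θ j) * X i j
              - θ i * θ j * (X i j - d i * F j 0))‖
          ≤ δ j * (2 * T ^ 3 * (B ^ 2 + B) + T ^ 2 * (B * η)) := by
        intro j hj
        have hj' := mem_range.1 hj
        have hjm := hj'.trans hi
        rw [norm_mul, Complex.norm_real, Real.norm_of_nonneg (hδ j)]
        apply mul_le_mul_of_nonneg_left _ (hδ j)
        refine (norm_sub_le _ _).trans ?_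
        have hXn : ‖X i j‖ ≤ B ^ 2 + B := by
          have e2 : X i j = (X i j - d i * F j 0) + d i * F j 0 := by ring
          rw [e2]
          refine (norm_add_le _ _).trans ?_
          rw [norm_mul]
          have c2 := hX i hi j hj'
          have c3 : ‖d i‖ * ‖F j 0‖ ≤ B * B := mul_le_mul (hd i hi) (hF j hjm) (norm_nonneg _) hB
          have c4 : B * η ≤ B := mul_le_of_le_one_right hB hη1
          nlinarith
        rw [norm_mul, norm_mul]
        have c5 : ‖(θ i : ℂ) * θ j‖ ≤ T ^ 2 := by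
          rw [norm_mul, Complex.norm_real, Complex.norm_real, Real.norm_of_nonneg (hθ0 i),
            Real.norm_of_nonneg (hθ0 j), sq]
          exact mul_le_mul (hθT i hi) (hθT j hjm) (hθ0 j) hT0
        exact add_le_add (mul_le_mul (hprod i hi j hjm) hXn (norm_nonneg _) (by positivity))
          (mul_le_mul c5 (hX i hi j hj') (norm_nonneg _) (by positivity))
      refine (Finset.sum_le_sum c1).trans ?_
      rw [← Finset.sum_mul]
      have c6 : ∑ j ∈ range i, δ j ≤ 1 :=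
        (Finset.sum_le_sum_of_subset_of_nonneg (Finset.range_subset_range.2 hi.le)
          (fun j _ _ => hδ j)).trans hsum
      have c7 : 0 ≤ 2 * T ^ 3 * (B ^ 2 + B) + T ^ 2 * (B * η) := by positivity
      nlinarith
    have b4 : ‖(δ i : ℂ) * ((u i * u i + θ i * θ i) * Y i - θ i * θ i * (Y i - y₀ i))‖
        ≤ δ i * (2 * T ^ 3 * (2 * B) + T ^ 2 * (B * η)) := by
      rw [norm_mul, Complex.norm_real, Real.norm_of_nonneg (hδ i)]
      apply mul_le_mul_of_nonneg_left _ (hδ i)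
      refine (norm_sub_le _ _).trans ?_
      have hYn : ‖Y i‖ ≤ 2 * B := by
        have e2 : Y i = (Y i - y₀ i) + y₀ i := by ring
        rw [e2]
        refine (norm_add_le _ _).trans ?_
        have c2 := hY i hi
        have c3 := hy i hi
        have c4 : B * η ≤ B := mul_le_of_le_one_right hB hη1
        linarith
      rw [norm_mul, norm_mul]
      have c5 : ‖(θ i : ℂ) * θ i‖ ≤ T ^ 2 := by
        rw [norm_mul, Complex.norm_real, Real.norm_of_nonneg (hθ0 i), sq]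
        exact mul_le_mul (hθT i hi) (hθT i hi) (hθ0 i) hT0
      exact add_le_add (mul_le_mul (hprod i hi i hi) hYn (norm_nonneg _) (by positivity))
        (mul_le_mul c5 (hY i hi) (norm_nonneg _) (by positivity))
    have b5 : ‖-(u i * δ i * E)‖ ≤ δ i * (m * ε₁) := by
      rw [norm_neg, norm_mul, norm_mul, Complex.norm_real, Real.norm_of_nonneg (hδ i)]
      calc ‖u i‖ * δ i * ‖E‖ ≤ 1 * δ i * (m * ε₁) := by
            apply mul_le_mul _ hEb (norm_nonneg _) (by have := hδ i; positivity)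
            exact mul_le_mul_of_nonneg_right hui1 (hδ i)
        _ = δ i * (m * ε₁) := by ring
    refine (norm_add_le _ _).trans ?_
    refine (add_le_add (norm_add_le _ _) le_rfl).trans ?_
    refine (add_le_add (add_le_add (norm_add_le _ _) le_rfl) le_rfl).trans ?_
    refine (add_le_add (add_le_add (add_le_add (norm_add_le _ _) le_rfl) le_rfl) le_rfl).trans ?_
    have hδi := hδ i
    nlinarith
  have efin : G 0 - G m + Complex.I * ∑ i ∈ range m, (Real.sin (t * κ i) * δ i : ℝ) * F i 0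
      - t ^ 2 * ∑ i ∈ range m, (δ i : ℂ) * ((κ i : ℂ) ^ 2 * (F i 0 / 2 - y₀ i)
        + κ i * d i * ∑ j ∈ range i, (κ j : ℂ) * δ j * F j 0)
      = ∑ i ∈ range m, (G i - G (i + 1) - tgt i) := by
    rw [Finset.sum_sub_distrib, Finset.sum_range_sub' G m, htgt, Finset.sum_add_distrib,
      Finset.sum_neg_distrib, ← Finset.mul_sum, ← Finset.mul_sum]
    ring
  rw [efin]
  refine (norm_sum_le _ _).trans ?_
  refine (Finset.sum_le_sum (fun i hi => step i (mem_range.1 hi))).trans ?_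
  rw [Finset.sum_add_distrib, Finset.sum_add_distrib, ← Finset.sum_mul, ← Finset.sum_mul,
    Finset.sum_const, card_range, nsmul_eq_mul]
  have p1 : 0 ≤ T ^ 3 * (B + 2 * (B ^ 2 + B) + 4 * B) + T ^ 2 * η * (2 * B) := by positivity
  have p2 : 0 ≤ (m : ℝ) * ε₁ := by positivity
  have q1 := mul_le_mul_of_nonneg_right hsum p1
  have q2 := mul_le_mul_of_nonneg_right hsum p2
  linarith

end Pool.Agent.Helper64.C3
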