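import Pool.Agent.Helper64.C3.Defs2

set_option autoImplicit false

open Finset

namespace Pool.Agent.Helper64.C3

/-! U-G: the abstract summation lemma -/

theorem re_part {χ F : ℂ} {c ε : ℝ} (hχ : ‖χ‖ = 1) (hre : ‖F‖ ≤ c) (him : |F.im| ≤ ε) :
    |((1 + χ) * F).re| ≤ ‖1 + χ‖ ^ 2 / 2 * c + ‖1 + χ‖ * ε := by
  have h1 : ‖1 + χ‖ ^ 2 = 2 * (1 + χ.re) := by
    have h2 : χ.re ^ 2 + χ.im ^ 2 = 1 := by
      have : Complex.normSq χ = 1 := by rw [Complex.normSq_eq_norm_sq, hχ]; norm_num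
      rw [Complex.normSq_apply] at this
      nlinarith
    rw [← Complex.normSq_eq_norm_sq, Complex.normSq_apply]
    simp only [Complex.add_re, Complex.add_im, Complex.one_re, Complex.one_im]
    nlinarith
  have h2 : ((1 + χ) * F).re = ‖1 + χ‖ ^ 2 / 2 * F.re - (1 + χ).im * F.im := by
    rw [h1, Complex.mul_re]
    simp only [Complex.add_re, Complex.add_im, Complex.one_re, Complex.one_im]
    ring
  rw [h2]
  refine (abs_sub _ _).trans ?_
  rw [abs_mul, abs_mul, abs_of_nonneg (show 0 ≤ ‖1 + χ‖ ^ 2 / 2 by positivity)]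
  have h3 : |F.re| ≤ c := (Complex.abs_re_le_norm F).trans hre
  have h4 : |(1 + χ).im| ≤ ‖1 + χ‖ := Complex.abs_im_le_norm _
  have h5 : ‖1 + χ‖ ^ 2 / 2 * |F.re| ≤ ‖1 + χ‖ ^ 2 / 2 * c :=
    mul_le_mul_of_nonneg_left h3 (by positivity)
  have h6 : |(1 + χ).im| * |F.im| ≤ ‖1 + χ‖ * ε :=
    mul_le_mul h4 him (abs_nonneg _) (norm_nonneg _)
  linarith

theorem abstract_sum {m : ℕ} {χ : ℕ → ℂ} {δ : ℕ → ℝ} {G Y : ℕ → ℂ} {F X : ℕ → ℕ → ℂ}
    {ω ω' : ℕ → ℝ} {ε₁ ε₂ c₀ κ₀ κ B y₀ : ℝ}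
    (hχ : ∀ i, ‖χ i‖ = 1) (hδ : ∀ i, 0 ≤ δ i) (hω : ∀ i, 0 ≤ ω i) (hω' : ∀ i, 0 ≤ ω' i)
    (hε₁ : 0 ≤ ε₁) (hκ : 0 ≤ κ) (hB : 0 ≤ B)
    (h1 : ∀ i < m, ‖G i - G (i + 1) - (1 + χ i) * δ i * (F i i + (1 + χ i) * Y i)‖ ≤ ε₁)
    (h2 : ∀ i < m, ∀ j < i, ‖F i j - F i (j + 1) - (1 + χ j) * δ j * X i j‖ ≤ ε₁)
    (h3 : ∀ i < m, ‖F i 0‖ ≤ c₀) (h3' : ∀ i < m, |(F i 0).im| ≤ ε₂)
    (h3n : ∀ i < m, ‖F i 0‖ ≤ κ₀ * ω i + ε₂)
    (h4 : ∀ i < m, ∀ j < i, (χ j).re ≤ 0 → ‖X i j‖ ≤ κ * ω i * ω' j)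
    (h4' : ∀ i < m, ∀ j < i, ‖X i j‖ ≤ κ * ω i * B)
    (h5 : ∀ i < m, ‖Y i‖ ≤ y₀) :
    |(G 0 - G m).re| ≤ (∑ i ∈ range m, ‖1 + χ i‖ ^ 2 * δ i) * (c₀ / 2 + y₀)
      + κ * (∑ i ∈ range m, ‖1 + χ i‖ * δ i * ω i)
        * ((∑ i ∈ range m, ‖1 + χ i‖ * δ i * ω' i) + B * (∑ i ∈ range m, ‖1 + χ i‖ ^ 2 * δ i))
      + (m * ε₁ + (∑ i ∈ range m, ‖1 + χ i‖ * δ i) * (ε₂ + m * ε₁)) ∧
    ‖G 0 - G m‖ ≤ κ₀ * (∑ i ∈ range m, ‖1 + χ i‖ * δ i * ω i)
      + (∑ i ∈ range m, ‖1 + χ i‖ ^ 2 * δ i) * y₀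
      + κ * (∑ i ∈ range m, ‖1 + χ i‖ * δ i * ω i)
        * ((∑ i ∈ range m, ‖1 + χ i‖ * δ i * ω' i) + B * (∑ i ∈ range m, ‖1 + χ i‖ ^ 2 * δ i))
      + (m * ε₁ + (∑ i ∈ range m, ‖1 + χ i‖ * δ i) * (ε₂ + m * ε₁)) := by
  set S := ∑ i ∈ range m, ‖1 + χ i‖ ^ 2 * δ i with hS
  set T := ∑ i ∈ range m, ‖1 + χ i‖ * δ i * ω i with hT
  set T' := ∑ i ∈ range m, ‖1 + χ i‖ * δ i * ω' i with hT'
  set A := ∑ i ∈ range m, ‖1 + χ i‖ * δ i with hA
  -- bad angles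
  have hbad : ∀ j, ¬ (χ j).re ≤ 0 → 1 ≤ ‖1 + χ j‖ := by
    intro j hj
    push Not at hj
    have e1 : 1 ≤ (1 + χ j).re := by
      simp only [Complex.add_re, Complex.one_re]; linarith
    exact e1.trans ((le_abs_self _).trans (Complex.abs_re_le_norm _))
  -- single terms
  have hX : ∀ i < m, ∀ j < i, ‖1 + χ j‖ * δ j * ‖X i j‖
      ≤ κ * ω i * (‖1 + χ j‖ * δ j * ω' j + B * (‖1 + χ j‖ ^ 2 * δ j)) := by
    intro i hi j hj
    have hκω : 0 ≤ κ * ω i := mul_nonneg hκ (hω i)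
    have ha : 0 ≤ ‖1 + χ j‖ * δ j := mul_nonneg (norm_nonneg _) (hδ j)
    by_cases hc : (χ j).re ≤ 0
    · calc ‖1 + χ j‖ * δ j * ‖X i j‖ ≤ ‖1 + χ j‖ * δ j * (κ * ω i * ω' j) :=
            mul_le_mul_of_nonneg_left (h4 i hi j hj hc) ha
        _ = κ * ω i * (‖1 + χ j‖ * δ j * ω' j) := by ring
        _ ≤ κ * ω i * (‖1 + χ j‖ * δ j * ω' j + B * (‖1 + χ j‖ ^ 2 * δ j)) := by
            apply mul_le_mul_of_nonneg_left _ hκω
            have : 0 ≤ B * (‖1 + χ j‖ ^ 2 * δ j) :=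
              mul_nonneg hB (mul_nonneg (sq_nonneg _) (hδ j))
            linarith
    · have h6 := hbad j hc
      calc ‖1 + χ j‖ * δ j * ‖X i j‖ ≤ ‖1 + χ j‖ * δ j * (κ * ω i * B) :=
            mul_le_mul_of_nonneg_left (h4' i hi j hj) ha
        _ = κ * ω i * (B * (‖1 + χ j‖ * δ j)) := by ring
        _ ≤ κ * ω i * (‖1 + χ j‖ * δ j * ω' j + B * (‖1 + χ j‖ ^ 2 * δ j)) := by
            apply mul_le_mul_of_nonneg_left _ hκω
            have e1 : 0 ≤ ‖1 + χ j‖ * δ j * ω' j := mul_nonneg ha (hω' j)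
            have e2 : ‖1 + χ j‖ * δ j ≤ ‖1 + χ j‖ ^ 2 * δ j := by
              apply mul_le_mul_of_nonneg_right _ (hδ j)
              nlinarith
            have e3 := mul_le_mul_of_nonneg_left e2 hB
            linarith
  -- telescoping of `F`
  have hF : ∀ i < m, ‖F i 0 - F i i‖ ≤ κ * ω i * (T' + B * S) + m * ε₁ := by
    intro i hi
    have hκω : 0 ≤ κ * ω i := mul_nonneg hκ (hω i)
    have e0 : F i 0 - F i i = ∑ j ∈ range i, (F i j - F i (j + 1)) := by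
      rw [Finset.sum_range_sub' (F i) i]
    rw [e0]
    refine (norm_sum_le _ _).trans ?_
    have e1 : ∀ j ∈ range i, ‖F i j - F i (j + 1)‖
        ≤ κ * ω i * (‖1 + χ j‖ * δ j * ω' j + B * (‖1 + χ j‖ ^ 2 * δ j)) + ε₁ := by
      intro j hj
      have hj' := mem_range.1 hj
      have e2 : F i j - F i (j + 1) = (F i j - F i (j + 1) - (1 + χ j) * δ j * X i j)
          + (1 + χ j) * δ j * X i j := by ring
      rw [e2]
      refine (norm_add_le _ _).trans ?_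
      have e3 : ‖(1 + χ j) * δ j * X i j‖ = ‖1 + χ j‖ * δ j * ‖X i j‖ := by
        rw [norm_mul, norm_mul, Complex.norm_real, Real.norm_of_nonneg (hδ j)]
      rw [e3]
      have := h2 i hi j hj'
      have := hX i hi j hj'
      linarith
    refine (Finset.sum_le_sum e1).trans ?_
    rw [Finset.sum_add_distrib, ← Finset.mul_sum, Finset.sum_add_distrib, ← Finset.mul_sum,
      Finset.sum_const, card_range, nsmul_eq_mul]
    have hsub : range i ⊆ range m := Finset.range_subset_range.2 hi.le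
    have e4 : ∑ j ∈ range i, ‖1 + χ j‖ * δ j * ω' j ≤ T' :=
      Finset.sum_le_sum_of_subset_of_nonneg hsub
        (fun j _ _ => mul_nonneg (mul_nonneg (norm_nonneg _) (hδ j)) (hω' j))
    have e5 : ∑ j ∈ range i, ‖1 + χ j‖ ^ 2 * δ j ≤ S :=
      Finset.sum_le_sum_of_subset_of_nonneg hsub
        (fun j _ _ => mul_nonneg (sq_nonneg _) (hδ j))
    have e6 : (i : ℝ) * ε₁ ≤ m * ε₁ := by
      apply mul_le_mul_of_nonneg_right _ hε₁
      exact_mod_cast hi.le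
    have e7 := mul_le_mul_of_nonneg_left e5 hB
    have e8 := mul_le_mul_of_nonneg_left (add_le_add e4 e7) hκω
    linarith
  -- one step of `G`
  have hG : ∀ i < m, |(G i - G (i + 1)).re| ≤ (‖1 + χ i‖ ^ 2 * δ i) * (c₀ / 2 + y₀)
      + κ * (‖1 + χ i‖ * δ i * ω i) * (T' + B * S)
      + (ε₁ + (‖1 + χ i‖ * δ i) * (ε₂ + m * ε₁)) := by
    intro i hi
    have e0 : G i - G (i + 1)
        = (G i - G (i + 1) - (1 + χ i) * δ i * (F i i + (1 + χ i) * Y i))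
          + (δ i : ℂ) * ((1 + χ i) * F i 0) + (-((1 + χ i) * δ i * (F i 0 - F i i)))
          + (1 + χ i) ^ 2 * δ i * Y i := by ring
    rw [e0, Complex.add_re, Complex.add_re, Complex.add_re]
    have b1 : |(G i - G (i + 1) - (1 + χ i) * δ i * (F i i + (1 + χ i) * Y i)).re| ≤ ε₁ :=
      (Complex.abs_re_le_norm _).trans (h1 i hi)
    have b2 : |((δ i : ℂ) * ((1 + χ i) * F i 0)).re|
        ≤ δ i * (‖1 + χ i‖ ^ 2 / 2 * c₀ + ‖1 + χ i‖ * ε₂) := by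
      rw [Complex.re_ofReal_mul, abs_mul, abs_of_nonneg (hδ i)]
      exact mul_le_mul_of_nonneg_left (re_part (hχ i) (h3 i hi) (h3' i hi)) (hδ i)
    have b3 : |(-((1 + χ i) * δ i * (F i 0 - F i i))).re|
        ≤ ‖1 + χ i‖ * δ i * (κ * ω i * (T' + B * S) + m * ε₁) := by
      refine (Complex.abs_re_le_norm _).trans ?_
      rw [norm_neg, norm_mul, norm_mul, Complex.norm_real, Real.norm_of_nonneg (hδ i)]
      exact mul_le_mul_of_nonneg_left (hF i hi) (mul_nonneg (norm_nonneg _) (hδ i))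
    have b4 : |((1 + χ i) ^ 2 * δ i * Y i).re| ≤ ‖1 + χ i‖ ^ 2 * δ i * y₀ := by
      refine (Complex.abs_re_le_norm _).trans ?_
      rw [norm_mul, norm_mul, norm_pow, Complex.norm_real, Real.norm_of_nonneg (hδ i)]
      exact mul_le_mul_of_nonneg_left (h5 i hi) (mul_nonneg (sq_nonneg _) (hδ i))
    refine (abs_add_le _ _).trans ?_
    refine (add_le_add (abs_add_le _ _) le_rfl).trans ?_
    refine (add_le_add (add_le_add (abs_add_le _ _) le_rfl) le_rfl).trans ?_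
    nlinarith
  have hGn : ∀ i < m, ‖G i - G (i + 1)‖ ≤ κ₀ * (‖1 + χ i‖ * δ i * ω i)
      + (‖1 + χ i‖ ^ 2 * δ i) * y₀
      + κ * (‖1 + χ i‖ * δ i * ω i) * (T' + B * S)
      + (ε₁ + (‖1 + χ i‖ * δ i) * (ε₂ + m * ε₁)) := by
    intro i hi
    have e0 : G i - G (i + 1)
        = (G i - G (i + 1) - (1 + χ i) * δ i * (F i i + (1 + χ i) * Y i))
          + (1 + χ i) * δ i * F i 0 + (-((1 + χ i) * δ i * (F i 0 - F i i)))
          + (1 + χ i) ^ 2 * δ i * Y i := by ring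
    rw [e0]
    have b1 := h1 i hi
    have b2 : ‖(1 + χ i) * δ i * F i 0‖ ≤ ‖1 + χ i‖ * δ i * (κ₀ * ω i + ε₂) := by
      rw [norm_mul, norm_mul, Complex.norm_real, Real.norm_of_nonneg (hδ i)]
      exact mul_le_mul_of_nonneg_left (h3n i hi) (mul_nonneg (norm_nonneg _) (hδ i))
    have b3 : ‖-((1 + χ i) * δ i * (F i 0 - F i i))‖
        ≤ ‖1 + χ i‖ * δ i * (κ * ω i * (T' + B * S) + m * ε₁) := by
      rw [norm_neg, norm_mul, norm_mul, Complex.norm_real, Real.norm_of_nonneg (hδ i)]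
      exact mul_le_mul_of_nonneg_left (hF i hi) (mul_nonneg (norm_nonneg _) (hδ i))
    have b4 : ‖(1 + χ i) ^ 2 * δ i * Y i‖ ≤ ‖1 + χ i‖ ^ 2 * δ i * y₀ := by
      rw [norm_mul, norm_mul, norm_pow, Complex.norm_real, Real.norm_of_nonneg (hδ i)]
      exact mul_le_mul_of_nonneg_left (h5 i hi) (mul_nonneg (sq_nonneg _) (hδ i))
    refine (norm_add_le _ _).trans ?_
    refine (add_le_add (norm_add_le _ _) le_rfl).trans ?_
    refine (add_le_add (add_le_add (norm_add_le _ _) le_rfl) le_rfl).trans ?_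
    nlinarith
  constructor
  · have e0 : (G 0 - G m).re = ∑ i ∈ range m, (G i - G (i + 1)).re := by
      rw [← Complex.re_sum, Finset.sum_range_sub' G m]
    rw [e0]
    refine (Finset.abs_sum_le_sum_abs _ _).trans ?_
    refine (Finset.sum_le_sum (fun i hi => hG i (mem_range.1 hi))).trans ?_
    rw [Finset.sum_add_distrib, Finset.sum_add_distrib, ← Finset.sum_mul, ← Finset.sum_mul,
      ← Finset.mul_sum, Finset.sum_add_distrib, ← Finset.sum_mul, Finset.sum_const, card_range,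
      nsmul_eq_mul]
  · rw [← Finset.sum_range_sub' G m]
    refine (norm_sum_le _ _).trans ?_
    refine (Finset.sum_le_sum (fun i hi => hGn i (mem_range.1 hi))).trans ?_
    rw [Finset.sum_add_distrib, Finset.sum_add_distrib, Finset.sum_add_distrib, ← Finset.sum_mul,
      ← Finset.sum_mul, ← Finset.mul_sum, ← Finset.mul_sum, Finset.sum_add_distrib,
      ← Finset.sum_mul, Finset.sum_const, card_range, nsmul_eq_mul]

/-- Cauchy-Schwarz -/
theorem cs_sum {m : ℕ} {a δ ω : ℕ → ℝ} (hδ : ∀ i, 0 ≤ δ i) :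
    ∑ i ∈ range m, a i * δ i * ω i ≤
      Real.sqrt ((∑ i ∈ range m, a i ^ 2 * δ i) * (∑ i ∈ range m, δ i * ω i ^ 2)) := by
  apply Real.le_sqrt_of_sq_le
  have h := Finset.sum_mul_sq_le_sq_mul_sq (range m) (fun i => a i * Real.sqrt (δ i))
    (fun i => Real.sqrt (δ i) * ω i)
  have e1 : ∀ i, (a i * Real.sqrt (δ i)) * (Real.sqrt (δ i) * ω i) = a i * δ i * ω i := by
    intro i
    have := Real.mul_self_sqrt (hδ i)
    linear_combination a i * ω i * this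
  have e2 : ∀ i, (a i * Real.sqrt (δ i)) ^ 2 = a i ^ 2 * δ i := by
    intro i
    have := Real.sq_sqrt (hδ i)
    rw [mul_pow, this]
  have e3 : ∀ i, (Real.sqrt (δ i) * ω i) ^ 2 = δ i * ω i ^ 2 := by
    intro i
    have := Real.sq_sqrt (hδ i)
    rw [mul_pow, this]
  simp only [e1, e2, e3] at h
  exact h

/-- the logarithmic sum -/
theorem log_sum {q p₀ ν : ℝ} (hq0 : 0 < q) (hq1 : q ≤ 1) (hp0 : 0 < p₀) (hp1 : p₀ ≤ 1) (hν : 0 < ν)
    (m : ℕ) :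
    ∑ i ∈ range m, ((1 - q) * (q ^ i * p₀)) / (q ^ i * p₀ + ν) ≤ Real.log ((1 + ν) / ν) := by
  have h1 : ∀ i ∈ range m, ((1 - q) * (q ^ i * p₀)) / (q ^ i * p₀ + ν)
      ≤ Real.log (q ^ i * p₀ + ν) - Real.log (q ^ (i + 1) * p₀ + ν) := by
    intro i _
    have a1 : 0 < q ^ i * p₀ + ν := by positivity
    have a2 : 0 < q ^ (i + 1) * p₀ + ν := by positivity
    have a3 : 0 < (q ^ i * p₀ + ν) / (q ^ (i + 1) * p₀ + ν) := by positivity
    have h2 := Real.one_sub_inv_le_log_of_pos a3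
    rw [Real.log_div a1.ne' a2.ne', inv_div] at h2
    refine le_trans (le_of_eq ?_) h2
    rw [eq_sub_iff_add_eq, ← add_div, div_eq_one_iff_eq a1.ne']
    ring
  refine (Finset.sum_le_sum h1).trans ?_
  rw [Finset.sum_range_sub' (fun i => Real.log (q ^ i * p₀ + ν)) m]
  have a1 : 0 < q ^ m * p₀ + ν := by positivity
  have a0 : 0 < q ^ 0 * p₀ + ν := by positivity
  rw [← Real.log_div a0.ne' a1.ne']
  apply Real.log_le_log (by positivity)
  apply div_le_div₀ (by positivity) _ hν _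
  · rw [pow_zero, one_mul]; linarith
  · have : 0 < q ^ m * p₀ := by positivity
    linarith

theorem geo_sum {q p₀ : ℝ} (hq0 : 0 < q) (hp0 : 0 < p₀) (hp1 : p₀ ≤ 1) (m : ℕ) :
    ∑ i ∈ range m, (1 - q) * (q ^ i * p₀) ≤ 1 := by
  have h1 : ∀ i ∈ range m, (1 - q) * (q ^ i * p₀) = q ^ i * p₀ - q ^ (i + 1) * p₀ := by
    intro i _; ring
  rw [Finset.sum_congr rfl h1, Finset.sum_range_sub' (fun i => q ^ i * p₀) m, pow_zero, one_mul]
  have : 0 < q ^ m * p₀ := by positivity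
  linarith

end Pool.Agent.Helper64.C3
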