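import Pool.Agent.Helper64.C3.Means
import Pool.Agent.Helper64.C3.Sum
import Pool.Agent.Helper64.C3.Base
import Pool.Agent.Helper64.C3.Coef

set_option autoImplicit false

open Metric Set Filter Topology Asymptotics

namespace Pool.Agent.Helper64.C3

/-- the function of `S` that bounds the coefficient difference -/
noncomputable def Bd (n : ℕ) (r z S : ℝ) : ℝ :=
  S * ((4 * ((r ^ n)⁻¹ * ((2 * (r / (1 - r) ^ 2)) * (3 * (1 * r / (1 - r))))) + (r ^ n)⁻¹ * z) / 2
      + (r ^ n)⁻¹ * ((2 * (r / (1 - r) ^ 2)) * (3 * (2 * r / (1 - r)))))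
    + ((r ^ n)⁻¹ * (8 * ((2 * (r / (1 - r) ^ 2)) * (3 * (2 * r / (1 - r))))))
      * Real.sqrt (S * (2 * Real.log (1 + 2 * (r / (1 - r) ^ 2))))
      * (Real.sqrt (S * (4 * Real.log (1 + 2 * (r / (1 - r) ^ 2))))
          + Real.sqrt (2 * (r / (1 - r) ^ 2)) * S)

/-- the function of `S` that bounds the norm of the coefficient difference -/
noncomputable def Bn (n : ℕ) (r S : ℝ) : ℝ :=
  ((r ^ n)⁻¹ * (8 * (Real.sqrt (2 * (r / (1 - r) ^ 2)) * (3 * (1 * r / (1 - r))))))
      * Real.sqrt (S * (2 * Real.log (1 + 2 * (r / (1 - r) ^ 2))))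
    + S * ((r ^ n)⁻¹ * ((2 * (r / (1 - r) ^ 2)) * (3 * (2 * r / (1 - r)))))
    + ((r ^ n)⁻¹ * (8 * ((2 * (r / (1 - r) ^ 2)) * (3 * (2 * r / (1 - r))))))
      * Real.sqrt (S * (2 * Real.log (1 + 2 * (r / (1 - r) ^ 2))))
      * (Real.sqrt (S * (4 * Real.log (1 + 2 * (r / (1 - r) ^ 2))))
          + Real.sqrt (2 * (r / (1 - r) ^ 2)) * S)

theorem sum_identity {m : ℕ} {χ : ℕ → ℂ} {δ : ℕ → ℝ} (hχ : ∀ i, ‖χ i‖ = 1) :
    ∑ i ∈ Finset.range m, ‖1 + χ i‖ ^ 2 * δ i
      = ∑ i ∈ Finset.range m, 2 * (1 + (χ i).re) * δ i := by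
  apply Finset.sum_congr rfl
  intro i _
  have h2 : (χ i).re ^ 2 + (χ i).im ^ 2 = 1 := by
    have : Complex.normSq (χ i) = 1 := by rw [Complex.normSq_eq_norm_sq, hχ]; norm_num
    rw [Complex.normSq_apply] at this
    nlinarith
  have h1 : ‖1 + χ i‖ ^ 2 = 2 * (1 + (χ i).re) := by
    rw [← Complex.normSq_eq_norm_sq, Complex.normSq_apply]
    simp only [Complex.add_re, Complex.add_im, Complex.one_re, Complex.one_im]
    nlinarith
  rw [h1]

theorem ell_comb {n : ℕ} {r : ℝ} (hr : 0 < r) {A B D : ℂ → ℂ} (hA : ContinuousOn A (sphere 0 r))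
    (hB : ContinuousOn B (sphere 0 r)) (hD : ContinuousOn D (sphere 0 r)) (c : ℂ) :
    ell n r A - ell n r B - c * ell n r D = ell n r (fun z => A z - B z - c * D z) ∧
    ContinuousOn (fun z => A z - B z - c * D z) (sphere 0 r) := by
  have h1 : ContinuousOn (fun z => A z - B z) (sphere 0 r) := hA.sub hB
  have h2 : ContinuousOn (fun z => c * D z) (sphere 0 r) := continuousOn_const.mul hD
  refine ⟨?_, h1.sub h2⟩
  rw [ell_sub hr h1 h2, ell_sub hr hA hB, ell_const_mul]

theorem chain_sum (n : ℕ) {r : ℝ} (hr0 : 0 < r) (hr1 : r < 1) {α : ℝ} (hα : 0 < α) (hα1 : α ≤ 1) :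
    ∃ C δ₀ : ℝ, 0 < C ∧ 0 < δ₀ ∧ δ₀ ≤ 1 / 2 ∧ ∀ q : ℝ, 1 - δ₀ ≤ q → q < 1 →
      ∀ (p₀ : ℝ) (m : ℕ) (H : ℕ → ℂ → ℂ) (χ : ℕ → ℂ), KChain q p₀ m H χ → 1 / 2 ≤ p₀ → p₀ ≤ 1 →
      q ^ m * p₀ = α → (1 + (1 - q) ^ 2) ^ m ≤ 2 * p₀ → ∀ ζ : ℝ, 0 ≤ ζ →
      (∀ v : ℝ, 0 < v → v ≤ p₀ → ∀ z ∈ sphere (0 : ℂ) r,
        ‖phi v (koebe (H 0 z) / p₀) - phi v (koebe z / p₀)‖ ≤ ζ) →
      ∃ S : ℝ, 0 ≤ S ∧ S ≤ (coeff 2 (fun z => koebe (H 0 z) / p₀)).re
          - (coeff 2 (fun z => koebe (H m z) / α)).re + 2 * (1 - q) ∧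
        |(ell n r (fun z => koebe (H 0 z) / p₀) - ell n r (fun z => koebe (H m z) / α)).re|
          ≤ Bd n r ζ S + (m * ((r ^ n)⁻¹ * (C * (1 - q) ^ 2))
            + 2 * ((r ^ n)⁻¹ * ζ + m * ((r ^ n)⁻¹ * (C * (1 - q) ^ 2)))) ∧
        ‖ell n r (fun z => koebe (H 0 z) / p₀) - ell n r (fun z => koebe (H m z) / α)‖
          ≤ Bn n r S + (m * ((r ^ n)⁻¹ * (C * (1 - q) ^ 2))
            + 2 * ((r ^ n)⁻¹ * ζ + m * ((r ^ n)⁻¹ * (C * (1 - q) ^ 2)))) := by
  obtain ⟨C₁, δ₁, hC₁, hδ₁, hδ₁1, hs1⟩ := step_first hr0 hr1 hα hα1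
  obtain ⟨C₂, δ₂, hC₂, hδ₂, hδ₂1, hs2⟩ := step_second hr0 hr1 hα hα1
  refine ⟨max C₁ C₂, min (min δ₁ δ₂) (1 / 2), lt_max_of_lt_left hC₁, by positivity,
    min_le_right _ _, ?_⟩
  intro q hq hq1 p₀ m H χ hc hp₀ hp₀1 hqm hCg ζ hζ hbase
  have hqδ1 : 1 - δ₁ ≤ q := by
    have := (min_le_left (min δ₁ δ₂) (1 / 2)).trans (min_le_left _ _); linarith
  have hqδ2 : 1 - δ₂ ≤ q := by
    have := (min_le_left (min δ₁ δ₂) (1 / 2)).trans (min_le_right _ _); linarith
  have hq2 : 1 / 2 ≤ q := by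
    have := min_le_right (min δ₁ δ₂) (1 / 2); linarith
  have hq0 : 0 < q := by linarith
  have hp₀0 : 0 < p₀ := by linarith
  have hr1' : 0 < 1 - r := by linarith
  have hlv := hc.lv (by linarith) hq1.le hp₀0 (Cg := 2) hCg
  -- levels
  set P : ℕ → ℝ := fun i => q ^ i * p₀ with hP
  have hP0 : ∀ i, 0 < P i := fun i => by positivity
  have hPm : ∀ i ≤ m, α ≤ P i := by
    intro i hi
    rw [← hqm]
    apply mul_le_mul_of_nonneg_right _ hp₀0.le
    exact pow_le_pow_of_le_one hq0.le hq1.le hi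
  have hP1 : ∀ i, P i ≤ 1 := by
    intro i
    have : q ^ i ≤ 1 := pow_le_one₀ hq0.le hq1.le
    calc q ^ i * p₀ ≤ 1 * 1 := mul_le_mul this hp₀1 hp₀0.le zero_le_one
      _ = 1 := one_mul 1
  have hPs : ∀ i, P (i + 1) = q * P i := by intro i; rw [hP]; simp only; ring
  have hPle : ∀ i j, j ≤ i → P i ≤ P j := by
    intro i j hij
    apply mul_le_mul_of_nonneg_right _ hp₀0.le
    exact pow_le_pow_of_le_one hq0.le hq1.le hij
  have hPmα : P m = α := hqm
  have hP00 : P 0 = p₀ := by rw [hP]; simp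
  set R := (r ^ n)⁻¹ with hR
  have hR0 : 0 ≤ R := by positivity
  set M := 2 * (r / (1 - r) ^ 2) with hM
  have hM0 : 0 < M := by positivity
  set L := Real.log (1 + M) with hL
  set C := max C₁ C₂ with hC
  have hC1 : C₁ ≤ C := le_max_left _ _
  have hC2 : C₂ ≤ C := le_max_right _ _
  have hC0 : 0 < C := lt_of_lt_of_le hC₁ hC1
  set ε₁ := R * (C * (1 - q) ^ 2) with hε₁
  have hε₁0 : 0 ≤ ε₁ := by positivity
  set δ : ℕ → ℝ := fun i => (1 - q) * P i with hδ
  have hδ0 : ∀ i, 0 ≤ δ i := fun i => mul_nonneg (by linarith) (hP0 i).le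
  set S := ∑ i ∈ Finset.range m, ‖1 + χ i‖ ^ 2 * δ i with hS
  have hS0 : 0 ≤ S := Finset.sum_nonneg (fun i _ => mul_nonneg (sq_nonneg _) (hδ0 i))
  -- functions on the circle
  have hmem : ∀ i ≤ m, ∀ z ∈ sphere (0 : ℂ) r, ‖H i z‖ < 1 ∧ ‖H i z‖ ≤ r := by
    intro i hi z hz
    have h1 := schwarz_norm (hc.self i hi) (sphere_mem hr1 hz)
    rw [mem_sphere_zero_iff_norm.1 hz] at h1
    exact ⟨lt_of_le_of_lt h1 hr1, h1⟩
  have cK : ∀ i ≤ m, ContinuousOn (fun z => koebe (H i z) / (P i : ℂ)) (sphere 0 r) :=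
    fun i hi => cont_comp (hlv i hi) (F := fun w => koebe w / (P i : ℂ))
      (M6.koebe_diff.div_const _) hr1
  have cPhi : ∀ i ≤ m, ContinuousOn (fun z => Phi (P i) (χ i) (H i z)) (sphere 0 r) :=
    fun i hi => cont_comp (hlv i hi) (Phi_diff (hP0 i) (hc.chi i)) hr1
  have cPsi : ∀ i ≤ m, ContinuousOn (fun z => Psi (P i) (χ i) (H i z)) (sphere 0 r) :=
    fun i hi => cont_comp (hlv i hi) (Psi_diff (hP0 i) (hc.chi i)) hr1
  have cphi : ∀ i, ∀ j ≤ m, j ≤ i →
      ContinuousOn (fun z => phi (P i) (koebe (H j z) / (P j : ℂ))) (sphere 0 r) :=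
    fun i j hj hij => cont_comp (hlv j hj) (phi_diff (hP0 i) (hPle i j hij)) hr1
  have cX : ∀ i, ∀ j ≤ m, j ≤ i →
      ContinuousOn (fun z => dphi (P i) (koebe (H j z) / (P j : ℂ)) * Phi (P j) (χ j) (H j z))
        (sphere 0 r) :=
    fun i j hj hij => (cont_comp (hlv j hj) (dphi_diff (hP0 i) (hPle i j hij)) hr1).mul
      (cPhi j hj)
  have main := abstract_sum (m := m) (χ := χ) (δ := δ)
    (G := fun i => ell n r (fun z => koebe (H i z) / (P i : ℂ)))
    (Y := fun i => ell n r (fun z => Psi (P i) (χ i) (H i z)))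
    (F := fun i j => ell n r (fun z => phi (P i) (koebe (H j z) / (P j : ℂ))))
    (X := fun i j => ell n r (fun z => dphi (P i) (koebe (H j z) / (P j : ℂ))
      * Phi (P j) (χ j) (H j z)))
    (ω := fun i => Real.sqrt (2 / (P i + 1 / M))) (ω' := fun i => Real.sqrt (4 / (P i + 1 / M)))
    (ε₁ := ε₁) (ε₂ := R * ζ)
    (c₀ := 4 * (R * (M * (3 * (1 * r / (1 - r))))) + R * ζ)
    (κ₀ := R * (8 * (Real.sqrt M * (3 * (1 * r / (1 - r))))))
    (κ := R * (8 * (M * (3 * (2 * r / (1 - r)))))) (B := Real.sqrt M)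
    (y₀ := R * (M * (3 * (2 * r / (1 - r))))) hc.chi hδ0
    (fun i => Real.sqrt_nonneg _) (fun i => Real.sqrt_nonneg _) hε₁0 (by positivity)
    (Real.sqrt_nonneg _) ?_ ?_ ?_ ?_ ?_ ?_ ?_ ?_
  · -- conclusion
    refine ⟨S, hS0, ?_, ?_⟩
    · -- second coefficient
      have hst : ∀ i < m, (coeff 2 (fun z => koebe (H i z) / (P i : ℂ)))
          - coeff 2 (fun z => koebe (H (i + 1) z) / (P (i + 1) : ℂ))
          = 2 * (1 + χ i) * (δ i : ℂ) + χ i * (δ i : ℂ) * (((1 - q) / q : ℝ) : ℂ) := by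
        intro i hi
        have h1 := coeff2_step hq0 hq1.le (hc.chi i) (hc.self i hi.le) (hc.self (i + 1) hi)
          (hP0 i) (hc.der i hi.le) (by rw [hc.der (i + 1) hi]; push_cast [hP]; ring)
          (hc.step i hi)
        rw [hPs i, h1]
        push_cast [hδ]
        ring
      have hsum : (coeff 2 (fun z => koebe (H 0 z) / (P 0 : ℂ)))
          - coeff 2 (fun z => koebe (H m z) / (P m : ℂ))
          = ∑ i ∈ Finset.range m,
            (2 * (1 + χ i) * (δ i : ℂ) + χ i * (δ i : ℂ) * (((1 - q) / q : ℝ) : ℂ)) := by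
        rw [← Finset.sum_range_sub' (fun i => coeff 2 (fun z => koebe (H i z) / (P i : ℂ))) m]
        exact Finset.sum_congr rfl (fun i hi => hst i (Finset.mem_range.1 hi))
      have hre := congrArg Complex.re hsum
      rw [Complex.sub_re, Complex.re_sum] at hre
      rw [← hP00, ← hPmα] 
      have hSS : S = ∑ i ∈ Finset.range m, 2 * (1 + (χ i).re) * δ i := sum_identity hc.chi
      have hterm : ∀ i ∈ Finset.range m, 2 * (1 + (χ i).re) * δ i
          ≤ (2 * (1 + χ i) * (δ i : ℂ) + χ i * (δ i : ℂ) * (((1 - q) / q : ℝ) : ℂ)).re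
            + δ i * (2 * (1 - q)) := by
        intro i _
        have e1 : (2 * (1 + χ i) * (δ i : ℂ) + χ i * (δ i : ℂ) * (((1 - q) / q : ℝ) : ℂ)).re
            = 2 * (1 + (χ i).re) * δ i + (χ i).re * δ i * ((1 - q) / q) := by
          have e0 : 2 * (1 + χ i) * (δ i : ℂ) + χ i * (δ i : ℂ) * (((1 - q) / q : ℝ) : ℂ)
              = ((δ i * 2 : ℝ) : ℂ) * (1 + χ i) + ((δ i * ((1 - q) / q) : ℝ) : ℂ) * χ i := by
            rw [Complex.ofReal_mul (δ i) ((1 - q) / q), Complex.ofReal_mul (δ i) 2]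
            push_cast
            ring
          rw [e0, Complex.add_re, Complex.re_ofReal_mul, Complex.re_ofReal_mul, Complex.add_re,
            Complex.one_re]
          ring
        rw [e1]
        have e2 : -1 ≤ (χ i).re := by
          have := Complex.abs_re_le_norm (χ i)
          rw [hc.chi i] at this
          exact (abs_le.1 this).1
        have e3 : (1 - q) / q ≤ 2 * (1 - q) := by
          rw [div_le_iff₀ hq0]; nlinarith
        have e4 : 0 ≤ (1 - q) / q := by
          apply div_nonneg _ hq0.le; linarith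
        have e5 : -(δ i * (2 * (1 - q))) ≤ (χ i).re * δ i * ((1 - q) / q) := by
          have := mul_le_mul_of_nonneg_left e3 (hδ0 i)
          have := mul_nonneg (mul_nonneg (hδ0 i) e4) (by linarith : 0 ≤ 1 + (χ i).re)
          nlinarith
        linarith
      have hle := Finset.sum_le_sum hterm
      rw [Finset.sum_add_distrib, ← Finset.sum_mul] at hle
      have hgeo := geo_sum hq0 hp₀0 hp₀1 m
      have hgeo' : (∑ i ∈ Finset.range m, δ i) * (2 * (1 - q)) ≤ 1 * (2 * (1 - q)) := by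
        apply mul_le_mul_of_nonneg_right _ (by linarith)
        exact hgeo
      rw [hSS]
      linarith
    · have hT : ∑ i ∈ Finset.range m, ‖1 + χ i‖ * δ i * Real.sqrt (2 / (P i + 1 / M))
          ≤ Real.sqrt (S * (2 * L)) := by
        refine (cs_sum (a := fun i => ‖1 + χ i‖) hδ0).trans ?_
        apply Real.sqrt_le_sqrt
        apply mul_le_mul_of_nonneg_left _ hS0
        have h1 : ∀ i ∈ Finset.range m, δ i * (Real.sqrt (2 / (P i + 1 / M))) ^ 2
            = 2 * (((1 - q) * (q ^ i * p₀)) / (q ^ i * p₀ + 1 / M)) := by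
          intro i _
          have hP0' := hP0 i
          rw [Real.sq_sqrt (by positivity)]
          show (1 - q) * (q ^ i * p₀) * (2 / (q ^ i * p₀ + 1 / M)) = _
          ring
        rw [Finset.sum_congr rfl h1, ← Finset.mul_sum]
        apply mul_le_mul_of_nonneg_left _ (by norm_num)
        refine (log_sum hq0 hq1.le hp₀0 hp₀1 (show 0 < 1 / M by positivity) m).trans ?_
        apply le_of_eq
        rw [hL]
        congr 1
        field_simp
        ring
      have hT' : ∑ i ∈ Finset.range m, ‖1 + χ i‖ * δ i * Real.sqrt (4 / (P i + 1 / M))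
          ≤ Real.sqrt (S * (4 * L)) := by
        refine (cs_sum (a := fun i => ‖1 + χ i‖) hδ0).trans ?_
        apply Real.sqrt_le_sqrt
        apply mul_le_mul_of_nonneg_left _ hS0
        have h1 : ∀ i ∈ Finset.range m, δ i * (Real.sqrt (4 / (P i + 1 / M))) ^ 2
            = 4 * (((1 - q) * (q ^ i * p₀)) / (q ^ i * p₀ + 1 / M)) := by
          intro i _
          have hP0' := hP0 i
          rw [Real.sq_sqrt (by positivity)]
          show (1 - q) * (q ^ i * p₀) * (4 / (q ^ i * p₀ + 1 / M)) = _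
          ring
        rw [Finset.sum_congr rfl h1, ← Finset.mul_sum]
        apply mul_le_mul_of_nonneg_left _ (by norm_num)
        refine (log_sum hq0 hq1.le hp₀0 hp₀1 (show 0 < 1 / M by positivity) m).trans ?_
        apply le_of_eq
        rw [hL]
        congr 1
        field_simp
        ring
      have hA : ∑ i ∈ Finset.range m, ‖1 + χ i‖ * δ i ≤ 2 := by
        have h1 : ∀ i ∈ Finset.range m, ‖1 + χ i‖ * δ i ≤ 2 * ((1 - q) * (q ^ i * p₀)) := by
          intro i _
          apply mul_le_mul_of_nonneg_right _ (hδ0 i)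
          refine (norm_add_le _ _).trans ?_
          rw [norm_one, hc.chi i]; norm_num
        refine (Finset.sum_le_sum h1).trans ?_
        rw [← Finset.mul_sum]
        have := geo_sum hq0 hp₀0 hp₀1 m
        linarith
      rw [hP00, hPmα] at main
      obtain ⟨main, mainN⟩ := main
      have hκ0 : 0 ≤ R * (8 * (M * (3 * (2 * r / (1 - r))))) := by positivity
      have t1 : R * (8 * (M * (3 * (2 * r / (1 - r)))))
            * (∑ i ∈ Finset.range m, ‖1 + χ i‖ * δ i * Real.sqrt (2 / (P i + 1 / M)))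
            * ((∑ i ∈ Finset.range m, ‖1 + χ i‖ * δ i * Real.sqrt (4 / (P i + 1 / M)))
              + Real.sqrt M * S)
          ≤ R * (8 * (M * (3 * (2 * r / (1 - r))))) * Real.sqrt (S * (2 * L))
            * (Real.sqrt (S * (4 * L)) + Real.sqrt M * S) := by
        apply mul_le_mul
        · exact mul_le_mul_of_nonneg_left hT hκ0
        · exact add_le_add hT' le_rfl
        · apply add_nonneg
          · apply Finset.sum_nonneg
            intro i _
            exact mul_nonneg (mul_nonneg (norm_nonneg _) (hδ0 i)) (Real.sqrt_nonneg _)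
          · exact mul_nonneg (Real.sqrt_nonneg _) hS0
        · exact mul_nonneg hκ0 (Real.sqrt_nonneg _)
      have t2 : (∑ i ∈ Finset.range m, ‖1 + χ i‖ * δ i) * (R * ζ + m * ε₁)
          ≤ 2 * (R * ζ + m * ε₁) := by
        apply mul_le_mul_of_nonneg_right hA
        positivity
      have t3 : R * (8 * (Real.sqrt M * (3 * (1 * r / (1 - r)))))
            * (∑ i ∈ Finset.range m, ‖1 + χ i‖ * δ i * Real.sqrt (2 / (P i + 1 / M)))
          ≤ R * (8 * (Real.sqrt M * (3 * (1 * r / (1 - r))))) * Real.sqrt (S * (2 * L)) :=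
        mul_le_mul_of_nonneg_left hT (by positivity)
      constructor
      · refine main.trans ?_
        unfold Bd
        linarith
      · refine mainN.trans ?_
        unfold Bn
        linarith
  · -- first expansion
    intro i hi
    have hi1 : i + 1 ≤ m := hi
    have e1 : ell n r (fun z => Phi (P i) (χ i) (H i z))
        = ell n r (fun z => phi (P i) (koebe (H i z) / (P i : ℂ)))
          + (1 + χ i) * ell n r (fun z => Psi (P i) (χ i) (H i z)) := by
      have c1 : ContinuousOn (fun z => (1 + χ i) * Psi (P i) (χ i) (H i z)) (sphere 0 r) :=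
        continuousOn_const.mul (cPsi i hi.le)
      rw [← ell_const_mul, ← ell_add hr0 (cphi i i hi.le le_rfl) c1]
      apply ell_congr hr0
      intro z hz
      exact Phi_eq (hP0 i) (hc.chi i) (hmem i hi.le z hz).1
    rw [← e1]
    obtain ⟨e2, c2⟩ := ell_comb (n := n) hr0 (cK i hi.le) (cK (i + 1) hi1) (cPhi i hi.le)
      ((1 + χ i) * (δ i : ℂ))
    rw [e2]
    apply norm_ell_le_const hr0 c2
    · intro z hz
      rw [hc.step i hi z (sphere_mem hr1 hz)]
      have h1 := hs1 q hqδ1 hq1.le (χ i) (H i z) (hc.chi i) (hmem i hi.le z hz).2 (P i)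
        (hPm i hi.le) (hP1 i)
      have e3 : ((P (i + 1) : ℝ) : ℂ) = q * P i := by rw [hPs i]; push_cast; ring
      have e4 : ((δ i : ℝ) : ℂ) = (1 - q) * P i := by push_cast [hδ]; ring
      rw [e3, e4]
      refine h1.trans ?_
      apply mul_le_mul_of_nonneg_right hC1 (sq_nonneg _)
  · -- second expansion
    intro i hi j hj
    have hjm : j ≤ m := (hj.trans hi).le
    have hjm1 : j + 1 ≤ m := by omega
    obtain ⟨e2, c2⟩ := ell_comb (n := n) hr0 (cphi i j hjm hj.le) (cphi i (j + 1) hjm1 hj)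
      (cX i j hjm hj.le) ((1 + χ j) * (δ j : ℂ))
    rw [e2]
    apply norm_ell_le_const hr0 c2
    · intro z hz
      rw [hc.step j (hj.trans hi) z (sphere_mem hr1 hz)]
      have h1 := hs2 q hqδ2 hq1.le (χ j) (H j z) (hc.chi j) (hmem j hjm z hz).2 (P j)
        (hPm j hjm) (hP1 j) (P i) (hP0 i) (by rw [← hPs j]; exact hPle i (j + 1) hj)
      have e3 : ((P (j + 1) : ℝ) : ℂ) = q * P j := by rw [hPs j]; push_cast; ring
      have e4 : ((δ j : ℝ) : ℂ) = (1 - q) * P j := by push_cast [hδ]; ring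
      rw [e3, e4]
      refine le_trans (le_of_eq ?_) (h1.trans
        (mul_le_mul_of_nonneg_right hC2 (sq_nonneg _)))
      congr 1
      ring
  · -- size at the base
    intro i hi
    have h1 := (ell_phi_base (hP0 i) hp₀ (by rw [← hP00]; exact hPle i 0 (Nat.zero_le i)) hr0 hr1
      (n := n) (M := M) (by
        have : 0 < r / (1 - r) ^ 2 := by positivity
        rw [hM]; linarith)).2
    have e1 : ‖ell n r (fun z => phi (P i) (koebe (H 0 z) / (P 0 : ℂ)))
        - ell n r (fun z => phi (P i) (koebe z / (p₀ : ℂ)))‖ ≤ R * ζ := by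
      have c1 := cphi i 0 (Nat.zero_le m) (Nat.zero_le i)
      have c2 : ContinuousOn (fun z => phi (P i) (koebe z / (p₀ : ℂ))) (sphere 0 r) :=
        ((phi_diff (hP0 i) (by rw [← hP00]; exact hPle i 0 (Nat.zero_le i))).continuousOn).mono
          (fun _ hz => sphere_mem hr1 hz)
      rw [← ell_sub hr0 c1 c2]
      apply norm_ell_le_const hr0 (c1.sub c2)
      intro z hz
      rw [hP00]
      exact hbase (P i) (hP0 i) (by rw [← hP00]; exact hPle i 0 (Nat.zero_le i)) z hz
    have e2 : ell n r (fun z => phi (P i) (koebe (H 0 z) / (P 0 : ℂ)))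
        = ell n r (fun z => phi (P i) (koebe z / (p₀ : ℂ)))
          + (ell n r (fun z => phi (P i) (koebe (H 0 z) / (P 0 : ℂ)))
            - ell n r (fun z => phi (P i) (koebe z / (p₀ : ℂ)))) := by ring
    show ‖ell n r (fun z => phi (P i) (koebe (H 0 z) / (P 0 : ℂ)))‖ ≤ _
    rw [e2]
    exact (norm_add_le _ _).trans (add_le_add h1 e1)
  · -- imaginary part at the base
    intro i hi
    have h1 := (ell_phi_base (hP0 i) hp₀ (by rw [← hP00]; exact hPle i 0 (Nat.zero_le i)) hr0 hr1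
      (n := n) (M := M) (by
        have : 0 < r / (1 - r) ^ 2 := by positivity
        rw [hM]; linarith)).1
    have e1 : ‖ell n r (fun z => phi (P i) (koebe (H 0 z) / (P 0 : ℂ)))
        - ell n r (fun z => phi (P i) (koebe z / (p₀ : ℂ)))‖ ≤ R * ζ := by
      have c1 := cphi i 0 (Nat.zero_le m) (Nat.zero_le i)
      have c2 : ContinuousOn (fun z => phi (P i) (koebe z / (p₀ : ℂ))) (sphere 0 r) :=
        ((phi_diff (hP0 i) (by rw [← hP00]; exact hPle i 0 (Nat.zero_le i))).continuousOn).mono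
          (fun _ hz => sphere_mem hr1 hz)
      rw [← ell_sub hr0 c1 c2]
      apply norm_ell_le_const hr0 (c1.sub c2)
      intro z hz
      rw [hP00]
      exact hbase (P i) (hP0 i) (by rw [← hP00]; exact hPle i 0 (Nat.zero_le i)) z hz
    have e2 := (Complex.abs_im_le_norm _).trans e1
    rw [Complex.sub_im, h1, sub_zero] at e2
    exact e2
  · -- refined size at the base
    intro i hi
    have h1 := ell_phi_base' (hP0 i) hp₀ hp₀1 (by rw [← hP00]; exact hPle i 0 (Nat.zero_le i)) hr0 hr1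
      (n := n) (M := M) (by
        have : 0 < r / (1 - r) ^ 2 := by positivity
        rw [hM]; linarith)
    have e1 : ‖ell n r (fun z => phi (P i) (koebe (H 0 z) / (P 0 : ℂ)))
        - ell n r (fun z => phi (P i) (koebe z / (p₀ : ℂ)))‖ ≤ R * ζ := by
      have c1 := cphi i 0 (Nat.zero_le m) (Nat.zero_le i)
      have c2 : ContinuousOn (fun z => phi (P i) (koebe z / (p₀ : ℂ))) (sphere 0 r) :=
        ((phi_diff (hP0 i) (by rw [← hP00]; exact hPle i 0 (Nat.zero_le i))).continuousOn).mono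
          (fun _ hz => sphere_mem hr1 hz)
      rw [← ell_sub hr0 c1 c2]
      apply norm_ell_le_const hr0 (c1.sub c2)
      intro z hz
      rw [hP00]
      exact hbase (P i) (hP0 i) (by rw [← hP00]; exact hPle i 0 (Nat.zero_le i)) z hz
    have e2 : ell n r (fun z => phi (P i) (koebe (H 0 z) / (P 0 : ℂ)))
        = ell n r (fun z => phi (P i) (koebe z / (p₀ : ℂ)))
          + (ell n r (fun z => phi (P i) (koebe (H 0 z) / (P 0 : ℂ)))
            - ell n r (fun z => phi (P i) (koebe z / (p₀ : ℂ)))) := by ring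
    show ‖ell n r (fun z => phi (P i) (koebe (H 0 z) / (P 0 : ℂ)))‖ ≤ _
    rw [e2]
    exact (norm_add_le _ _).trans (add_le_add h1 e1)
  · -- good angles
    intro i hi j hj hre
    have hjm : j ≤ m := (hj.trans hi).le
    refine (ell_good (hP0 j) (hlv j hjm) (by norm_num) (hP0 i) (hPle i j hj.le) (hc.chi j) hre
      hr0 hr1 (n := n) (M := M) le_rfl).trans (le_of_eq ?_)
    ring
  · intro i hi j hj
    have hjm : j ≤ m := (hj.trans hi).le
    refine (ell_bad (hP0 j) (hlv j hjm) (by norm_num) (hP0 i) (hPle i j hj.le) (hc.chi j)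
      hr0 hr1 (n := n) (M := M) le_rfl).trans (le_of_eq ?_)
    ring
  · intro i hi
    exact ell_Psi (hP0 i) (hlv i hi.le) (by norm_num) (hc.chi i) hr0 hr1 (n := n) (M := M) le_rfl

end Pool.Agent.Helper64.C3
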