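import Pool.Agent.Helper64.C3.PickChain
import Pool.Agent.Helper64.C3.Lam

set_option autoImplicit false

open Metric Set Filter Topology Asymptotics

namespace Pool.Agent.Helper64.C3

/-! Theorem L: closed forms and their derivatives in the level `p` -/

section

variable {z : ℂ} {p : ℝ}

theorem slit_one (hp0 : 0 < p) (hp1 : p ≤ 1) (hz : ‖z‖ < 1) :
    1 + 4 * p * koebe z ∈ Complex.slitPlane := by
  have := slit_mem hp0 hp1 hz
  simpa using this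

theorem rt_one_ne (hp0 : 0 < p) (hp1 : p ≤ 1) (hz : ‖z‖ < 1) : rt p (koebe z) ≠ 0 := by
  have := rt_ne hp0 hp1 hz
  simpa using this

theorem hasDeriv_rt (hp0 : 0 < p) (hp1 : p ≤ 1) (hz : ‖z‖ < 1) :
    HasDerivAt (fun p : ℝ => rt p (koebe z)) (2 * koebe z / rt p (koebe z)) p := by
  have hs := slit_one hp0 hp1 hz
  have hne : 1 + 4 * (p : ℂ) * koebe z ≠ 0 := Complex.slitPlane_ne_zero hs
  have h1 : HasDerivAt (fun P : ℂ => 1 + 4 * P * koebe z) (4 * koebe z) (p : ℂ) := by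
    have := (((hasDerivAt_id (p : ℂ)).const_mul 4).mul_const (koebe z)).const_add 1
    simpa using this
  have h2 := h1.cpow_const (c := (2 : ℂ)⁻¹) hs
  have h3 := h2.comp_ofReal
  refine HasDerivAt.congr_deriv h3 ?_
  have e : (1 + 4 * (p : ℂ) * koebe z) ^ ((2 : ℂ)⁻¹ - 1)
      = rt p (koebe z) / (1 + 4 * (p : ℂ) * koebe z) := by
    rw [Complex.cpow_sub _ _ hne, Complex.cpow_one]
    rfl
  have hR := rt_sq p (koebe z)
  have hRne := rt_one_ne hp0 hp1 hz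
  rw [e, ← hR]
  field_simp
  ring

theorem pick_eq (hz : ‖z‖ < 1) : M6.pick p z = (rt p (koebe z) - 1) / (rt p (koebe z) + 1) := by
  unfold M6.pick
  rw [sq'_eq_rt p hz]
  simp

theorem rt_add_one_ne (hp0 : 0 < p) (hp1 : p ≤ 1) (hz : ‖z‖ < 1) : rt p (koebe z) + 1 ≠ 0 := by
  apply M6.add_one_ne
  have := rt_re_pos hp0 hp1 hz
  simpa using this

theorem pick_rel (hp0 : 0 < p) (hp1 : p ≤ 1) (hz : ‖z‖ < 1) :
    rt p (koebe z) * (1 - M6.pick p z) = 1 + M6.pick p z ∧ 1 - M6.pick p z ≠ 0 ∧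
      1 + M6.pick p z ≠ 0 ∧ ‖M6.pick p z‖ < 1 := by
  have h1 := rt_add_one_ne hp0 hp1 hz
  obtain ⟨h2, h3⟩ := pick_facts hp0 hp1 hz
  have h4 : ‖M6.pick p z‖ < 1 := lt_of_le_of_lt h3 hz
  refine ⟨?_, M6.one_sub_ne (by simpa using h4), ?_, h4⟩
  · rw [pick_eq hz]
    field_simp
    ring
  · have := M6.one_sub_ne (z := -M6.pick p z) (by simpa using h4)
    simpa using this

theorem hasDeriv_pick (hp0 : 0 < p) (hp1 : p ≤ 1) (hz : ‖z‖ < 1) :
    HasDerivAt (fun p : ℝ => M6.pick p z) (M6.pick p z / (p * rt p (koebe z))) p := by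
  have h1 := hasDeriv_rt hp0 hp1 hz
  have hne := rt_add_one_ne hp0 hp1 hz
  have hRne := rt_one_ne hp0 hp1 hz
  have hpC : (p : ℂ) ≠ 0 := by exact_mod_cast hp0.ne'
  have h2 := (h1.sub_const 1).div (h1.add_const 1) hne
  have h3 : (fun p : ℝ => M6.pick p z)
      = fun p : ℝ => (rt p (koebe z) - 1) / (rt p (koebe z) + 1) := by
    ext p; exact pick_eq hz
  rw [h3]
  refine HasDerivAt.congr_deriv h2 ?_
  rw [pick_eq hz]
  have hR := rt_sq p (koebe z)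
  have hx : koebe z = ((rt p (koebe z)) ^ 2 - 1) / (4 * p) := by
    rw [eq_div_iff (by simpa using hpC)]
    linear_combination -hR
  generalize hRR : rt p (koebe z) = R at *
  rw [hx]
  field_simp
  ring

/-- the function `U` with `U' = 1 / (√p R_p)` -/
noncomputable def Uf (z : ℂ) (p : ℝ) : ℂ :=
  2 * (Real.sqrt p : ℝ) * ((1 - M6.pick p z) * Lam (M6.pick p z))

theorem hasDeriv_U (hp0 : 0 < p) (hp1 : p ≤ 1) (hz : ‖z‖ < 1) :
    HasDerivAt (Uf z) (1 / ((Real.sqrt p : ℝ) * rt p (koebe z))) p := by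
  obtain ⟨hrel, h1W, h2W, hWn⟩ := pick_rel hp0 hp1 hz
  obtain ⟨L', hL', hode⟩ := lam_ode hWn
  have hW := hasDeriv_pick hp0 hp1 hz
  have hRne := rt_one_ne hp0 hp1 hz
  have hs0 : 0 < Real.sqrt p := Real.sqrt_pos.2 hp0
  have hsC : ((Real.sqrt p : ℝ) : ℂ) ≠ 0 := by exact_mod_cast hs0.ne'
  have hs2 : ((Real.sqrt p : ℝ) : ℂ) ^ 2 = p := by
    rw [← Complex.ofReal_pow, Real.sq_sqrt hp0.le]
  have hsq : HasDerivAt (fun p : ℝ => ((Real.sqrt p : ℝ) : ℂ)) (((1 / (2 * Real.sqrt p) : ℝ)) : ℂ) p :=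
    (Real.hasDerivAt_sqrt hp0.ne').ofReal_comp
  have hLW : HasDerivAt (fun p : ℝ => Lam (M6.pick p z))
      (L' * (M6.pick p z / (p * rt p (koebe z)))) p := by
    have := hL'.comp_of_eq p hW rfl
    exact this
  have h3 := ((hsq.const_mul 2).mul ((hW.const_sub 1).mul hLW))
  have h4 : HasDerivAt (Uf z) _ p := h3
  refine HasDerivAt.congr_deriv h4 ?_
  simp only [Pi.mul_apply]
  rw [← hs2]
  push_cast
  rw [eq_div_iff h1W] at hode
  set W := M6.pick p z with hWdef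
  set R := rt p (koebe z) with hRdef
  set s : ℂ := ((Real.sqrt p : ℝ) : ℂ) with hsdef
  field_simp
  linear_combination Lam W * hrel + hode

/-- the function `S` with `S' = - 1 / (√p R_p)` and `S 1 = 0` -/
noncomputable def Sf (z : ℂ) (p : ℝ) : ℂ := Uf z 1 - Uf z p

theorem Sf_one (z : ℂ) : Sf z 1 = 0 := by simp [Sf]

theorem hasDeriv_S (hp0 : 0 < p) (hp1 : p ≤ 1) (hz : ‖z‖ < 1) :
    HasDerivAt (Sf z) (-(1 / ((Real.sqrt p : ℝ) * rt p (koebe z)))) p :=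
  (hasDeriv_U hp0 hp1 hz).const_sub (Uf z 1)

/-- the first order part -/
noncomputable def Af (z : ℂ) (p : ℝ) : ℂ := 2 * koebe z ^ 2 * Sf z p

theorem hasDeriv_A (hp0 : 0 < p) (hp1 : p ≤ 1) (hz : ‖z‖ < 1) :
    HasDerivAt (Af z) (-(((Real.sqrt p)⁻¹ : ℝ) * phi p (koebe z))) p := by
  have h1 := (hasDeriv_S hp0 hp1 hz).const_mul (2 * koebe z ^ 2)
  have h2 : HasDerivAt (Af z) _ p := h1
  refine HasDerivAt.congr_deriv h2 ?_
  have hRne := rt_one_ne hp0 hp1 hz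
  have hs0 : 0 < Real.sqrt p := Real.sqrt_pos.2 hp0
  have hsC : ((Real.sqrt p : ℝ) : ℂ) ≠ 0 := by exact_mod_cast hs0.ne'
  unfold phi
  push_cast
  field_simp

/-- the second order part -/
noncomputable def psi2 (z : ℂ) (p : ℝ) : ℂ :=
  3 * koebe z ^ 3 * Sf z p ^ 2
    - 2 * koebe z ^ 3 * Sf z p * (2 * (Real.sqrt p : ℝ) / rt p (koebe z))
    - koebe z ^ 2 * (Real.log p : ℝ)

theorem psi2_one (z : ℂ) : psi2 z 1 = 0 := by simp [psi2, Sf_one]

/-- minus the derivative of `psi2` -/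
noncomputable def dpsi (z : ℂ) (p : ℝ) : ℂ :=
  ((Real.sqrt p)⁻¹ : ℝ) * dphi p (koebe z) * Af z p
    + (((Real.sqrt p)⁻¹ : ℝ) : ℂ) ^ 2 * (koebe z ^ 2 / rt p (koebe z) ^ 2)

theorem hasDeriv_psi2 (hp0 : 0 < p) (hp1 : p ≤ 1) (hz : ‖z‖ < 1) :
    HasDerivAt (psi2 z) (-(dpsi z p)) p := by
  have hS := hasDeriv_S hp0 hp1 hz
  have hR := hasDeriv_rt hp0 hp1 hz
  have hRne := rt_one_ne hp0 hp1 hz
  have hs0 : 0 < Real.sqrt p := Real.sqrt_pos.2 hp0
  have hsC : ((Real.sqrt p : ℝ) : ℂ) ≠ 0 := by exact_mod_cast hs0.ne'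
  have hs2 : ((Real.sqrt p : ℝ) : ℂ) ^ 2 = p := by
    rw [← Complex.ofReal_pow, Real.sq_sqrt hp0.le]
  have hsq : HasDerivAt (fun p : ℝ => ((Real.sqrt p : ℝ) : ℂ)) (((1 / (2 * Real.sqrt p) : ℝ)) : ℂ) p :=
    (Real.hasDerivAt_sqrt hp0.ne').ofReal_comp
  have hlog : HasDerivAt (fun p : ℝ => ((Real.log p : ℝ) : ℂ)) ((p⁻¹ : ℝ) : ℂ) p :=
    (Real.hasDerivAt_log hp0.ne').ofReal_comp
  have hτ := (hsq.const_mul 2).div hR hRne
  have h1 := (hS.pow 2).const_mul (3 * koebe z ^ 3)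
  have h2 := (hS.const_mul (2 * koebe z ^ 3)).mul hτ
  have h3 := hlog.const_mul (koebe z ^ 2)
  have h4 := (h1.sub h2).sub h3
  have h5 : HasDerivAt (psi2 z) _ p := h4
  refine HasDerivAt.congr_deriv h5 ?_
  have hR2 := rt_sq p (koebe z)
  unfold dpsi dphi Af
  rw [← hs2] at hR2
  push_cast
  rw [← hs2]
  set R := rt p (koebe z) with hRdef
  set s : ℂ := ((Real.sqrt p : ℝ) : ℂ) with hsdef
  set x := koebe z with hx
  set S := Sf z p with hSdef
  have hR3 : R ^ 2 = 1 + 4 * s ^ 2 * x := by rw [hR2]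
  simp only [Pi.div_apply]
  rw [← hRdef, ← hsdef]
  field_simp
  linear_combination (-(8 * x * S * s + R)) * x ^ 2 * hR3

/-- the diagonal identity -/
theorem diag_identity (hp0 : 0 < p) (hp1 : p ≤ 1) (hz : ‖z‖ < 1) :
    phi p (koebe z) / 2 - Psi p (-1) (M6.pick p z) = koebe z ^ 2 / rt p (koebe z) ^ 2 := by
  obtain ⟨hrel, h1W, h2W, hWn⟩ := pick_rel hp0 hp1 hz
  obtain ⟨hK, _⟩ := pick_facts hp0 hp1 hz
  have hRne := rt_one_ne hp0 hp1 hz
  have hpC : (p : ℂ) ≠ 0 := by exact_mod_cast hp0.ne'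
  have hR : rt p (koebe z) = (1 + M6.pick p z) / (1 - M6.pick p z) := by
    rw [eq_div_iff h1W]; exact hrel
  have hx : koebe z = M6.pick p z / (1 - M6.pick p z) ^ 2 / p := by
    rw [eq_div_iff hpC, mul_comm, ← hK]; rfl
  unfold phi Psi
  rw [hR]
  set W := M6.pick p z with hW
  rw [hx]
  have h3 : (1 : ℂ) - -1 * W ≠ 0 := by
    have : (1 : ℂ) - -1 * W = 1 + W := by ring
    rw [this]; exact h2W
  have e : (1 : ℂ) - -1 * W = 1 + W := by ring
  rw [e]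
  field_simp
  ring

end

end Pool.Agent.Helper64.C3
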