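import Mathlib

set_option autoImplicit false

open Metric Set Filter Topology Asymptotics

namespace Pool.Agent.Helper64.C3

/-- The class `S` of normalised univalent functions on the unit disc. -/
def ClassS (f : ℂ → ℂ) : Prop :=
  DifferentiableOn ℂ f (ball 0 1) ∧ InjOn f (ball 0 1) ∧ f 0 = 0 ∧ deriv f 0 = 1

/-- The `n`-th Taylor coefficient of `f` at `0`. -/
noncomputable def coeff (n : ℕ) (f : ℂ → ℂ) : ℂ := iteratedDeriv n f 0 / (n.factorial : ℂ)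

/-- The Koebe function. -/
noncomputable def koebe (z : ℂ) : ℂ := z / (1 - z) ^ 2

/-- The set of all quotients `|Re (n - a_n)| / Re (2 - a_2)`, `f ∈ S`, `f ≠ k`. -/
def ratios (n : ℕ) : Set ℝ :=
  {r | ∃ f : ℂ → ℂ, ClassS f ∧ ¬ EqOn f koebe (ball 0 1) ∧
    r = |((n : ℂ) - coeff n f).re| / (2 - coeff 2 f).re}

/-- Third order expansion at `0` without constant term. -/
def Jet (f : ℂ → ℂ) (a b c : ℂ) : Prop :=
  (fun z : ℂ => f z - (a * z + b * z ^ 2 + c * z ^ 3)) =o[𝓝 0] (fun z : ℂ => z ^ 3)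

/-- Holomorphic self-maps of the disc fixing the origin. -/
def SelfMap (k : ℂ → ℂ) : Prop :=
  DifferentiableOn ℂ k (ball 0 1) ∧ MapsTo k (ball 0 1) (ball 0 1) ∧ k 0 = 0

/-- The numerical chains. -/
inductive Ch (ε : ℝ) : ℝ → ℂ → ℂ → Prop
  | nil : Ch ε 1 0 0
  | cons (p : ℝ) (a C : ℂ) (h : Ch ε p a C) (q : ℝ) (hq : 1 - ε ≤ q) (hq1 : q ≤ 1) (x y : ℂ)
      (hx : ‖x‖ ≤ 1) (hy : ‖y - x ^ 2‖ ≤ 1 - ‖x‖ ^ 2) :
      Ch ε (q * p) (a + (1 - (q : ℂ) ^ 2) / q * x * p)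
        (C + ((1 - (q : ℂ) ^ 2) / q * (-y + (1 - q) * x ^ 2)
          - ((1 - (q : ℂ) ^ 2) / q * x) ^ 2) * p ^ 2)

/-- The coefficients of the functions for the lower bound. -/
noncomputable def lam : ℝ := 4 * Real.exp 1 / (Real.exp 1 - 1)

end Pool.Agent.Helper64.C3
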