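import Pool.Agent.Helper64.C3.Upper
import Pool.Agent.Helper33.C3M6
import Pool.Agent.Helper1.C3M7

set_option autoImplicit false

open Metric Set Filter Topology Asymptotics

namespace Pool.Agent.Helper64.C3

theorem jet_koebe : Jet koebe 1 2 3 := by
  unfold Jet
  have hden : ∀ᶠ z in 𝓝 (0 : ℂ), 1 - z ≠ 0 := by
    have hc : ContinuousAt (fun z : ℂ => 1 - z) 0 := by fun_prop
    apply hc.eventually_ne
    simp
  have h1 : (fun z : ℂ => z * (4 - 3 * z) / (1 - z) ^ 2) =o[𝓝 0] (fun _ : ℂ => (1 : ℂ)) := by
    rw [isLittleO_one_iff]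
    have hc : ContinuousAt (fun z : ℂ => z * (4 - 3 * z) / (1 - z) ^ 2) 0 := by
      apply ContinuousAt.div
      · fun_prop
      · fun_prop
      · simp
    have := hc.tendsto
    simpa using this
  have h2 := (isBigO_refl (fun z : ℂ => z ^ 3) (𝓝 0)).mul_isLittleO h1
  simp only [mul_one] at h2
  refine h2.congr' ?_ EventuallyEq.rfl
  filter_upwards [hden] with z hz
  have hz2 : (1 - z) ^ 2 ≠ 0 := pow_ne_zero 2 hz
  rw [koebe]
  apply mul_right_cancel₀ hz2
  rw [sub_mul, div_mul_cancel₀ _ hz2, mul_assoc (z ^ 3), div_mul_cancel₀ _ hz2]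
  ring

theorem isLUB_ratios_three : IsLUB (ratios 3) (4 * Real.exp 1 / (Real.exp 1 - 1)) := by
  have hlam : 0 ≤ lam := by
    rw [lam_eq]
    have := mu_pos
    linarith
  constructor
  · rintro r ⟨f, hf, -, rfl⟩
    have h1 := upper_bound hf
    push_cast
    rcases le_or_gt (2 - coeff 2 f).re 0 with h2 | h2
    · refine (div_nonpos_of_nonneg_of_nonpos (abs_nonneg _) h2).trans hlam
    · rw [div_le_iff₀ h2]
      exact h1
  · intro c hc
    apply Pool.Agent.Helper1.C3M7.lower_bound (fun n hn θ => lower_functions n hn θ)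
    intro f hf
    have h1 := upper_bound hf
    by_cases hk : EqOn f koebe (ball 0 1)
    · -- the Koebe function
      have hj := jet_of_diff hf.1 hf.2.2.1
      have hj2 : Jet f 1 2 3 := by
        refine IsLittleO.congr' jet_koebe ?_ EventuallyEq.rfl
        filter_upwards [ball_mem_nhds (0 : ℂ) one_pos] with z hz
        rw [hk hz]
      obtain ⟨-, e2, e3⟩ := jet_unique hj hj2
      rw [e2, e3]
      simp
    · have h2 := hc ⟨f, hf, hk, rfl⟩
      push_cast at h2
      have hD : 0 ≤ (2 - coeff 2 f).re := by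
        have h3 : 0 ≤ lam * (2 - coeff 2 f).re := (abs_nonneg _).trans h1
        have h4 : 0 < lam := by
          rw [lam_eq]
          have := mu_pos
          linarith
        exact nonneg_of_mul_nonneg_right h3 h4
      rcases hD.eq_or_lt with h3 | h3
      · rw [← h3] at h1 ⊢
        simpa using h1
      · rwa [div_le_iff₀ h3] at h2

end Pool.Agent.Helper64.C3
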