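import Pool.Agent.Helper64.C3.Defs

set_option autoImplicit false

open Metric Set Filter Topology Asymptotics

namespace Pool.Agent.Helper64.C3

/-! M1 (jets) -/

theorem Jet.zero {F : ℂ → ℂ} {a b c : ℂ} (hF : Jet F a b c) : F 0 = 0 := by
  have h := hF.def (c := 1) one_pos
  have h0 := h.self_of_nhds
  simpa using h0

/-- the polynomial part is `O(z)` -/
theorem poly_isBigO (a b c : ℂ) :
    (fun z : ℂ => a * z + b * z ^ 2 + c * z ^ 3) =O[𝓝 0] (fun z : ℂ => z) := by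
  have h1 : (fun z : ℂ => a * z + b * z ^ 2 + c * z ^ 3) =
      fun z => (a + b * z + c * z ^ 2) * z := by
    funext z; ring
  rw [h1]
  have h2 : (fun z : ℂ => a + b * z + c * z ^ 2) =O[𝓝 0] (fun _ : ℂ => (1 : ℂ)) := by
    apply Filter.Tendsto.isBigO_one
    · have : Continuous fun z : ℂ => a + b * z + c * z ^ 2 := by fun_prop
      exact this.tendsto 0
  simpa using h2.mul (isBigO_refl (fun z : ℂ => z) (𝓝 0))

theorem cube_isBigO : (fun z : ℂ => z ^ 3) =O[𝓝 0] (fun z : ℂ => z) := by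
  simpa using poly_isBigO 0 0 1

theorem Jet.isBigO {F : ℂ → ℂ} {a b c : ℂ} (hF : Jet F a b c) :
    F =O[𝓝 0] (fun z : ℂ => z) := by
  have h1 := ((IsLittleO.isBigO hF).trans cube_isBigO).add (poly_isBigO a b c)
  simpa using h1

theorem Jet.tendsto {F : ℂ → ℂ} {a b c : ℂ} (hF : Jet F a b c) :
    Tendsto F (𝓝 0) (𝓝 0) := hF.isBigO.trans_tendsto tendsto_id

theorem jet_comp {F G : ℂ → ℂ} {a b c a' b' c' : ℂ} (hF : Jet F a b c) (hG : Jet G a' b' c') :
    Jet (F ∘ G) (a * a') (a * b' + b * a' ^ 2) (a * c' + 2 * b * a' * b' + c * a' ^ 3) := by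
  unfold Jet
  -- step 1
  have h1 : (fun z => F (G z) - (a * G z + b * G z ^ 2 + c * G z ^ 3)) =o[𝓝 0]
      (fun z : ℂ => z ^ 3) :=
    (hF.comp_tendsto hG.tendsto).trans_isBigO (by
      simpa [Function.comp_def] using hG.isBigO.pow 3)
  set P : ℂ → ℂ := fun z => a' * z + b' * z ^ 2 + c' * z ^ 3 with hP
  -- step 2
  have hPO : P =O[𝓝 0] (fun z : ℂ => z) := poly_isBigO a' b' c'
  have hb : (fun z => b * (G z + P z)) =O[𝓝 0] (fun _ : ℂ => (1 : ℂ)) := by
    apply Filter.Tendsto.isBigO_one ℂ (c := b * (0 + 0))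
    exact (hG.tendsto.add (hPO.trans_tendsto tendsto_id)).const_mul b
  have hc : (fun z => c * (G z ^ 2 + G z * P z + P z ^ 2)) =O[𝓝 0] (fun _ : ℂ => (1 : ℂ)) := by
    apply Filter.Tendsto.isBigO_one ℂ (c := c * (0 ^ 2 + 0 * 0 + 0 ^ 2))
    have t1 := hG.tendsto
    have t2 : Tendsto P (𝓝 0) (𝓝 0) := hPO.trans_tendsto tendsto_id
    exact (((t1.pow 2).add (t1.mul t2)).add (t2.pow 2)).const_mul c
  have hG' : (fun z => G z - P z) =o[𝓝 0] (fun z : ℂ => z ^ 3) := hG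
  have h2 : (fun z => (a + b * (G z + P z) + c * (G z ^ 2 + G z * P z + P z ^ 2)) * (G z - P z))
      =o[𝓝 0] (fun z : ℂ => z ^ 3) := by
    have ha : (fun _ : ℂ => a) =O[𝓝 0] (fun _ : ℂ => (1 : ℂ)) :=
      isBigO_const_const a one_ne_zero _
    have := ((ha.add hb).add hc).mul_isLittleO hG'
    simpa using this
  -- step 3
  have h3 : (fun z => (a * P z + b * P z ^ 2 + c * P z ^ 3) -
      (a * a' * z + (a * b' + b * a' ^ 2) * z ^ 2
        + (a * c' + 2 * b * a' * b' + c * a' ^ 3) * z ^ 3)) =o[𝓝 0] (fun z : ℂ => z ^ 3) := by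
    have e : (fun z => (a * P z + b * P z ^ 2 + c * P z ^ 3) -
      (a * a' * z + (a * b' + b * a' ^ 2) * z ^ 2
        + (a * c' + 2 * b * a' * b' + c * a' ^ 3) * z ^ 3)) =
        fun z => z ^ 3 * (z * (b * (b' ^ 2 + 2 * a' * c' + 2 * b' * c' * z + c' ^ 2 * z ^ 2)
          + c * (3 * a' ^ 2 * (b' + c' * z) + 3 * a' * z * (b' + c' * z) ^ 2
            + z ^ 2 * (b' + c' * z) ^ 3))) := by
      funext z
      simp only [hP]
      ring
    rw [e]
    have : (fun z : ℂ => (z * (b * (b' ^ 2 + 2 * a' * c' + 2 * b' * c' * z + c' ^ 2 * z ^ 2)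
          + c * (3 * a' ^ 2 * (b' + c' * z) + 3 * a' * z * (b' + c' * z) ^ 2
            + z ^ 2 * (b' + c' * z) ^ 3)))) =o[𝓝 0] (fun _ : ℂ => (1 : ℂ)) := by
      rw [isLittleO_one_iff]
      have hcont : Continuous (fun z : ℂ => (z * (b * (b' ^ 2 + 2 * a' * c' + 2 * b' * c' * z
          + c' ^ 2 * z ^ 2)
          + c * (3 * a' ^ 2 * (b' + c' * z) + 3 * a' * z * (b' + c' * z) ^ 2
            + z ^ 2 * (b' + c' * z) ^ 3)))) := by fun_prop
      have := hcont.tendsto 0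
      simpa using this
    simpa using (isBigO_refl (fun z : ℂ => z ^ 3) (𝓝 0)).mul_isLittleO this
  have h4 := (h1.add h2).add h3
  refine h4.congr_left fun z => ?_
  simp only [Function.comp_apply]
  ring

theorem jet_unique_aux {a b c : ℂ}
    (h : (fun z : ℂ => a * z + b * z ^ 2 + c * z ^ 3) =o[𝓝 0] (fun z : ℂ => z ^ 3)) :
    a = 0 ∧ b = 0 ∧ c = 0 := by
  have hdiv : ∀ (g : ℂ → ℂ) (m : ℕ), (fun z : ℂ => g z * z ^ m) =o[𝓝 0] (fun z : ℂ => z ^ m) → 
      Continuous g → g 0 = 0 := by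
    intro g m h hg
    have h1 : Tendsto (fun z : ℂ => g z * z ^ m / z ^ m) (𝓝 0) (𝓝 0) := h.tendsto_div_nhds_zero
    have h2 : Tendsto g (𝓝[≠] 0) (𝓝 0) := by
      refine (h1.mono_left nhdsWithin_le_nhds).congr' ?_
      filter_upwards [self_mem_nhdsWithin] with z hz
      have hz' : z ^ m ≠ 0 := pow_ne_zero _ hz
      rw [mul_div_cancel_right₀ _ hz']
    exact tendsto_nhds_unique ((hg.tendsto 0).mono_left nhdsWithin_le_nhds) h2
  have ha : a = 0 := by
    have h1 : (fun z : ℂ => (a + b * z + c * z ^ 2) * z ^ 1) =o[𝓝 0] (fun z : ℂ => z ^ 1) := by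
      have := h.trans_isBigO cube_isBigO
      simp only [pow_one]
      refine this.congr_left fun z => ?_
      ring
    simpa using hdiv (fun z => a + b * z + c * z ^ 2) 1 h1 (by fun_prop)
  subst ha
  have hb : b = 0 := by
    have h1 : (fun z : ℂ => (b + c * z) * z ^ 2) =o[𝓝 0] (fun z : ℂ => z ^ 2) := by
      have h3 : (fun z : ℂ => z ^ 3) =O[𝓝 0] (fun z : ℂ => z ^ 2) := by
        have h4 : (fun z : ℂ => z) =O[𝓝 0] (fun _ : ℂ => (1 : ℂ)) :=
          Filter.Tendsto.isBigO_one ℂ (c := (0 : ℂ)) tendsto_id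
        have h5 := h4.mul (isBigO_refl (fun z : ℂ => z ^ 2) (𝓝 0))
        refine (h5.congr_left fun z => ?_).congr_right fun z => ?_
        · ring
        · ring
      have := h.trans_isBigO h3
      refine this.congr_left fun z => ?_
      ring
    simpa using hdiv (fun z => b + c * z) 2 h1 (by fun_prop)
  subst hb
  have hc : c = 0 := by
    have h1 : (fun z : ℂ => c * z ^ 3) =o[𝓝 0] (fun z : ℂ => z ^ 3) := by
      refine h.congr_left fun z => ?_
      ring
    simpa using hdiv (fun z => c) 3 h1 (by fun_prop)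
  exact ⟨rfl, rfl, hc⟩

theorem jet_unique {F : ℂ → ℂ} {a b c a' b' c' : ℂ} (h : Jet F a b c) (h' : Jet F a' b' c') :
    a = a' ∧ b = b' ∧ c = c' := by
  have h1 : (fun z : ℂ => (a' - a) * z + (b' - b) * z ^ 2 + (c' - c) * z ^ 3) =o[𝓝 0]
      (fun z : ℂ => z ^ 3) := by
    refine (IsLittleO.sub h h').congr_left fun z => ?_
    ring
  obtain ⟨h2, h3, h4⟩ := jet_unique_aux h1
  exact ⟨(sub_eq_zero.1 h2).symm, (sub_eq_zero.1 h3).symm, (sub_eq_zero.1 h4).symm⟩

theorem jet_of_diff {f : ℂ → ℂ} (hf : DifferentiableOn ℂ f (ball 0 1)) (h0 : f 0 = 0) :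
    Jet f (deriv f 0) (coeff 2 f) (coeff 3 f) := by
  have hA : AnalyticAt ℂ f 0 := hf.analyticAt (ball_mem_nhds 0 one_pos)
  have hp := hA.hasFPowerSeriesAt
  have h1 := hp.isBigO_sub_partialSum_pow 4
  have h2 : (fun y : ℂ => ‖y‖ ^ 4) =o[𝓝 0] (fun y : ℂ => y ^ 3) := by
    have h3 : (fun y : ℂ => y ^ 4) =o[𝓝 0] (fun y : ℂ => y ^ 3) :=
      isLittleO_pow_pow (by norm_num)
    have h4 := h3.norm_left
    simpa using h4
  have h5 := h1.trans_isLittleO h2
  refine h5.congr_left fun z => ?_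
  rw [FormalMultilinearSeries.partialSum]
  simp only [Finset.sum_range_succ, Finset.sum_range_zero, zero_add,
    FormalMultilinearSeries.ofScalars_apply_eq, smul_eq_mul, coeff, pow_zero, pow_one,
    iteratedDeriv_zero, iteratedDeriv_one, h0, Nat.factorial]
  simp

end Pool.Agent.Helper64.C3
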