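import Pool.Agent.Helper64.C3.Growth

set_option autoImplicit false

open Metric Set Filter Topology Asymptotics

namespace Pool.Agent.Helper64.C3

/-! U-E: the kernel inequalities -/

theorem four_case {a b e M w1 w2 : ℝ} (ha : 0 ≤ a) (hb : 0 ≤ b) (he : 0 ≤ e)
    (haM : a ^ 2 ≤ M) (hbM : b ^ 2 ≤ M) (hw1 : 0 ≤ w1) (hw2 : 0 ≤ w2)
    (h1 : a ≤ w1 ∨ b ≤ w1) (h2 : a ≤ w2 ∨ e ≤ w2) :
    a ^ 4 * b * e ≤ M * (w1 * w2) * (a ^ 2 + b ^ 2 + e ^ 2) ∧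
    a ^ 2 * b ^ 3 * e ≤ M * (w1 * w2) * (a ^ 2 + b ^ 2 + e ^ 2) := by
  have hM : 0 ≤ M := (sq_nonneg _).trans haM
  have hae : a * e ≤ a ^ 2 + b ^ 2 + e ^ 2 := by nlinarith [sq_nonneg (a - e), sq_nonneg b]
  have hab : a * b ≤ a ^ 2 + b ^ 2 + e ^ 2 := by nlinarith [sq_nonneg (a - b), sq_nonneg e]
  have hbe : b * e ≤ a ^ 2 + b ^ 2 + e ^ 2 := by nlinarith [sq_nonneg (b - e), sq_nonneg a]
  have haa : a * a ≤ a ^ 2 + b ^ 2 + e ^ 2 := by nlinarith [sq_nonneg e, sq_nonneg b]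
  set S := a ^ 2 + b ^ 2 + e ^ 2 with hS
  have hS0 : 0 ≤ S := by positivity
  -- general product bound
  have gen : ∀ {x y s t : ℝ}, 0 ≤ x → 0 ≤ y → 0 ≤ s → 0 ≤ t → s ≤ M → t ≤ S → x ≤ w1 → y ≤ w2 →
      s * (x * y) * t ≤ M * (w1 * w2) * S := by
    intro x y s t hx hy hs ht hsM htS hxw hyw
    have h3 : x * y ≤ w1 * w2 := mul_le_mul hxw hyw hy hw1
    have h4 : s * (x * y) ≤ M * (w1 * w2) := mul_le_mul hsM h3 (by positivity) hM
    exact mul_le_mul h4 htS ht (by positivity)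
  rcases h1 with h1 | h1 <;> rcases h2 with h2 | h2
  · constructor
    · have := gen ha ha (sq_nonneg a) (mul_nonneg hb he) haM hbe h1 h2
      nlinarith
    · have := gen ha ha (sq_nonneg b) (mul_nonneg hb he) hbM hbe h1 h2
      nlinarith
  · constructor
    · have := gen ha he (sq_nonneg a) (mul_nonneg ha hb) haM hab h1 h2
      nlinarith
    · have := gen ha he (sq_nonneg b) (mul_nonneg ha hb) hbM hab h1 h2
      nlinarith
  · constructor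
    · have := gen hb ha (sq_nonneg a) (mul_nonneg ha he) haM hae h1 h2
      nlinarith
    · have := gen hb ha (sq_nonneg b) (mul_nonneg ha he) hbM hae h1 h2
      nlinarith
  · constructor
    · have := gen hb he (sq_nonneg a) (mul_nonneg ha ha) haM haa h1 h2
      nlinarith
    · have := gen hb he (sq_nonneg b) (mul_nonneg ha ha) hbM haa h1 h2
      nlinarith

/-- the basic quantities -/
structure Q (p v : ℝ) (χ w : ℂ) (M a b e : ℝ) : Prop where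
  ha : 0 ≤ a
  hb : 0 ≤ b
  he : 0 ≤ e
  a2 : a ^ 2 = ‖w‖ / (p * ‖1 - w‖ ^ 2)
  b2 : b ^ 2 = ‖w‖ / (p * ‖Nn (v / p) w‖)
  e2 : e ^ 2 = ‖w‖ / (p * ‖1 - χ * w‖ ^ 2)
  aM : a ^ 2 ≤ M
  bM : b ^ 2 ≤ M
  eM : e ^ 2 ≤ M
  Phi_le : ‖Phi p χ w‖ ≤ 2 * (a ^ 3 * e)
  phi_le : ‖phi v (koebe w / p)‖ ≤ 2 * (a ^ 3 * b)
  prod_le : ‖dphi v (koebe w / p) * Phi p χ w‖ ≤ 6 * (a ^ 4 * b * e) + 2 * (a ^ 2 * b ^ 3 * e)

theorem exists_Q {p v : ℝ} (hp : 0 < p) (hv : 0 < v) (hvp : v ≤ p) {χ w : ℂ} (hχ : ‖χ‖ = 1)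
    (hw : ‖w‖ < 1) {M : ℝ} (hM : ‖w‖ / (p * (1 - ‖w‖) ^ 2) ≤ M) :
    ∃ a b e : ℝ, Q p v χ w M a b e := by
  have ht0 : 0 ≤ v / p := by positivity
  have ht1 : v / p ≤ 1 := by rw [div_le_one hp]; exact hvp
  have hx1 : 0 < 1 - ‖w‖ := by linarith
  have hN := Nn_lower ht0 ht1 w
  have hNn := Nn_ne ht0 ht1 hw
  have hN0 : 0 < ‖Nn (v / p) w‖ := norm_pos_iff.2 hNn
  have hw1 : 1 - ‖w‖ ≤ ‖1 - w‖ := by
    have := norm_sub_norm_le (1 : ℂ) w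
    rwa [norm_one] at this
  have hw2 : 1 - ‖w‖ ≤ ‖1 - χ * w‖ := by
    have := norm_sub_norm_le (1 : ℂ) (χ * w)
    rwa [norm_mul, hχ, one_mul, norm_one] at this
  have hu0 : 0 < ‖1 - w‖ := lt_of_lt_of_le hx1 hw1
  have hs0 : 0 < ‖1 - χ * w‖ := lt_of_lt_of_le hx1 hw2
  set ρ := Real.sqrt (‖w‖ / p) with hρ
  have hρ0 : 0 ≤ ρ := Real.sqrt_nonneg _
  have hρ2 : ρ ^ 2 = ‖w‖ / p := Real.sq_sqrt (by positivity)
  set u := ‖1 - w‖ with hu
  set s := ‖1 - χ * w‖ with hs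
  set n := Real.sqrt ‖Nn (v / p) w‖ with hn
  have hn0 : 0 < n := Real.sqrt_pos.2 hN0
  have hn2 : n ^ 2 = ‖Nn (v / p) w‖ := Real.sq_sqrt hN0.le
  -- the root
  have hrt2 : (rt v (koebe w / p)) ^ 2 = 1 + 4 * v * (koebe w / p) := by
    unfold rt
    exact Complex.cpow_nat_inv_pow _ two_ne_zero
  have hrtn : ‖rt v (koebe w / p)‖ = n / u := by
    have h1 : ‖rt v (koebe w / p)‖ ^ 2 = (n / u) ^ 2 := by
      rw [← norm_pow, hrt2, one_add_eq hp.ne' hw, norm_div, norm_pow, div_pow, hn2]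
    exact (pow_left_inj₀ (norm_nonneg _) (by positivity) two_ne_zero).1 h1
  have hMM : ∀ d : ℝ, (1 - ‖w‖) ^ 2 ≤ d → ‖w‖ / (p * d) ≤ M := by
    intro d hd
    refine le_trans ?_ hM
    apply div_le_div_of_nonneg_left (norm_nonneg _) (by positivity)
    exact mul_le_mul_of_nonneg_left hd hp.le
  have hA : ‖koebe w / p‖ = (ρ / u) ^ 2 := by
    rw [koebe, norm_div, norm_div, norm_pow, Complex.norm_real, Real.norm_of_nonneg hp.le,
      div_pow, hρ2, ← hu]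
    field_simp
  have a2 : (ρ / u) ^ 2 = ‖w‖ / (p * u ^ 2) := by rw [div_pow, hρ2]; field_simp
  have b2 : (ρ / n) ^ 2 = ‖w‖ / (p * ‖Nn (v / p) w‖) := by rw [div_pow, hρ2, hn2]; field_simp
  have e2 : (ρ / s) ^ 2 = ‖w‖ / (p * s ^ 2) := by rw [div_pow, hρ2]; field_simp
  have hPhi : ‖Phi p χ w‖ = 2 * ((ρ / u) ^ 3 * (ρ / s)) := by
    rw [Phi, norm_div, norm_mul, norm_mul, norm_mul, norm_pow, norm_pow, norm_pow,
      Complex.norm_real, Real.norm_of_nonneg hp.le, ← hu, ← hs]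
    simp only [Complex.norm_ofNat]
    have h4 : ρ ^ 4 = ‖w‖ ^ 2 / p ^ 2 := by
      have : ρ ^ 4 = (ρ ^ 2) ^ 2 := by ring
      rw [this, hρ2, div_pow]
    have h5 : 2 * ((ρ / u) ^ 3 * (ρ / s)) = 2 * (ρ ^ 4 / (u ^ 3 * s)) := by
      field_simp
    rw [h5, h4]
    field_simp
  have hphi : ‖phi v (koebe w / p)‖ = 2 * ((ρ / u) ^ 3 * (ρ / n)) := by
    rw [phi, norm_div, norm_mul, norm_pow, hA, hrtn]
    simp only [Complex.norm_ofNat]
    field_simp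
  have hdphi : ‖dphi v (koebe w / p)‖ * ((ρ / u) ^ 3 * (ρ / s))
      ≤ 3 * ((ρ / u) ^ 4 * (ρ / n) * (ρ / s)) + (ρ / u) ^ 2 * (ρ / n) ^ 3 * (ρ / s) := by
    have h3 : ‖1 + 3 * v * (koebe w / p)‖ ≤ (3 * (n / u) ^ 2 + 1) / 4 := by
      have e : (1 : ℂ) + 3 * v * (koebe w / p) = (3 * (rt v (koebe w / p)) ^ 2 + 1) / 4 := by
        rw [hrt2]; ring
      rw [e, norm_div]
      simp only [Complex.norm_ofNat]
      apply div_le_div_of_nonneg_right _ (by norm_num)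
      refine (norm_add_le _ _).trans ?_
      rw [norm_mul, norm_pow, hrtn, norm_one]
      simp only [Complex.norm_ofNat]
      exact le_rfl
    have h4 : ‖dphi v (koebe w / p)‖ ≤ (ρ / u) ^ 2 * (3 * (n / u) ^ 2 + 1) / (n / u) ^ 3 := by
      rw [dphi, norm_div, norm_mul, norm_mul, norm_pow, hA, hrtn]
      simp only [Complex.norm_ofNat]
      apply div_le_div_of_nonneg_right _ (by positivity)
      calc 4 * (ρ / u) ^ 2 * ‖1 + 3 * v * (koebe w / p)‖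
          ≤ 4 * (ρ / u) ^ 2 * ((3 * (n / u) ^ 2 + 1) / 4) := by gcongr
        _ = (ρ / u) ^ 2 * (3 * (n / u) ^ 2 + 1) := by ring
    calc ‖dphi v (koebe w / p)‖ * ((ρ / u) ^ 3 * (ρ / s))
        ≤ ((ρ / u) ^ 2 * (3 * (n / u) ^ 2 + 1) / (n / u) ^ 3) * ((ρ / u) ^ 3 * (ρ / s)) := by
          apply mul_le_mul_of_nonneg_right h4
          positivity
      _ = 3 * ((ρ / u) ^ 4 * (ρ / n) * (ρ / s)) + (ρ / u) ^ 2 * (ρ / n) ^ 3 * (ρ / s) := by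
          field_simp
  refine ⟨ρ / u, ρ / n, ρ / s, by positivity, by positivity, by positivity, a2, b2, e2, ?_, ?_, ?_,
    hPhi.le, hphi.le, ?_⟩
  · rw [a2]; apply hMM
    apply pow_le_pow_left₀ hx1.le hw1
  · rw [b2]; exact hMM _ hN
  · rw [e2]; apply hMM
    apply pow_le_pow_left₀ hx1.le hw2
  · rw [norm_mul, hPhi]
    nlinarith

/-- first alternative -/
theorem alt_one {p v : ℝ} (hp : 0 < p) (hv : 0 < v) (hvp : v ≤ p) {χ w : ℂ}
    (hw : ‖w‖ < 1) {M a b e : ℝ} (hM : 0 < M) (h : Q p v χ w M a b e) :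
    a ≤ Real.sqrt (2 / (v + 1 / M)) ∨ b ≤ Real.sqrt (2 / (v + 1 / M)) := by
  by_contra hcon
  push Not at hcon
  obtain ⟨h1, h2⟩ := hcon
  have hν : 0 < 1 / M := by positivity
  have hpos : 0 < 2 / (v + 1 / M) := by positivity
  have a2 : 2 / (v + 1 / M) < a ^ 2 := by
    rw [← Real.sqrt_lt' (lt_of_le_of_lt (Real.sqrt_nonneg _) h1)]; exact h1
  have b2 : 2 / (v + 1 / M) < b ^ 2 := by
    rw [← Real.sqrt_lt' (lt_of_le_of_lt (Real.sqrt_nonneg _) h2)]; exact h2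
  have a0 : 0 < a ^ 2 := hpos.trans a2
  have b0 : 0 < b ^ 2 := hpos.trans b2
  have hA : 1 / a ^ 2 < (v + 1 / M) / 2 := by
    rw [div_lt_div_iff₀ a0 (by norm_num)]
    rw [div_lt_iff₀ (by positivity)] at a2
    linarith
  have hB : 1 / b ^ 2 < (v + 1 / M) / 2 := by
    rw [div_lt_div_iff₀ b0 (by norm_num)]
    rw [div_lt_iff₀ (by positivity)] at b2
    linarith
  have hA' : 1 / M ≤ 1 / a ^ 2 := one_div_le_one_div_of_le a0 h.aM
  have hB' : 1 / M ≤ 1 / b ^ 2 := one_div_le_one_div_of_le b0 h.bM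
  -- the identity
  have hw0 : 0 < ‖w‖ := by
    rcases (norm_nonneg w).eq_or_lt with h3 | h3
    · rw [h.a2, ← h3, zero_div] at a0
      exact absurd a0 (lt_irrefl _)
    · exact h3
  have ht0 : 0 ≤ v / p := by positivity
  have h4 : 4 * (v / p) * ‖w‖ ≤ ‖Nn (v / p) w‖ + ‖1 - w‖ ^ 2 := by
    have e : ((4 * (v / p) : ℝ) : ℂ) * w = Nn (v / p) w - (1 - w) ^ 2 := by
      rw [Nn]; push_cast; ring
    have := norm_sub_le (Nn (v / p) w) ((1 - w) ^ 2)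
    rw [← e, norm_mul, Complex.norm_real, Real.norm_of_nonneg (by positivity), norm_pow] at this
    exact this
  have hN0 : 0 < ‖Nn (v / p) w‖ :=
    norm_pos_iff.2 (Nn_ne ht0 (by rw [div_le_one hp]; exact hvp) hw)
  have hu0 : 0 < ‖1 - w‖ := norm_pos_iff.2 (M6.one_sub_ne (by simpa using hw))
  have h5 : 4 * v ≤ 1 / a ^ 2 + 1 / b ^ 2 := by
    rw [h.a2, h.b2, one_div_div, one_div_div, ← add_div, le_div_iff₀ hw0]
    have : 4 * v * ‖w‖ = p * (4 * (v / p) * ‖w‖) := by field_simp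
    rw [this, ← mul_add]
    apply mul_le_mul_of_nonneg_left _ hp.le
    linarith
  linarith

/-- second alternative, good angles -/
theorem alt_two {p v : ℝ} (hp : 0 < p) {χ w : ℂ} (hχ : ‖χ‖ = 1) (hre : χ.re ≤ 0)
    (hw : ‖w‖ < 1) {M a b e : ℝ} (hM : 0 < M) (h : Q p v χ w M a b e) :
    a ≤ Real.sqrt (4 / (p + 1 / M)) ∨ e ≤ Real.sqrt (4 / (p + 1 / M)) := by
  by_contra hcon
  push Not at hcon
  obtain ⟨h1, h2⟩ := hcon
  have hν : 0 < 1 / M := by positivity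
  have hpos : 0 < 4 / (p + 1 / M) := by positivity
  have a2 : 4 / (p + 1 / M) < a ^ 2 := by
    rw [← Real.sqrt_lt' (lt_of_le_of_lt (Real.sqrt_nonneg _) h1)]; exact h1
  have e2 : 4 / (p + 1 / M) < e ^ 2 := by
    rw [← Real.sqrt_lt' (lt_of_le_of_lt (Real.sqrt_nonneg _) h2)]; exact h2
  have a0 : 0 < a ^ 2 := hpos.trans a2
  have e0 : 0 < e ^ 2 := hpos.trans e2
  have hA : 1 / a ^ 2 < (p + 1 / M) / 4 := by
    rw [div_lt_div_iff₀ a0 (by norm_num)]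
    rw [div_lt_iff₀ (by positivity)] at a2
    linarith
  have hE : 1 / e ^ 2 < (p + 1 / M) / 4 := by
    rw [div_lt_div_iff₀ e0 (by norm_num)]
    rw [div_lt_iff₀ (by positivity)] at e2
    linarith
  have hA' : 1 / M ≤ 1 / a ^ 2 := one_div_le_one_div_of_le a0 h.aM
  have hE' : 1 / M ≤ 1 / e ^ 2 := one_div_le_one_div_of_le e0 h.eM
  have hw0 : 0 < ‖w‖ := by
    rcases (norm_nonneg w).eq_or_lt with h3 | h3
    · rw [h.a2, ← h3, zero_div] at a0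
      exact absurd a0 (lt_irrefl _)
    · exact h3
  have hu0 : 0 < ‖1 - w‖ := norm_pos_iff.2 (M6.one_sub_ne (by simpa using hw))
  have hs0 : 0 < ‖1 - χ * w‖ := by
    have := norm_sub_norm_le (1 : ℂ) (χ * w)
    rw [norm_mul, hχ, one_mul, norm_one] at this
    linarith
  have h3 : 2 ≤ ‖1 - χ‖ ^ 2 := by
    rw [← Complex.normSq_eq_norm_sq]
    have h4 : χ.re ^ 2 + χ.im ^ 2 = 1 := by
      have : Complex.normSq χ = 1 := by rw [Complex.normSq_eq_norm_sq, hχ]; norm_num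
      rw [Complex.normSq_apply] at this
      nlinarith
    rw [Complex.normSq_apply]
    simp only [Complex.sub_re, Complex.sub_im, Complex.one_re, Complex.one_im]
    nlinarith
  have h4 : ‖1 - χ‖ ≤ ‖1 - χ * w‖ + ‖1 - w‖ := by
    have e : 1 - χ = (1 - χ * w) - χ * (1 - w) := by ring
    rw [e]
    refine (norm_sub_le _ _).trans ?_
    rw [norm_mul, hχ, one_mul]
  have h5 : 1 ≤ ‖1 - w‖ ^ 2 + ‖1 - χ * w‖ ^ 2 := by
    have h6 : ‖1 - χ‖ ^ 2 ≤ (‖1 - χ * w‖ + ‖1 - w‖) ^ 2 :=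
      pow_le_pow_left₀ (norm_nonneg _) h4 2
    nlinarith [sq_nonneg (‖1 - χ * w‖ - ‖1 - w‖)]
  have h7 : p ≤ 1 / a ^ 2 + 1 / e ^ 2 := by
    rw [h.a2, h.e2, one_div_div, one_div_div, ← add_div, le_div_iff₀ hw0, ← mul_add]
    apply mul_le_mul_of_nonneg_left _ hp.le
    linarith
  linarith

/-- kernel inequality for good angles -/
theorem kernel_good {p v : ℝ} (hp : 0 < p) (hv : 0 < v) (hvp : v ≤ p) {χ w : ℂ} (hχ : ‖χ‖ = 1)
    (hre : χ.re ≤ 0) (hw : ‖w‖ < 1) {M : ℝ} (hM0 : 0 < M)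
    (hM : ‖w‖ / (p * (1 - ‖w‖) ^ 2) ≤ M) :
    ‖dphi v (koebe w / p) * Phi p χ w‖ ≤
      8 * (M * (Real.sqrt (2 / (v + 1 / M)) * Real.sqrt (4 / (p + 1 / M)))) *
        (‖w / (p * (1 - (1 : ℂ) * w) ^ 2)‖ + ‖w / (p * Nn (v / p) w)‖
          + ‖w / (p * (1 - χ * w) ^ 2)‖) := by
  obtain ⟨a, b, e, h⟩ := exists_Q hp hv hvp hχ hw hM
  obtain ⟨h1, h2⟩ := four_case h.ha h.hb h.he h.aM h.bM (Real.sqrt_nonneg (2 / (v + 1 / M)))
    (Real.sqrt_nonneg (4 / (p + 1 / M))) (alt_one hp hv hvp hw hM0 h)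
    (alt_two hp hχ hre hw hM0 h)
  have e1 : ‖w / (p * (1 - (1 : ℂ) * w) ^ 2)‖ = a ^ 2 := by
    rw [h.a2, norm_div, norm_mul, norm_pow, Complex.norm_real, Real.norm_of_nonneg hp.le, one_mul]
  have e2 : ‖w / (p * Nn (v / p) w)‖ = b ^ 2 := by
    rw [h.b2, norm_div, norm_mul, Complex.norm_real, Real.norm_of_nonneg hp.le]
  have e3 : ‖w / (p * (1 - χ * w) ^ 2)‖ = e ^ 2 := by
    rw [h.e2, norm_div, norm_mul, norm_pow, Complex.norm_real, Real.norm_of_nonneg hp.le]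
  rw [e1, e2, e3]
  have := h.prod_le
  linarith

/-- kernel inequality for arbitrary angles -/
theorem kernel_bad {p v : ℝ} (hp : 0 < p) (hv : 0 < v) (hvp : v ≤ p) {χ w : ℂ} (hχ : ‖χ‖ = 1)
    (hw : ‖w‖ < 1) {M : ℝ} (hM0 : 0 < M)
    (hM : ‖w‖ / (p * (1 - ‖w‖) ^ 2) ≤ M) :
    ‖dphi v (koebe w / p) * Phi p χ w‖ ≤
      8 * (M * (Real.sqrt (2 / (v + 1 / M)) * Real.sqrt M)) *
        (‖w / (p * (1 - (1 : ℂ) * w) ^ 2)‖ + ‖w / (p * Nn (v / p) w)‖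
          + ‖w / (p * (1 - χ * w) ^ 2)‖) := by
  obtain ⟨a, b, e, h⟩ := exists_Q hp hv hvp hχ hw hM
  have ha : a ≤ Real.sqrt M := by
    rw [← Real.sqrt_sq h.ha]
    exact Real.sqrt_le_sqrt h.aM
  obtain ⟨h1, h2⟩ := four_case h.ha h.hb h.he h.aM h.bM (Real.sqrt_nonneg (2 / (v + 1 / M)))
    (Real.sqrt_nonneg M) (alt_one hp hv hvp hw hM0 h) (Or.inl ha)
  have e1 : ‖w / (p * (1 - (1 : ℂ) * w) ^ 2)‖ = a ^ 2 := by
    rw [h.a2, norm_div, norm_mul, norm_pow, Complex.norm_real, Real.norm_of_nonneg hp.le, one_mul]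
  have e2 : ‖w / (p * Nn (v / p) w)‖ = b ^ 2 := by
    rw [h.b2, norm_div, norm_mul, Complex.norm_real, Real.norm_of_nonneg hp.le]
  have e3 : ‖w / (p * (1 - χ * w) ^ 2)‖ = e ^ 2 := by
    rw [h.e2, norm_div, norm_mul, norm_pow, Complex.norm_real, Real.norm_of_nonneg hp.le]
  rw [e1, e2, e3]
  have := h.prod_le
  linarith

/-- the function `phi` at level one -/
theorem phi_bound {v : ℝ} (hv : 0 < v) (hv1 : v ≤ 1) {w : ℂ} (hw : ‖w‖ < 1) {M : ℝ}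
    (hM : ‖w‖ / (1 - ‖w‖) ^ 2 ≤ M) :
    ‖phi v (koebe w)‖ ≤ M * (‖w / ((1 : ℝ) * (1 - (1 : ℂ) * w) ^ 2)‖
      + ‖w / ((1 : ℝ) * Nn (v / 1) w)‖) := by
  obtain ⟨a, b, e, h⟩ := exists_Q (p := 1) one_pos hv hv1 (χ := 1) (by simp) hw (M := M)
    (by rwa [one_mul])
  have e1 : ‖w / (((1 : ℝ) : ℂ) * (1 - (1 : ℂ) * w) ^ 2)‖ = a ^ 2 := by
    rw [h.a2, norm_div, norm_mul, norm_pow, Complex.norm_real, Real.norm_of_nonneg one_pos.le,
      one_mul (w : ℂ)]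
  have e2 : ‖w / (((1 : ℝ) : ℂ) * Nn (v / 1) w)‖ = b ^ 2 := by
    rw [h.b2, norm_div, norm_mul, Complex.norm_real, Real.norm_of_nonneg one_pos.le]
  rw [e1, e2]
  have h1 := h.phi_le
  have h2 : koebe w / ((1 : ℝ) : ℂ) = koebe w := by simp
  rw [h2] at h1
  have h3 : 2 * (a ^ 3 * b) ≤ a ^ 2 * (a ^ 2 + b ^ 2) := by
    nlinarith [mul_nonneg (sq_nonneg a) (sq_nonneg (a - b))]
  have h4 : a ^ 2 * (a ^ 2 + b ^ 2) ≤ M * (a ^ 2 + b ^ 2) :=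
    mul_le_mul_of_nonneg_right h.aM (by positivity)
  linarith

theorem Psi_bound {p : ℝ} (hp : 0 < p) {χ w : ℂ} (hχ : ‖χ‖ = 1) (hw : ‖w‖ < 1) {M : ℝ}
    (hM : ‖w‖ / (p * (1 - ‖w‖) ^ 2) ≤ M) :
    ‖Psi p χ w‖ ≤ M * (‖w / (p * (1 - (1 : ℂ) * w) ^ 2)‖ + ‖w / (p * Nn (p / p) w)‖
          + ‖w / (p * (1 - χ * w) ^ 2)‖) := by
  obtain ⟨a, b, e, h⟩ := exists_Q hp hp le_rfl hχ hw hM
  have e1 : ‖w / (p * (1 - (1 : ℂ) * w) ^ 2)‖ = a ^ 2 := by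
    rw [h.a2, norm_div, norm_mul, norm_pow, Complex.norm_real, Real.norm_of_nonneg hp.le, one_mul]
  have e2 : ‖w / (p * Nn (p / p) w)‖ = b ^ 2 := by
    rw [h.b2, norm_div, norm_mul, Complex.norm_real, Real.norm_of_nonneg hp.le]
  have e3 : ‖w / (p * (1 - χ * w) ^ 2)‖ = e ^ 2 := by
    rw [h.e2, norm_div, norm_mul, norm_pow, Complex.norm_real, Real.norm_of_nonneg hp.le]
  rw [e1, e2, e3]
  have hN : Nn (p / p) w = (1 + w) ^ 2 := by
    rw [Nn, div_self hp.ne']; push_cast; ring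
  have hu0 : 0 < ‖1 - w‖ := norm_pos_iff.2 (M6.one_sub_ne (by simpa using hw))
  have hs0 : 0 < ‖1 - χ * w‖ := by
    have := norm_sub_norm_le (1 : ℂ) (χ * w)
    rw [norm_mul, hχ, one_mul, norm_one] at this
    linarith
  have hn0 : 0 < ‖1 + w‖ := by
    have := norm_sub_norm_le (1 : ℂ) (-w)
    rw [norm_neg, norm_one, sub_neg_eq_add] at this
    linarith
  have hsum : 2 ≤ ‖1 - w‖ + ‖1 + w‖ := by
    have : ‖(2 : ℂ)‖ ≤ ‖1 - w‖ + ‖1 + w‖ := by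
      have e : (2 : ℂ) = (1 - w) + (1 + w) := by ring
      rw [e]; exact norm_add_le _ _
    simpa using this
  have hM0 : 0 ≤ M := (sq_nonneg a).trans h.aM
  set u := ‖1 - w‖ with hu
  set s := ‖1 - χ * w‖ with hs
  set t := ‖1 + w‖ with ht
  set x := ‖w‖ with hx
  have hx0 : 0 ≤ x := norm_nonneg _
  have hPsi : ‖Psi p χ w‖ = 2 * x ^ 3 / (p ^ 2 * u ^ 3 * t * s) := by
    rw [Psi, norm_div, norm_mul, norm_mul, norm_mul, norm_mul, norm_pow, norm_pow, norm_pow,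
      Complex.norm_real, Real.norm_of_nonneg hp.le]
    simp only [Complex.norm_ofNat]
    rfl
  have b2 : b ^ 2 = x / (p * t ^ 2) := by
    rw [h.b2, hN, norm_pow]
  have a2 : a ^ 2 = x / (p * u ^ 2) := h.a2
  have e2 : e ^ 2 = x / (p * s ^ 2) := h.e2
  rcases le_or_gt u 1 with h1 | h1
  · -- `t ≥ 1`
    have ht1 : 1 ≤ t := by linarith
    have h3 : ‖Psi p χ w‖ ≤ 2 * (a ^ 3 * e) := by
      have h4 : a ^ 3 * e = x ^ 2 / (p ^ 2 * u ^ 3 * s) := by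
        have h5 : (a ^ 3 * e) ^ 2 = (x ^ 2 / (p ^ 2 * u ^ 3 * s)) ^ 2 := by
          have : (a ^ 3 * e) ^ 2 = (a ^ 2) ^ 3 * e ^ 2 := by ring
          rw [this, a2, e2]
          field_simp
        exact (pow_left_inj₀ (mul_nonneg (pow_nonneg h.ha 3) h.he) (by positivity)
          two_ne_zero).1 h5
      rw [hPsi, h4]
      rw [← mul_div_assoc]
      apply div_le_div₀ (by positivity) _ (by positivity) _
      · nlinarith [pow_le_pow_left₀ hx0 hw.le 3, mul_nonneg hx0 hx0, hw]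
      · have : p ^ 2 * u ^ 3 * s * 1 ≤ p ^ 2 * u ^ 3 * s * t :=
          mul_le_mul_of_nonneg_left ht1 (by positivity)
        linarith
    have h5 : 2 * (a ^ 3 * e) ≤ a ^ 2 * (a ^ 2 + e ^ 2) := by
      nlinarith [mul_nonneg (sq_nonneg a) (sq_nonneg (a - e))]
    have h6 : a ^ 2 * (a ^ 2 + e ^ 2) ≤ M * (a ^ 2 + e ^ 2) :=
      mul_le_mul_of_nonneg_right h.aM (by positivity)
    have h7 : 0 ≤ M * b ^ 2 := by positivity
    linarith
  · have h3 : ‖Psi p χ w‖ ≤ 2 * (a ^ 2 * b * e) := by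
      have h4 : a ^ 2 * b * e = x ^ 2 / (p ^ 2 * u ^ 2 * t * s) := by
        have h5 : (a ^ 2 * b * e) ^ 2 = (x ^ 2 / (p ^ 2 * u ^ 2 * t * s)) ^ 2 := by
          have : (a ^ 2 * b * e) ^ 2 = (a ^ 2) ^ 2 * b ^ 2 * e ^ 2 := by ring
          rw [this, a2, e2, b2]
          field_simp
        exact (pow_left_inj₀ (mul_nonneg (mul_nonneg (sq_nonneg a) h.hb) h.he) (by positivity)
          two_ne_zero).1 h5
      rw [hPsi, h4]
      rw [← mul_div_assoc]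
      apply div_le_div₀ (by positivity) _ (by positivity) _
      · nlinarith [mul_nonneg hx0 hx0, hw]
      · have : p ^ 2 * u ^ 2 * t * s * 1 ≤ p ^ 2 * u ^ 2 * t * s * u :=
          mul_le_mul_of_nonneg_left h1.le (by positivity)
        nlinarith
    have h5 : 2 * (a ^ 2 * b * e) ≤ a ^ 2 * (b ^ 2 + e ^ 2) := by
      nlinarith [mul_nonneg (sq_nonneg a) (sq_nonneg (b - e))]
    have h6 : a ^ 2 * (b ^ 2 + e ^ 2) ≤ M * (b ^ 2 + e ^ 2) :=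
      mul_le_mul_of_nonneg_right h.aM (by positivity)
    have h7 : 0 ≤ M * a ^ 2 := by positivity
    linarith

end Pool.Agent.Helper64.C3
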