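import Pool.Agent.Helper64.C3.ChainSum

set_option autoImplicit false

open Metric Set Filter Topology Asymptotics

namespace Pool.Agent.Helper64.C3

/-! U-H: passing to the limit along the chains -/

theorem Bd_mono (n : ℕ) {r : ℝ} (hr0 : 0 < r) (hr1 : r < 1) {z S S' : ℝ} (hz : 0 ≤ z)
    (hS : 0 ≤ S) (hSS : S ≤ S') : Bd n r z S ≤ Bd n r z S' := by
  have h1 : 0 < 1 - r := by linarith
  have hlog : 0 ≤ Real.log (1 + 2 * (r / (1 - r) ^ 2)) := by
    apply Real.log_nonneg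
    have : 0 < r / (1 - r) ^ 2 := by positivity
    linarith
  unfold Bd
  have hS' : 0 ≤ S' := hS.trans hSS
  apply add_le_add
  · apply mul_le_mul_of_nonneg_right hSS
    positivity
  · apply mul_le_mul
    · apply mul_le_mul_of_nonneg_left _ (by positivity)
      apply Real.sqrt_le_sqrt
      exact mul_le_mul_of_nonneg_right hSS (by positivity)
    · apply add_le_add
      · apply Real.sqrt_le_sqrt
        exact mul_le_mul_of_nonneg_right hSS (by positivity)
      · exact mul_le_mul_of_nonneg_left hSS (Real.sqrt_nonneg _)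
    · positivity
    · positivity

theorem Bd_cont (n : ℕ) (r : ℝ) : Continuous (fun x : ℝ × ℝ => Bd n r x.1 x.2) := by
  unfold Bd
  fun_prop

theorem Bn_mono (n : ℕ) {r : ℝ} (hr0 : 0 < r) (hr1 : r < 1) {S S' : ℝ}
    (hS : 0 ≤ S) (hSS : S ≤ S') : Bn n r S ≤ Bn n r S' := by
  have h1 : 0 < 1 - r := by linarith
  have hlog : 0 ≤ Real.log (1 + 2 * (r / (1 - r) ^ 2)) := by
    apply Real.log_nonneg
    have : 0 < r / (1 - r) ^ 2 := by positivity
    linarith
  unfold Bn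
  have hS' : 0 ≤ S' := hS.trans hSS
  apply add_le_add
  · apply add_le_add
    · apply mul_le_mul_of_nonneg_left _ (by positivity)
      apply Real.sqrt_le_sqrt
      exact mul_le_mul_of_nonneg_right hSS (by positivity)
    · apply mul_le_mul_of_nonneg_right hSS
      positivity
  · apply mul_le_mul
    · apply mul_le_mul_of_nonneg_left _ (by positivity)
      apply Real.sqrt_le_sqrt
      exact mul_le_mul_of_nonneg_right hSS (by positivity)
    · apply add_le_add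
      · apply Real.sqrt_le_sqrt
        exact mul_le_mul_of_nonneg_right hSS (by positivity)
      · exact mul_le_mul_of_nonneg_left hSS (Real.sqrt_nonneg _)
    · positivity
    · positivity

theorem Bn_cont (n : ℕ) (r : ℝ) : Continuous (fun x : ℝ => Bn n r x) := by
  unfold Bn
  fun_prop

/-- the discrete chains, in `ε`-form -/
theorem eps_form (n : ℕ) {r : ℝ} (hr0 : 0 < r) (hr1 : r < 1) {α : ℝ} (hα : 0 < α)
    {h : ℂ → ℂ} (hh : SelfMap h) (hi : InjOn h (ball 0 1)) (hder : deriv h 0 = (α : ℂ))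
    {ε : ℝ} (hε : 0 < ε) :
    Lv α 2 h ∧
    ∃ S : ℝ, 0 ≤ S ∧ S ≤ 2 - (coeff 2 (fun z => koebe (h z) / α)).re + ((r ^ 2)⁻¹ + 2) * ε ∧
      |((n : ℂ) - ell n r (fun z => koebe (h z) / α)).re|
        ≤ Bd n r ε S + (3 * (r ^ n)⁻¹ + 3) * ε ∧
      ‖(n : ℂ) - ell n r (fun z => koebe (h z) / α)‖
        ≤ Bn n r S + (3 * (r ^ n)⁻¹ + 3) * ε := by
  have hα1 := deriv_le_one hh hα hder
  obtain ⟨C, δ₀, hC, hδ₀, hδ₀1, hcs⟩ := chain_sum n hr0 hr1 hα hα1
  obtain ⟨η₀, hη₀, hη₀1, hbc⟩ := base_close hr0 hr1 hε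
  set R := (r ^ n)⁻¹ with hR
  have hR0 : 0 < R := by positivity
  set ℓ := -Real.log α with hℓ
  have hℓ0 : 0 ≤ ℓ := by
    have := Real.log_nonpos hα.le hα1
    linarith
  -- the parameter
  obtain ⟨τ, hτ0, hτ1, hτ2, hτ3, hτ4, hτ5, hτ6⟩ : ∃ τ : ℝ, 0 < τ ∧ τ ≤ 1 / 4 ∧ τ ≤ δ₀ ∧ τ ≤ η₀ ∧
      τ ≤ ε ∧ τ * ℓ ≤ 1 / 3 ∧ R * C * (τ * ℓ) ≤ ε := by
    refine ⟨min (min (min (1 / 4) δ₀) (min η₀ ε)) (min (1 / 3 / (ℓ + 1)) (ε / (R * C * (ℓ + 1)))),
      by positivity, ?_, ?_, ?_, ?_, ?_, ?_⟩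
    · exact (min_le_left _ _).trans ((min_le_left _ _).trans (min_le_left _ _))
    · exact (min_le_left _ _).trans ((min_le_left _ _).trans (min_le_right _ _))
    · exact (min_le_left _ _).trans ((min_le_right _ _).trans (min_le_left _ _))
    · exact (min_le_left _ _).trans ((min_le_right _ _).trans (min_le_right _ _))
    · set τ := min (min (min (1 / 4) δ₀) (min η₀ ε))
        (min (1 / 3 / (ℓ + 1)) (ε / (R * C * (ℓ + 1)))) with hτ
      have h1 : τ ≤ 1 / 3 / (ℓ + 1) := (min_le_right _ _).trans (min_le_left _ _)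
      have h2 : 0 < ℓ + 1 := by linarith
      rw [le_div_iff₀ h2] at h1
      have h3 : 0 < τ := by positivity
      nlinarith
    · set τ := min (min (min (1 / 4) δ₀) (min η₀ ε))
        (min (1 / 3 / (ℓ + 1)) (ε / (R * C * (ℓ + 1)))) with hτ
      have h1 : τ ≤ ε / (R * C * (ℓ + 1)) := (min_le_right _ _).trans (min_le_right _ _)
      have h2 : 0 < R * C * (ℓ + 1) := by positivity
      rw [le_div_iff₀ h2] at h1
      have h3 : 0 < τ := by positivity
      have h4 : 0 < R * C * τ := by positivity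
      nlinarith
  have hrc0 : 0 < 1 - τ := by linarith
  have hrc1 : 1 - τ < 1 := by linarith
  obtain ⟨m, p₀, H, χ, hc, hp₀, hp₀1, hqm, hHm⟩ := exists_chain hrc0 hrc1 hh hi hα hder
  obtain ⟨hκ1, hκ2⟩ := kappa_bounds hrc0 hrc1
  set q := 2 * Real.sqrt (1 - τ) / (1 + (1 - τ)) with hq
  have hq0 : 0 < q := by linarith
  have h1q : 0 < 1 - q := by linarith
  have h1qτ : 1 - q ≤ τ := by linarith
  have hp₀0 : 0 < p₀ := by linarith
  -- the number of steps
  have hm1 : m * (1 - q) ≤ ℓ := by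
    have h1 : α ≤ q ^ m := by
      rw [← hqm]
      have : q ^ m * p₀ ≤ q ^ m * 1 := mul_le_mul_of_nonneg_left hp₀1 (by positivity)
      linarith
    have h2 : Real.log α ≤ m * Real.log q := by
      rw [← Real.log_pow]
      exact Real.log_le_log hα h1
    have h3 : Real.log q ≤ q - 1 := Real.log_le_sub_one_of_pos hq0
    have h4 : (m : ℝ) * Real.log q ≤ m * (q - 1) := mul_le_mul_of_nonneg_left h3 (by positivity)
    rw [hℓ]
    linarith
  have hm2 : m * (1 - q) ^ 2 ≤ τ * ℓ := by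
    calc m * (1 - q) ^ 2 = (m * (1 - q)) * (1 - q) := by ring
      _ ≤ ℓ * τ := mul_le_mul hm1 h1qτ h1q.le hℓ0
      _ = τ * ℓ := by ring
  have hCg : (1 + (1 - q) ^ 2) ^ m ≤ 2 * p₀ := by
    have h1 : (1 + (1 - q) ^ 2) ^ m ≤ Real.exp (m * (1 - q) ^ 2) := by
      rw [Real.exp_nat_mul]
      apply pow_le_pow_left₀ (by positivity)
      have := Real.add_one_le_exp ((1 - q) ^ 2)
      linarith
    have h2 : Real.exp (m * (1 - q) ^ 2) ≤ Real.exp (1 / 3) := Real.exp_le_exp.2 (hm2.trans hτ5)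
    have h3 : Real.exp (1 / 3) ≤ 3 / 2 := by
      have h4 := Real.add_one_le_exp (-(1 / 3 : ℝ))
      rw [Real.exp_neg] at h4
      have h5 := Real.exp_pos (1 / 3 : ℝ)
      have h6 : (2 / 3 : ℝ) * Real.exp (1 / 3) ≤ 1 := by
        calc (2 / 3 : ℝ) * Real.exp (1 / 3) ≤ (Real.exp (1 / 3))⁻¹ * Real.exp (1 / 3) := by
              apply mul_le_mul_of_nonneg_right _ h5.le
              linarith
          _ = 1 := inv_mul_cancel₀ h5.ne'
      linarith
    linarith
  have hlv : Lv α 2 h := by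
    have h1 := hc.lv (by linarith) hκ2.le hp₀0 (Cg := 2) hCg m le_rfl
    rw [hqm] at h1
    refine ⟨hh, hi, hder, fun z hz => ?_⟩
    have := h1.grow z hz
    rwa [hHm z hz] at this
  refine ⟨hlv, ?_⟩
  obtain ⟨hb1, hb2⟩ := hbc p₀ (by linarith) hp₀1 (H 0) (hc.self 0 (Nat.zero_le m)) (by
    rw [hc.der 0 (Nat.zero_le m)]; simp)
  obtain ⟨S, hS0, hS1, hS2, hS3⟩ := hcs q (by linarith) hκ2 p₀ m H χ hc (by linarith) hp₀1 hqm hCg ε
    hε.le hb2
  have hcoeff : coeff 2 (fun z => koebe (H m z) / (α : ℂ)) = coeff 2 (fun z => koebe (h z) / (α : ℂ)) := by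
    have h1 : DifferentiableOn ℂ (fun z => koebe (H m z) / (α : ℂ)) (ball 0 1) :=
      (M6.koebe_diff.comp (hc.self m le_rfl).1 (hc.self m le_rfl).2.1).div_const _
    have h2 : DifferentiableOn ℂ (fun z => koebe (h z) / (α : ℂ)) (ball 0 1) :=
      (M6.koebe_diff.comp hh.1 hh.2.1).div_const _
    rw [← ell_eq_coeff hr0 hr1 h1, ← ell_eq_coeff hr0 hr1 h2]
    apply ell_congr hr0
    intro z hz
    rw [hHm z (sphere_mem hr1 hz)]
  have hell : ell n r (fun z => koebe (H m z) / (α : ℂ)) = ell n r (fun z => koebe (h z) / (α : ℂ)) := by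
    apply ell_congr hr0
    intro z hz
    rw [hHm z (sphere_mem hr1 hz)]
  rw [hcoeff] at hS1
  rw [hell] at hS2 hS3
  -- the base
  have hd0 : DifferentiableOn ℂ (fun z => koebe (H 0 z) / (p₀ : ℂ)) (ball 0 1) :=
    (M6.koebe_diff.comp (hc.self 0 (Nat.zero_le m)).1 (hc.self 0 (Nat.zero_le m)).2.1).div_const _
  have hbase : ∀ k : ℕ, ‖ell k r (fun z => koebe (H 0 z) / (p₀ : ℂ)) - (k : ℂ)‖ ≤ (r ^ k)⁻¹ * ε := by
    intro k
    have h1 : (k : ℂ) = ell k r koebe := by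
      rw [ell_eq_coeff hr0 hr1 M6.koebe_diff, coeff_koebe]
    have c1 : ContinuousOn (fun z => koebe (H 0 z) / (p₀ : ℂ)) (sphere 0 r) :=
      hd0.continuousOn.mono (fun _ hz => sphere_mem hr1 hz)
    have c2 : ContinuousOn koebe (sphere 0 r) :=
      M6.koebe_diff.continuousOn.mono (fun _ hz => sphere_mem hr1 hz)
    rw [h1, ← ell_sub hr0 c1 c2]
    exact norm_ell_le_const hr0 (c1.sub c2) hb1
  have h3 : (m : ℝ) * (R * (C * (1 - q) ^ 2)) ≤ ε := by
    calc (m : ℝ) * (R * (C * (1 - q) ^ 2)) = R * C * (m * (1 - q) ^ 2) := by ring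
      _ ≤ R * C * (τ * ℓ) := mul_le_mul_of_nonneg_left hm2 (by positivity)
      _ ≤ ε := hτ6
  have h4 : (3 * R + 3) * ε = R * ε + (ε + 2 * (R * ε + ε)) := by ring
  refine ⟨S, hS0, ?_, ?_, ?_⟩
  · have h1 := hbase 2
    rw [ell_eq_coeff hr0 hr1 hd0] at h1
    have h2 := (Complex.abs_re_le_norm _).trans h1
    rw [Complex.sub_re] at h2
    have h3 := (abs_le.1 h2).2
    have h4 : ((2 : ℕ) : ℂ).re = 2 := by simp
    rw [h4] at h3
    have h5 : ((r ^ 2)⁻¹ + 2) * ε = (r ^ 2)⁻¹ * ε + 2 * ε := by ring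
    linarith
  · have h1 := (Complex.abs_re_le_norm _).trans (hbase n)
    have h2 : ((n : ℂ) - ell n r (fun z => koebe (h z) / α)).re
        = -((ell n r (fun z => koebe (H 0 z) / (p₀ : ℂ)) - (n : ℂ)).re)
          + (ell n r (fun z => koebe (H 0 z) / (p₀ : ℂ)) - ell n r (fun z => koebe (h z) / α)).re := by
      simp only [Complex.sub_re]; ring
    rw [h2]
    refine (abs_add_le _ _).trans ?_
    rw [abs_neg]
    linarith
  · have h1 := hbase n
    have h2 : (n : ℂ) - ell n r (fun z => koebe (h z) / α)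
        = -(ell n r (fun z => koebe (H 0 z) / (p₀ : ℂ)) - (n : ℂ))
          + (ell n r (fun z => koebe (H 0 z) / (p₀ : ℂ)) - ell n r (fun z => koebe (h z) / α)) := by
      ring
    rw [h2]
    refine (norm_add_le _ _).trans ?_
    rw [norm_neg]
    linarith

theorem limit_form (n : ℕ) {r : ℝ} (hr0 : 0 < r) (hr1 : r < 1) {α : ℝ} (hα : 0 < α)
    {h : ℂ → ℂ} (hh : SelfMap h) (hi : InjOn h (ball 0 1)) (hder : deriv h 0 = (α : ℂ)) :
    0 ≤ 2 - (coeff 2 (fun z => koebe (h z) / α)).re ∧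
      |((n : ℂ) - ell n r (fun z => koebe (h z) / α)).re|
        ≤ Bd n r 0 (2 - (coeff 2 (fun z => koebe (h z) / α)).re) ∧
      ‖(n : ℂ) - ell n r (fun z => koebe (h z) / α)‖
        ≤ Bn n r (2 - (coeff 2 (fun z => koebe (h z) / α)).re) := by
  set D := 2 - (coeff 2 (fun z => koebe (h z) / α)).re with hD
  set X := |((n : ℂ) - ell n r (fun z => koebe (h z) / α)).re| with hX
  set K₁ := (r ^ 2)⁻¹ + 2 with hK₁
  set K₂ := 3 * (r ^ n)⁻¹ + 3 with hK₂
  have hK₁0 : 0 < K₁ := by positivity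
  set Y := ‖(n : ℂ) - ell n r (fun z => koebe (h z) / α)‖ with hY
  have hev : ∀ ε : ℝ, 0 < ε → 0 ≤ D + K₁ * ε ∧ X ≤ Bd n r ε (D + K₁ * ε) + K₂ * ε ∧
      Y ≤ Bn n r (D + K₁ * ε) + K₂ * ε := by
    intro ε hε
    obtain ⟨_, S, hS0, hS1, hS2, hS3⟩ := eps_form n hr0 hr1 hα hh hi hder hε
    exact ⟨hS0.trans hS1, hS2.trans (add_le_add (Bd_mono n hr0 hr1 hε.le hS0 hS1) le_rfl),
      hS3.trans (add_le_add (Bn_mono n hr0 hr1 hS0 hS1) le_rfl)⟩
  refine ⟨?_, ?_, ?_⟩
  · have ht : Tendsto (fun ε : ℝ => D + K₁ * ε) (𝓝[>] 0) (𝓝 (D + K₁ * 0)) := by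
      apply Tendsto.mono_left _ nhdsWithin_le_nhds
      exact (Continuous.tendsto (by fun_prop) 0)
    rw [mul_zero, add_zero] at ht
    apply ge_of_tendsto ht
    filter_upwards [self_mem_nhdsWithin] with ε hε
    exact (hev ε hε).1
  · have ht : Tendsto (fun ε : ℝ => Bd n r ε (D + K₁ * ε) + K₂ * ε) (𝓝[>] 0)
        (𝓝 (Bd n r 0 (D + K₁ * 0) + K₂ * 0)) := by
      apply Tendsto.mono_left _ nhdsWithin_le_nhds
      have hc : Continuous (fun ε : ℝ => Bd n r ε (D + K₁ * ε) + K₂ * ε) := by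
        have h1 : Continuous (fun ε : ℝ => (ε, D + K₁ * ε)) := by fun_prop
        exact ((Bd_cont n r).comp h1).add (by fun_prop)
      exact hc.tendsto 0
    rw [mul_zero, add_zero, mul_zero, add_zero] at ht
    apply ge_of_tendsto ht
    filter_upwards [self_mem_nhdsWithin] with ε hε
    exact (hev ε hε).2.1
  · have ht : Tendsto (fun ε : ℝ => Bn n r (D + K₁ * ε) + K₂ * ε) (𝓝[>] 0)
        (𝓝 (Bn n r (D + K₁ * 0) + K₂ * 0)) := by
      apply Tendsto.mono_left _ nhdsWithin_le_nhds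
      have hc : Continuous (fun ε : ℝ => Bn n r (D + K₁ * ε) + K₂ * ε) := by
        have h1 : Continuous (fun ε : ℝ => D + K₁ * ε) := by fun_prop
        exact ((Bn_cont n r).comp h1).add (by fun_prop)
      exact hc.tendsto 0
    rw [mul_zero, add_zero, mul_zero, add_zero] at ht
    apply ge_of_tendsto ht
    filter_upwards [self_mem_nhdsWithin] with ε hε
    exact (hev ε hε).2.2

/-- the coefficient bound `|a_n| ≤ C n` for compositions -/
theorem coeff_growth (n : ℕ) {r : ℝ} (hr0 : 0 < r) (hr1 : r < 1) {α : ℝ} (hα : 0 < α)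
    {h : ℂ → ℂ} (hh : SelfMap h) (hi : InjOn h (ball 0 1)) (hder : deriv h 0 = (α : ℂ)) :
    ‖ell n r (fun z => koebe (h z) / α)‖ ≤ (r ^ n)⁻¹ * (2 * r / (1 - r)) := by
  obtain ⟨hlv, _⟩ := eps_form n hr0 hr1 hα hh hi hder one_pos
  have h1 := mean_E hα hlv (χ := 1) (by simp) hr0 hr1
  have h2 := cont_A hα hlv (χ := 1) (by simp) hr1
  have c1 : ContinuousOn (fun z => koebe (h z) / (α : ℂ)) (sphere 0 r) :=
    ((M6.koebe_diff.comp hh.1 hh.2.1).div_const _).continuousOn.mono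
      (fun _ hz => sphere_mem hr1 hz)
  refine (norm_ell_le hr0 c1 h2 ?_).trans (mul_le_mul_of_nonneg_left h1 (by positivity))
  intro z hz
  apply le_of_eq
  rw [koebe, one_mul, div_div, mul_comm ((1 - h z) ^ 2)]

end Pool.Agent.Helper64.C3
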