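import Pool.Agent.Helper64.C3.Riemann

set_option autoImplicit false

open Metric Set Filter Topology Asymptotics

namespace Pool.Agent.Helper64.C3

/-! Theorem L: the limit inequality -/

theorem Lam_diff : DifferentiableOn ℂ Lam (ball 0 1) := by
  intro w hw
  obtain ⟨L', hL', _⟩ := lam_ode (w := w) (by simpa using hw)
  exact hL'.differentiableAt.differentiableWithinAt

theorem Uf_diff {p : ℝ} (hp0 : 0 < p) (hp1 : p ≤ 1) :
    DifferentiableOn ℂ (fun z => Uf z p) (ball 0 1) := by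
  have hW : DifferentiableOn ℂ (fun z => M6.pick p z) (ball 0 1) := by
    rcases hp1.eq_or_lt with h | h
    · rw [h]
      exact differentiableOn_id.congr (fun z hz => pick_one (by simpa using hz))
    · exact M6.pick_diff hp0 h
  have hm : MapsTo (fun z => M6.pick p z) (ball 0 1) (ball 0 1) := by
    intro z hz
    have hz1 : ‖z‖ < 1 := by simpa using hz
    rw [mem_ball_zero_iff]
    exact (pick_rel hp0 hp1 hz1).2.2.2
  unfold Uf
  exact (((differentiableOn_const _).sub hW).mul (Lam_diff.comp hW hm)).const_mul _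

theorem psi2_diff {p : ℝ} (hp0 : 0 < p) (hp1 : p ≤ 1) :
    DifferentiableOn ℂ (fun z => psi2 z p) (ball 0 1) := by
  have hS : DifferentiableOn ℂ (fun z => Sf z p) (ball 0 1) :=
    (Uf_diff one_pos le_rfl).sub (Uf_diff hp0 hp1)
  have hK := M6.koebe_diff
  have hR : DifferentiableOn ℂ (fun z => rt p (koebe z)) (ball 0 1) := by
    intro z hz
    have hz1 : ‖z‖ < 1 := by simpa using hz
    apply DifferentiableAt.differentiableWithinAt
    have h1 : DifferentiableAt ℂ koebe z := hK.differentiableAt (isOpen_ball.mem_nhds hz)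
    have h3 : DifferentiableAt ℂ (fun w => 1 + 4 * (p : ℂ) * koebe w) z :=
      (h1.const_mul _).const_add _
    unfold rt
    exact h3.cpow (differentiableAt_const _) (slit_one hp0 hp1 hz1)
  unfold psi2
  apply DifferentiableOn.sub
  · apply DifferentiableOn.sub
    · exact ((hK.pow 3).const_mul _).mul (hS.pow 2)
    · apply DifferentiableOn.mul
      · exact ((hK.pow 3).const_mul _).mul hS
      · apply DifferentiableOn.div (differentiableOn_const _) hR
        intro z hz
        exact rt_one_ne hp0 hp1 (by simpa using hz)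
  · exact (hK.pow 2).mul (differentiableOn_const _)

theorem coeff2_sum {q t : ℝ} (hq0 : 0 < q) (hq1 : q < 1) (m : ℕ) :
    (2 - coeff 2 (fun z => koebe (HH q (chi q t) m z) / ((q ^ m : ℝ) : ℂ))).re
      ≤ t ^ 2 * (m * (1 - q)) := by
  have hχ : ∀ i, ‖chi q t i‖ = 1 := chi_norm q t
  have h0 : coeff 2 (fun z => koebe (HH q (chi q t) 0 z) / ((q ^ 0 : ℝ) : ℂ)) = 2 := by
    have e : (fun z => koebe (HH q (chi q t) 0 z) / ((q ^ 0 : ℝ) : ℂ)) = koebe := by
      ext z
      simp [HH]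
    rw [e, coeff_koebe]
    norm_num
  have h1 : 2 - coeff 2 (fun z => koebe (HH q (chi q t) m z) / ((q ^ m : ℝ) : ℂ))
      = ∑ i ∈ Finset.range m, 2 * (1 + chi q t i) * ((1 - q) * q ^ i) := by
    have hs := Finset.sum_range_sub'
      (fun i => coeff 2 (fun z => koebe (HH q (chi q t) i z) / ((q ^ i : ℝ) : ℂ))) m
    rw [h0] at hs
    rw [← hs]
    exact Finset.sum_congr rfl (fun i _ => HH_coeff2 hq0 hq1 hχ i)
  rw [h1, Complex.re_sum]
  have h2 : ∀ i ∈ Finset.range m, (2 * (1 + chi q t i) * ((1 - q) * q ^ i)).re ≤ t ^ 2 * (1 - q) := by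
    intro i _
    have hP : 0 < q ^ i := by positivity
    have hs := Real.sqrt_pos.2 hP
    have e1 : 2 * (1 + chi q t i) * ((1 - q) * q ^ i)
        = ((2 * ((1 - q) * q ^ i) : ℝ) : ℂ) * (1 + chi q t i) := by push_cast; ring
    rw [e1, Complex.re_ofReal_mul]
    have e2 : (1 + chi q t i).re = 1 - Real.cos (t * (Real.sqrt (q ^ i))⁻¹) := by
      unfold chi
      rw [Complex.add_re, Complex.one_re, Complex.neg_re, Complex.exp_ofReal_mul_I_re]
      ring
    rw [e2]
    have h3 := Real.one_sub_sq_div_two_le_cos (x := t * (Real.sqrt (q ^ i))⁻¹)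
    have h4 : (t * (Real.sqrt (q ^ i))⁻¹) ^ 2 * q ^ i = t ^ 2 := by
      rw [mul_pow, inv_pow, Real.sq_sqrt hP.le]
      field_simp
    have h1q : 0 < 1 - q := by linarith
    have h5 : 2 * ((1 - q) * q ^ i) * (1 - Real.cos (t * (Real.sqrt (q ^ i))⁻¹))
        ≤ 2 * ((1 - q) * q ^ i) * ((t * (Real.sqrt (q ^ i))⁻¹) ^ 2 / 2) := by
      apply mul_le_mul_of_nonneg_left _ (by positivity)
      linarith
    refine h5.trans (le_of_eq ?_)
    calc 2 * ((1 - q) * q ^ i) * ((t * (Real.sqrt (q ^ i))⁻¹) ^ 2 / 2)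
        = (1 - q) * ((t * (Real.sqrt (q ^ i))⁻¹) ^ 2 * q ^ i) := by ring
      _ = t ^ 2 * (1 - q) := by rw [h4]; ring
  refine (Finset.sum_le_sum h2).trans (le_of_eq ?_)
  rw [Finset.sum_const, Finset.card_range, nsmul_eq_mul]
  ring

theorem ell_sum_im {n m : ℕ} {r : ℝ} (hr0 : 0 < r) (hr1 : r < 1) {q : ℝ} (hq0 : 0 < q) (hq1 : q < 1)
    (c : ℕ → ℝ) :
    ContinuousOn (fun z => Complex.I * ∑ i ∈ Finset.range m, (c i : ℂ) * phi (q ^ i) (koebe z))
      (sphere 0 r) ∧
    (ell n r (fun z => Complex.I * ∑ i ∈ Finset.range m, (c i : ℂ) * phi (q ^ i) (koebe z))).re = 0 := by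
  have hP0 : ∀ i : ℕ, 0 < q ^ i := fun i => by positivity
  have hP1 : ∀ i : ℕ, q ^ i ≤ 1 := fun i => pow_le_one₀ hq0.le hq1.le
  have hc : ∀ i, ContinuousOn (fun z => (c i : ℂ) * phi (q ^ i) (koebe z)) (sphere 0 r) := by
    intro i
    have h1 := phi_diff (hP0 i) (hP1 i)
    simp only [Complex.ofReal_one, div_one] at h1
    exact continuousOn_const.mul (h1.continuousOn.mono (fun _ hz => sphere_mem hr1 hz))
  have him : ∀ i, (ell n r (fun z => (c i : ℂ) * phi (q ^ i) (koebe z))).im = 0 := by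
    intro i
    rw [ell_const_mul, Complex.im_ofReal_mul]
    have h2 : (ell n r (fun z => phi (q ^ i) (koebe z))).im = 0 := by
      apply ell_real hr0
      · have h1 := phi_diff (hP0 i) (hP1 i)
        simp only [Complex.ofReal_one, div_one] at h1
        exact h1.continuousOn.mono (fun _ hz => sphere_mem hr1 hz)
      · intro z hz
        have hz1 : ‖z‖ < 1 := by simpa using sphere_mem hr1 hz
        have := phi_conj (hP0 i) (hP1 i) hz1
        simpa using this
    rw [h2, mul_zero]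
  have hsum : ∀ k : ℕ, ContinuousOn (fun z => ∑ i ∈ Finset.range k, (c i : ℂ) * phi (q ^ i) (koebe z))
      (sphere 0 r) ∧
      (ell n r (fun z => ∑ i ∈ Finset.range k, (c i : ℂ) * phi (q ^ i) (koebe z))).im = 0 := by
    intro k
    induction k with
    | zero =>
      simp only [Finset.range_zero, Finset.sum_empty]
      refine ⟨continuousOn_const, ?_⟩
      have : ell n r (fun _ => (0 : ℂ)) = 0 := by
        unfold ell
        simp only [zero_mul]
        rw [Real.circleAverage_const]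
      rw [this]; rfl
    | succ k ih =>
      obtain ⟨i1, i2⟩ := ih
      have e : (fun z => ∑ i ∈ Finset.range (k + 1), (c i : ℂ) * phi (q ^ i) (koebe z))
          = fun z => (∑ i ∈ Finset.range k, (c i : ℂ) * phi (q ^ i) (koebe z))
            + (c k : ℂ) * phi (q ^ k) (koebe z) := by
        ext z
        rw [Finset.sum_range_succ]
      rw [e]
      refine ⟨i1.add (hc k), ?_⟩
      rw [ell_add hr0 i1 (hc k), Complex.add_im, i2, him k, add_zero]
  obtain ⟨s1, s2⟩ := hsum m
  refine ⟨continuousOn_const.mul s1, ?_⟩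
  rw [ell_const_mul, Complex.mul_re, s2]
  simp

theorem limit_ineq' {n : ℕ} {r α K : ℝ} (hr0 : 0 < r) (hr1 : r < 1) (hα0 : 0 < α) (hα1 : α < 1)
    (hK0 : 0 ≤ K)
    (hK : ∀ f : ℂ → ℂ, ClassS f → |((n : ℂ) - coeff n f).re| ≤ K * (2 - coeff 2 f).re) :
    (ell n r (fun z => psi2 z α)).re ≤ K * (-Real.log α) := by
  obtain ⟨C, m₀, hC, hm₀, hso⟩ := second_order hr0 hr1 hα0 hα1
  obtain ⟨C', hC'0, hC'⟩ := quad_close hr0 hr1 hα0 hα1
  set ℓ := -Real.log α with hℓ
  have hℓ0 : 0 < ℓ := by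
    have := Real.log_neg hα0 hα1
    linarith
  set R := (r ^ n)⁻¹ with hR
  have hR0 : 0 < R := by positivity
  set X := (ell n r (fun z => psi2 z α)).re with hX
  have key : ∀ s : ℕ, m₀ ≤ s → C ≤ s → 1 ≤ s → X ≤ K * ℓ + R * (3 * C + C' * ℓ) * (1 / (s : ℝ)) := by
    intro s hs hsC hs1
    have hs0 : (0 : ℝ) < s := by exact_mod_cast hs1
    have hs1R : (1 : ℝ) ≤ s := by exact_mod_cast hs1
    set m := s ^ 4 with hm
    have hmm : m₀ ≤ m := hs.trans (Nat.le_self_pow (by norm_num) s)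
    have hmR : (m : ℝ) = (s : ℝ) ^ 4 := by rw [hm]; push_cast; ring
    have hm0 : (0 : ℝ) < m := by rw [hmR]; positivity
    set t : ℝ := 1 / s with ht
    have ht0 : 0 < t := by positivity
    have ht1 : t ≤ 1 := by rw [ht, div_le_one hs0]; exact hs1R
    have hCt : C * t ≤ 1 := by
      rw [ht, mul_one_div, div_le_one hs0]; exact hsC
    set q := Real.exp (Real.log α / m) with hq
    have hq0 : 0 < q := Real.exp_pos _
    have hqe : q = Real.exp (-(ℓ / m)) := by rw [hq, hℓ]; congr 1; ring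
    have hq1 : q < 1 := by
      rw [hqe, Real.exp_lt_one_iff]
      have : 0 < ℓ / m := by positivity
      linarith
    have h1q : 1 - q ≤ ℓ / m := by
      have := Real.add_one_le_exp (-(ℓ / m))
      rw [← hqe] at this
      linarith
    have hqm : q ^ m = α := by
      rw [hq, ← Real.exp_nat_mul]
      have : (m : ℝ) * (Real.log α / m) = Real.log α := by field_simp
      rw [this, Real.exp_log hα0]
    have hmain := hso m hmm t ht0.le hCt q hq
    have hχ : ∀ i, ‖chi q t i‖ = 1 := chi_norm q t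
    have hclass := HH_class hq0 hq1 hχ m
    set f : ℂ → ℂ := fun z => koebe (HH q (chi q t) m z) / ((q ^ m : ℝ) : ℂ) with hf
    have hKf := hK f hclass
    have hc2 := coeff2_sum (t := t) hq0 hq1 m
    have hc2' : (2 - coeff 2 f).re ≤ t ^ 2 * ℓ := by
      refine hc2.trans ?_
      apply mul_le_mul_of_nonneg_left _ (by positivity)
      calc (m : ℝ) * (1 - q) ≤ m * (ℓ / m) := mul_le_mul_of_nonneg_left h1q hm0.le
        _ = ℓ := by field_simp
    have hup : ((n : ℂ) - coeff n f).re ≤ K * (t ^ 2 * ℓ) :=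
      (le_abs_self _).trans (hKf.trans (mul_le_mul_of_nonneg_left hc2' hK0))
    -- the coefficient of the difference
    obtain ⟨ci, hi⟩ := ell_sum_im (n := n) (m := m) hr0 hr1 hq0 hq1
      (fun i => Real.sin (t * (Real.sqrt (q ^ i))⁻¹) * ((1 - q) * q ^ i))
    set Sg : ℂ → ℂ := fun z => Complex.I * ∑ i ∈ Finset.range m,
      ((Real.sin (t * (Real.sqrt (q ^ i))⁻¹) * ((1 - q) * q ^ i) : ℝ) : ℂ) * phi (q ^ i) (koebe z)
      with hSg
    have cK : ContinuousOn koebe (sphere 0 r) :=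
      M6.koebe_diff.continuousOn.mono (fun _ hz => sphere_mem hr1 hz)
    have cf : ContinuousOn f (sphere 0 r) :=
      hclass.1.continuousOn.mono (fun _ hz => sphere_mem hr1 hz)
    have cψ : ContinuousOn (fun z => psi2 z α) (sphere 0 r) :=
      (psi2_diff hα0 hα1.le).continuousOn.mono (fun _ hz => sphere_mem hr1 hz)
    have cψ' : ContinuousOn (fun z => (t ^ 2 : ℂ) * psi2 z α) (sphere 0 r) := continuousOn_const.mul cψ
    have c1 : ContinuousOn (fun z => koebe z - f z) (sphere 0 r) := cK.sub cf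
    have c2 : ContinuousOn (fun z => koebe z - f z + Sg z) (sphere 0 r) := c1.add ci
    have c3 : ContinuousOn (fun z => koebe z - f z + Sg z - (t ^ 2 : ℂ) * psi2 z α) (sphere 0 r) :=
      c2.sub cψ'
    have hE : ‖ell n r (fun z => koebe z - f z + Sg z - (t ^ 2 : ℂ) * psi2 z α)‖
        ≤ R * (C * (t ^ 3 + t ^ 2 / m + 1 / m) + t ^ 2 * (C' * (ℓ / m))) := by
      apply norm_ell_le_const hr0 c3
      intro z hz
      have h1 := hmain z hz
      have h2 := hC' q m hq0 hq1 hqm z (mem_sphere_zero_iff_norm.1 hz).le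
      have e : koebe z - f z + Sg z - (t ^ 2 : ℂ) * psi2 z α
          = (koebe z - f z + Sg z - (t ^ 2 : ℂ) * quad q m z)
            + (t ^ 2 : ℂ) * (quad q m z - psi2 z α) := by ring
      rw [e]
      refine (norm_add_le _ _).trans (add_le_add h1 ?_)
      rw [norm_mul, norm_pow, Complex.norm_real, Real.norm_of_nonneg ht0.le]
      apply mul_le_mul_of_nonneg_left _ (by positivity)
      exact h2.trans (mul_le_mul_of_nonneg_left h1q hC'0)
    have e1 : ell n r (fun z => koebe z - f z + Sg z - (t ^ 2 : ℂ) * psi2 z α)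
        = ((n : ℂ) - coeff n f) + ell n r Sg - (t ^ 2 : ℂ) * ell n r (fun z => psi2 z α) := by
      rw [ell_sub hr0 c2 cψ', ell_add hr0 c1 ci, ell_sub hr0 cK cf,
        ell_const_mul n r (t ^ 2 : ℂ) (fun z => psi2 z α),
        ell_eq_coeff hr0 hr1 M6.koebe_diff, coeff_koebe, ell_eq_coeff hr0 hr1 hclass.1]
    have h3 := (Complex.abs_re_le_norm _).trans hE
    have h4 := (abs_le.1 h3).1
    rw [e1, Complex.sub_re, Complex.add_re, hi] at h4
    have e2 : ((t ^ 2 : ℂ) * ell n r (fun z => psi2 z α)).re = t ^ 2 * X := by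
      rw [← Complex.ofReal_pow, Complex.re_ofReal_mul]
    rw [e2] at h4
    have h5 : t ^ 2 * X ≤ K * (t ^ 2 * ℓ)
        + R * (C * (t ^ 3 + t ^ 2 / m + 1 / m) + t ^ 2 * (C' * (ℓ / m))) := by linarith
    -- divide by `t ^ 2`
    have h6 : C * (t ^ 3 + t ^ 2 / m + 1 / m) + t ^ 2 * (C' * (ℓ / m))
        ≤ t ^ 2 * ((3 * C + C' * ℓ) * t) := by
      have a1 : (1 : ℝ) / m = t ^ 4 := by rw [ht, hmR]; field_simp
      have a2 : t ^ 2 / m = t ^ 6 := by
        rw [div_eq_mul_one_div, a1]; ring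
      have a3 : ℓ / m = ℓ * t ^ 4 := by rw [div_eq_mul_one_div, a1]
      rw [a1, a2, a3]
      have b1 : t ^ 6 ≤ t ^ 3 := pow_le_pow_of_le_one ht0.le ht1 (by norm_num)
      have b2 : t ^ 4 ≤ t ^ 3 := pow_le_pow_of_le_one ht0.le ht1 (by norm_num)
      have b3 : t ^ 4 ≤ t := by
        have := pow_le_pow_of_le_one ht0.le ht1 (show 1 ≤ 4 by norm_num)
        simpa using this
      have b4 : C * (t ^ 3 + t ^ 6 + t ^ 4) ≤ C * (3 * t ^ 3) :=
        mul_le_mul_of_nonneg_left (by linarith) hC.le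
      have b5 : t ^ 2 * (C' * (ℓ * t ^ 4)) ≤ t ^ 2 * (C' * (ℓ * t)) := by
        apply mul_le_mul_of_nonneg_left _ (by positivity)
        apply mul_le_mul_of_nonneg_left _ hC'0
        exact mul_le_mul_of_nonneg_left b3 hℓ0.le
      calc C * (t ^ 3 + t ^ 6 + t ^ 4) + t ^ 2 * (C' * (ℓ * t ^ 4))
          ≤ C * (3 * t ^ 3) + t ^ 2 * (C' * (ℓ * t)) := add_le_add b4 b5
        _ = t ^ 2 * ((3 * C + C' * ℓ) * t) := by ring
    have h7 : t ^ 2 * X ≤ t ^ 2 * (K * ℓ + R * (3 * C + C' * ℓ) * t) := by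
      have := mul_le_mul_of_nonneg_left h6 hR0.le
      calc t ^ 2 * X ≤ K * (t ^ 2 * ℓ)
            + R * (C * (t ^ 3 + t ^ 2 / m + 1 / m) + t ^ 2 * (C' * (ℓ / m))) := h5
        _ ≤ K * (t ^ 2 * ℓ) + R * (t ^ 2 * ((3 * C + C' * ℓ) * t)) := by linarith
        _ = t ^ 2 * (K * ℓ + R * (3 * C + C' * ℓ) * t) := by ring
    exact le_of_mul_le_mul_left h7 (by positivity)
  have ht : Tendsto (fun s : ℕ => K * ℓ + R * (3 * C + C' * ℓ) * (1 / (s : ℝ))) atTop
      (𝓝 (K * ℓ + R * (3 * C + C' * ℓ) * 0)) :=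
    (tendsto_one_div_atTop_nhds_zero_nat.const_mul _).const_add _
  rw [mul_zero, add_zero] at ht
  apply ge_of_tendsto ht
  obtain ⟨s₀, hs₀⟩ := exists_nat_ge C
  filter_upwards [eventually_ge_atTop (max (max m₀ s₀) 1)] with s hs
  have h1 : m₀ ≤ s := (le_max_left _ _).trans ((le_max_left _ _).trans hs)
  have h2 : s₀ ≤ s := (le_max_right _ _).trans ((le_max_left _ _).trans hs)
  have h3 : 1 ≤ s := (le_max_right _ _).trans hs
  have h2R : (s₀ : ℝ) ≤ s := by exact_mod_cast h2
  exact key s h1 (hs₀.trans h2R) h3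

end Pool.Agent.Helper64.C3
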