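import Pool.Agent.Helper64.C3.Rt
import Pool.Agent.Helper64.C3.Circ
import Pool.Agent.Helper96.C3UB
import Pool.Agent.Helper80.C3UF

set_option autoImplicit false

open Metric Set Filter Topology Asymptotics

namespace Pool.Agent.Helper64.C3

/-! U-D: bounds of the coefficient functional applied to the kernels -/

section

variable {p Cg : ℝ} {h : ℂ → ℂ}

theorem mean_E (hp : 0 < p) (hL : Lv p Cg h) {χ : ℂ} (hχ : ‖χ‖ = 1) {r : ℝ} (hr0 : 0 < r)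
    (hr1 : r < 1) :
    Real.circleAverage (fun z => ‖h z / (p * (1 - χ * h z) ^ 2)‖) 0 r ≤ Cg * r / (1 - r) := by
  obtain ⟨h1, h2, h3, h4, h5⟩ := aux_E hp hL hχ
  exact mean_bound (g := fun z => h z / (p * (1 - χ * h z) ^ 2)) h1 h2 h3
    (by rw [h4]; exact one_ne_zero) h5 hr0 hr1

theorem mean_B (hp : 0 < p) (hL : Lv p Cg h) {t : ℝ} (ht0 : 0 ≤ t) (ht1 : t ≤ 1) {r : ℝ}
    (hr0 : 0 < r) (hr1 : r < 1) :
    Real.circleAverage (fun z => ‖h z / (p * Nn t (h z))‖) 0 r ≤ Cg * r / (1 - r) := by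
  obtain ⟨h1, h2, h3, h4, h5⟩ := aux_B hp hL ht0 ht1
  exact mean_bound (g := fun z => h z / (p * Nn t (h z))) h1 h2 h3
    (by rw [h4]; exact one_ne_zero) h5 hr0 hr1

theorem sphere_mem {r : ℝ} (hr1 : r < 1) {z : ℂ} (hz : z ∈ sphere (0 : ℂ) r) :
    z ∈ ball (0 : ℂ) 1 := by
  rw [mem_sphere_zero_iff_norm] at hz
  rw [mem_ball_zero_iff, hz]; exact hr1

theorem Lv.norm_lt (hL : Lv p Cg h) {z : ℂ} (hz : z ∈ ball (0 : ℂ) 1) : ‖h z‖ < 1 := by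
  simpa using hL.self.2.1 hz

theorem Lv.hM (hL : Lv p Cg h) (hp : 0 < p) {r : ℝ} (hr1 : r < 1) {z : ℂ}
    (hz : z ∈ sphere (0 : ℂ) r) :
    ‖h z‖ / (p * (1 - ‖h z‖) ^ 2) ≤ Cg * (r / (1 - r) ^ 2) := by
  have h1 := hL.grow z (sphere_mem hr1 hz)
  rw [mem_sphere_zero_iff_norm.1 hz] at h1
  have h2 : ‖h z‖ / (p * (1 - ‖h z‖) ^ 2) = (‖h z‖ / (1 - ‖h z‖) ^ 2) / p := by
    rw [div_div, mul_comm p]
  rw [h2, div_le_iff₀ hp]
  linarith

theorem cont_comp (hL : Lv p Cg h) {F : ℂ → ℂ} (hF : DifferentiableOn ℂ F (ball 0 1)) {r : ℝ}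
    (hr1 : r < 1) : ContinuousOn (fun z => F (h z)) (sphere 0 r) :=
  ((hF.comp hL.self.1 hL.self.2.1).continuousOn).mono (fun _ hz => sphere_mem hr1 hz)

theorem cont_A (hp : 0 < p) (hL : Lv p Cg h) {χ : ℂ} (hχ : ‖χ‖ = 1) {r : ℝ} (hr1 : r < 1) :
    ContinuousOn (fun z => ‖h z / (p * (1 - χ * h z) ^ 2)‖) (sphere 0 r) :=
  ((aux_E hp hL hχ).1.continuousOn.norm).mono (fun _ hz => sphere_mem hr1 hz)

theorem cont_B (hp : 0 < p) (hL : Lv p Cg h) {t : ℝ} (ht0 : 0 ≤ t) (ht1 : t ≤ 1) {r : ℝ}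
    (hr1 : r < 1) :
    ContinuousOn (fun z => ‖h z / (p * Nn t (h z))‖) (sphere 0 r) :=
  ((aux_B hp hL ht0 ht1).1.continuousOn.norm).mono (fun _ hz => sphere_mem hr1 hz)

/-- the common form of all bounds -/
theorem ell_three (hp : 0 < p) (hL : Lv p Cg h) {χ : ℂ} (hχ : ‖χ‖ = 1) {t : ℝ} (ht0 : 0 ≤ t)
    (ht1 : t ≤ 1) {r : ℝ} (hr0 : 0 < r) (hr1 : r < 1) {n : ℕ} {F : ℂ → ℂ}
    (hF : DifferentiableOn ℂ F (ball 0 1)) {κ : ℝ} (hκ : 0 ≤ κ)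
    (hb : ∀ z ∈ sphere (0 : ℂ) r, ‖F (h z)‖ ≤ κ * (‖h z / (p * (1 - (1 : ℂ) * h z) ^ 2)‖
      + ‖h z / (p * Nn t (h z))‖ + ‖h z / (p * (1 - χ * h z) ^ 2)‖)) :
    ‖ell n r (fun z => F (h z))‖ ≤ (r ^ n)⁻¹ * (κ * (3 * (Cg * r / (1 - r)))) := by
  have c1 := cont_A hp hL (χ := 1) (by simp) hr1
  have c2 := cont_B hp hL ht0 ht1 hr1
  have c3 := cont_A hp hL hχ hr1
  refine (norm_ell_le hr0 (cont_comp hL hF hr1) (G := fun z =>
    κ * (‖h z / (p * (1 - (1 : ℂ) * h z) ^ 2)‖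
      + ‖h z / (p * Nn t (h z))‖ + ‖h z / (p * (1 - χ * h z) ^ 2)‖)) ?_ hb).trans ?_
  · exact continuousOn_const.mul ((c1.add c2).add c3)
  · apply mul_le_mul_of_nonneg_left _ (by positivity)
    have h1 := Real.circleAverage_fun_smul (c := (0 : ℂ)) (R := r) (a := κ)
      (f := fun z => ‖h z / (p * (1 - (1 : ℂ) * h z) ^ 2)‖
      + ‖h z / (p * Nn t (h z))‖ + ‖h z / (p * (1 - χ * h z) ^ 2)‖)
    simp only [smul_eq_mul] at h1
    rw [h1]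
    apply mul_le_mul_of_nonneg_left _ hκ
    have c12 : ContinuousOn (fun z => ‖h z / (p * (1 - (1 : ℂ) * h z) ^ 2)‖
        + ‖h z / (p * Nn t (h z))‖) (sphere 0 r) := c1.add c2
    rw [Real.circleAverage_fun_add (c12.circleIntegrable hr0.le) (c3.circleIntegrable hr0.le),
      Real.circleAverage_fun_add (c1.circleIntegrable hr0.le) (c2.circleIntegrable hr0.le)]
    have h2 := mean_E hp hL (χ := 1) (by simp) hr0 hr1
    have h3 := mean_B hp hL ht0 ht1 hr0 hr1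
    have h4 := mean_E hp hL hχ hr0 hr1
    linarith

theorem Lv.M_pos (hL : Lv p Cg h) (hp : 0 < p) {r : ℝ} (hr0 : 0 < r) (hr1 : r < 1)
    (hCg : 0 < Cg) : 0 < Cg * (r / (1 - r) ^ 2) := by
  have : 0 < 1 - r := by linarith
  positivity

theorem ell_good (hp : 0 < p) (hL : Lv p Cg h) (hCg : 0 < Cg) {v : ℝ} (hv : 0 < v) (hvp : v ≤ p)
    {χ : ℂ} (hχ : ‖χ‖ = 1) (hre : χ.re ≤ 0) {r : ℝ} (hr0 : 0 < r) (hr1 : r < 1) {n : ℕ} {M : ℝ}
    (hM : Cg * (r / (1 - r) ^ 2) ≤ M) :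
    ‖ell n r (fun z => dphi v (koebe (h z) / p) * Phi p χ (h z))‖ ≤
      (r ^ n)⁻¹ * (8 * (M * (Real.sqrt (2 / (v + 1 / M)) * Real.sqrt (4 / (p + 1 / M))))
        * (3 * (Cg * r / (1 - r)))) := by
  have hM0 : 0 < M := lt_of_lt_of_le (hL.M_pos hp hr0 hr1 hCg) hM
  have ht0 : 0 ≤ v / p := by positivity
  have ht1 : v / p ≤ 1 := by rw [div_le_one hp]; exact hvp
  apply ell_three (F := fun w => dphi v (koebe w / p) * Phi p χ w) hp hL hχ ht0 ht1 hr0 hr1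
    ((dphi_diff hv hvp).mul (Phi_diff hp hχ)) (by positivity)
  intro z hz
  exact kernel_good hp hv hvp hχ hre (hL.norm_lt (sphere_mem hr1 hz)) hM0
    ((hL.hM hp hr1 hz).trans hM)

theorem ell_bad (hp : 0 < p) (hL : Lv p Cg h) (hCg : 0 < Cg) {v : ℝ} (hv : 0 < v) (hvp : v ≤ p)
    {χ : ℂ} (hχ : ‖χ‖ = 1) {r : ℝ} (hr0 : 0 < r) (hr1 : r < 1) {n : ℕ} {M : ℝ}
    (hM : Cg * (r / (1 - r) ^ 2) ≤ M) :
    ‖ell n r (fun z => dphi v (koebe (h z) / p) * Phi p χ (h z))‖ ≤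
      (r ^ n)⁻¹ * (8 * (M * (Real.sqrt (2 / (v + 1 / M)) * Real.sqrt M))
        * (3 * (Cg * r / (1 - r)))) := by
  have hM0 : 0 < M := lt_of_lt_of_le (hL.M_pos hp hr0 hr1 hCg) hM
  have ht0 : 0 ≤ v / p := by positivity
  have ht1 : v / p ≤ 1 := by rw [div_le_one hp]; exact hvp
  apply ell_three (F := fun w => dphi v (koebe w / p) * Phi p χ w) hp hL hχ ht0 ht1 hr0 hr1
    ((dphi_diff hv hvp).mul (Phi_diff hp hχ)) (by positivity)
  intro z hz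
  exact kernel_bad hp hv hvp hχ (hL.norm_lt (sphere_mem hr1 hz)) hM0
    ((hL.hM hp hr1 hz).trans hM)

theorem ell_Psi (hp : 0 < p) (hL : Lv p Cg h) (hCg : 0 < Cg)
    {χ : ℂ} (hχ : ‖χ‖ = 1) {r : ℝ} (hr0 : 0 < r) (hr1 : r < 1) {n : ℕ} {M : ℝ}
    (hM : Cg * (r / (1 - r) ^ 2) ≤ M) :
    ‖ell n r (fun z => Psi p χ (h z))‖ ≤ (r ^ n)⁻¹ * (M * (3 * (Cg * r / (1 - r)))) := by
  have hM0 : 0 < M := lt_of_lt_of_le (hL.M_pos hp hr0 hr1 hCg) hM
  have ht1 : p / p ≤ 1 := by rw [div_self hp.ne']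
  apply ell_three hp hL hχ (by positivity) ht1 hr0 hr1 (Psi_diff hp hχ) hM0.le
  intro z hz
  exact Psi_bound hp hχ (hL.norm_lt (sphere_mem hr1 hz)) ((hL.hM hp hr1 hz).trans hM)

end

theorem lv_id : Lv 1 1 (fun z => z) := by
  refine ⟨⟨differentiableOn_id, fun z hz => hz, rfl⟩, fun z _ w _ h => h, ?_, fun z _ => ?_⟩
  · have := deriv_id (0 : ℂ)
    simp
  · simp

theorem ell_phi_one {v : ℝ} (hv : 0 < v) (hv1 : v ≤ 1) {r : ℝ} (hr0 : 0 < r) (hr1 : r < 1)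
    {n : ℕ} {M : ℝ} (hM : r / (1 - r) ^ 2 ≤ M) :
    ‖ell n r (fun z => phi v (koebe z / ((1 : ℝ) : ℂ)))‖ ≤ (r ^ n)⁻¹ * (M * (3 * (1 * r / (1 - r)))) := by
  have hM0 : 0 < M := by
    have : 0 < 1 - r := by linarith
    exact lt_of_lt_of_le (by positivity) hM
  apply ell_three (p := 1) (Cg := 1) (h := fun z => z) (F := fun w => phi v (koebe w / ((1 : ℝ) : ℂ)))
    one_pos lv_id (χ := 1) (by simp)
    (t := v / 1) (by positivity) (by rwa [div_one]) hr0 hr1 (phi_diff hv hv1) hM0.le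
  intro z hz
  have hz1 : ‖z‖ < 1 := by simpa using sphere_mem hr1 hz
  have h1 := phi_bound hv hv1 hz1 (M := M) (by
    rw [mem_sphere_zero_iff_norm.1 hz]; exact hM)
  have h2 : koebe z / ((1 : ℝ) : ℂ) = koebe z := by simp
  rw [h2]
  refine h1.trans ?_
  apply mul_le_mul_of_nonneg_left _ hM0.le
  have : 0 ≤ ‖z / (((1 : ℝ) : ℂ) * (1 - (1 : ℂ) * z) ^ 2)‖ := norm_nonneg _
  linarith

/-- at the base level `p₀`, the functional of `phi` is real and bounded -/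
theorem ell_phi_base {v p₀ : ℝ} (hv : 0 < v) (hp₀ : 1 / 2 ≤ p₀) (hvp : v ≤ p₀)
    {r : ℝ} (hr0 : 0 < r) (hr1 : r < 1)
    {n : ℕ} {M : ℝ} (hM : r / (1 - r) ^ 2 ≤ M) :
    (ell n r (fun z => phi v (koebe z / p₀))).im = 0 ∧
    ‖ell n r (fun z => phi v (koebe z / p₀))‖ ≤ 4 * ((r ^ n)⁻¹ * (M * (3 * (1 * r / (1 - r))))) := by
  have hp0 : 0 < p₀ := by linarith
  have hpC : (p₀ : ℂ) ≠ 0 := by exact_mod_cast hp0.ne'
  have hM0 : 0 < M := by
    have : 0 < 1 - r := by linarith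
    exact lt_of_lt_of_le (by positivity) hM
  have hr1' : 0 < 1 - r := by linarith
  constructor
  · apply ell_real hr0
    · exact ((phi_diff hv hvp).continuousOn).mono (fun _ hz => sphere_mem hr1 hz)
    · intro z hz
      have hz1 : ‖z‖ < 1 := by simpa using sphere_mem hr1 hz
      exact phi_conj hv hvp hz1
  · have h1 : ∀ z : ℂ, phi v (koebe z / p₀)
        = (1 / (p₀ : ℂ) ^ 2) * phi (v / p₀) (koebe z / ((1 : ℝ) : ℂ)) := by
      intro z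
      unfold phi rt
      have e : (1 : ℂ) + 4 * ((v / p₀ : ℝ) : ℂ) * (koebe z / ((1 : ℝ) : ℂ))
          = 1 + 4 * v * (koebe z / p₀) := by push_cast; field_simp
      rw [e]
      push_cast
      rw [div_one, div_pow, one_div]
      ring
    simp_rw [h1]
    rw [ell_const_mul, norm_mul]
    have h2 := ell_phi_one (v := v / p₀) (by positivity) (by rw [div_le_one hp0]; exact hvp)
      hr0 hr1 (n := n) hM
    have h3 : ‖1 / (p₀ : ℂ) ^ 2‖ ≤ 4 := by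
      rw [norm_div, norm_pow, Complex.norm_real, Real.norm_of_nonneg hp0.le, norm_one,
        div_le_iff₀ (by positivity)]
      nlinarith
    exact mul_le_mul h3 h2 (norm_nonneg _) (by norm_num)

/-- refined bound of `phi` at level one -/
theorem phi_bound' {v : ℝ} (hv : 0 < v) (hv1 : v ≤ 1) {w : ℂ} (hw : ‖w‖ < 1) {M : ℝ}
    (hM0 : 0 < M) (hM : ‖w‖ / (1 - ‖w‖) ^ 2 ≤ M) :
    ‖phi v (koebe w)‖ ≤ (2 * (Real.sqrt M * Real.sqrt (2 / (v + 1 / M)))) *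
      (‖w / ((1 : ℝ) * (1 - (1 : ℂ) * w) ^ 2)‖ + ‖w / ((1 : ℝ) * Nn (v / 1) w)‖) := by
  obtain ⟨a, b, e, h⟩ := exists_Q (p := 1) one_pos hv hv1 (χ := 1) (by simp) hw (M := M)
    (by rwa [one_mul])
  have e1 : ‖w / (((1 : ℝ) : ℂ) * (1 - (1 : ℂ) * w) ^ 2)‖ = a ^ 2 := by
    rw [h.a2, norm_div, norm_mul, norm_pow, Complex.norm_real, Real.norm_of_nonneg one_pos.le,
      one_mul (w : ℂ)]
  have e2 : ‖w / (((1 : ℝ) : ℂ) * Nn (v / 1) w)‖ = b ^ 2 := by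
    rw [h.b2, norm_div, norm_mul, Complex.norm_real, Real.norm_of_nonneg one_pos.le]
  rw [e1, e2]
  have h1 := h.phi_le
  have h2 : koebe w / ((1 : ℝ) : ℂ) = koebe w := by simp
  rw [h2] at h1
  have ha : a ≤ Real.sqrt M := by
    rw [← Real.sqrt_sq h.ha]
    exact Real.sqrt_le_sqrt h.aM
  set W := Real.sqrt (2 / (v + 1 / M)) with hW
  have hW0 : 0 ≤ W := Real.sqrt_nonneg _
  set sM := Real.sqrt M with hsM
  have hsM0 : 0 ≤ sM := Real.sqrt_nonneg _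
  have ha0 := h.ha
  have hb0 := h.hb
  refine h1.trans ?_
  rcases alt_one one_pos hv hv1 hw hM0 h with h3 | h3
  · have h4 : a * a ≤ sM * W := mul_le_mul ha h3 ha0 hsM0
    have h5 : 2 * (a * b) ≤ a ^ 2 + b ^ 2 := by nlinarith [sq_nonneg (a - b)]
    calc 2 * (a ^ 3 * b) = (a * a) * (2 * (a * b)) := by ring
      _ ≤ (sM * W) * (a ^ 2 + b ^ 2) := mul_le_mul h4 h5 (by positivity) (by positivity)
      _ ≤ 2 * (sM * W) * (a ^ 2 + b ^ 2) := by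
          have : 0 ≤ (sM * W) * (a ^ 2 + b ^ 2) := by positivity
          linarith
  · have h4 : a * b ≤ sM * W := mul_le_mul ha h3 hb0 hsM0
    calc 2 * (a ^ 3 * b) = 2 * (a * b) * a ^ 2 := by ring
      _ ≤ 2 * (sM * W) * (a ^ 2 + b ^ 2) := by
          apply mul_le_mul (by linarith) (by nlinarith [sq_nonneg b]) (sq_nonneg a) (by positivity)

theorem ell_phi_one' {v : ℝ} (hv : 0 < v) (hv1 : v ≤ 1) {r : ℝ} (hr0 : 0 < r) (hr1 : r < 1)
    {n : ℕ} {M : ℝ} (hM : r / (1 - r) ^ 2 ≤ M) :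
    ‖ell n r (fun z => phi v (koebe z / ((1 : ℝ) : ℂ)))‖
      ≤ (r ^ n)⁻¹ * ((2 * (Real.sqrt M * Real.sqrt (2 / (v + 1 / M)))) * (3 * (1 * r / (1 - r)))) := by
  have hM0 : 0 < M := by
    have : 0 < 1 - r := by linarith
    exact lt_of_lt_of_le (by positivity) hM
  apply ell_three (p := 1) (Cg := 1) (h := fun z => z) (F := fun w => phi v (koebe w / ((1 : ℝ) : ℂ)))
    one_pos lv_id (χ := 1) (by simp)
    (t := v / 1) (by positivity) (by rwa [div_one]) hr0 hr1 (phi_diff hv hv1) (by positivity)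
  intro z hz
  have hz1 : ‖z‖ < 1 := by simpa using sphere_mem hr1 hz
  have h1 := phi_bound' hv hv1 hz1 hM0 (M := M) (by
    rw [mem_sphere_zero_iff_norm.1 hz]; exact hM)
  have h2 : koebe z / ((1 : ℝ) : ℂ) = koebe z := by simp
  rw [h2]
  refine h1.trans ?_
  apply mul_le_mul_of_nonneg_left _ (by positivity)
  have : 0 ≤ ‖z / (((1 : ℝ) : ℂ) * (1 - (1 : ℂ) * z) ^ 2)‖ := norm_nonneg _
  linarith

theorem ell_phi_base' {v p₀ : ℝ} (hv : 0 < v) (hp₀ : 1 / 2 ≤ p₀) (hp₀1 : p₀ ≤ 1) (hvp : v ≤ p₀)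
    {r : ℝ} (hr0 : 0 < r) (hr1 : r < 1)
    {n : ℕ} {M : ℝ} (hM : r / (1 - r) ^ 2 ≤ M) :
    ‖ell n r (fun z => phi v (koebe z / p₀))‖
      ≤ ((r ^ n)⁻¹ * (8 * (Real.sqrt M * (3 * (1 * r / (1 - r))))))
        * Real.sqrt (2 / (v + 1 / M)) := by
  have hp0 : 0 < p₀ := by linarith
  have hpC : (p₀ : ℂ) ≠ 0 := by exact_mod_cast hp0.ne'
  have hM0 : 0 < M := by
    have : 0 < 1 - r := by linarith
    exact lt_of_lt_of_le (by positivity) hM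
  have hr1' : 0 < 1 - r := by linarith
  have h1 : ∀ z : ℂ, phi v (koebe z / p₀)
      = (1 / (p₀ : ℂ) ^ 2) * phi (v / p₀) (koebe z / ((1 : ℝ) : ℂ)) := by
    intro z
    unfold phi rt
    have e : (1 : ℂ) + 4 * ((v / p₀ : ℝ) : ℂ) * (koebe z / ((1 : ℝ) : ℂ))
        = 1 + 4 * v * (koebe z / p₀) := by push_cast; field_simp
    rw [e]
    push_cast
    rw [div_one, div_pow, one_div]
    ring
  simp_rw [h1]
  rw [ell_const_mul, norm_mul]
  have h2 := ell_phi_one' (v := v / p₀) (by positivity) (by rw [div_le_one hp0]; exact hvp)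
    hr0 hr1 (n := n) hM
  have h3 : ‖1 / (p₀ : ℂ) ^ 2‖ ≤ 4 := by
    rw [norm_div, norm_pow, Complex.norm_real, Real.norm_of_nonneg hp0.le, norm_one,
      div_le_iff₀ (by positivity)]
    nlinarith
  have h4 : Real.sqrt (2 / (v / p₀ + 1 / M)) ≤ Real.sqrt (2 / (v + 1 / M)) := by
    apply Real.sqrt_le_sqrt
    apply div_le_div_of_nonneg_left (by norm_num) (by positivity)
    have : v ≤ v / p₀ := by
      rw [le_div_iff₀ hp0]; nlinarith
    linarith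
  refine (mul_le_mul h3 h2 (norm_nonneg _) (by norm_num)).trans ?_
  have h5 : (r ^ n)⁻¹ * ((2 * (Real.sqrt M * Real.sqrt (2 / (v / p₀ + 1 / M))))
      * (3 * (1 * r / (1 - r)))) ≤ (r ^ n)⁻¹ * ((2 * (Real.sqrt M * Real.sqrt (2 / (v + 1 / M))))
      * (3 * (1 * r / (1 - r)))) := by
    apply mul_le_mul_of_nonneg_left _ (by positivity)
    apply mul_le_mul_of_nonneg_right _ (by positivity)
    apply mul_le_mul_of_nonneg_left _ (by norm_num)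
    exact mul_le_mul_of_nonneg_left h4 (Real.sqrt_nonneg _)
  calc 4 * ((r ^ n)⁻¹ * ((2 * (Real.sqrt M * Real.sqrt (2 / (v / p₀ + 1 / M))))
      * (3 * (1 * r / (1 - r)))))
      ≤ 4 * ((r ^ n)⁻¹ * ((2 * (Real.sqrt M * Real.sqrt (2 / (v + 1 / M))))
      * (3 * (1 * r / (1 - r))))) := mul_le_mul_of_nonneg_left h5 (by norm_num)
    _ = _ := by ring

end Pool.Agent.Helper64.C3
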