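import Pool.Agent.Helper64.C3.PickStep
import Pool.Agent.Helper64.C3.AbsL

set_option autoImplicit false

open Metric Set Filter Topology Asymptotics

namespace Pool.Agent.Helper64.C3

/-! Theorem L: chains of rotated slit maps -/

/-- the chain -/
noncomputable def HH (q : ℝ) (χ : ℕ → ℂ) : ℕ → ℂ → ℂ
  | 0 => fun z => z
  | i + 1 => fun z => pk q (χ i) (HH q χ i z)

theorem HH_spec {q : ℝ} (hq0 : 0 < q) (hq1 : q < 1) {χ : ℕ → ℂ} (hχ : ∀ i, ‖χ i‖ = 1) (i : ℕ) :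
    SelfMap (HH q χ i) ∧ InjOn (HH q χ i) (ball 0 1) ∧ deriv (HH q χ i) 0 = ((q ^ i : ℝ) : ℂ) := by
  induction i with
  | zero =>
    refine ⟨⟨differentiableOn_id, fun z hz => hz, rfl⟩, fun z _ w _ h => h, ?_⟩
    show deriv (fun z : ℂ => z) 0 = _
    simp
  | succ i ih =>
    obtain ⟨h1, h2, h3⟩ := ih
    have hp := pk_self hq0 hq1 (hχ i)
    have h4 : SelfMap (HH q χ (i + 1)) :=
      ⟨hp.1.comp h1.1 h1.2.1, fun z hz => hp.2.1 (h1.2.1 hz), by
        show pk q (χ i) (HH q χ i 0) = 0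
        rw [h1.2.2, hp.2.2]⟩
    refine ⟨h4, ?_, ?_⟩
    · intro z hz w hw h
      exact h2 hz hw (pk_inj hq0 hq1 (hχ i) (h1.2.1 hz) (h1.2.1 hw) h)
    · have j1 := jet_of_diff h1.1 h1.2.2
      have j2 := jet_comp (jet_pk hq0 hq1 (hχ i)) j1
      have j3 := jet_of_diff h4.1 h4.2.2
      obtain ⟨e1, _, _⟩ := jet_unique j3 j2
      rw [e1, h3]
      push_cast
      ring

theorem HH_coeff2 {q : ℝ} (hq0 : 0 < q) (hq1 : q < 1) {χ : ℕ → ℂ} (hχ : ∀ i, ‖χ i‖ = 1) (i : ℕ) :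
    coeff 2 (fun z => koebe (HH q χ i z) / ((q ^ i : ℝ) : ℂ))
      - coeff 2 (fun z => koebe (HH q χ (i + 1) z) / ((q ^ (i + 1) : ℝ) : ℂ))
      = 2 * (1 + χ i) * ((1 - q) * q ^ i) := by
  obtain ⟨h1, _, h3⟩ := HH_spec hq0 hq1 hχ i
  obtain ⟨h1', _, h3'⟩ := HH_spec hq0 hq1 hχ (i + 1)
  have hqi : 0 < q ^ i := by positivity
  have hqi' : 0 < q ^ (i + 1) := by positivity
  rw [jet_level h1 hqi h3, jet_level h1' hqi' h3']
  have j1 := jet_of_diff h1.1 h1.2.2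
  have j2 := jet_comp (jet_pk hq0 hq1 (hχ i)) j1
  have j3 := jet_of_diff h1'.1 h1'.2.2
  obtain ⟨_, e2, _⟩ := jet_unique j3 j2
  rw [e2, h3]
  have hqC : (q : ℂ) ≠ 0 := by exact_mod_cast hq0.ne'
  push_cast
  field_simp
  ring

/-- the final function of the chain is in the class `S` -/
theorem HH_class {q : ℝ} (hq0 : 0 < q) (hq1 : q < 1) {χ : ℕ → ℂ} (hχ : ∀ i, ‖χ i‖ = 1) (m : ℕ) :
    ClassS (fun z => koebe (HH q χ m z) / ((q ^ m : ℝ) : ℂ)) := by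
  obtain ⟨h1, h2, h3⟩ := HH_spec hq0 hq1 hχ m
  have hqm : 0 < q ^ m := by positivity
  have hqC : ((q ^ m : ℝ) : ℂ) ≠ 0 := by exact_mod_cast hqm.ne'
  have h0 : (0 : ℂ) ∈ ball (0 : ℂ) 1 := by simp
  have hd : DifferentiableOn ℂ (fun z => koebe (HH q χ m z) / ((q ^ m : ℝ) : ℂ)) (ball 0 1) :=
    (M6.koebe_diff.comp h1.1 h1.2.1).div_const _
  refine ⟨hd, ?_, ?_, ?_⟩
  · intro z hz w hw h
    have h5 : koebe (HH q χ m z) = koebe (HH q χ m w) := (div_left_inj' hqC).1 h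
    exact h2 hz hw (M6.koebe_inj (h1.2.1 hz) (h1.2.1 hw) h5)
  · show koebe (HH q χ m 0) / _ = 0
    rw [h1.2.2]; simp [koebe]
  · have j1 := jet_of_diff h1.1 h1.2.2
    have j2 := jet_comp M6.jet_koebe j1
    have j3 := jet_comp (M6.jet_smul (((q ^ m : ℝ) : ℂ)⁻¹)) j2
    have j4 := jet_of_diff hd (by
      show koebe (HH q χ m 0) / _ = 0
      rw [h1.2.2]; simp [koebe])
    have e : (fun z => koebe (HH q χ m z) / ((q ^ m : ℝ) : ℂ))
        = (fun z : ℂ => (((q ^ m : ℝ) : ℂ)⁻¹) * z) ∘ (koebe ∘ HH q χ m) := by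
      ext z
      simp only [Function.comp_apply]
      rw [div_eq_mul_inv, mul_comm]
    rw [← e] at j3
    obtain ⟨e1, _, _⟩ := jet_unique j4 j3
    rw [e1, h3]
    field_simp

/-! the unperturbed chain -/

theorem sq'_eq_rt (p : ℝ) {z : ℂ} (hz : ‖z‖ < 1) : M6.sq' p z = rt p (koebe z / ((1 : ℝ) : ℂ)) := by
  unfold M6.sq' rt
  rw [one_add_inner one_pos hz, div_one]

theorem pick_one {z : ℂ} (hz : ‖z‖ < 1) : M6.pick 1 z = z := by
  have h1 : (1 : ℂ) - z ≠ 0 := M6.one_sub_ne (by simpa using hz)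
  unfold M6.pick
  rw [sq'_eq_rt 1 hz, rt_top one_pos hz]
  have h2 : (1 + z) / (1 - z) + 1 = 2 / (1 - z) := by field_simp; ring
  have h3 : (1 + z) / (1 - z) - 1 = 2 * z / (1 - z) := by field_simp; ring
  rw [h2, h3]
  field_simp

theorem pick_facts {p : ℝ} (hp0 : 0 < p) (hp1 : p ≤ 1) {z : ℂ} (hz : ‖z‖ < 1) :
    koebe (M6.pick p z) = p * koebe z ∧ ‖M6.pick p z‖ ≤ ‖z‖ := by
  have hzb : z ∈ ball (0 : ℂ) 1 := by simpa using hz
  rcases hp1.eq_or_lt with h | h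
  · rw [h, pick_one hz]
    simp
  · refine ⟨M6.pick_koebe hp0 h hzb, ?_⟩
    have hs : SelfMap (M6.pick p) :=
      ⟨M6.pick_diff hp0 h, fun _ hz => M6.pick_mem hp0 h hz, M6.pick_zero p⟩
    exact schwarz_norm hs hzb

/-! Lipschitz bounds for the kernels -/

theorem M_bound {pm p ρ : ℝ} {x : ℂ} (hpm : 0 < pm) (hp : pm ≤ p) (hρ : ρ < 1) (hx : ‖x‖ ≤ ρ) :
    ‖x‖ / (p * (1 - ‖x‖) ^ 2) ≤ 1 / (pm * (1 - ρ) ^ 2) := by
  have h3 : 0 < 1 - ρ := by linarith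
  have hp0 : 0 < p := by linarith
  apply div_le_div₀ zero_le_one (by linarith) (by positivity)
  apply mul_le_mul hp _ (by positivity) hp0.le
  apply pow_le_pow_left₀ h3.le
  linarith

theorem kernel_lip {r pm : ℝ} (hr0 : 0 < r) (hr1 : r < 1) (hpm : 0 < pm) :
    ∃ L : ℝ, 0 < L ∧ ∀ p v : ℝ, pm ≤ p → 0 < v → v ≤ p → ∀ χ χ' : ℂ, ‖χ‖ = 1 → ‖χ'‖ = 1 →
      ∀ w w' : ℂ, ‖w‖ ≤ r → ‖w'‖ ≤ r →
      ‖Phi p χ w‖ ≤ L ∧ ‖Psi p χ w‖ ≤ L ∧ ‖phi v (koebe w / p)‖ ≤ L ∧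
      ‖dphi v (koebe w / p) * Phi p χ w - dphi v (koebe w' / p) * Phi p χ' w'‖
        ≤ L * (‖w - w'‖ + ‖χ - χ'‖) ∧
      ‖Psi p χ w - Psi p χ' w'‖ ≤ L * (‖w - w'‖ + ‖χ - χ'‖) := by
  have h1 : r < (1 + r) / 2 := by linarith
  have h2 : (1 + r) / 2 < 1 := by linarith
  have h3 : 0 < 1 - (1 + r) / 2 := by linarith
  have h4 : 0 < (1 + r) / 2 - r := by linarith
  have h1r : 0 < 1 - r := by linarith
  set ρ := (1 + r) / 2 with hρ
  set M := 1 / (pm * (1 - ρ) ^ 2) with hM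
  have hM0 : 0 < M := by positivity
  set L := 2 * M ^ 2 + 3 * M ^ 2 + 8 * M ^ 3 / (ρ - r) + 3 * M ^ 2 / (ρ - r) + 8 * M ^ 3 / (1 - r)
    + 3 * M ^ 2 / (1 - r) with hL
  have hL0 : 0 < L := by positivity
  have n1 : 0 ≤ 2 * M ^ 2 := by positivity
  have n2 : 0 ≤ 3 * M ^ 2 := by positivity
  have n3 : 0 ≤ 8 * M ^ 3 / (ρ - r) := by positivity
  have n4 : 0 ≤ 3 * M ^ 2 / (ρ - r) := by positivity
  have n5 : 0 ≤ 8 * M ^ 3 / (1 - r) := by positivity
  have n6 : 0 ≤ 3 * M ^ 2 / (1 - r) := by positivity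
  refine ⟨L, hL0, ?_⟩
  intro p v hp hv hvp χ χ' hχ hχ' w w' hw hw'
  have hp0 : 0 < p := by linarith
  -- bounds on the larger disc
  have key : ∀ χ : ℂ, ‖χ‖ = 1 → ∀ x : ℂ, ‖x‖ ≤ ρ → ‖Phi p χ x‖ ≤ 2 * M ^ 2 ∧
      ‖phi v (koebe x / p)‖ ≤ 2 * M ^ 2 ∧ ‖Psi p χ x‖ ≤ 3 * M ^ 2 ∧
      ‖dphi v (koebe x / p) * Phi p χ x‖ ≤ 8 * M ^ 3 := by
    intro χ hχ x hx
    have hx1 : ‖x‖ < 1 := by linarith
    have hMx := M_bound hpm hp h2 hx
    obtain ⟨a, b, e, h⟩ := exists_Q hp0 hv hvp hχ hx1 (M := M) hMx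
    have ha := h.ha
    have hb := h.hb
    have he := h.he
    have aM := h.aM
    have bM := h.bM
    have eM := h.eM
    have sab : a * b ≤ M := by nlinarith [sq_nonneg (a - b)]
    have sae : a * e ≤ M := by nlinarith [sq_nonneg (a - e)]
    have sbe : b * e ≤ M := by nlinarith [sq_nonneg (b - e)]
    refine ⟨?_, ?_, ?_, ?_⟩
    · refine h.Phi_le.trans ?_
      have : a ^ 3 * e = a ^ 2 * (a * e) := by ring
      rw [this]
      have := mul_le_mul aM sae (by positivity) hM0.le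
      nlinarith
    · refine h.phi_le.trans ?_
      have : a ^ 3 * b = a ^ 2 * (a * b) := by ring
      rw [this]
      have := mul_le_mul aM sab (by positivity) hM0.le
      nlinarith
    · refine (Psi_bound hp0 hχ hx1 hMx).trans ?_
      obtain ⟨a', b', e', h'⟩ := exists_Q hp0 hp0 le_rfl hχ hx1 (M := M) hMx
      have e1 : ‖x / (p * (1 - (1 : ℂ) * x) ^ 2)‖ = a' ^ 2 := by
        rw [h'.a2, norm_div, norm_mul, norm_pow, Complex.norm_real, Real.norm_of_nonneg hp0.le, one_mul]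
      have e2 : ‖x / (p * Nn (p / p) x)‖ = b' ^ 2 := by
        rw [h'.b2, norm_div, norm_mul, Complex.norm_real, Real.norm_of_nonneg hp0.le]
      have e3 : ‖x / (p * (1 - χ * x) ^ 2)‖ = e' ^ 2 := by
        rw [h'.e2, norm_div, norm_mul, norm_pow, Complex.norm_real, Real.norm_of_nonneg hp0.le]
      rw [e1, e2, e3]
      have := h'.aM
      have := h'.bM
      have := h'.eM
      calc M * (a' ^ 2 + b' ^ 2 + e' ^ 2) ≤ M * (M + M + M) :=
            mul_le_mul_of_nonneg_left (by linarith) hM0.le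
        _ = 3 * M ^ 2 := by ring
    · refine h.prod_le.trans ?_
      have e1 : a ^ 4 * b * e = a ^ 2 * a ^ 2 * (b * e) := by ring
      have e2 : a ^ 2 * b ^ 3 * e = a ^ 2 * b ^ 2 * (b * e) := by ring
      rw [e1, e2]
      have c1 : a ^ 2 * a ^ 2 * (b * e) ≤ M * M * M :=
        mul_le_mul (mul_le_mul aM aM (by positivity) hM0.le) sbe (by positivity) (by positivity)
      have c2 : a ^ 2 * b ^ 2 * (b * e) ≤ M * M * M :=
        mul_le_mul (mul_le_mul aM bM (by positivity) hM0.le) sbe (by positivity) (by positivity)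
      nlinarith
  obtain ⟨k1, k2, k3, k4⟩ := key χ hχ w (hw.trans h1.le)
  have hχw : ‖χ - χ'‖ * ‖w'‖ ≤ ‖χ - χ'‖ := by
    have : ‖w'‖ ≤ 1 := by linarith
    exact mul_le_of_le_one_right (norm_nonneg _) this
  have hden : ∀ χ : ℂ, ‖χ‖ = 1 → 1 - r ≤ ‖1 - χ * w'‖ := by
    intro χ hχ
    exact UF.one_sub_lower (by rw [norm_mul, hχ, one_mul]; exact hw')
  have hden0 : ∀ χ : ℂ, ‖χ‖ = 1 → 1 - χ * w' ≠ 0 := by
    intro χ hχ h
    have := hden χ hχ
    rw [h, norm_zero] at this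
    linarith
  have hd1 := hden0 χ hχ
  have hd2 := hden0 χ' hχ'
  have hquot : (1 - χ * w') / (1 - χ' * w') = 1 - (χ - χ') * w' / (1 - χ' * w') := by
    rw [eq_sub_iff_add_eq, ← add_div, div_eq_one_iff_eq hd2]; ring
  refine ⟨by linarith, by linarith, by linarith, ?_, ?_⟩
  · have b1 : ‖dphi v (koebe w / p) * Phi p χ w - dphi v (koebe w' / p) * Phi p χ w'‖
        ≤ 8 * M ^ 3 / (ρ - r) * ‖w - w'‖ :=
      lip_of_bound (F := fun w => dphi v (koebe w / p) * Phi p χ w)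
        ((dphi_diff hv hvp).mul (Phi_diff hp0 hχ)) h1 h2 (fun x hx => (key χ hχ x hx).2.2.2) hw hw'
    have b2 : ‖dphi v (koebe w' / p) * Phi p χ w' - dphi v (koebe w' / p) * Phi p χ' w'‖
        ≤ 8 * M ^ 3 / (1 - r) * ‖χ - χ'‖ := by
      have e : dphi v (koebe w' / p) * Phi p χ w' - dphi v (koebe w' / p) * Phi p χ' w'
          = (dphi v (koebe w' / p) * Phi p χ w') * ((χ - χ') * w' / (1 - χ' * w')) := by
        have e1 : Phi p χ' w' = Phi p χ w' * ((1 - χ * w') / (1 - χ' * w')) := by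
          unfold Phi
          rw [div_mul_div_comm, div_eq_div_iff]
          · ring
          · have hpC : (p : ℂ) ≠ 0 := by exact_mod_cast hp0.ne'
            have := M6.one_sub_ne (z := w') (by rw [mem_ball_zero_iff]; linarith)
            exact mul_ne_zero (mul_ne_zero (pow_ne_zero _ hpC) (pow_ne_zero _ this)) hd2
          · have hpC : (p : ℂ) ≠ 0 := by exact_mod_cast hp0.ne'
            have := M6.one_sub_ne (z := w') (by rw [mem_ball_zero_iff]; linarith)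
            exact mul_ne_zero (mul_ne_zero (mul_ne_zero (pow_ne_zero _ hpC) (pow_ne_zero _ this)) hd1)
              hd2
        rw [e1, hquot]
        ring
      rw [e, norm_mul, norm_div, norm_mul (χ - χ') w']
      have c1 := (key χ hχ w' (hw'.trans h1.le)).2.2.2
      have c2 : ‖χ - χ'‖ * ‖w'‖ / ‖1 - χ' * w'‖ ≤ ‖χ - χ'‖ / (1 - r) :=
        div_le_div₀ (norm_nonneg _) hχw h1r (hden χ' hχ')
      calc ‖dphi v (koebe w' / p) * Phi p χ w'‖ * (‖χ - χ'‖ * ‖w'‖ / ‖1 - χ' * w'‖)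
          ≤ (8 * M ^ 3) * (‖χ - χ'‖ / (1 - r)) := mul_le_mul c1 c2 (by positivity) (by positivity)
        _ = 8 * M ^ 3 / (1 - r) * ‖χ - χ'‖ := by ring
    have e : dphi v (koebe w / p) * Phi p χ w - dphi v (koebe w' / p) * Phi p χ' w'
        = (dphi v (koebe w / p) * Phi p χ w - dphi v (koebe w' / p) * Phi p χ w')
          + (dphi v (koebe w' / p) * Phi p χ w' - dphi v (koebe w' / p) * Phi p χ' w') := by ring
    rw [e]
    refine (norm_add_le _ _).trans ((add_le_add b1 b2).trans ?_)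
    have c3 : 8 * M ^ 3 / (ρ - r) * ‖w - w'‖ ≤ L * ‖w - w'‖ :=
      mul_le_mul_of_nonneg_right (by linarith) (norm_nonneg _)
    have c4 : 8 * M ^ 3 / (1 - r) * ‖χ - χ'‖ ≤ L * ‖χ - χ'‖ :=
      mul_le_mul_of_nonneg_right (by linarith) (norm_nonneg _)
    linarith
  · have b1 : ‖Psi p χ w - Psi p χ w'‖ ≤ 3 * M ^ 2 / (ρ - r) * ‖w - w'‖ :=
      lip_of_bound (Psi_diff hp0 hχ) h1 h2 (fun x hx => (key χ hχ x hx).2.2.1) hw hw'
    have b2 : ‖Psi p χ w' - Psi p χ' w'‖ ≤ 3 * M ^ 2 / (1 - r) * ‖χ - χ'‖ := by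
      have hw1 := M6.one_sub_ne (z := w') (by rw [mem_ball_zero_iff]; linarith)
      have hw2 : (1 : ℂ) + w' ≠ 0 := by
        have := M6.one_sub_ne (z := -w') (by rw [mem_ball_zero_iff, norm_neg]; linarith)
        simpa using this
      have hpC : (p : ℂ) ≠ 0 := by exact_mod_cast hp0.ne'
      have e : Psi p χ w' - Psi p χ' w'
          = (Psi p χ w') * ((χ - χ') * w' / (1 - χ' * w')) := by
        have e1 : Psi p χ' w' = Psi p χ w' * ((1 - χ * w') / (1 - χ' * w')) := by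
          unfold Psi
          rw [div_mul_div_comm, div_eq_div_iff]
          · ring
          · exact mul_ne_zero (mul_ne_zero (mul_ne_zero (pow_ne_zero _ hpC) (pow_ne_zero _ hw1)) hw2)
              hd2
          · exact mul_ne_zero (mul_ne_zero (mul_ne_zero (mul_ne_zero (pow_ne_zero _ hpC)
              (pow_ne_zero _ hw1)) hw2) hd1) hd2
        rw [e1, hquot]
        ring
      rw [e, norm_mul, norm_div, norm_mul (χ - χ') w']
      have c1 := (key χ hχ w' (hw'.trans h1.le)).2.2.1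
      have c2 : ‖χ - χ'‖ * ‖w'‖ / ‖1 - χ' * w'‖ ≤ ‖χ - χ'‖ / (1 - r) :=
        div_le_div₀ (norm_nonneg _) hχw h1r (hden χ' hχ')
      calc ‖Psi p χ w'‖ * (‖χ - χ'‖ * ‖w'‖ / ‖1 - χ' * w'‖)
          ≤ (3 * M ^ 2) * (‖χ - χ'‖ / (1 - r)) := mul_le_mul c1 c2 (by positivity) (by positivity)
        _ = 3 * M ^ 2 / (1 - r) * ‖χ - χ'‖ := by ring
    have e : Psi p χ w - Psi p χ' w' = (Psi p χ w - Psi p χ w') + (Psi p χ w' - Psi p χ' w') := by
      ring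
    rw [e]
    refine (norm_add_le _ _).trans ((add_le_add b1 b2).trans ?_)
    have c3 : 3 * M ^ 2 / (ρ - r) * ‖w - w'‖ ≤ L * ‖w - w'‖ :=
      mul_le_mul_of_nonneg_right (by linarith) (norm_nonneg _)
    have c4 : 3 * M ^ 2 / (1 - r) * ‖χ - χ'‖ ≤ L * ‖χ - χ'‖ :=
      mul_le_mul_of_nonneg_right (by linarith) (norm_nonneg _)
    linarith

end Pool.Agent.Helper64.C3
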