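import Pool.Agent.Helper64.C3.Q2

set_option autoImplicit false

open Metric Set Filter Topology Asymptotics

namespace Pool.Agent.Helper64.C3

/-! Theorem L: univalent steps (rotated slit maps) -/

/-- rotated slit map -/
noncomputable def pk (q : ℝ) (χ : ℂ) : ℂ → ℂ := M6.rotf (-χ) (M6.pick q)

section

variable {q : ℝ} {χ : ℂ}

theorem neg_norm (hχ : ‖χ‖ = 1) : ‖-χ‖ = 1 := by rw [norm_neg, hχ]

theorem pk_self (hq0 : 0 < q) (hq1 : q < 1) (hχ : ‖χ‖ = 1) : SelfMap (pk q χ) :=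
  ⟨M6.rotf_diff (neg_norm hχ) (M6.pick_diff hq0 hq1),
    M6.rotf_mem (neg_norm hχ) (fun _ hz => M6.pick_mem hq0 hq1 hz),
    M6.rotf_zero _ (M6.pick_zero q)⟩

theorem pk_inj (hq0 : 0 < q) (hq1 : q < 1) (hχ : ‖χ‖ = 1) : InjOn (pk q χ) (ball 0 1) :=
  M6.rotf_inj (neg_norm hχ) (M6.pick_inj hq0 hq1)

theorem jet_pk (hq0 : 0 < q) (hq1 : q < 1) (hχ : ‖χ‖ = 1) :
    Jet (pk q χ) q (-χ * (2 * q * (1 - q))) ((-χ) ^ 2 * (q * (1 - q) * (3 - 5 * q))) :=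
  M6.rotf_jet (neg_norm hχ) (M6.jet_pick hq0 hq1)

theorem koebe_sub {a b : ℂ} {r : ℝ} (hr1 : r < 1) (ha : ‖a‖ ≤ r) (hb : ‖b‖ ≤ r) :
    ‖a - b‖ ≤ 16 / (1 - r) * ‖koebe a - koebe b‖ := by
  have h1r : 0 < 1 - r := by linarith
  have hr0 : 0 ≤ r := (norm_nonneg a).trans ha
  have ha1 : (1 : ℂ) - a ≠ 0 := M6.one_sub_ne (by rw [mem_ball_zero_iff]; linarith)
  have hb1 : (1 : ℂ) - b ≠ 0 := M6.one_sub_ne (by rw [mem_ball_zero_iff]; linarith)
  have hab : 1 - r ≤ ‖1 - a * b‖ := by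
    have h := norm_sub_norm_le (1 : ℂ) (a * b)
    rw [norm_one, norm_mul] at h
    nlinarith [norm_nonneg a, norm_nonneg b]
  have hab0 : (1 : ℂ) - a * b ≠ 0 := by
    intro h; rw [h, norm_zero] at hab; linarith
  have e : a - b = (koebe a - koebe b) * ((1 - a) ^ 2 * (1 - b) ^ 2 / (1 - a * b)) := by
    have e1 : koebe a - koebe b = (a - b) * (1 - a * b) / ((1 - a) ^ 2 * (1 - b) ^ 2) := by
      unfold koebe
      rw [div_sub_div _ _ (pow_ne_zero _ ha1) (pow_ne_zero _ hb1)]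
      congr 1
      ring
    rw [e1]
    field_simp
  have h2a : ‖1 - a‖ ≤ 2 := by
    refine (norm_sub_le _ _).trans ?_
    rw [norm_one]; linarith
  have h2b : ‖1 - b‖ ≤ 2 := by
    refine (norm_sub_le _ _).trans ?_
    rw [norm_one]; linarith
  have h3 : ‖(1 - a) ^ 2 * (1 - b) ^ 2 / (1 - a * b)‖ ≤ 16 / (1 - r) := by
    rw [norm_div, norm_mul, norm_pow, norm_pow]
    apply div_le_div₀ (by norm_num) _ h1r hab
    have a1 : ‖1 - a‖ ^ 2 ≤ 4 := by nlinarith [norm_nonneg (1 - a)]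
    have b1 : ‖1 - b‖ ^ 2 ≤ 4 := by nlinarith [norm_nonneg (1 - b)]
    calc ‖1 - a‖ ^ 2 * ‖1 - b‖ ^ 2 ≤ 4 * 4 := mul_le_mul a1 b1 (by positivity) (by norm_num)
      _ = 16 := by norm_num
  rw [e, norm_mul, mul_comm]
  exact mul_le_mul_of_nonneg_right h3 (norm_nonneg _)

theorem kst_pick_close {r : ℝ} (hr1 : r < 1) (hq0 : 0 < q) (hq1 : q < 1) {u : ℂ} (hu : ‖u‖ ≤ r) :
    ‖kst q (-1) u - M6.pick q u‖ ≤ 16 / (1 - r) * (1 / (1 - r) ^ 4 * (1 - q) ^ 2) := by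
  have h1r : 0 < 1 - r := by linarith
  have hr0 : 0 ≤ r := (norm_nonneg u).trans hu
  have hu1 : ‖u‖ < 1 := by linarith
  have hub : u ∈ ball (0 : ℂ) 1 := by simpa using hu1
  have ha : ‖kst q (-1) u‖ ≤ r := (UF.norm_kst hq0.le hq1.le (by simp) hu1).trans hu
  have hb : ‖M6.pick q u‖ ≤ r := by
    have h : SelfMap (M6.pick q) :=
      ⟨M6.pick_diff hq0 hq1, fun _ hz => M6.pick_mem hq0 hq1 hz, M6.pick_zero q⟩
    exact (schwarz_norm h hub).trans hu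
  refine (koebe_sub hr1 ha hb).trans ?_
  apply mul_le_mul_of_nonneg_left _ (by positivity)
  have h1 : (1 : ℂ) - u ≠ 0 := M6.one_sub_ne hub
  have h2 : (1 : ℂ) + u ≠ 0 := by
    have := M6.one_sub_ne (z := -u) (by simpa using hu1)
    simpa using this
  have h3 : 1 - q * (-1 : ℂ) * u ≠ 0 := chi_den_ne hq0 hq1.le (by simp) hu1
  have h4 : 1 - q * (1 + (-1 : ℂ)) * u + (-1) * u ^ 2 ≠ 0 := by
    have : 1 - q * (1 + (-1 : ℂ)) * u + (-1) * u ^ 2 = (1 - u) * (1 + u) := by ring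
    rw [this]; exact mul_ne_zero h1 h2
  have e : koebe (kst q (-1) u) - koebe (M6.pick q u)
      = (1 - q : ℂ) ^ 2 * (u ^ 2 / ((1 - u) ^ 2 * (1 + u) ^ 2)) := by
    rw [UF.koebe_kst h3 h4, M6.pick_koebe hq0 hq1 hub, koebe]
    have : 1 - q * (1 + (-1 : ℂ)) * u + (-1) * u ^ 2 = (1 - u) * (1 + u) := by ring
    rw [this]
    field_simp
    ring
  rw [e, norm_mul, norm_pow]
  have e2 : ‖(1 : ℂ) - q‖ = 1 - q := UF.norm_one_sub_q hq1.le
  rw [e2, mul_comm]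
  apply mul_le_mul_of_nonneg_right _ (sq_nonneg _)
  rw [norm_div, norm_mul, norm_pow, norm_pow, norm_pow]
  have a1 : 1 - r ≤ ‖1 - u‖ := UF.one_sub_lower hu
  have a2 : 1 - r ≤ ‖1 + u‖ := by
    have := UF.one_sub_lower (r := r) (w := -u) (by rwa [norm_neg])
    simpa using this
  apply div_le_div₀ zero_le_one _ (by positivity) _
  · nlinarith [norm_nonneg u]
  · calc (1 - r) ^ 4 = (1 - r) ^ 2 * (1 - r) ^ 2 := by ring
      _ ≤ ‖1 - u‖ ^ 2 * ‖1 + u‖ ^ 2 := by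
          apply mul_le_mul (pow_le_pow_left₀ h1r.le a1 2) (pow_le_pow_left₀ h1r.le a2 2)
            (by positivity) (by positivity)

theorem kst_pk_close {r : ℝ} (hr1 : r < 1) (hq0 : 0 < q) (hq1 : q < 1) (hχ : ‖χ‖ = 1) {w : ℂ}
    (hw : ‖w‖ ≤ r) :
    ‖kst q χ w - pk q χ w‖ ≤ 16 / (1 - r) * (1 / (1 - r) ^ 4 * (1 - q) ^ 2) := by
  have hχ0 : χ ≠ 0 := by
    intro h; rw [h, norm_zero] at hχ; exact zero_ne_one hχ
  have hu : ‖-χ * w‖ ≤ r := by rw [norm_mul, norm_neg, hχ, one_mul]; exact hw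
  have h := kst_pick_close hr1 hq0 hq1 hu
  have e : kst q χ w - pk q χ w = (-χ)⁻¹ * (kst q (-1) (-χ * w) - M6.pick q (-χ * w)) := by
    have e1 : kst q χ w = (-χ)⁻¹ * kst q (-1) (-χ * w) := by
      unfold kst
      have : (1 : ℂ) - q * -1 * (-χ * w) = 1 - q * χ * w := by ring
      rw [this]
      field_simp
    rw [e1, mul_sub]
    rfl
  rw [e, norm_mul, norm_inv, norm_neg, hχ, inv_one, one_mul]
  exact h

theorem pk_norm (hq0 : 0 < q) (hq1 : q < 1) (hχ : ‖χ‖ = 1) {w : ℂ} (hw : ‖w‖ < 1) :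
    ‖pk q χ w‖ ≤ ‖w‖ := schwarz_norm (pk_self hq0 hq1 hχ) (by simpa using hw)

end

theorem phi_lip' {r pm : ℝ} (hr1 : r < 1) (hpm : 0 < pm) :
    ∃ L : ℝ, 0 ≤ L ∧ ∀ p v : ℝ, pm ≤ p → 0 < v → v ≤ p → ∀ w w' : ℂ, ‖w‖ ≤ r → ‖w'‖ ≤ r →
      ‖phi v (koebe w / p) - phi v (koebe w' / p)‖ ≤ L * ‖w - w'‖ := by
  have h1 : r < (1 + r) / 2 := by linarith
  have h2 : (1 + r) / 2 < 1 := by linarith
  have h3 : 0 < 1 - (1 + r) / 2 := by linarith
  have h4 : 0 < (1 + r) / 2 - r := by linarith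
  set ρ := (1 + r) / 2 with hρ
  set M := 1 / (pm * (1 - ρ) ^ 2) with hM
  have hM0 : 0 < M := by positivity
  refine ⟨2 * M ^ 2 / (ρ - r), by positivity, ?_⟩
  intro p v hp hv hvp w w' hw hw'
  have hp0 : 0 < p := by linarith
  apply lip_of_bound (phi_diff hv hvp) h1 h2 _ hw hw'
  intro x hx
  have hx1 : ‖x‖ < 1 := by linarith
  obtain ⟨a, b, e, h⟩ := exists_Q hp0 hv hvp (χ := 1) (by simp) hx1 (M := M) (by
    rw [hM]
    apply div_le_div₀ zero_le_one hx1.le (by positivity)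
    apply mul_le_mul hp _ (by positivity) hp0.le
    apply pow_le_pow_left₀ h3.le
    linarith)
  refine h.phi_le.trans ?_
  have e1 : 2 * (a ^ 3 * b) ≤ a ^ 2 * (a ^ 2 + b ^ 2) := by
    nlinarith [mul_nonneg (sq_nonneg a) (sq_nonneg (a - b))]
  have e2 : a ^ 2 * (a ^ 2 + b ^ 2) ≤ M * (M + M) := by
    apply mul_le_mul h.aM (add_le_add h.aM h.bM) (by positivity) hM0.le
  linarith

theorem pstep_first {r pm : ℝ} (hr0 : 0 < r) (hr1 : r < 1) (hpm : 0 < pm) (hpm1 : pm ≤ 1) :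
    ∃ C δ₀ : ℝ, 0 < C ∧ 0 < δ₀ ∧ δ₀ < 1 ∧ ∀ q : ℝ, 1 - δ₀ ≤ q → q < 1 → ∀ χ w : ℂ, ‖χ‖ = 1 →
      ‖w‖ ≤ r → ∀ p : ℝ, pm ≤ p → p ≤ 1 →
      ‖koebe w / p - koebe (pk q χ w) / (q * p) - (1 + χ) * ((1 - q) * p) * Phi p χ w‖
        ≤ C * (1 - q) ^ 2 := by
  obtain ⟨C, δ₀, hC, hδ₀, hδ₀1, h⟩ := step_first hr0 hr1 hpm hpm1
  obtain ⟨L, hL0, hL⟩ := koebe_lip hr1
  have h1r : 0 < 1 - r := by linarith
  set K := 16 / (1 - r) * (1 / (1 - r) ^ 4) with hK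
  have hK0 : 0 < K := by positivity
  refine ⟨C + 2 * L * K / pm, min δ₀ (1 / 2), by positivity, by positivity,
    lt_of_le_of_lt (min_le_left _ _) hδ₀1, ?_⟩
  intro q hq hq1 χ w hχ hw p hp hp1
  have hq' : 1 - δ₀ ≤ q := by have := min_le_left δ₀ (1 / 2); linarith
  have hq2 : 1 / 2 ≤ q := by have := min_le_right δ₀ (1 / 2); linarith
  have hq0 : 0 < q := by linarith
  have hp0 : 0 < p := by linarith
  have hw1 : ‖w‖ < 1 := by linarith
  have h1 := h q hq' hq1.le χ w hχ hw p hp hp1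
  have h2 := kst_pk_close hr1 hq0 hq1 hχ hw
  have h3 := hL (kst q χ w) (pk q χ w) ((UF.norm_kst hq0.le hq1.le hχ hw1).trans hw)
    ((pk_norm hq0 hq1 hχ hw1).trans hw)
  have e : koebe w / p - koebe (pk q χ w) / (q * p) - (1 + χ) * ((1 - q) * p) * Phi p χ w
      = (koebe w / p - koebe (kst q χ w) / (q * p) - (1 + χ) * ((1 - q) * p) * Phi p χ w)
        + (koebe (kst q χ w) - koebe (pk q χ w)) / ((q * p : ℝ) : ℂ) := by
    push_cast; ring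
  rw [e]
  refine (norm_add_le _ _).trans ?_
  rw [norm_div, Complex.norm_real, Real.norm_of_nonneg (by positivity)]
  have h4 : ‖koebe (kst q χ w) - koebe (pk q χ w)‖ / (q * p) ≤ 2 * L * K / pm * (1 - q) ^ 2 := by
    rw [div_le_iff₀ (by positivity)]
    have h5 : L * ‖kst q χ w - pk q χ w‖ ≤ L * (K * (1 - q) ^ 2) := by
      apply mul_le_mul_of_nonneg_left _ hL0
      refine h2.trans (le_of_eq ?_)
      rw [hK]; ring
    have h6 : pm / 2 ≤ q * p := by nlinarith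
    have h7 : 0 ≤ 2 * L * K / pm * (1 - q) ^ 2 := by positivity
    calc ‖koebe (kst q χ w) - koebe (pk q χ w)‖ ≤ L * (K * (1 - q) ^ 2) := h3.trans h5
      _ = 2 * L * K / pm * (1 - q) ^ 2 * (pm / 2) := by field_simp
      _ ≤ 2 * L * K / pm * (1 - q) ^ 2 * (q * p) := mul_le_mul_of_nonneg_left h6 h7
  linarith

theorem pstep_second {r pm : ℝ} (hr0 : 0 < r) (hr1 : r < 1) (hpm : 0 < pm) (hpm1 : pm ≤ 1) :
    ∃ C δ₀ : ℝ, 0 < C ∧ 0 < δ₀ ∧ δ₀ < 1 ∧ ∀ q : ℝ, 1 - δ₀ ≤ q → q < 1 → ∀ χ w : ℂ, ‖χ‖ = 1 →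
      ‖w‖ ≤ r → ∀ p : ℝ, pm ≤ p → p ≤ 1 → ∀ v : ℝ, 0 < v → v ≤ q * p →
      ‖phi v (koebe w / p) - phi v (koebe (pk q χ w) / (q * p))
          - dphi v (koebe w / p) * ((1 + χ) * ((1 - q) * p) * Phi p χ w)‖
        ≤ C * (1 - q) ^ 2 := by
  obtain ⟨C, δ₀, hC, hδ₀, hδ₀1, h⟩ := step_second hr0 hr1 hpm hpm1
  obtain ⟨L, hL0, hL⟩ := phi_lip' (r := r) (pm := pm / 2) hr1 (by positivity)
  have h1r : 0 < 1 - r := by linarith
  set K := 16 / (1 - r) * (1 / (1 - r) ^ 4) with hK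
  have hK0 : 0 < K := by positivity
  refine ⟨C + L * K, min δ₀ (1 / 2), by positivity, by positivity,
    lt_of_le_of_lt (min_le_left _ _) hδ₀1, ?_⟩
  intro q hq hq1 χ w hχ hw p hp hp1 v hv hvp
  have hq' : 1 - δ₀ ≤ q := by have := min_le_left δ₀ (1 / 2); linarith
  have hq2 : 1 / 2 ≤ q := by have := min_le_right δ₀ (1 / 2); linarith
  have hq0 : 0 < q := by linarith
  have hp0 : 0 < p := by linarith
  have hw1 : ‖w‖ < 1 := by linarith
  have h1 := h q hq' hq1.le χ w hχ hw p hp hp1 v hv hvp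
  have h2 := kst_pk_close hr1 hq0 hq1 hχ hw
  have h3 := hL (q * p) v (by nlinarith) hv hvp (kst q χ w) (pk q χ w)
    ((UF.norm_kst hq0.le hq1.le hχ hw1).trans hw) ((pk_norm hq0 hq1 hχ hw1).trans hw)
  have ecast : ((q * p : ℝ) : ℂ) = q * p := by push_cast; ring
  rw [ecast] at h3
  have e : phi v (koebe w / p) - phi v (koebe (pk q χ w) / (q * p))
          - dphi v (koebe w / p) * ((1 + χ) * ((1 - q) * p) * Phi p χ w)
      = (phi v (koebe w / p) - phi v (koebe (kst q χ w) / (q * p))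
          - dphi v (koebe w / p) * ((1 + χ) * ((1 - q) * p) * Phi p χ w))
        + (phi v (koebe (kst q χ w) / (q * p)) - phi v (koebe (pk q χ w) / (q * p))) := by
    ring
  rw [e]
  refine (norm_add_le _ _).trans ?_
  have h5 : L * ‖kst q χ w - pk q χ w‖ ≤ L * (K * (1 - q) ^ 2) := by
    apply mul_le_mul_of_nonneg_left _ hL0
    refine h2.trans (le_of_eq ?_)
    rw [hK]; ring
  linarith

end Pool.Agent.Helper64.C3
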