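import Pool.Agent.Helper64.C3.PickChain

set_option autoImplicit false

open Metric Set Filter Topology Asymptotics

namespace Pool.Agent.Helper64.C3

/-! Theorem L: second order expansion along the chain -/

theorem dphi_bound {r : ℝ} (hr0 : 0 < r) (hr1 : r < 1) :
    ∃ B : ℝ, 0 < B ∧ ∀ v : ℝ, 0 < v → v ≤ 1 → ∀ z : ℂ, ‖z‖ ≤ r → ‖dphi v (koebe z)‖ ≤ B := by
  obtain ⟨c₀, hc₀, hroot⟩ := UF.exists_root_lower hr0 hr1
  have h1r : 0 < 1 - r := by linarith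
  set K := 1 / (1 - r) ^ 2 with hK
  have hK0 : 0 < K := by positivity
  refine ⟨4 * K * (1 + 3 * K) / c₀ ^ 3, by positivity, ?_⟩
  intro v hv hv1 z hz
  have h1 : ‖koebe z‖ ≤ K := UF.norm_koebe hr1 hz
  have h2 := hroot v hv.le hv1 z hz
  have h3 : c₀ ≤ ‖rt v (koebe z)‖ := h2.trans (Complex.re_le_norm _)
  rw [dphi, norm_div, norm_mul, norm_mul, norm_pow]
  apply div_le_div₀ (by positivity) _ (by positivity) (pow_le_pow_left₀ hc₀.le h3 3)
  have h4 : ‖1 + 3 * (v : ℂ) * koebe z‖ ≤ 1 + 3 * K := by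
    refine (norm_add_le _ _).trans ?_
    rw [norm_one, norm_mul, norm_mul, Complex.norm_real, Real.norm_of_nonneg hv.le]
    simp only [Complex.norm_ofNat]
    have h5 : v * ‖koebe z‖ ≤ 1 * K := mul_le_mul hv1 h1 (norm_nonneg _) zero_le_one
    linarith only [h5]
  simp only [Complex.norm_ofNat]
  apply mul_le_mul _ h4 (norm_nonneg _) (by positivity)
  exact mul_le_mul_of_nonneg_left h1 (by norm_num)

/-- the quadratic part -/
noncomputable def quad (q : ℝ) (m : ℕ) (z : ℂ) : ℂ :=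
  ∑ i ∈ Finset.range m, (((1 - q) * q ^ i : ℝ) : ℂ) *
    ((((Real.sqrt (q ^ i))⁻¹ : ℝ) : ℂ) ^ 2 *
        (phi (q ^ i) (koebe z) / 2 - Psi (q ^ i) (-1) (M6.pick (q ^ i) z))
      + (((Real.sqrt (q ^ i))⁻¹ : ℝ) : ℂ) * dphi (q ^ i) (koebe z) *
        ∑ j ∈ Finset.range i, (((Real.sqrt (q ^ j))⁻¹ : ℝ) : ℂ) * (((1 - q) * q ^ j : ℝ) : ℂ)
          * phi (q ^ j) (koebe z))

/-- the rotation parameters -/
noncomputable def chi (q t : ℝ) (i : ℕ) : ℂ :=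
  -Complex.exp ((t * (Real.sqrt (q ^ i))⁻¹ : ℝ) * Complex.I)

theorem chi_norm (q t : ℝ) (i : ℕ) : ‖chi q t i‖ = 1 := by
  unfold chi
  rw [norm_neg, Complex.norm_exp_ofReal_mul_I]

theorem second_order {r α : ℝ} (hr0 : 0 < r) (hr1 : r < 1) (hα0 : 0 < α) (hα1 : α < 1) :
    ∃ (C : ℝ) (m₀ : ℕ), 0 < C ∧ 0 < m₀ ∧ ∀ m : ℕ, m₀ ≤ m → ∀ t : ℝ, 0 ≤ t → C * t ≤ 1 →
      ∀ q : ℝ, q = Real.exp (Real.log α / m) → ∀ z ∈ sphere (0 : ℂ) r,
      ‖koebe z - koebe (HH q (chi q t) m z) / ((q ^ m : ℝ) : ℂ)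
        + Complex.I * ∑ i ∈ Finset.range m,
            (Real.sin (t * (Real.sqrt (q ^ i))⁻¹) * ((1 - q) * q ^ i) : ℝ) * phi (q ^ i) (koebe z)
        - t ^ 2 * quad q m z‖ ≤ C * (t ^ 3 + t ^ 2 / m + 1 / m) := by
  obtain ⟨C₁, δ₁, hC₁, hδ₁, hδ₁1, hs1⟩ := pstep_first hr0 hr1 hα0 hα1.le
  obtain ⟨C₂, δ₂, hC₂, hδ₂, hδ₂1, hs2⟩ := pstep_second hr0 hr1 hα0 hα1.le
  obtain ⟨L, hL0, hL⟩ := kernel_lip (pm := α) hr0 hr1 hα0
  obtain ⟨Bp, hBp0, hBp⟩ := dphi_bound hr0 hr1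
  have h1r : 0 < 1 - r := by linarith
  set ℓ := -Real.log α with hℓ
  have hℓ0 : 0 < ℓ := by
    have := Real.log_neg hα0 hα1
    linarith
  set κm := (Real.sqrt α)⁻¹ with hκm
  have hsα : 0 < Real.sqrt α := Real.sqrt_pos.2 hα0
  have hκm0 : 0 < κm := by positivity
  set Cs := max C₁ C₂ with hCs
  have hCs0 : 0 < Cs := lt_max_of_lt_left hC₁
  have hCs1 : C₁ ≤ Cs := le_max_left _ _
  have hCs2 : C₂ ≤ Cs := le_max_right _ _
  set A₁ := 16 / (1 - r) * (L + Cs) + 1 with hA₁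
  have hA₁0 : 0 < A₁ := by positivity
  set B := L * A₁ + L + Bp with hB
  have hB0 : 0 < B := by positivity
  obtain ⟨m₀, hm₀⟩ := exists_nat_gt (ℓ / min δ₁ δ₂ + 2 * ℓ ^ 2 + 1)
  set C := κm ^ 3 * (7 * B + 2 * (B ^ 2 + B)) + κm ^ 2 * (2 * B) * (κm + ℓ ^ 2) + 2 * Cs * ℓ ^ 2
    + 2 * κm with hC
  have hc1 : 0 ≤ κm ^ 3 * (7 * B + 2 * (B ^ 2 + B)) := by positivity
  have hc2 : 0 ≤ κm ^ 2 * (2 * B) * (κm + ℓ ^ 2) := by positivity
  have hc3 : 0 ≤ 2 * Cs * ℓ ^ 2 := by positivity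
  have hC0 : 0 < C := by positivity
  have hmin0 : 0 < min δ₁ δ₂ := lt_min hδ₁ hδ₂
  refine ⟨C, m₀, hC0, ?_, ?_⟩
  · have : (0 : ℝ) < m₀ := by
      have : 0 < ℓ / min δ₁ δ₂ := by positivity
      have : 0 < 2 * ℓ ^ 2 := by positivity
      linarith
    exact_mod_cast this
  intro m hm t ht hCt q hq z hz
  have hmR : (m₀ : ℝ) ≤ m := by exact_mod_cast hm
  have hm1 : ℓ / min δ₁ δ₂ < m := by
    have : 0 < 2 * ℓ ^ 2 := by positivity
    linarith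
  have hm2 : 2 * ℓ ^ 2 < m := by
    have : 0 < ℓ / min δ₁ δ₂ := by positivity
    linarith
  have hm0 : (0 : ℝ) < m := lt_trans (by positivity) hm2
  have hmne : m ≠ 0 := by
    intro h
    rw [h] at hm0
    simp at hm0
  -- the step
  have hq0 : 0 < q := by rw [hq]; exact Real.exp_pos _
  have hqe : q = Real.exp (-(ℓ / m)) := by rw [hq, hℓ]; congr 1; ring
  have hq1 : q < 1 := by
    rw [hqe, Real.exp_lt_one_iff]
    have : 0 < ℓ / m := by positivity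
    linarith
  have h1q : 1 - q ≤ ℓ / m := by
    have := Real.add_one_le_exp (-(ℓ / m))
    rw [← hqe] at this
    linarith
  have h1q0 : 0 < 1 - q := by linarith
  have hqm : q ^ m = α := by
    rw [hq, ← Real.exp_nat_mul]
    have : (m : ℝ) * (Real.log α / m) = Real.log α := by field_simp
    rw [this, Real.exp_log hα0]
  have hdm : ℓ / m ≤ min δ₁ δ₂ := by
    rw [div_le_iff₀ hm0]
    rw [div_lt_iff₀ hmin0] at hm1
    linarith
  have hqδ1 : 1 - δ₁ ≤ q := by have := min_le_left δ₁ δ₂; linarith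
  have hqδ2 : 1 - δ₂ ≤ q := by have := min_le_right δ₁ δ₂; linarith
  -- levels
  have hP0 : ∀ i : ℕ, 0 < q ^ i := fun i => by positivity
  have hPm : ∀ i ≤ m, α ≤ q ^ i := by
    intro i hi
    rw [← hqm]
    exact pow_le_pow_of_le_one hq0.le hq1.le hi
  have hP1 : ∀ i : ℕ, q ^ i ≤ 1 := fun i => pow_le_one₀ hq0.le hq1.le
  have hPle : ∀ i j : ℕ, j ≤ i → q ^ i ≤ q ^ j := fun i j hij =>
    pow_le_pow_of_le_one hq0.le hq1.le hij
  set χ := chi q t with hχdef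
  have hχ : ∀ i, ‖χ i‖ = 1 := chi_norm q t
  have hH := HH_spec hq0 hq1 hχ
  have hzr : ‖z‖ = r := mem_sphere_zero_iff_norm.1 hz
  have hz1 : ‖z‖ < 1 := by rw [hzr]; exact hr1
  have hzb : z ∈ ball (0 : ℂ) 1 := by simpa using hz1
  have hw : ∀ i, ‖HH q χ i z‖ ≤ r := fun i => by
    rw [← hzr]; exact schwarz_norm (hH i).1 hzb
  set κ : ℕ → ℝ := fun i => (Real.sqrt (q ^ i))⁻¹ with hκ
  have hκ0 : ∀ i, 0 < κ i := fun i => inv_pos.2 (Real.sqrt_pos.2 (hP0 i))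
  have hκle : ∀ i < m, κ i ≤ κm := by
    intro i hi
    exact inv_anti₀ hsα (Real.sqrt_le_sqrt (hPm i hi.le))
  have hu : ∀ i, 1 + χ i = 1 - Complex.exp ((t * κ i : ℝ) * Complex.I) := by
    intro i
    show 1 + -Complex.exp _ = _
    ring
  set ε₁ := Cs * (1 - q) ^ 2 with hε₁
  have hε₁0 : 0 ≤ ε₁ := by positivity
  have hmε : m * ε₁ ≤ Cs * ℓ ^ 2 / m := by
    have h3 : (1 - q) ^ 2 ≤ (ℓ / m) ^ 2 := pow_le_pow_left₀ h1q0.le h1q 2
    calc m * ε₁ = m * Cs * (1 - q) ^ 2 := by rw [hε₁]; ring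
      _ ≤ m * Cs * (ℓ / m) ^ 2 := mul_le_mul_of_nonneg_left h3 (by positivity)
      _ = Cs * ℓ ^ 2 / m := by field_simp
  have htκ : t * κm ≤ 1 / 2 := by
    have : 2 * κm * t ≤ C * t := by
      apply mul_le_mul_of_nonneg_right _ ht
      linarith
    linarith
  set η := t * κm + ℓ ^ 2 / m with hη
  have hη0 : 0 ≤ η := by positivity
  have hη1 : η ≤ 1 := by
    have : ℓ ^ 2 / m ≤ 1 / 2 := by
      rw [div_le_iff₀ hm0]; linarith
    linarith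
  set δ : ℕ → ℝ := fun i => (1 - q) * q ^ i with hδ
  have hδ0 : ∀ i, 0 ≤ δ i := fun i => by positivity
  have hδsum : ∀ j, ∑ i ∈ Finset.range j, δ i ≤ 1 := by
    intro j
    have := geo_sum hq0 one_pos le_rfl j
    simpa using this
  -- one steps
  have st1 : ∀ i < m, ‖koebe (HH q χ i z) / ((q ^ i : ℝ) : ℂ)
      - koebe (HH q χ (i + 1) z) / ((q ^ (i + 1) : ℝ) : ℂ)
      - (1 + χ i) * (δ i : ℂ) * Phi (q ^ i) (χ i) (HH q χ i z)‖ ≤ ε₁ := by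
    intro i hi
    have h1 := hs1 q hqδ1 hq1 (χ i) (HH q χ i z) (hχ i) (hw i) (q ^ i) (hPm i hi.le) (hP1 i)
    have e3 : ((q ^ (i + 1) : ℝ) : ℂ) = q * ((q ^ i : ℝ) : ℂ) := by push_cast; ring
    have e4 : ((δ i : ℝ) : ℂ) = (1 - q) * ((q ^ i : ℝ) : ℂ) := by push_cast [hδ]; ring
    rw [e3, e4]
    refine h1.trans ?_
    exact mul_le_mul_of_nonneg_right hCs1 (sq_nonneg _)
  -- first order closeness
  have hun : ∀ i < m, ‖1 + χ i‖ ≤ t * κm := by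
    intro i hi
    rw [hu i]
    have h5 : t * κ i ≤ t * κm := mul_le_mul_of_nonneg_left (hκle i hi) ht
    refine (u_bounds (θ := t * κ i) (mul_nonneg ht (hκ0 i).le) (by linarith)).1.trans h5
  have hPhiL : ∀ i ≤ m, ‖Phi (q ^ i) (χ i) (HH q χ i z)‖ ≤ L := fun i hi =>
    (hL (q ^ i) (q ^ i) (hPm i hi) (hP0 i) le_rfl (χ i) (χ i) (hχ i) (hχ i) _ _ (hw i) (hw i)).1
  have first : ∀ j ≤ m, ‖koebe z - koebe (HH q χ j z) / ((q ^ j : ℝ) : ℂ)‖
      ≤ t * κm * L + m * ε₁ := by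
    intro j hj
    have e0 : koebe z - koebe (HH q χ j z) / ((q ^ j : ℝ) : ℂ)
        = ∑ i ∈ Finset.range j, (koebe (HH q χ i z) / ((q ^ i : ℝ) : ℂ)
          - koebe (HH q χ (i + 1) z) / ((q ^ (i + 1) : ℝ) : ℂ)) := by
      rw [Finset.sum_range_sub' (fun i => koebe (HH q χ i z) / ((q ^ i : ℝ) : ℂ)) j]
      simp [HH]
    rw [e0]
    refine (norm_sum_le _ _).trans ?_
    have h3 : ∀ i ∈ Finset.range j, ‖koebe (HH q χ i z) / ((q ^ i : ℝ) : ℂ)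
          - koebe (HH q χ (i + 1) z) / ((q ^ (i + 1) : ℝ) : ℂ)‖ ≤ t * κm * L * δ i + ε₁ := by
      intro i hi
      have him : i < m := lt_of_lt_of_le (Finset.mem_range.1 hi) hj
      have e2 : koebe (HH q χ i z) / ((q ^ i : ℝ) : ℂ)
          - koebe (HH q χ (i + 1) z) / ((q ^ (i + 1) : ℝ) : ℂ)
          = (koebe (HH q χ i z) / ((q ^ i : ℝ) : ℂ)
          - koebe (HH q χ (i + 1) z) / ((q ^ (i + 1) : ℝ) : ℂ)
          - (1 + χ i) * (δ i : ℂ) * Phi (q ^ i) (χ i) (HH q χ i z))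
          + (1 + χ i) * (δ i : ℂ) * Phi (q ^ i) (χ i) (HH q χ i z) := by ring
      rw [e2]
      refine (norm_add_le _ _).trans ?_
      rw [norm_mul ((1 + χ i) * (δ i : ℂ)), norm_mul (1 + χ i), Complex.norm_real,
        Real.norm_of_nonneg (hδ0 i)]
      have a1 := st1 i him
      have a2 : ‖1 + χ i‖ * δ i * ‖Phi (q ^ i) (χ i) (HH q χ i z)‖ ≤ (t * κm) * δ i * L := by
        apply mul_le_mul _ (hPhiL i him.le) (norm_nonneg _)
          (mul_nonneg (by positivity) (hδ0 i))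
        exact mul_le_mul_of_nonneg_right (hun i him) (hδ0 i)
      linarith
    refine (Finset.sum_le_sum h3).trans ?_
    rw [Finset.sum_add_distrib, ← Finset.mul_sum, Finset.sum_const, Finset.card_range,
      nsmul_eq_mul]
    have a1 := mul_le_mul_of_nonneg_left (hδsum j) (by positivity : 0 ≤ t * κm * L)
    have a2 : (j : ℝ) * ε₁ ≤ m * ε₁ := by
      apply mul_le_mul_of_nonneg_right _ hε₁0
      exact_mod_cast hj
    linarith
  have hpick : ∀ j ≤ m, koebe (M6.pick (q ^ j) z) = ((q ^ j : ℝ) : ℂ) * koebe z ∧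
      ‖M6.pick (q ^ j) z‖ ≤ r := by
    intro j _
    obtain ⟨a1, a2⟩ := pick_facts (hP0 j) (hP1 j) hz1
    exact ⟨a1, a2.trans hzr.le⟩
  have wclose : ∀ j ≤ m, ‖HH q χ j z - M6.pick (q ^ j) z‖ + ‖χ j - (-1)‖ ≤ A₁ * η ∨ j = m := by
    intro j hj
    rcases hj.lt_or_eq with hjm | hjm
    · left
      obtain ⟨a1, a2⟩ := hpick j hj
      have b1 := koebe_sub hr1 (hw j) a2
      have hPC : ((q ^ j : ℝ) : ℂ) ≠ 0 := by exact_mod_cast (hP0 j).ne'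
      have e1 : koebe (HH q χ j z) - koebe (M6.pick (q ^ j) z)
          = -(((q ^ j : ℝ) : ℂ) * (koebe z - koebe (HH q χ j z) / ((q ^ j : ℝ) : ℂ))) := by
        rw [a1]; field_simp; ring
      have b2 : ‖koebe (HH q χ j z) - koebe (M6.pick (q ^ j) z)‖ ≤ t * κm * L + m * ε₁ := by
        rw [e1, norm_neg, norm_mul, Complex.norm_real, Real.norm_of_nonneg (hP0 j).le]
        calc q ^ j * ‖koebe z - koebe (HH q χ j z) / ((q ^ j : ℝ) : ℂ)‖
            ≤ 1 * ‖koebe z - koebe (HH q χ j z) / ((q ^ j : ℝ) : ℂ)‖ :=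
              mul_le_mul_of_nonneg_right (hP1 j) (norm_nonneg _)
          _ ≤ t * κm * L + m * ε₁ := by rw [one_mul]; exact first j hj
      have b3 : t * κm * L + m * ε₁ ≤ (L + Cs) * η := by
        have c1 : Cs * ℓ ^ 2 / m = Cs * (ℓ ^ 2 / m) := by ring
        have c2 : 0 ≤ L * (ℓ ^ 2 / m) := by positivity
        have c3 : 0 ≤ Cs * (t * κm) := by positivity
        have c4 : (L + Cs) * η = t * κm * L + Cs * (ℓ ^ 2 / m) + (L * (ℓ ^ 2 / m) + Cs * (t * κm)) := by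
          rw [hη]; ring
        rw [c4]
        linarith only [hmε, c1, c2, c3]
      have b4 : ‖HH q χ j z - M6.pick (q ^ j) z‖ ≤ 16 / (1 - r) * ((L + Cs) * η) :=
        b1.trans (mul_le_mul_of_nonneg_left (b2.trans b3) (by positivity))
      have b5 : ‖χ j - (-1)‖ ≤ η := by
        have : χ j - (-1) = 1 + χ j := by ring
        rw [this]
        have := hun j hjm
        have : 0 ≤ ℓ ^ 2 / m := by positivity
        linarith
      have b6 : A₁ * η = 16 / (1 - r) * ((L + Cs) * η) + η := by rw [hA₁]; ring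
      rw [b6]
      exact add_le_add b4 b5
    · right; exact hjm
  have q0e : ((q ^ 0 : ℝ) : ℂ) = 1 := by simp
  have hH0 : HH q χ 0 z = z := rfl
  have hm1χ : ‖(-1 : ℂ)‖ = 1 := by simp
  have main := abstract_lower (m := m) (δ := δ) (κ := κ) (t := t) (B := B) (κm := κm) (η := η)
    (ε₁ := ε₁) (G := fun i => koebe (HH q χ i z) / ((q ^ i : ℝ) : ℂ))
    (Y := fun i => Psi (q ^ i) (χ i) (HH q χ i z))
    (d := fun i => dphi (q ^ i) (koebe z))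
    (y₀ := fun i => Psi (q ^ i) (-1) (M6.pick (q ^ i) z))
    (F := fun i j => phi (q ^ i) (koebe (HH q χ j z) / ((q ^ j : ℝ) : ℂ)))
    (X := fun i j => dphi (q ^ i) (koebe (HH q χ j z) / ((q ^ j : ℝ) : ℂ))
      * Phi (q ^ j) (χ j) (HH q χ j z))
    hδ0 (hδsum m) (fun i => (hκ0 i).le) hκle ht (by linarith) hκm0.le hB0.le hη0 hη1 hε₁0
    ?_ ?_ ?_ ?_ ?_ ?_ ?_
  · -- conclusion
    simp only [q0e, hH0, div_one] at main
    refine main.trans ?_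
    have c1 : (t * κm) ^ 3 * (B + 2 * (B ^ 2 + B) + 4 * B)
        ≤ κm ^ 3 * (7 * B + 2 * (B ^ 2 + B)) * t ^ 3 := by
      have h0 : 0 ≤ κm ^ 3 * t ^ 3 * B := by positivity
      have h1 : κm ^ 3 * (7 * B + 2 * (B ^ 2 + B)) * t ^ 3
          = (t * κm) ^ 3 * (B + 2 * (B ^ 2 + B) + 4 * B) + 2 * (κm ^ 3 * t ^ 3 * B) := by ring
      rw [h1]
      linarith only [h0]
    have c2 : (t * κm) ^ 2 * η * (2 * B)
        ≤ κm ^ 2 * (2 * B) * (κm + ℓ ^ 2) * (t ^ 3 + t ^ 2 / m) := by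
      have e1 : (t * κm) ^ 2 * η * (2 * B)
          = κm ^ 2 * (2 * B) * (κm * t ^ 3 + ℓ ^ 2 * (t ^ 2 / m)) := by rw [hη]; ring
      rw [e1, mul_assoc (κm ^ 2 * (2 * B))]
      apply mul_le_mul_of_nonneg_left _ (by positivity)
      have h0 : 0 ≤ κm * (t ^ 2 / m) := by positivity
      have h1 : 0 ≤ ℓ ^ 2 * t ^ 3 := by positivity
      have h2 : (κm + ℓ ^ 2) * (t ^ 3 + t ^ 2 / m)
          = κm * t ^ 3 + ℓ ^ 2 * (t ^ 2 / m) + (κm * (t ^ 2 / m) + ℓ ^ 2 * t ^ 3) := by ring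
      rw [h2]
      linarith only [h0, h1]
    have c3 : 2 * m * ε₁ ≤ 2 * Cs * ℓ ^ 2 * (1 / m) := by
      calc 2 * m * ε₁ = 2 * (m * ε₁) := by ring
        _ ≤ 2 * (Cs * ℓ ^ 2 / m) := by linarith
        _ = 2 * Cs * ℓ ^ 2 * (1 / m) := by ring
    have d1 : 0 ≤ t ^ 3 := by positivity
    have d2 : 0 ≤ t ^ 2 / m := by positivity
    have d3 : (0 : ℝ) ≤ 1 / m := by positivity
    have hCexp : C * (t ^ 3 + t ^ 2 / m + 1 / m)
        = κm ^ 3 * (7 * B + 2 * (B ^ 2 + B)) * (t ^ 3 + t ^ 2 / m + 1 / m)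
          + κm ^ 2 * (2 * B) * (κm + ℓ ^ 2) * (t ^ 3 + t ^ 2 / m + 1 / m)
          + 2 * Cs * ℓ ^ 2 * (t ^ 3 + t ^ 2 / m + 1 / m)
          + 2 * κm * (t ^ 3 + t ^ 2 / m + 1 / m) := by rw [hC]; ring
    rw [hCexp]
    have f1 : κm ^ 3 * (7 * B + 2 * (B ^ 2 + B)) * t ^ 3
        ≤ κm ^ 3 * (7 * B + 2 * (B ^ 2 + B)) * (t ^ 3 + t ^ 2 / m + 1 / m) :=
      mul_le_mul_of_nonneg_left (by linarith) hc1
    have f2 : κm ^ 2 * (2 * B) * (κm + ℓ ^ 2) * (t ^ 3 + t ^ 2 / m)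
        ≤ κm ^ 2 * (2 * B) * (κm + ℓ ^ 2) * (t ^ 3 + t ^ 2 / m + 1 / m) :=
      mul_le_mul_of_nonneg_left (by linarith) hc2
    have f3 : 2 * Cs * ℓ ^ 2 * (1 / m) ≤ 2 * Cs * ℓ ^ 2 * (t ^ 3 + t ^ 2 / m + 1 / m) :=
      mul_le_mul_of_nonneg_left (by linarith) hc3
    have f4 : 0 ≤ 2 * κm * (t ^ 3 + t ^ 2 / m + 1 / m) := by positivity
    linarith
  · -- bound of `F i 0`
    intro i hi
    have h5 := (hL 1 (q ^ i) (by linarith) (hP0 i) (hP1 i) (-1) (-1) hm1χ hm1χ z z hzr.le hzr.le).2.2.1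
    show ‖phi (q ^ i) (koebe z / ((q ^ 0 : ℝ) : ℂ))‖ ≤ B
    rw [q0e]
    rw [Complex.ofReal_one] at h5
    refine h5.trans ?_
    rw [hB]
    have : 0 ≤ L * A₁ := by positivity
    linarith
  · intro i hi
    refine (hBp (q ^ i) (hP0 i) (hP1 i) z hzr.le).trans ?_
    rw [hB]
    have : 0 ≤ L * A₁ := by positivity
    linarith
  · intro i hi
    have h5 := (hL (q ^ i) (q ^ i) (hPm i hi.le) (hP0 i) le_rfl (-1) (-1) hm1χ hm1χ _ _
      (hpick i hi.le).2 (hpick i hi.le).2).2.1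
    refine h5.trans ?_
    rw [hB]
    have : 0 ≤ L * A₁ := by positivity
    linarith
  · -- closeness of `X`
    intro i hi j hj
    have hjm : j < m := hj.trans hi
    obtain ⟨a1, a2⟩ := hpick j hjm.le
    have hPC : ((q ^ j : ℝ) : ℂ) ≠ 0 := by exact_mod_cast (hP0 j).ne'
    have e1 : koebe (M6.pick (q ^ j) z) / ((q ^ j : ℝ) : ℂ) = koebe z := by
      rw [a1]; field_simp
    have e2 : Phi (q ^ j) (-1) (M6.pick (q ^ j) z) = phi (q ^ j) (koebe z) := by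
      rw [Phi_eq (hP0 j) hm1χ (lt_of_le_of_lt a2 hr1), e1]
      ring
    have h5 := (hL (q ^ j) (q ^ i) (hPm j hjm.le) (hP0 i) (hPle i j hj.le) (χ j) (-1) (hχ j) hm1χ
      _ _ (hw j) a2).2.2.2.1
    rw [e1, e2] at h5
    show ‖dphi (q ^ i) (koebe (HH q χ j z) / ((q ^ j : ℝ) : ℂ)) * Phi (q ^ j) (χ j) (HH q χ j z)
      - dphi (q ^ i) (koebe z) * phi (q ^ j) (koebe (HH q χ 0 z) / ((q ^ 0 : ℝ) : ℂ))‖ ≤ B * η
    rw [q0e, hH0, div_one]
    refine h5.trans ?_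
    rcases wclose j hjm.le with h6 | h6
    · have h7 := mul_le_mul_of_nonneg_left h6 hL0.le
      have h8 : 0 ≤ (L + Bp) * η := by positivity
      have h9 : B * η = L * (A₁ * η) + (L + Bp) * η := by rw [hB]; ring
      rw [h9]
      linarith only [h7, h8]
    · exact absurd h6 hjm.ne
  · -- closeness of `Y`
    intro i hi
    obtain ⟨a1, a2⟩ := hpick i hi.le
    have h5 := (hL (q ^ i) (q ^ i) (hPm i hi.le) (hP0 i) le_rfl (χ i) (-1) (hχ i) hm1χ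
      _ _ (hw i) a2).2.2.2.2
    refine h5.trans ?_
    rcases wclose i hi.le with h6 | h6
    · have h7 := mul_le_mul_of_nonneg_left h6 hL0.le
      have h8 : 0 ≤ (L + Bp) * η := by positivity
      have h9 : B * η = L * (A₁ * η) + (L + Bp) * η := by rw [hB]; ring
      rw [h9]
      linarith only [h7, h8]
    · exact absurd h6 hi.ne
  · -- first expansion
    intro i hi
    have e1 := Phi_eq (hP0 i) (hχ i) (lt_of_le_of_lt (hw i) hr1)
    have h5 := st1 i hi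
    rw [e1, hu i] at h5
    exact h5
  · -- second expansion
    intro i hi j hj
    have hjm : j < m := hj.trans hi
    have h1 := hs2 q hqδ2 hq1 (χ j) (HH q χ j z) (hχ j) (hw j) (q ^ j) (hPm j hjm.le) (hP1 j)
      (q ^ i) (hP0 i) (by
        have : q * q ^ j = q ^ (j + 1) := by ring
        rw [this]
        exact hPle i (j + 1) hj)
    have e3 : ((q ^ (j + 1) : ℝ) : ℂ) = q * ((q ^ j : ℝ) : ℂ) := by push_cast; ring
    have e4 : ((δ j : ℝ) : ℂ) = (1 - q) * ((q ^ j : ℝ) : ℂ) := by push_cast [hδ]; ring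
    show ‖phi (q ^ i) (koebe (HH q χ j z) / ((q ^ j : ℝ) : ℂ))
      - phi (q ^ i) (koebe (HH q χ (j + 1) z) / ((q ^ (j + 1) : ℝ) : ℂ))
      - (1 - Complex.exp ((t * κ j : ℝ) * Complex.I)) * (δ j : ℂ)
        * (dphi (q ^ i) (koebe (HH q χ j z) / ((q ^ j : ℝ) : ℂ))
          * Phi (q ^ j) (χ j) (HH q χ j z))‖ ≤ ε₁
    rw [← hu j, e3, e4]
    refine le_trans (le_of_eq ?_) (h1.trans (mul_le_mul_of_nonneg_right hCs2 (sq_nonneg _)))
    congr 1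
    show _ = phi (q ^ i) (koebe (HH q χ j z) / ((q ^ j : ℝ) : ℂ))
      - phi (q ^ i) (koebe (pk q (χ j) (HH q χ j z)) / (q * ((q ^ j : ℝ) : ℂ)))
      - dphi (q ^ i) (koebe (HH q χ j z) / ((q ^ j : ℝ) : ℂ))
        * ((1 + χ j) * ((1 - q) * ((q ^ j : ℝ) : ℂ)) * Phi (q ^ j) (χ j) (HH q χ j z))
    have e5 : HH q χ (j + 1) z = pk q (χ j) (HH q χ j z) := rfl
    rw [e5]
    ring

end Pool.Agent.Helper64.C3
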