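import Pool.Agent.Helper64.C3.ClosedForm
import Pool.Agent.Helper64.C3.SecondOrder

set_option autoImplicit false

open Metric Set Filter Topology Asymptotics

namespace Pool.Agent.Helper64.C3

/-! Theorem L: bounded Lipschitz families and Riemann sums -/

/-- families bounded and Lipschitz in the level, uniformly in the point -/
def BL (α r : ℝ) (f : ℝ → ℂ → ℂ) : Prop :=
  ∃ C : ℝ, 0 ≤ C ∧ ∀ p ∈ Icc α 1, ∀ z : ℂ, ‖z‖ ≤ r →
    ‖f p z‖ ≤ C ∧ ∀ p' ∈ Icc α 1, ‖f p z - f p' z‖ ≤ C * |p - p'|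

section

variable {α r : ℝ} {f g : ℝ → ℂ → ℂ}

theorem BL.mul (hf : BL α r f) (hg : BL α r g) : BL α r (fun p z => f p z * g p z) := by
  obtain ⟨C, hC0, hC⟩ := hf
  obtain ⟨D, hD0, hD⟩ := hg
  refine ⟨2 * (C * D), by positivity, fun p hp z hz => ?_⟩
  obtain ⟨a1, a2⟩ := hC p hp z hz
  obtain ⟨b1, b2⟩ := hD p hp z hz
  constructor
  · rw [norm_mul]
    have := mul_le_mul a1 b1 (norm_nonneg _) hC0
    have : 0 ≤ C * D := by positivity
    linarith
  · intro p' hp'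
    obtain ⟨c1, _⟩ := hD p' hp' z hz
    have e : f p z * g p z - f p' z * g p' z
        = f p z * (g p z - g p' z) + (f p z - f p' z) * g p' z := by ring
    rw [e]
    refine (norm_add_le _ _).trans ?_
    rw [norm_mul, norm_mul]
    have d1 := mul_le_mul a1 (b2 p' hp') (norm_nonneg _) hC0
    have d2 := mul_le_mul (a2 p' hp') c1 (norm_nonneg _) (by positivity)
    calc ‖f p z‖ * ‖g p z - g p' z‖ + ‖f p z - f p' z‖ * ‖g p' z‖
        ≤ C * (D * |p - p'|) + C * |p - p'| * D := add_le_add d1 d2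
      _ = 2 * (C * D) * |p - p'| := by ring

theorem BL.add (hf : BL α r f) (hg : BL α r g) : BL α r (fun p z => f p z + g p z) := by
  obtain ⟨C, hC0, hC⟩ := hf
  obtain ⟨D, hD0, hD⟩ := hg
  refine ⟨C + D, by positivity, fun p hp z hz => ?_⟩
  obtain ⟨a1, a2⟩ := hC p hp z hz
  obtain ⟨b1, b2⟩ := hD p hp z hz
  constructor
  · exact (norm_add_le _ _).trans (add_le_add a1 b1)
  · intro p' hp'
    have e : f p z + g p z - (f p' z + g p' z) = (f p z - f p' z) + (g p z - g p' z) := by ring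
    rw [e, add_mul]
    exact (norm_add_le _ _).trans (add_le_add (a2 p' hp') (b2 p' hp'))

theorem BL.const {c : ℂ → ℂ} {C : ℝ} (hC : 0 ≤ C) (h : ∀ z : ℂ, ‖z‖ ≤ r → ‖c z‖ ≤ C) :
    BL α r (fun _ z => c z) := by
  refine ⟨C, hC, fun p _ z hz => ⟨h z hz, fun p' _ => ?_⟩⟩
  rw [sub_self, norm_zero]
  positivity

theorem BL_num (c : ℂ) : BL α r (fun _ _ => c) :=
  BL.const (norm_nonneg c) (fun _ _ => le_rfl)

theorem BL_id (hα : 0 < α) : BL α r (fun p _ => (p : ℂ)) := by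
  refine ⟨1, zero_le_one, fun p hp z _ => ⟨?_, fun p' _ => ?_⟩⟩
  · rw [Complex.norm_real, Real.norm_of_nonneg (hα.le.trans hp.1)]
    exact hp.2
  · rw [← Complex.ofReal_sub, Complex.norm_real, Real.norm_eq_abs, one_mul]

theorem BL_sqrt_inv (hα : 0 < α) : BL α r (fun p _ => (((Real.sqrt p)⁻¹ : ℝ) : ℂ)) := by
  have hs : 0 < Real.sqrt α := Real.sqrt_pos.2 hα
  refine ⟨(Real.sqrt α)⁻¹ + ((Real.sqrt α) ^ 3)⁻¹, by positivity, fun p hp z _ => ?_⟩
  have hp0 : 0 < p := lt_of_lt_of_le hα hp.1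
  have hsp : Real.sqrt α ≤ Real.sqrt p := Real.sqrt_le_sqrt hp.1
  have hsp0 : 0 < Real.sqrt p := lt_of_lt_of_le hs hsp
  constructor
  · rw [Complex.norm_real, Real.norm_of_nonneg (by positivity)]
    have h1 := inv_anti₀ hs hsp
    have : 0 < ((Real.sqrt α) ^ 3)⁻¹ := by positivity
    linarith
  · intro p' hp'
    have hp0' : 0 < p' := lt_of_lt_of_le hα hp'.1
    have hsp' : Real.sqrt α ≤ Real.sqrt p' := Real.sqrt_le_sqrt hp'.1
    have hsp0' : 0 < Real.sqrt p' := lt_of_lt_of_le hs hsp'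
    rw [← Complex.ofReal_sub, Complex.norm_real, Real.norm_eq_abs]
    have e : (Real.sqrt p)⁻¹ - (Real.sqrt p')⁻¹
        = -(p - p') * ((Real.sqrt p + Real.sqrt p') * (Real.sqrt p * Real.sqrt p'))⁻¹ := by
      have h1 := Real.sq_sqrt hp0.le
      have h2 := Real.sq_sqrt hp0'.le
      field_simp
      nlinarith
    rw [e, abs_mul, abs_neg, abs_of_pos (by positivity :
      0 < ((Real.sqrt p + Real.sqrt p') * (Real.sqrt p * Real.sqrt p'))⁻¹), mul_comm]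
    apply mul_le_mul_of_nonneg_right _ (abs_nonneg _)
    have h3 : ((Real.sqrt p + Real.sqrt p') * (Real.sqrt p * Real.sqrt p'))⁻¹
        ≤ ((Real.sqrt α) ^ 3)⁻¹ := by
      apply inv_anti₀ (by positivity)
      have h4 : Real.sqrt α * Real.sqrt α ≤ Real.sqrt p * Real.sqrt p' :=
        mul_le_mul hsp hsp' hs.le hsp0.le
      calc (Real.sqrt α) ^ 3 = Real.sqrt α * (Real.sqrt α * Real.sqrt α) := by ring
        _ ≤ (Real.sqrt p + Real.sqrt p') * (Real.sqrt p * Real.sqrt p') :=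
            mul_le_mul (by linarith) h4 (by positivity) (by positivity)
    have : 0 < (Real.sqrt α)⁻¹ := by positivity
    linarith

theorem BL_rt_inv (hr0 : 0 < r) (hr1 : r < 1) (hα : 0 < α) :
    BL α r (fun p z => (rt p (koebe z))⁻¹) := by
  obtain ⟨c₀, hc₀, hroot⟩ := UF.exists_root_lower hr0 hr1
  have h1r : 0 < 1 - r := by linarith
  set K := 1 / (1 - r) ^ 2 with hK
  have hK0 : 0 < K := by positivity
  refine ⟨c₀⁻¹ + 2 * K / c₀ ^ 3, by positivity, fun p hp z hz => ?_⟩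
  have hp0 : 0 < p := lt_of_lt_of_le hα hp.1
  have hx : ‖koebe z‖ ≤ K := UF.norm_koebe hr1 hz
  have hre : c₀ ≤ (rt p (koebe z)).re := hroot p hp0.le hp.2 z hz
  have hn : c₀ ≤ ‖rt p (koebe z)‖ := hre.trans (Complex.re_le_norm _)
  have hne : rt p (koebe z) ≠ 0 := norm_pos_iff.1 (lt_of_lt_of_le hc₀ hn)
  constructor
  · rw [norm_inv]
    have := inv_anti₀ hc₀ hn
    have : 0 < 2 * K / c₀ ^ 3 := by positivity
    linarith
  · intro p' hp'
    have hp0' : 0 < p' := lt_of_lt_of_le hα hp'.1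
    have hre' : c₀ ≤ (rt p' (koebe z)).re := hroot p' hp0'.le hp'.2 z hz
    have hn' : c₀ ≤ ‖rt p' (koebe z)‖ := hre'.trans (Complex.re_le_norm _)
    have hne' : rt p' (koebe z) ≠ 0 := norm_pos_iff.1 (lt_of_lt_of_le hc₀ hn')
    have hsum : 2 * c₀ ≤ ‖rt p (koebe z) + rt p' (koebe z)‖ := by
      have h1 := Complex.re_le_norm (rt p (koebe z) + rt p' (koebe z))
      rw [Complex.add_re] at h1
      linarith
    have hsne : rt p (koebe z) + rt p' (koebe z) ≠ 0 :=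
      norm_pos_iff.1 (lt_of_lt_of_le (by positivity) hsum)
    have e : (rt p (koebe z))⁻¹ - (rt p' (koebe z))⁻¹
        = -(4 * ((p - p' : ℝ) : ℂ) * koebe z)
          / ((rt p (koebe z) + rt p' (koebe z)) * (rt p (koebe z) * rt p' (koebe z))) := by
      have h1 := rt_sq p (koebe z)
      have h2 := rt_sq p' (koebe z)
      push_cast
      field_simp
      linear_combination h2 - h1
    rw [e, norm_div, norm_neg, norm_mul, norm_mul, norm_mul, norm_mul, Complex.norm_real,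
      Real.norm_eq_abs]
    simp only [Complex.norm_ofNat]
    have h3 : c₀ * c₀ ≤ ‖rt p (koebe z)‖ * ‖rt p' (koebe z)‖ := mul_le_mul hn hn' hc₀.le (by positivity)
    have h4 : 2 * c₀ * (c₀ * c₀) ≤ ‖rt p (koebe z) + rt p' (koebe z)‖
        * (‖rt p (koebe z)‖ * ‖rt p' (koebe z)‖) := mul_le_mul hsum h3 (by positivity) (by positivity)
    calc 4 * |p - p'| * ‖koebe z‖ / (‖rt p (koebe z) + rt p' (koebe z)‖
        * (‖rt p (koebe z)‖ * ‖rt p' (koebe z)‖))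
        ≤ 4 * |p - p'| * K / (2 * c₀ * (c₀ * c₀)) := by
          apply div_le_div₀ (by positivity) _ (by positivity) h4
          exact mul_le_mul_of_nonneg_left hx (by positivity)
      _ = 2 * K / c₀ ^ 3 * |p - p'| := by field_simp; ring
      _ ≤ (c₀⁻¹ + 2 * K / c₀ ^ 3) * |p - p'| := by
          apply mul_le_mul_of_nonneg_right _ (abs_nonneg _)
          have : 0 < c₀⁻¹ := by positivity
          linarith

theorem BL_Sf (hr0 : 0 < r) (hr1 : r < 1) (hα : 0 < α) (hα1 : α ≤ 1) :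
    BL α r (fun p z => Sf z p) := by
  obtain ⟨C, hC0, hC⟩ := (BL_sqrt_inv (α := α) (r := r) hα).mul (BL_rt_inv hr0 hr1 hα)
  have lip : ∀ z : ℂ, ‖z‖ ≤ r → ∀ p ∈ Icc α 1, ∀ p' ∈ Icc α 1, ‖Sf z p - Sf z p'‖ ≤ C * |p - p'| := by
    intro z hz p hp p' hp'
    have hz1 : ‖z‖ < 1 := by linarith
    have h := Convex.norm_image_sub_le_of_norm_hasDerivWithin_le
      (f := Sf z) (f' := fun p => -(1 / ((Real.sqrt p : ℝ) * rt p (koebe z))))
      (C := C) (s := Icc α 1) (x := p') (y := p)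
      (fun q hq => (hasDeriv_S (lt_of_lt_of_le hα hq.1) hq.2 hz1).hasDerivWithinAt)
      (fun q hq => by
        have h1 := (hC q hq z hz).1
        rw [norm_neg]
        have e : (1 : ℂ) / ((Real.sqrt q : ℝ) * rt q (koebe z))
            = (((Real.sqrt q)⁻¹ : ℝ) : ℂ) * (rt q (koebe z))⁻¹ := by
          push_cast
          rw [one_div, mul_inv]
        rw [e]
        exact h1)
      (convex_Icc _ _) hp' hp
    rwa [Real.norm_eq_abs] at h
  refine ⟨C, hC0, fun p hp z hz => ⟨?_, fun p' hp' => lip z hz p hp p' hp'⟩⟩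
  have h1 := lip z hz p hp 1 ⟨hα1, le_rfl⟩
  rw [Sf_one, sub_zero] at h1
  refine h1.trans ?_
  have : |p - 1| ≤ 1 := by
    rw [abs_le]
    constructor <;> linarith [hp.1, hp.2]
  calc C * |p - 1| ≤ C * 1 := mul_le_mul_of_nonneg_left this hC0
    _ = C := mul_one C

theorem BL_koebe (hr1 : r < 1) : BL α r (fun _ z => koebe z) :=
  BL.const (C := 1 / (1 - r) ^ 2) (by positivity) (fun _ hz => UF.norm_koebe hr1 hz)

theorem BL_Af (hr0 : 0 < r) (hr1 : r < 1) (hα : 0 < α) (hα1 : α ≤ 1) :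
    BL α r (fun p z => Af z p) := by
  have h := ((BL_num (2 : ℂ)).mul ((BL_koebe (α := α) hr1).mul (BL_koebe hr1))).mul
    (BL_Sf hr0 hr1 hα hα1)
  have e : (fun (p : ℝ) (z : ℂ) => Af z p) = fun p z => 2 * (koebe z * koebe z) * Sf z p := by
    ext p z; unfold Af; ring
  rw [e]; exact h

theorem BL_kphi (hr0 : 0 < r) (hr1 : r < 1) (hα : 0 < α) :
    BL α r (fun p z => -((((Real.sqrt p)⁻¹ : ℝ) : ℂ) * phi p (koebe z))) := by
  have h := ((BL_num (-2 : ℂ)).mul ((BL_koebe (α := α) hr1).mul (BL_koebe hr1))).mul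
    ((BL_sqrt_inv hα).mul (BL_rt_inv hr0 hr1 hα))
  have e : (fun (p : ℝ) (z : ℂ) => -((((Real.sqrt p)⁻¹ : ℝ) : ℂ) * phi p (koebe z)))
      = fun p z => -2 * (koebe z * koebe z) * ((((Real.sqrt p)⁻¹ : ℝ) : ℂ) * (rt p (koebe z))⁻¹) := by
    ext p z; unfold phi; rw [div_eq_mul_inv]; ring
  rw [e]; exact h

theorem BL_kdphi (hr0 : 0 < r) (hr1 : r < 1) (hα : 0 < α) :
    BL α r (fun p z => (((Real.sqrt p)⁻¹ : ℝ) : ℂ) * dphi p (koebe z)) := by
  have hx := BL_koebe (α := α) hr1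
  have hR := BL_rt_inv (α := α) hr0 hr1 hα
  have h := ((BL_sqrt_inv (r := r) hα).mul (((BL_num (4 : ℂ)).mul hx).mul
    ((BL_num (1 : ℂ)).add ((BL_num (3 : ℂ)).mul ((BL_id hα).mul hx))))).mul ((hR.mul hR).mul hR)
  have e : (fun (p : ℝ) (z : ℂ) => (((Real.sqrt p)⁻¹ : ℝ) : ℂ) * dphi p (koebe z))
      = fun p z => (((Real.sqrt p)⁻¹ : ℝ) : ℂ) * (4 * koebe z * (1 + 3 * ((p : ℂ) * koebe z)))
        * ((rt p (koebe z))⁻¹ * (rt p (koebe z))⁻¹ * (rt p (koebe z))⁻¹) := by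
    ext p z; unfold dphi; rw [div_eq_mul_inv, ← inv_pow]; ring
  rw [e]; exact h

theorem BL_dpsi (hr0 : 0 < r) (hr1 : r < 1) (hα : 0 < α) (hα1 : α ≤ 1) :
    BL α r (fun p z => -dpsi z p) := by
  have hx := BL_koebe (α := α) hr1
  have hR := BL_rt_inv (α := α) hr0 hr1 hα
  have hs := BL_sqrt_inv (α := α) (r := r) hα
  have h := (BL_num (-1 : ℂ)).mul (((BL_kdphi hr0 hr1 hα).mul (BL_Af hr0 hr1 hα hα1)).add
    ((hs.mul hs).mul ((hx.mul hx).mul (hR.mul hR))))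
  have e : (fun (p : ℝ) (z : ℂ) => -dpsi z p)
      = fun p z => -1 * ((((Real.sqrt p)⁻¹ : ℝ) : ℂ) * dphi p (koebe z) * Af z p
        + (((Real.sqrt p)⁻¹ : ℝ) : ℂ) * (((Real.sqrt p)⁻¹ : ℝ) : ℂ)
          * (koebe z * koebe z * ((rt p (koebe z))⁻¹ * (rt p (koebe z))⁻¹))) := by
    ext p z; unfold dpsi; rw [div_eq_mul_inv, ← inv_pow]; ring
  rw [e]; exact h

end

/-- Riemann sums along the geometric chain -/
theorem riemann {α C q : ℝ} {G g : ℝ → ℂ} (hC : 0 ≤ C) (hα : 0 < α) (hq0 : 0 < q) (hq1 : q < 1)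
    (hG : ∀ p ∈ Icc α 1, HasDerivAt G (g p) p)
    (hg : ∀ p ∈ Icc α 1, ∀ p' ∈ Icc α 1, ‖g p - g p'‖ ≤ C * |p - p'|) (j : ℕ) (hj : α ≤ q ^ j) :
    ‖G (q ^ j) - G 1 + ∑ i ∈ Finset.range j, (((1 - q) * q ^ i : ℝ) : ℂ) * g (q ^ i)‖
      ≤ C * (1 - q) := by
  have hP0 : ∀ i : ℕ, 0 < q ^ i := fun i => by positivity
  have hP1 : ∀ i : ℕ, q ^ i ≤ 1 := fun i => pow_le_one₀ hq0.le hq1.le
  have hPm : ∀ i ≤ j, q ^ i ∈ Icc α 1 := fun i hi =>
    ⟨hj.trans (pow_le_pow_of_le_one hq0.le hq1.le hi), hP1 i⟩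
  have e0 : G (q ^ j) - G 1 + ∑ i ∈ Finset.range j, (((1 - q) * q ^ i : ℝ) : ℂ) * g (q ^ i)
      = ∑ i ∈ Finset.range j, (G (q ^ (i + 1)) - G (q ^ i)
        + (((1 - q) * q ^ i : ℝ) : ℂ) * g (q ^ i)) := by
    rw [Finset.sum_add_distrib, Finset.sum_range_sub (fun i => G (q ^ i)) j, pow_zero]
  rw [e0]
  refine (norm_sum_le _ _).trans ?_
  have h1 : ∀ i ∈ Finset.range j, ‖G (q ^ (i + 1)) - G (q ^ i)
        + (((1 - q) * q ^ i : ℝ) : ℂ) * g (q ^ i)‖ ≤ (C * (1 - q)) * ((1 - q) * (q ^ i * 1)) := by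
    intro i hi
    have hi' := Finset.mem_range.1 hi
    have hle : q ^ (i + 1) ≤ q ^ i := pow_le_pow_of_le_one hq0.le hq1.le (Nat.le_succ i)
    have hdiff : q ^ i - q ^ (i + 1) = (1 - q) * q ^ i := by ring
    have hsub : ∀ x ∈ Icc (q ^ (i + 1)) (q ^ i), x ∈ Icc α 1 := by
      intro x hx
      exact ⟨(hPm (i + 1) hi').1.trans hx.1, hx.2.trans (hP1 i)⟩
    have hmv := Convex.norm_image_sub_le_of_norm_hasDerivWithin_le
      (f := fun x : ℝ => G x - (x : ℂ) * g (q ^ i)) (f' := fun x => g x - 1 * g (q ^ i))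
      (C := C * ((1 - q) * q ^ i)) (s := Icc (q ^ (i + 1)) (q ^ i)) (x := q ^ i) (y := q ^ (i + 1))
      (fun x hx => by
        have hid : HasDerivAt (fun x : ℝ => (x : ℂ)) 1 x := (hasDerivAt_id x).ofReal_comp
        exact ((hG x (hsub x hx)).sub (hid.mul_const _)).hasDerivWithinAt)
      (fun x hx => by
        rw [one_mul]
        refine (hg x (hsub x hx) (q ^ i) (hPm i hi'.le)).trans ?_
        apply mul_le_mul_of_nonneg_left _ hC
        rw [← hdiff, abs_le]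
        constructor <;> linarith [hx.1, hx.2])
      (convex_Icc _ _) ⟨hle, le_rfl⟩ ⟨le_rfl, hle⟩
    have e1 : G (q ^ (i + 1)) - ((q ^ (i + 1) : ℝ) : ℂ) * g (q ^ i)
        - (G (q ^ i) - ((q ^ i : ℝ) : ℂ) * g (q ^ i))
        = G (q ^ (i + 1)) - G (q ^ i) + (((1 - q) * q ^ i : ℝ) : ℂ) * g (q ^ i) := by
      push_cast; ring
    rw [e1] at hmv
    refine hmv.trans ?_
    have e2 : ‖q ^ (i + 1) - q ^ i‖ = (1 - q) * q ^ i := by
      rw [Real.norm_eq_abs, abs_sub_comm, hdiff, abs_of_nonneg]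
      have := hP0 i
      have : 0 < 1 - q := by linarith
      positivity
    rw [e2]
    have h4 : (1 - q) * q ^ i ≤ 1 - q := by
      have := hP1 i
      have h5 : 0 < 1 - q := by linarith
      nlinarith
    have h6 : 0 ≤ (1 - q) * q ^ i := by
      have := hP0 i
      have h5 : 0 < 1 - q := by linarith
      positivity
    calc C * ((1 - q) * q ^ i) * ((1 - q) * q ^ i) ≤ C * (1 - q) * ((1 - q) * q ^ i) := by
          apply mul_le_mul_of_nonneg_right _ h6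
          exact mul_le_mul_of_nonneg_left h4 hC
      _ = (C * (1 - q)) * ((1 - q) * (q ^ i * 1)) := by ring
  refine (Finset.sum_le_sum h1).trans ?_
  rw [← Finset.mul_sum]
  have h2 := geo_sum hq0 one_pos le_rfl j
  have h3 : 0 ≤ C * (1 - q) := mul_nonneg hC (by linarith)
  have := mul_le_mul_of_nonneg_left h2 h3
  linarith

/-- the quadratic part converges to `psi2` -/
theorem quad_close {r α : ℝ} (hr0 : 0 < r) (hr1 : r < 1) (hα0 : 0 < α) (hα1 : α < 1) :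
    ∃ C : ℝ, 0 ≤ C ∧ ∀ (q : ℝ) (m : ℕ), 0 < q → q < 1 → q ^ m = α → ∀ z : ℂ, ‖z‖ ≤ r →
      ‖quad q m z - psi2 z α‖ ≤ C * (1 - q) := by
  obtain ⟨C₁, hC₁0, hC₁⟩ := BL_kphi (α := α) hr0 hr1 hα0
  obtain ⟨C₂, hC₂0, hC₂⟩ := BL_kdphi (α := α) hr0 hr1 hα0
  obtain ⟨C₃, hC₃0, hC₃⟩ := BL_dpsi (α := α) hr0 hr1 hα0 hα1.le
  refine ⟨C₂ * C₁ + C₃, by positivity, fun q m hq0 hq1 hqm z hz => ?_⟩
  have hz1 : ‖z‖ < 1 := by linarith
  have hP0 : ∀ i : ℕ, 0 < q ^ i := fun i => by positivity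
  have hP1 : ∀ i : ℕ, q ^ i ≤ 1 := fun i => pow_le_one₀ hq0.le hq1.le
  have hPm : ∀ i ≤ m, q ^ i ∈ Icc α 1 := fun i hi =>
    ⟨by rw [← hqm]; exact pow_le_pow_of_le_one hq0.le hq1.le hi, hP1 i⟩
  set δ : ℕ → ℝ := fun i => (1 - q) * q ^ i with hδ
  have hδ0 : ∀ i, 0 ≤ δ i := fun i => by
    have := hP0 i
    have : 0 < 1 - q := by linarith
    positivity
  set κ : ℕ → ℂ := fun i => (((Real.sqrt (q ^ i))⁻¹ : ℝ) : ℂ) with hκ
  set a : ℕ → ℂ := fun i => ∑ j ∈ Finset.range i, κ j * (δ j : ℂ) * phi (q ^ j) (koebe z) with ha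
  have h1q : 0 ≤ 1 - q := by linarith
  -- inner sums
  have hin : ∀ i ≤ m, ‖Af z (q ^ i) - a i‖ ≤ C₁ * (1 - q) := by
    intro i hi
    have h1 := riemann (G := Af z) (g := fun p => -((((Real.sqrt p)⁻¹ : ℝ) : ℂ) * phi p (koebe z)))
      hC₁0 hα0 hq0 hq1 (fun p hp => hasDeriv_A (lt_of_lt_of_le hα0 hp.1) hp.2 hz1)
      (fun p hp p' hp' => (hC₁ p hp z hz).2 p' hp') i (hPm i hi).1
    have e1 : Af z (q ^ i) - a i = Af z (q ^ i) - Af z 1 + ∑ j ∈ Finset.range i,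
        (((1 - q) * q ^ j : ℝ) : ℂ) * -((((Real.sqrt (q ^ j))⁻¹ : ℝ) : ℂ) * phi (q ^ j) (koebe z)) := by
      have : Af z 1 = 0 := by simp [Af, Sf_one]
      rw [this, sub_zero, sub_eq_add_neg, ha, ← Finset.sum_neg_distrib]
      congr 1
      apply Finset.sum_congr rfl
      intro j _
      rw [hκ, hδ]
      ring
    rw [e1]
    exact h1
  -- the outer sum
  have hout := riemann (G := psi2 z) (g := fun p => -dpsi z p)
      hC₃0 hα0 hq0 hq1 (fun p hp => hasDeriv_psi2 (lt_of_lt_of_le hα0 hp.1) hp.2 hz1)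
      (fun p hp p' hp' => (hC₃ p hp z hz).2 p' hp') m (hPm m le_rfl).1
  rw [psi2_one, sub_zero, hqm] at hout
  -- compare
  have e2 : quad q m z - psi2 z α
      = -(psi2 z α + ∑ i ∈ Finset.range m, (((1 - q) * q ^ i : ℝ) : ℂ) * -dpsi z (q ^ i))
        + ∑ i ∈ Finset.range m, (δ i : ℂ) * ((κ i * dphi (q ^ i) (koebe z)) * (a i - Af z (q ^ i))) := by
    unfold quad
    have e3 : ∀ i ∈ Finset.range m, (((1 - q) * q ^ i : ℝ) : ℂ) *
        ((((Real.sqrt (q ^ i))⁻¹ : ℝ) : ℂ) ^ 2 *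
            (phi (q ^ i) (koebe z) / 2 - Psi (q ^ i) (-1) (M6.pick (q ^ i) z))
          + (((Real.sqrt (q ^ i))⁻¹ : ℝ) : ℂ) * dphi (q ^ i) (koebe z) *
            ∑ j ∈ Finset.range i, (((Real.sqrt (q ^ j))⁻¹ : ℝ) : ℂ) * (((1 - q) * q ^ j : ℝ) : ℂ)
              * phi (q ^ j) (koebe z))
        = -((((1 - q) * q ^ i : ℝ) : ℂ) * -dpsi z (q ^ i))
          + (δ i : ℂ) * ((κ i * dphi (q ^ i) (koebe z)) * (a i - Af z (q ^ i))) := by
      intro i hi
      rw [diag_identity (hP0 i) (hP1 i) hz1]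
      unfold dpsi
      simp only [hκ, hδ, ha]
      ring
    rw [Finset.sum_congr rfl e3, Finset.sum_add_distrib, Finset.sum_neg_distrib]
    ring
  rw [e2]
  refine (norm_add_le _ _).trans ?_
  rw [norm_neg]
  have h5 : ‖∑ i ∈ Finset.range m, (δ i : ℂ) * ((κ i * dphi (q ^ i) (koebe z))
      * (a i - Af z (q ^ i)))‖ ≤ C₂ * C₁ * (1 - q) := by
    refine (norm_sum_le _ _).trans ?_
    have h6 : ∀ i ∈ Finset.range m, ‖(δ i : ℂ) * ((κ i * dphi (q ^ i) (koebe z))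
        * (a i - Af z (q ^ i)))‖ ≤ (C₂ * C₁ * (1 - q)) * ((1 - q) * (q ^ i * 1)) := by
      intro i hi
      have hi' := Finset.mem_range.1 hi
      rw [norm_mul, norm_mul (κ i * dphi (q ^ i) (koebe z)), Complex.norm_real,
        Real.norm_of_nonneg (hδ0 i)]
      have h7 := (hC₂ (q ^ i) (hPm i hi'.le) z hz).1
      have h8 := hin i hi'.le
      rw [norm_sub_rev] at h8
      have h9 := mul_le_mul h7 h8 (norm_nonneg _) hC₂0
      have h10 := mul_le_mul_of_nonneg_left h9 (hδ0 i)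
      refine h10.trans (le_of_eq ?_)
      rw [hδ]
      ring
    refine (Finset.sum_le_sum h6).trans ?_
    rw [← Finset.mul_sum]
    have h2 := geo_sum hq0 one_pos le_rfl m
    have h3 : 0 ≤ C₂ * C₁ * (1 - q) := by positivity
    have := mul_le_mul_of_nonneg_left h2 h3
    linarith
  calc ‖psi2 z α + ∑ i ∈ Finset.range m, (((1 - q) * q ^ i : ℝ) : ℂ) * -dpsi z (q ^ i)‖
      + ‖∑ i ∈ Finset.range m, (δ i : ℂ) * ((κ i * dphi (q ^ i) (koebe z))
      * (a i - Af z (q ^ i)))‖ ≤ C₃ * (1 - q) + C₂ * C₁ * (1 - q) := add_le_add hout h5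
    _ = (C₂ * C₁ + C₃) * (1 - q) := by ring

end Pool.Agent.Helper64.C3
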