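import Pool.Agent.Helper64.C3.Kernel

set_option autoImplicit false

open Metric Set Filter Topology Asymptotics

namespace Pool.Agent.Helper64.C3

/-! the square root `rt v (koebe w / p)` for `v ≤ p` -/

theorem one_add_inner {v p : ℝ} (hp : 0 < p) {w : ℂ} (hw : ‖w‖ < 1) :
    1 + 4 * v * (koebe w / p) = M6.inner (v / p) w := by
  have h := M6.koebe_eq (z := w) (by simpa using hw)
  have hpC : (p : ℂ) ≠ 0 := by exact_mod_cast hp.ne'
  rw [M6.inner]
  push_cast
  have h2 : (M6.hp w) ^ 2 = 4 * koebe w + 1 := by linear_combination -h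
  rw [h2]
  field_simp
  ring

theorem slit_mem {v p : ℝ} (hv : 0 < v) (hvp : v ≤ p) {w : ℂ} (hw : ‖w‖ < 1) :
    1 + 4 * v * (koebe w / p) ∈ Complex.slitPlane := by
  have hp : 0 < p := lt_of_lt_of_le hv hvp
  have hz : w ∈ ball (0 : ℂ) 1 := by simpa using hw
  rw [one_add_inner hp hw]
  have hq0 : 0 < v / p := by positivity
  have hq1 : v / p ≤ 1 := by rw [div_le_one hp]; exact hvp
  have h := M6.hp_re hz
  rw [Complex.mem_slitPlane_iff]
  by_cases him : (M6.hp w).im = 0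
  · left
    have : ((M6.hp w) ^ 2).re = (M6.hp w).re ^ 2 := by
      rw [sq, Complex.mul_re, him]; ring
    unfold M6.inner
    simp only [Complex.add_re, Complex.sub_re, Complex.one_re, Complex.ofReal_re,
      Complex.re_ofReal_mul, this]
    have := mul_pos hq0 (pow_pos h 2)
    linarith
  · right
    unfold M6.inner
    have : ((M6.hp w) ^ 2).im = 2 * (M6.hp w).re * (M6.hp w).im := by
      rw [sq, Complex.mul_im]; ring
    simp only [Complex.add_im, Complex.sub_im, Complex.one_im, Complex.ofReal_im,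
      Complex.im_ofReal_mul, this]
    simp only [sub_self, zero_add]
    exact mul_ne_zero hq0.ne' (mul_ne_zero (mul_ne_zero two_ne_zero h.ne') him)

theorem sqrt_re_pos {a : ℂ} (h : a ∈ Complex.slitPlane) : 0 < (a ^ ((2 : ℂ)⁻¹)).re := by
  have hne : a ≠ 0 := Complex.slitPlane_ne_zero h
  have harg : Complex.arg a ≠ Real.pi := Complex.slitPlane_arg_ne_pi h
  rw [Complex.cpow_def_of_ne_zero hne, Complex.exp_re]
  apply mul_pos (Real.exp_pos _)
  apply Real.cos_pos_of_mem_Ioo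
  have him : (Complex.log a * (2 : ℂ)⁻¹).im = Complex.arg a / 2 := by
    have : (Complex.log a * (2 : ℂ)⁻¹) = Complex.log a / (2 : ℝ) := by
      push_cast; ring
    rw [this, Complex.div_ofReal_im, Complex.log_im]
  rw [him]
  have h1 := Complex.neg_pi_lt_arg a
  have h2 := lt_of_le_of_ne (Complex.arg_le_pi a) harg
  constructor <;> linarith

theorem rt_re_pos {v p : ℝ} (hv : 0 < v) (hvp : v ≤ p) {w : ℂ} (hw : ‖w‖ < 1) :
    0 < (rt v (koebe w / p)).re := by
  unfold rt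
  exact sqrt_re_pos (slit_mem hv hvp hw)

theorem rt_ne {v p : ℝ} (hv : 0 < v) (hvp : v ≤ p) {w : ℂ} (hw : ‖w‖ < 1) :
    rt v (koebe w / p) ≠ 0 := by
  intro h
  have := rt_re_pos hv hvp hw
  rw [h] at this
  simp at this

theorem rt_sq (v : ℝ) (g : ℂ) : (rt v g) ^ 2 = 1 + 4 * v * g := by
  unfold rt
  exact Complex.cpow_nat_inv_pow _ two_ne_zero

/-- at the top level the root is `(1+w)/(1-w)` -/
theorem rt_top {p : ℝ} (hp : 0 < p) {w : ℂ} (hw : ‖w‖ < 1) :
    rt p (koebe w / p) = (1 + w) / (1 - w) := by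
  have hz : w ∈ ball (0 : ℂ) 1 := by simpa using hw
  have h1 := rt_sq p (koebe w / p)
  rw [one_add_inner hp hw, div_self hp.ne', M6.inner] at h1
  have h2 : (rt p (koebe w / p)) ^ 2 = (M6.hp w) ^ 2 := by
    rw [h1]; push_cast; ring
  have h3 : (rt p (koebe w / p) - M6.hp w) * (rt p (koebe w / p) + M6.hp w) = 0 := by
    linear_combination h2
  rcases mul_eq_zero.1 h3 with h4 | h4
  · rw [sub_eq_zero.1 h4]; rfl
  · exfalso
    have h5 := congrArg Complex.re h4
    have h6 := rt_re_pos hp le_rfl hw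
    have h7 := M6.hp_re hz
    simp only [Complex.add_re, Complex.zero_re] at h5
    linarith

theorem Phi_eq {p : ℝ} (hp : 0 < p) {χ w : ℂ} (hχ : ‖χ‖ = 1) (hw : ‖w‖ < 1) :
    Phi p χ w = phi p (koebe w / p) + (1 + χ) * Psi p χ w := by
  have h1 : (1 : ℂ) - w ≠ 0 := M6.one_sub_ne (by simpa using hw)
  have h2 : (1 : ℂ) + w ≠ 0 := by
    have := M6.one_sub_ne (z := -w) (by simpa using hw)
    simpa using this
  have h3 : (1 : ℂ) - χ * w ≠ 0 := by
    apply M6.one_sub_ne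
    rw [mem_ball_zero_iff, norm_mul, hχ, one_mul]
    exact hw
  have hpC : (p : ℂ) ≠ 0 := by exact_mod_cast hp.ne'
  rw [phi, rt_top hp hw, Phi, Psi, koebe]
  have e1 : 2 * (w / (1 - w) ^ 2 / (p : ℂ)) ^ 2 / ((1 + w) / (1 - w))
      = 2 * w ^ 2 * (1 - χ * w) / (p ^ 2 * (1 - w) ^ 3 * (1 + w) * (1 - χ * w)) := by
    rw [eq_div_iff (mul_ne_zero (mul_ne_zero (mul_ne_zero (pow_ne_zero _ hpC)
      (pow_ne_zero _ h1)) h2) h3)]
    field_simp
  have e2 : 2 * w ^ 2 / ((p : ℂ) ^ 2 * (1 - w) ^ 3 * (1 - χ * w))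
      = 2 * w ^ 2 * (1 + w) / (p ^ 2 * (1 - w) ^ 3 * (1 + w) * (1 - χ * w)) := by
    rw [div_eq_div_iff (mul_ne_zero (mul_ne_zero (pow_ne_zero _ hpC) (pow_ne_zero _ h1)) h3)
      (mul_ne_zero (mul_ne_zero (mul_ne_zero (pow_ne_zero _ hpC) (pow_ne_zero _ h1)) h2) h3)]
    ring
  rw [e1, e2, mul_div_assoc', ← add_div]
  congr 1
  ring

theorem phi_diff {v p : ℝ} (hv : 0 < v) (hvp : v ≤ p) :
    DifferentiableOn ℂ (fun w => phi v (koebe w / p)) (ball 0 1) := by
  have hp : 0 < p := lt_of_lt_of_le hv hvp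
  intro w hw
  apply DifferentiableAt.differentiableWithinAt
  have hw1 : ‖w‖ < 1 := by simpa using hw
  have h1 : DifferentiableAt ℂ koebe w :=
    M6.koebe_diff.differentiableAt (isOpen_ball.mem_nhds hw)
  have h2 : DifferentiableAt ℂ (fun w => rt v (koebe w / p)) w := by
    have h3 : DifferentiableAt ℂ (fun w => 1 + 4 * v * (koebe w / p)) w :=
      ((h1.div_const _).const_mul _).const_add _
    unfold rt
    exact h3.cpow (differentiableAt_const _) (slit_mem hv hvp hw1)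
  unfold phi
  exact (((h1.div_const _).pow 2).const_mul _).div h2 (rt_ne hv hvp hw1)

theorem dphi_diff {v p : ℝ} (hv : 0 < v) (hvp : v ≤ p) :
    DifferentiableOn ℂ (fun w => dphi v (koebe w / p)) (ball 0 1) := by
  have hp : 0 < p := lt_of_lt_of_le hv hvp
  intro w hw
  apply DifferentiableAt.differentiableWithinAt
  have hw1 : ‖w‖ < 1 := by simpa using hw
  have h1 : DifferentiableAt ℂ koebe w :=
    M6.koebe_diff.differentiableAt (isOpen_ball.mem_nhds hw)
  have h2 : DifferentiableAt ℂ (fun w => rt v (koebe w / p)) w := by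
    have h3 : DifferentiableAt ℂ (fun w => 1 + 4 * v * (koebe w / p)) w :=
      ((h1.div_const _).const_mul _).const_add _
    unfold rt
    exact h3.cpow (differentiableAt_const _) (slit_mem hv hvp hw1)
  unfold dphi
  exact (((h1.div_const _).const_mul _).mul (((h1.div_const _).const_mul _).const_add _)).div
    (h2.pow 3) (pow_ne_zero _ (rt_ne hv hvp hw1))

theorem Phi_diff {p : ℝ} (hp : 0 < p) {χ : ℂ} (hχ : ‖χ‖ = 1) :
    DifferentiableOn ℂ (Phi p χ) (ball 0 1) := by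
  intro w hw
  apply DifferentiableAt.differentiableWithinAt
  have hw1 : ‖w‖ < 1 := by simpa using hw
  have h1 : (1 : ℂ) - w ≠ 0 := M6.one_sub_ne hw
  have h3 : (1 : ℂ) - χ * w ≠ 0 := by
    apply M6.one_sub_ne
    rw [mem_ball_zero_iff, norm_mul, hχ, one_mul]
    exact hw1
  have hpC : (p : ℂ) ≠ 0 := by exact_mod_cast hp.ne'
  unfold Phi
  apply DifferentiableAt.div (by fun_prop) (by fun_prop)
  exact mul_ne_zero (mul_ne_zero (pow_ne_zero _ hpC) (pow_ne_zero _ h1)) h3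

theorem Psi_diff {p : ℝ} (hp : 0 < p) {χ : ℂ} (hχ : ‖χ‖ = 1) :
    DifferentiableOn ℂ (Psi p χ) (ball 0 1) := by
  intro w hw
  apply DifferentiableAt.differentiableWithinAt
  have hw1 : ‖w‖ < 1 := by simpa using hw
  have h1 : (1 : ℂ) - w ≠ 0 := M6.one_sub_ne hw
  have h2 : (1 : ℂ) + w ≠ 0 := by
    have := M6.one_sub_ne (z := -w) (by simpa using hw)
    simpa using this
  have h3 : (1 : ℂ) - χ * w ≠ 0 := by
    apply M6.one_sub_ne
    rw [mem_ball_zero_iff, norm_mul, hχ, one_mul]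
    exact hw1
  have hpC : (p : ℂ) ≠ 0 := by exact_mod_cast hp.ne'
  unfold Psi
  apply DifferentiableAt.div (by fun_prop) (by fun_prop)
  exact mul_ne_zero (mul_ne_zero (mul_ne_zero (pow_ne_zero _ hpC) (pow_ne_zero _ h1)) h2) h3

theorem rt_conj {v p : ℝ} (hv : 0 < v) (hvp : v ≤ p) {w : ℂ} (hw : ‖w‖ < 1) :
    rt v ((starRingEnd ℂ) (koebe w / p)) = (starRingEnd ℂ) (rt v (koebe w / p)) := by
  unfold rt
  have h := Complex.slitPlane_arg_ne_pi (slit_mem hv hvp hw)
  have e1 : (1 : ℂ) + 4 * v * (starRingEnd ℂ) (koebe w / p)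
      = (starRingEnd ℂ) (1 + 4 * v * (koebe w / p)) := by
    simp only [map_add, map_mul, map_one, Complex.conj_ofReal, map_ofNat]
  have e2 : ((2 : ℂ)⁻¹) = (starRingEnd ℂ) ((2 : ℂ)⁻¹) := by rw [map_inv₀, map_ofNat]
  rw [e1, Complex.conj_cpow _ _ h]
  congr 2
  exact e2.symm

theorem koebe_conj (w : ℂ) : koebe ((starRingEnd ℂ) w) = (starRingEnd ℂ) (koebe w) := by
  unfold koebe
  simp only [map_div₀, map_pow, map_sub, map_one]

theorem phi_conj {v p : ℝ} (hv : 0 < v) (hvp : v ≤ p) {w : ℂ} (hw : ‖w‖ < 1) :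
    phi v (koebe ((starRingEnd ℂ) w) / p) = (starRingEnd ℂ) (phi v (koebe w / p)) := by
  have e : koebe ((starRingEnd ℂ) w) / p = (starRingEnd ℂ) (koebe w / p) := by
    rw [koebe_conj, map_div₀, Complex.conj_ofReal]
  rw [e]
  unfold phi
  rw [rt_conj hv hvp hw]
  simp only [map_div₀, map_mul, map_pow, map_ofNat]

end Pool.Agent.Helper64.C3
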