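import Pool.Agent.Helper64.C3.Defs

set_option autoImplicit false

open Metric Set Filter Topology Asymptotics

namespace Pool.Agent.Helper64.C3

/-! M1 (jets) -/

theorem jet_comp {F G : ℂ → ℂ} {a b c a' b' c' : ℂ} (hF : Jet F a b c) (hG : Jet G a' b' c') :
    Jet (F ∘ G) (a * a') (a * b' + b * a' ^ 2) (a * c' + 2 * b * a' * b' + c * a' ^ 3) := sorry

theorem jet_unique {F : ℂ → ℂ} {a b c a' b' c' : ℂ} (h : Jet F a b c) (h' : Jet F a' b' c') :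
    a = a' ∧ b = b' ∧ c = c' := sorry

theorem jet_of_diff {f : ℂ → ℂ} (hf : DifferentiableOn ℂ f (ball 0 1)) (h0 : f 0 = 0) :
    Jet f (deriv f 0) (coeff 2 f) (coeff 3 f) := sorry

/-! M2 (Schur parameters) -/

theorem schur {k : ℂ → ℂ} (hk : SelfMap k) {q : ℝ} (hq0 : 0 < q) (hq1 : q ≤ 1) {α β : ℂ}
    (hj : Jet k q (q * α) (q * β)) :
    ∃ x y : ℂ, ‖x‖ ≤ 1 ∧ ‖y - x ^ 2‖ ≤ 1 - ‖x‖ ^ 2 ∧
      α = (1 - (q : ℂ) ^ 2) / q * x ∧ β = (1 - (q : ℂ) ^ 2) / q * (-y + (1 - q) * x ^ 2) := sorry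

/-! M3 (Koebe step) -/

theorem koebe_step {h : ℂ → ℂ} (hh : SelfMap h) (hi : InjOn h (ball 0 1)) {r : ℝ} (hr0 : 0 < r)
    (hr1 : r < 1) (hp : deriv h 0 ≠ 0) (hpr : ‖deriv h 0‖ < r) :
    ∃ k h₁ : ℂ → ℂ, SelfMap k ∧ deriv k 0 = ((2 * Real.sqrt r / (1 + r) : ℝ) : ℂ) ∧
      SelfMap h₁ ∧ InjOn h₁ (ball 0 1) ∧ EqOn h (k ∘ h₁) (ball 0 1) := sorry

/-! M4 (the numerical inequality) -/

theorem ch_bound {ε : ℝ} (hε : 0 < ε) (hε1 : ε ≤ 1 / 10) {p : ℝ} {a C : ℂ} (h : Ch ε p a C) :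
    |(3 - (C + a ^ 2)).re| ≤ lam * (2 - a).re + 60 * ε := sorry

/-! M6 (functions for the lower bound) -/

theorem lower_functions (n : ℕ) (hn : 0 < n) (θ : ℕ → ℝ) :
    ∃ f : ℂ → ℂ, ClassS f ∧
      coeff 2 f = (2 / n : ℂ) * ∑ j ∈ Finset.range n, Complex.exp (θ j * Complex.I) ∧
      coeff 3 f - (coeff 2 f) ^ 2 =
        - ∑ j ∈ Finset.range n, ((2 * j + 1 : ℂ) / n ^ 2) * Complex.exp (2 * θ j * Complex.I) := sorry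

/-! M7 (the limit) -/

theorem lower_bound {c : ℝ} (h : ∀ f : ℂ → ℂ, ClassS f →
    |((3 : ℂ) - coeff 3 f).re| ≤ c * (2 - coeff 2 f).re) : lam ≤ c := sorry

end Pool.Agent.Helper64.C3
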